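import Mathlib

set_option autoImplicit false

namespace Pool.Agent.SSG

open Filter Topology

/-- terms of the Cantor expansion -/
noncomputable def cterm (d : ℕ) (b : ℕ → Bool) (n : ℕ) : ℝ :=
  (if b n then ((d : ℝ) - 1) else 0) / (d : ℝ) ^ (n + 1)

/-- The Cantor set of all sums `∑ cₙ d^{-(n+1)}` with `cₙ ∈ {0, d-1}`. -/
def cantor (d : ℕ) : Set ℝ := {c | ∃ b : ℕ → Bool, c = ∑' n, cterm d b n}

variable {d : ℕ}

theorem cterm_nonneg (hd : 2 ≤ d) (b : ℕ → Bool) (n : ℕ) : 0 ≤ cterm d b n := by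
  unfold cterm
  have : (1 : ℝ) ≤ d := by exact_mod_cast (by omega : 1 ≤ d)
  split
  · apply div_nonneg
    · linarith
    · positivity
  · simp

theorem cterm_le (hd : 2 ≤ d) (b : ℕ → Bool) (n : ℕ) :
    cterm d b n ≤ ((d : ℝ) - 1) / (d : ℝ) ^ (n + 1) := by
  unfold cterm
  have : (1 : ℝ) ≤ d := by exact_mod_cast (by omega : 1 ≤ d)
  split
  · exact le_rfl
  · rw [zero_div]; apply div_nonneg; linarith; positivity

theorem hasSum_bound (hd : 2 ≤ d) :
    HasSum (fun n : ℕ => ((d : ℝ) - 1) / (d : ℝ) ^ (n + 1)) 1 := by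
  have h2 : (2 : ℝ) ≤ d := by exact_mod_cast hd
  have h1 : HasSum (fun n : ℕ => ((d : ℝ)⁻¹) ^ n) (1 - (d : ℝ)⁻¹)⁻¹ := by
    apply hasSum_geometric_of_lt_one
    · positivity
    · apply inv_lt_one_of_one_lt₀; linarith
  have h3 := h1.mul_left (((d : ℝ) - 1) / d)
  have e1 : (fun n : ℕ => ((d : ℝ) - 1) / (d : ℝ) ^ (n + 1)) =
      fun n : ℕ => ((d : ℝ) - 1) / d * (d : ℝ)⁻¹ ^ n := by
    funext n
    rw [pow_succ, inv_pow]
    field_simp
  have e2 : ((d : ℝ) - 1) / d * (1 - (d : ℝ)⁻¹)⁻¹ = 1 := by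
    have : (d : ℝ) - 1 ≠ 0 := by linarith
    have h4 : (1 : ℝ) - (d : ℝ)⁻¹ = (d - 1) / d := by field_simp
    rw [h4]
    field_simp
  rw [e2] at h3
  rw [e1]
  exact h3

theorem summable_cterm (hd : 2 ≤ d) (b : ℕ → Bool) : Summable (cterm d b) :=
  Summable.of_nonneg_of_le (cterm_nonneg hd b) (cterm_le hd b) (hasSum_bound hd).summable

theorem cantor_zero (d : ℕ) : (0 : ℝ) ∈ cantor d := ⟨fun _ => false, by simp [cterm]⟩

theorem cantor_one (hd : 2 ≤ d) : (1 : ℝ) ∈ cantor d := ⟨fun _ => true, by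
  rw [← (hasSum_bound hd).tsum_eq]
  simp [cterm]⟩

theorem cantor_cons (hd : 2 ≤ d) (b : ℕ → Bool) (b0 : Bool) :
    ∑' n, cterm d (fun n => Nat.casesOn n b0 b) n =
      (if b0 then ((d : ℝ) - 1) else 0) / d + (∑' n, cterm d b n) / d := by
  rw [(summable_cterm hd _).tsum_eq_zero_add]
  congr 1
  · simp [cterm]
  · rw [← tsum_div_const]
    congr 1
    funext n
    unfold cterm
    simp only
    rw [pow_succ (d : ℝ) (n + 1), div_div]

theorem cantor_div (hd : 2 ≤ d) {c : ℝ} (hc : c ∈ cantor d) : c / d ∈ cantor d := by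
  obtain ⟨b, rfl⟩ := hc
  exact ⟨_, by rw [cantor_cons hd b false]; simp⟩

theorem cantor_add (hd : 2 ≤ d) {c : ℝ} (hc : c ∈ cantor d) :
    ((d : ℝ) - 1) / d + c / d ∈ cantor d := by
  obtain ⟨b, rfl⟩ := hc
  exact ⟨_, by rw [cantor_cons hd b true]; simp⟩

theorem cantor_symm (hd : 2 ≤ d) {c : ℝ} (hc : c ∈ cantor d) : 1 - c ∈ cantor d := by
  obtain ⟨b, rfl⟩ := hc
  refine ⟨fun n => !(b n), ?_⟩
  rw [← (hasSum_bound hd).tsum_eq, ← (hasSum_bound hd).summable.tsum_sub (summable_cterm hd b)]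
  congr 1
  funext n
  unfold cterm
  cases h : b n <;> simp [h]

theorem cantor_closed (hd : 2 ≤ d) : IsClosed (cantor d) := by
  have hcont : Continuous (fun b : ℕ → Bool => ∑' n, cterm d b n) := by
    apply continuous_tsum (u := fun n : ℕ => ((d : ℝ) - 1) / (d : ℝ) ^ (n + 1))
    · intro n
      have : (fun b : ℕ → Bool => cterm d b n) =
          (fun x : Bool => (if x then ((d : ℝ) - 1) else 0) / (d : ℝ) ^ (n + 1)) ∘
            (fun b : ℕ → Bool => b n) := rfl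
      rw [this]
      exact continuous_of_discreteTopology.comp (continuous_apply n)
    · exact (hasSum_bound hd).summable
    · intro n b
      rw [Real.norm_of_nonneg (cterm_nonneg hd b n)]
      exact cterm_le hd b n
  have : cantor d = Set.range (fun b : ℕ → Bool => ∑' n, cterm d b n) := by
    ext c
    simp only [cantor, Set.mem_ofPred_eq, Set.mem_range]
    constructor
    · rintro ⟨b, hb⟩; exact ⟨b, hb.symm⟩
    · rintro ⟨b, hb⟩; exact ⟨b, hb.symm⟩
  rw [this]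
  exact (isCompact_range hcont).isClosed

end Pool.Agent.SSG
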