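import Mathlib

/-!
Rooted regular trees, self-similar and contracting groups, Hausdorff dimension of closures.
-/

set_option autoImplicit false

namespace Pool.Agent.SSG

/-- The group `W` of automorphisms of the rooted tree whose vertices are the words over
`Fin d` (the children of `u` are the words `u ++ [x]`): permutations of the set of words
that preserve the relation `w is a child of u`. -/
def treeAut (d : ℕ) : Subgroup (Equiv.Perm (List (Fin d))) where
  carrier := {g | ∀ u w : List (Fin d), (∃ x, w = u ++ [x]) ↔ (∃ x, g w = g u ++ [x])}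
  mul_mem' := by
    intro a b ha hb u w
    exact (hb u w).trans (ha (b u) (b w))
  one_mem' := fun _ _ => Iff.rfl
  inv_mem' := by
    intro a ha u w
    have := ha (a⁻¹ u) (a⁻¹ w)
    simpa using this.symm

/-- The group `G` acts on the words over `Fin d` by automorphisms of the tree and is
self-similar: for all `g ∈ G` and letters `x` there are a letter `y` and `h ∈ G` with
`g (x w) = y h(w)` for all words `w`. -/
def IsSelfSimilar {d : ℕ} (G : Subgroup (Equiv.Perm (List (Fin d)))) : Prop :=
  G ≤ treeAut d ∧
    ∀ g ∈ G, ∀ x : Fin d, ∃ y : Fin d, ∃ h ∈ G, ∀ w : List (Fin d), g (x :: w) = y :: h w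

/-- A self-similar group is contracting if there is a finite set `N ⊆ G` such that for every
`g ∈ G` the sections of `g` at all sufficiently long words lie in `N`. -/
def IsContracting {d : ℕ} (G : Subgroup (Equiv.Perm (List (Fin d)))) : Prop :=
  IsSelfSimilar G ∧
    ∃ N : Set (Equiv.Perm (List (Fin d))), N.Finite ∧ N ⊆ G ∧
      ∀ g ∈ G, ∃ k : ℕ, ∀ v : List (Fin d), k ≤ v.length →
        ∃ h ∈ N, ∀ w : List (Fin d), g (v ++ w) = g v ++ h w

/-- `piCard S n` is the number of restrictions of members of `S` to the words of length
at most `n`. -/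
noncomputable def piCard {d : ℕ} (S : Set (Equiv.Perm (List (Fin d)))) (n : ℕ) : ℕ :=
  ((fun (g : Equiv.Perm (List (Fin d))) (w : {w : List (Fin d) // w.length ≤ n}) =>
    g w.1) '' S).ncard

/-- Hausdorff dimension (for a closed subset of `W`): the lower limit of
`log |π_n(S)| / log |π_n(W)|`. -/
noncomputable def hdim {d : ℕ} (S : Set (Equiv.Perm (List (Fin d)))) : ℝ :=
  Filter.liminf (fun n : ℕ =>
    Real.log (piCard S n) / Real.log (piCard (treeAut d : Set (Equiv.Perm (List (Fin d)))) n))
    Filter.atTop

/-- The closure in `W`: those automorphisms that agree with a member of `S` on the words of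
length at most `n`, for every `n`. -/
def treeClosure {d : ℕ} (S : Set (Equiv.Perm (List (Fin d)))) :
    Set (Equiv.Perm (List (Fin d))) :=
  {w | w ∈ treeAut d ∧ ∀ n : ℕ, ∃ g ∈ S, ∀ v : List (Fin d), v.length ≤ n → g v = w v}

end Pool.Agent.SSG
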