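import Mathlib
import Pool.Agent.SSG.Defs

set_option autoImplicit false

namespace Pool.Agent.SSG

open Equiv

variable {d : ℕ}

theorem treeAut_nil {g : Perm (List (Fin d))} (hg : g ∈ treeAut d) : g [] = [] := by
  by_contra h
  obtain ⟨u, x, hux⟩ : ∃ u x, g [] = u ++ [x] :=
    ⟨(g []).dropLast, (g []).getLast h, (List.dropLast_append_getLast h).symm⟩
  have := (hg (g⁻¹ u) []).2 ⟨x, by simpa using hux⟩
  obtain ⟨y, hy⟩ := this
  simp at hy

theorem exists_label {g : Perm (List (Fin d))} (hg : g ∈ treeAut d) (v : List (Fin d)) :
    ∃ σ : Perm (Fin d), ∀ x, g (v ++ [x]) = g v ++ [σ x] := by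
  have h : ∀ x, ∃ y, g (v ++ [x]) = g v ++ [y] := fun x => (hg v (v ++ [x])).1 ⟨x, rfl⟩
  choose f hf using h
  have hinj : Function.Injective f := by
    intro x y hxy
    have : g (v ++ [x]) = g (v ++ [y]) := by rw [hf, hf, hxy]
    have := g.injective this
    simpa using this
  exact ⟨Equiv.ofBijective f (Finite.injective_iff_bijective.1 hinj), fun x => hf x⟩

/-- The label of `g` at the vertex `v`. -/
noncomputable def label (g : Perm (List (Fin d))) (v : List (Fin d)) : Perm (Fin d) := by
  classical
  exact if hg : g ∈ treeAut d then (exists_label hg v).choose else 1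

theorem label_spec {g : Perm (List (Fin d))} (hg : g ∈ treeAut d) (v : List (Fin d)) (x : Fin d) :
    g (v ++ [x]) = g v ++ [label g v x] := by
  simp only [label, hg, dif_pos]
  exact (exists_label hg v).choose_spec x

theorem label_unique {g : Perm (List (Fin d))} (hg : g ∈ treeAut d) {v : List (Fin d)}
    {σ : Perm (Fin d)} (h : ∀ x, g (v ++ [x]) = g v ++ [σ x]) : label g v = σ := by
  ext x
  have h1 := label_spec hg v x
  rw [h x] at h1
  simpa using congrArg Fin.val (List.singleton_inj.1 (List.append_cancel_left h1)).symm

theorem label_one (v : List (Fin d)) : label (1 : Perm (List (Fin d))) v = 1 :=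
  label_unique (one_mem _) (fun _ => rfl)

theorem label_mul {g h : Perm (List (Fin d))} (hg : g ∈ treeAut d) (hh : h ∈ treeAut d)
    (v : List (Fin d)) : label (g * h) v = label g (h v) * label h v := by
  apply label_unique (mul_mem hg hh)
  intro x
  rw [Perm.mul_apply, label_spec hh, label_spec hg]
  rfl

theorem label_inv {g : Perm (List (Fin d))} (hg : g ∈ treeAut d)
    (v : List (Fin d)) : label g⁻¹ v = (label g (g⁻¹ v))⁻¹ := by
  have h := label_mul hg (inv_mem hg) v
  rw [mul_inv_cancel, label_one] at h
  exact (inv_eq_of_mul_eq_one_right h.symm).symm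

theorem treeAut_length {g : Perm (List (Fin d))} (hg : g ∈ treeAut d) (v : List (Fin d)) :
    (g v).length = v.length := by
  induction v using List.reverseRecOn with
  | nil => rw [treeAut_nil hg]
  | append_singleton v x ih => rw [label_spec hg]; simp [ih]

theorem label_ext {g h : Perm (List (Fin d))} (hg : g ∈ treeAut d) (hh : h ∈ treeAut d) (n : ℕ)
    (H : ∀ v : List (Fin d), v.length < n → label g v = label h v) :
    ∀ v : List (Fin d), v.length ≤ n → g v = h v := by
  intro v
  induction v using List.reverseRecOn with
  | nil => intro _; rw [treeAut_nil hg, treeAut_nil hh]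
  | append_singleton v x ih =>
    intro hv
    simp only [List.length_append, List.length_singleton] at hv
    rw [label_spec hg, label_spec hh, ih (by omega), H v (by omega)]

theorem label_ext' {g h : Perm (List (Fin d))} (hg : g ∈ treeAut d) (hh : h ∈ treeAut d)
    (H : ∀ v : List (Fin d), label g v = label h v) : g = h := by
  ext1 v
  exact label_ext hg hh v.length (fun w _ => H w) v le_rfl

/-- agreement on the words of length `≤ n+1` gives equality of labels up to level `n` -/
theorem label_eq_of_agree {g h : Perm (List (Fin d))} (hg : g ∈ treeAut d) (hh : h ∈ treeAut d)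
    {n : ℕ} (H : ∀ v : List (Fin d), v.length ≤ n → g v = h v) {v : List (Fin d)}
    (hv : v.length < n) : label g v = label h v := by
  apply label_unique hg
  intro x
  rw [H (v ++ [x]) (by simp; omega), H v (by omega), label_spec hh]

/-- action of a portrait -/
def act : (List (Fin d) → Perm (Fin d)) → List (Fin d) → List (Fin d)
  | _, [] => []
  | p, (x :: w) => p [] x :: act (fun v => p (x :: v)) w

theorem act_append_singleton (p : List (Fin d) → Perm (Fin d)) (v : List (Fin d)) (x : Fin d) :
    act p (v ++ [x]) = act p v ++ [p v x] := by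
  induction v generalizing p with
  | nil => rfl
  | cons y v ih =>
    simp only [List.cons_append, act, ih]

theorem act_length (p : List (Fin d) → Perm (Fin d)) (v : List (Fin d)) :
    (act p v).length = v.length := by
  induction v generalizing p with
  | nil => rfl
  | cons y v ih => simp only [act, List.length_cons, ih]

theorem act_bijective (p : List (Fin d) → Perm (Fin d)) : Function.Bijective (act p) := by
  constructor
  · intro v
    induction v generalizing p with
    | nil =>
      intro w h
      cases w with
      | nil => rfl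
      | cons y w => simp [act] at h
    | cons x v ih =>
      intro w h
      cases w with
      | nil => simp [act] at h
      | cons y w =>
        simp only [act, List.cons.injEq, EmbeddingLike.apply_eq_iff_eq] at h
        obtain ⟨rfl, h⟩ := h
        rw [ih _ h]
  · intro v
    induction v generalizing p with
    | nil => exact ⟨[], rfl⟩
    | cons x v ih =>
      obtain ⟨w, hw⟩ := ih (fun u => p ((p []).symm x :: u))
      exact ⟨(p []).symm x :: w, by simp [act, hw]⟩

/-- The automorphism with given labels. -/
noncomputable def ofLabels (p : List (Fin d) → Perm (Fin d)) : Perm (List (Fin d)) :=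
  Equiv.ofBijective (act p) (act_bijective p)

theorem ofLabels_apply (p : List (Fin d) → Perm (Fin d)) (v : List (Fin d)) :
    ofLabels p v = act p v := rfl

theorem ofLabels_mem (p : List (Fin d) → Perm (Fin d)) : ofLabels p ∈ treeAut d := by
  intro u w
  simp only [ofLabels_apply]
  constructor
  · rintro ⟨x, rfl⟩
    exact ⟨_, act_append_singleton p u x⟩
  · rintro ⟨x, hx⟩
    have hne : w ≠ [] := by
      rintro rfl
      have := congrArg List.length hx
      simp [act] at this
    obtain ⟨v, y, rfl⟩ : ∃ v y, w = v ++ [y] :=
      ⟨w.dropLast, w.getLast hne, (List.dropLast_append_getLast hne).symm⟩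
    rw [act_append_singleton] at hx
    have := List.append_inj_left' hx rfl
    exact ⟨y, by rw [(act_bijective p).1 this]⟩

theorem label_ofLabels (p : List (Fin d) → Perm (Fin d)) (v : List (Fin d)) :
    label (ofLabels p) v = p v :=
  label_unique (ofLabels_mem p) (fun x => act_append_singleton p v x)

theorem ofLabels_label {g : Perm (List (Fin d))} (hg : g ∈ treeAut d) : ofLabels (label g) = g :=
  label_ext' (ofLabels_mem _) hg (fun v => label_ofLabels _ v)

/-- The section of `g` at the letter `x`. -/
noncomputable def sec (g : Perm (List (Fin d))) (x : Fin d) : Perm (List (Fin d)) :=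
  ofLabels (fun v => label g (x :: v))

theorem sec_mem (g : Perm (List (Fin d))) (x : Fin d) : sec g x ∈ treeAut d := ofLabels_mem _

theorem label_sec (g : Perm (List (Fin d))) (x : Fin d) (v : List (Fin d)) :
    label (sec g x) v = label g (x :: v) := label_ofLabels _ v

theorem apply_cons {g : Perm (List (Fin d))} (hg : g ∈ treeAut d) (x : Fin d)
    (w : List (Fin d)) : g (x :: w) = label g [] x :: sec g x w := by
  conv_lhs => rw [← ofLabels_label hg]
  rfl

theorem sec_unique {g h : Perm (List (Fin d))} (hg : g ∈ treeAut d)
    {x y : Fin d} (H : ∀ w, g (x :: w) = y :: h w) : h = sec g x := by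
  ext1 w
  have := H w
  rw [apply_cons hg] at this
  exact (List.cons.inj this).2.symm

/-- The section at a word. -/
noncomputable def secw (g : Perm (List (Fin d))) (v : List (Fin d)) : Perm (List (Fin d)) :=
  ofLabels (fun w => label g (v ++ w))

theorem secw_mem (g : Perm (List (Fin d))) (x : List (Fin d)) : secw g x ∈ treeAut d :=
  ofLabels_mem _

theorem label_secw (g : Perm (List (Fin d))) (x : List (Fin d)) (v : List (Fin d)) :
    label (secw g x) v = label g (x ++ v) := label_ofLabels _ v

theorem apply_append {g : Perm (List (Fin d))} (hg : g ∈ treeAut d) (v w : List (Fin d)) :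
    g (v ++ w) = g v ++ secw g v w := by
  induction w using List.reverseRecOn with
  | nil => simp [treeAut_nil (secw_mem g v)]
  | append_singleton w x ih =>
    rw [← List.append_assoc, label_spec hg, ih, label_spec (secw_mem g v), label_secw]
    simp

theorem sec_mul {g h : Perm (List (Fin d))} (hg : g ∈ treeAut d) (hh : h ∈ treeAut d)
    (x : Fin d) : sec (g * h) x = sec g (label h [] x) * sec h x := by
  symm
  apply sec_unique (mul_mem hg hh) (y := label g [] (label h [] x))
  intro w
  rw [Perm.mul_apply, apply_cons hh, apply_cons hg]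
  rfl

theorem IsSelfSimilar.sec_mem {G : Subgroup (Perm (List (Fin d)))} (hG : IsSelfSimilar G)
    {g : Perm (List (Fin d))} (hg : g ∈ G) (x : Fin d) : sec g x ∈ G := by
  obtain ⟨y, h, hh, H⟩ := hG.2 g hg x
  rw [← sec_unique (hG.1 hg) H]
  exact hh

theorem isSelfSimilar_iff {G : Subgroup (Perm (List (Fin d)))} :
    IsSelfSimilar G ↔ G ≤ treeAut d ∧ ∀ g ∈ G, ∀ x, sec g x ∈ G := by
  constructor
  · exact fun h => ⟨h.1, fun g hg x => h.sec_mem hg x⟩
  · rintro ⟨h1, h2⟩
    exact ⟨h1, fun g hg x => ⟨label g [] x, sec g x, h2 g hg x, fun w => apply_cons (h1 hg) x w⟩⟩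

end Pool.Agent.SSG
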