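import Mathlib
import Pool.Agent.SSG.Labels

set_option autoImplicit false

namespace Pool.Agent.SSG

open Equiv

variable {d : ℕ}

/-- words of length `n` -/
abbrev Lev (d n : ℕ) : Type := {v : List (Fin d) // v.length = n}

noncomputable instance (n : ℕ) : Fintype (Lev d n) :=
  inferInstanceAs (Fintype (List.Vector (Fin d) n))

instance (n : ℕ) : Finite (Lev d n) := inferInstanceAs (Finite (List.Vector (Fin d) n))

theorem card_lev (n : ℕ) : Nat.card (Lev d n) = d ^ n := by
  have : Nat.card (List.Vector (Fin d) n) = d ^ n := by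
    rw [Nat.card_eq_fintype_card, card_vector]; simp
  exact this

/-- stabiliser of the levels `≤ n` in `W` -/
def St (d n : ℕ) : Subgroup (Perm (List (Fin d))) where
  carrier := {g | g ∈ treeAut d ∧ ∀ v : List (Fin d), v.length ≤ n → g v = v}
  mul_mem' := by
    rintro a b ⟨ha, ha'⟩ ⟨hb, hb'⟩
    refine ⟨mul_mem ha hb, fun v hv => ?_⟩
    rw [Perm.mul_apply, hb' v hv, ha' v hv]
  one_mem' := ⟨one_mem _, fun _ _ => rfl⟩
  inv_mem' := by
    rintro a ⟨ha, ha'⟩
    refine ⟨inv_mem ha, fun v hv => ?_⟩
    rw [Perm.inv_eq_iff_eq, ha' v hv]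

theorem mem_St {n : ℕ} {g : Perm (List (Fin d))} :
    g ∈ St d n ↔ g ∈ treeAut d ∧ ∀ v : List (Fin d), v.length ≤ n → g v = v := Iff.rfl

theorem St_le (n : ℕ) : St d n ≤ treeAut d := fun _ h => h.1

theorem St_anti (n : ℕ) : St d (n + 1) ≤ St d n :=
  fun _ h => ⟨h.1, fun v hv => h.2 v (by omega)⟩

theorem mem_St_iff_label {n : ℕ} {g : Perm (List (Fin d))} (hg : g ∈ treeAut d) :
    g ∈ St d n ↔ ∀ v : List (Fin d), v.length < n → label g v = 1 := by
  constructor
  · intro h v hv
    rw [label_eq_of_agree hg (one_mem _) (fun w hw => h.2 w hw) hv, label_one]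
  · intro h
    refine ⟨hg, fun v hv => ?_⟩
    have := label_ext hg (one_mem (treeAut d)) n (fun v hv => by rw [h v hv, label_one]) v hv
    simpa using this

/-- the labels of level `n`, as a homomorphism on the stabiliser of level `n` -/
noncomputable def labHom (d n : ℕ) : St d n →* (Lev d n → Perm (Fin d)) where
  toFun g := fun v => label g.1 v.1
  map_one' := by
    funext v
    exact label_one v.1
  map_mul' g h := by
    funext v
    show label (g.1 * h.1) v.1 = _
    rw [label_mul g.2.1 h.2.1, h.2.2 v.1 v.2.le]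
    rfl

/-- `K_n(G)`: labels of level `n` of the members of `G` that fix level `n`. -/
noncomputable def levK (G : Subgroup (Perm (List (Fin d)))) (n : ℕ) :
    Subgroup (Lev d n → Perm (Fin d)) :=
  (G.subgroupOf (St d n)).map (labHom d n)

theorem mem_levK {G : Subgroup (Perm (List (Fin d)))} {n : ℕ} {k : Lev d n → Perm (Fin d)} :
    k ∈ levK G n ↔ ∃ g ∈ G, g ∈ St d n ∧ ∀ v : Lev d n, label g v.1 = k v := by
  constructor
  · rintro ⟨g, hg, rfl⟩
    exact ⟨g.1, hg, g.2, fun v => rfl⟩
  · rintro ⟨g, hg, hs, H⟩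
    exact ⟨⟨g, hs⟩, hg, funext H⟩

theorem piCard_eq_relIndex {G : Subgroup (Perm (List (Fin d)))} (hG : G ≤ treeAut d) (n : ℕ) :
    piCard (G : Set (Perm (List (Fin d)))) n = (St d n).relIndex G := by
  classical
  set f : G → ({w : List (Fin d) // w.length ≤ n} → List (Fin d)) := fun g w => g.1 w.1 with hf
  have h1 : (fun (g : Perm (List (Fin d))) (w : {w : List (Fin d) // w.length ≤ n}) => g w.1) ''
      (G : Set (Perm (List (Fin d)))) = Set.range f := by
    ext y
    simp [hf]
  rw [piCard, h1]
  have h2 : QuotientGroup.leftRel ((St d n).subgroupOf G) = Setoid.ker f := by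
    ext a b
    rw [QuotientGroup.leftRel_apply, Setoid.ker_def, Subgroup.mem_subgroupOf]
    constructor
    · rintro ⟨_, h⟩
      funext w
      have := h w.1 w.2
      simp only [Subgroup.coe_mul, Subgroup.coe_inv, Perm.mul_apply] at this
      rw [Perm.inv_eq_iff_eq] at this
      exact this.symm
    · intro h
      refine ⟨hG (a⁻¹ * b).2, fun v hv => ?_⟩
      have := congrFun h ⟨v, hv⟩
      simp only [hf] at this
      simp only [Subgroup.coe_mul, Subgroup.coe_inv, Perm.mul_apply]
      rw [Perm.inv_eq_iff_eq]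
      exact this.symm
  rw [Subgroup.relIndex, Subgroup.index, ← Nat.card_coe_set_eq]
  · exact Nat.card_congr ((Setoid.quotientKerEquivRange f).symm.trans
      (Quotient.congr (Equiv.refl _) (fun a b => by
        simp only [Equiv.refl_apply]; rw [← h2])))

theorem relIndex_succ {G : Subgroup (Perm (List (Fin d)))} (n : ℕ) :
    (St d (n + 1)).relIndex G = Nat.card (levK G n) * (St d n).relIndex G := by
  have h1 := Subgroup.relIndex_mul_relIndex (St d (n + 1) ⊓ G) (St d n ⊓ G) G
    (inf_le_inf_right _ (St_anti n)) inf_le_right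
  rw [Subgroup.inf_relIndex_right, Subgroup.inf_relIndex_right] at h1
  rw [← h1]
  congr 1
  -- index of `St (n+1)` in `St n ⊓ G`
  let φ : (G.subgroupOf (St d n)) →* (Lev d n → Perm (Fin d)) :=
    (labHom d n).comp (G.subgroupOf (St d n)).subtype
  have h2 : φ.range = levK G n := by
    rw [levK, MonoidHom.range_comp, Subgroup.range_subtype]
  have h3 : Nat.card (levK G n) = φ.ker.index := by
    rw [Subgroup.index_ker, h2]
  rw [h3]
  have h4 : φ.ker = ((St d (n + 1)).subgroupOf (St d n)).subgroupOf (G.subgroupOf (St d n)) := by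
    ext g
    rw [MonoidHom.mem_ker, Subgroup.mem_subgroupOf, Subgroup.mem_subgroupOf]
    have hmem := g.1.2
    constructor
    · intro h
      rw [mem_St_iff_label hmem.1]
      intro v hv
      rcases Nat.lt_succ_iff_lt_or_eq.1 hv with hv | hv
      · exact (mem_St_iff_label hmem.1).1 hmem v hv
      · exact congrFun h ⟨v, hv⟩
    · intro h
      funext v
      exact (mem_St_iff_label hmem.1).1 h v.1 (by rw [v.2]; omega)
  rw [h4]
  have h5 : ((St d (n + 1)).subgroupOf (St d n)).relIndex (G.subgroupOf (St d n)) =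
      (St d (n + 1) ⊓ St d n).relIndex (St d n ⊓ G) := by
    have := Subgroup.relIndex_map_map_of_injective
      ((St d (n + 1)).subgroupOf (St d n)) (G.subgroupOf (St d n))
      (Subgroup.subtype_injective (St d n))
    rw [Subgroup.subgroupOf_map_subtype, Subgroup.subgroupOf_map_subtype] at this
    rw [← this, inf_comm G]
  have h6 : (St d (n + 1) ⊓ G).relIndex (St d n ⊓ G) =
      (St d (n + 1) ⊓ St d n).relIndex (St d n ⊓ G) := by
    rw [← Subgroup.inf_relIndex_right, ← Subgroup.inf_relIndex_right (St d (n + 1) ⊓ St d n)]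
    congr 1
    ext g
    simp only [Subgroup.mem_inf]
    tauto
  rw [h6, ← h5]
  rfl

theorem relIndex_zero {G : Subgroup (Perm (List (Fin d)))} (hG : G ≤ treeAut d) :
    (St d 0).relIndex G = 1 := by
  rw [Subgroup.relIndex_eq_one]
  intro g hg
  refine ⟨hG hg, fun v hv => ?_⟩
  have : v = [] := List.length_eq_zero_iff.1 (by omega)
  rw [this, treeAut_nil (hG hg)]

theorem piCard_eq_prod {G : Subgroup (Perm (List (Fin d)))} (hG : G ≤ treeAut d) (n : ℕ) :
    piCard (G : Set (Perm (List (Fin d)))) n = ∏ i ∈ Finset.range n, Nat.card (levK G i) := by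
  rw [piCard_eq_relIndex hG]
  induction n with
  | zero => simpa using relIndex_zero hG
  | succ n ih => rw [relIndex_succ, ih, Finset.prod_range_succ, mul_comm]

theorem levK_treeAut (n : ℕ) : levK (treeAut d) n = ⊤ := by
  classical
  rw [eq_top_iff]
  intro k _
  rw [mem_levK]
  refine ⟨ofLabels (fun v => if h : v.length = n then k ⟨v, h⟩ else 1), ofLabels_mem _, ?_, ?_⟩
  · rw [mem_St_iff_label (ofLabels_mem _)]
    intro v hv
    rw [label_ofLabels]
    simp [hv.ne]
  · intro v
    rw [label_ofLabels]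
    simp [v.2]

theorem card_levK_treeAut (n : ℕ) : Nat.card (levK (treeAut d) n) = (d.factorial) ^ (d ^ n) := by
  rw [levK_treeAut, Subgroup.card_top, Nat.card_fun, card_lev, Nat.card_eq_fintype_card,
    Fintype.card_perm, Fintype.card_fin]

theorem card_levK_pos (G : Subgroup (Perm (List (Fin d)))) (n : ℕ) : 0 < Nat.card (levK G n) :=
  Nat.card_pos

theorem sec_mem_St {g : Perm (List (Fin d))} {n : ℕ} (hg : g ∈ St d (n + 1)) (x : Fin d) :
    sec g x ∈ St d n := by
  rw [mem_St_iff_label (sec_mem _ _)]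
  intro v hv
  rw [label_sec]
  exact (mem_St_iff_label hg.1).1 hg _ (by simp; omega)

theorem card_levK_succ_le {G : Subgroup (Perm (List (Fin d)))} (hG : IsSelfSimilar G) (n : ℕ) :
    Nat.card (levK G (n + 1)) ≤ Nat.card (levK G n) ^ d := by
  have key : ∀ k ∈ levK G (n + 1), ∀ x : Fin d,
      (fun v : Lev d n => k ⟨x :: v.1, by simp [v.2]⟩) ∈ levK G n := by
    intro k hk x
    obtain ⟨g, hg, hs, H⟩ := mem_levK.1 hk
    rw [mem_levK]
    refine ⟨sec g x, hG.sec_mem hg x, sec_mem_St hs x, fun v => ?_⟩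
    rw [label_sec]
    exact H ⟨x :: v.1, by simp [v.2]⟩
  let F : levK G (n + 1) → (Fin d → levK G n) := fun k x => ⟨_, key k.1 k.2 x⟩
  have hF : Function.Injective F := by
    intro k l h
    apply Subtype.ext
    funext v
    obtain ⟨v, hv⟩ := v
    cases v with
    | nil => simp at hv
    | cons x v =>
      have h1 := congrFun h x
      have h2 := congrArg Subtype.val h1
      exact congrFun h2 ⟨v, by simpa using hv⟩
  have := Nat.card_le_card_of_injective F hF
  rwa [Nat.card_fun, Nat.card_eq_fintype_card (α := Fin d), Fintype.card_fin] at this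

end Pool.Agent.SSG
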