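import Mathlib
import Pool.Agent.SSG.Levels

set_option autoImplicit false

namespace Pool.Agent.SSG

open Equiv Filter Topology

variable {d : ℕ}

/-- normalised size of `K_n` -/
noncomputable def lk (G : Subgroup (Perm (List (Fin d)))) (n : ℕ) : ℝ :=
  Real.log (Nat.card (levK G n)) / (d : ℝ) ^ n

theorem lk_nonneg (G : Subgroup (Perm (List (Fin d)))) (n : ℕ) : 0 ≤ lk G n := by
  unfold lk
  apply div_nonneg
  · apply Real.log_nonneg
    exact_mod_cast card_levK_pos G n
  · positivity

theorem lk_antitone (hd : 0 < d) {G : Subgroup (Perm (List (Fin d)))} (hG : IsSelfSimilar G) :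
    Antitone (lk G) := by
  apply antitone_nat_of_succ_le
  intro n
  unfold lk
  have h1 : (0 : ℝ) < d := by exact_mod_cast hd
  rw [div_le_div_iff₀ (by positivity) (by positivity)]
  have h2 := card_levK_succ_le hG n
  have h3 : Real.log (Nat.card (levK G (n + 1))) ≤ d * Real.log (Nat.card (levK G n)) := by
    rw [← Real.log_pow]
    apply Real.log_le_log
    · exact_mod_cast card_levK_pos G _
    · exact_mod_cast h2
  calc Real.log (Nat.card (levK G (n + 1))) * (d : ℝ) ^ n
      ≤ (d * Real.log (Nat.card (levK G n))) * (d : ℝ) ^ n := by gcongr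
    _ = Real.log (Nat.card (levK G n)) * (d : ℝ) ^ (n + 1) := by ring

theorem exists_lim (hd : 0 < d) {G : Subgroup (Perm (List (Fin d)))} (hG : IsSelfSimilar G) :
    ∃ L : ℝ, 0 ≤ L ∧ (∀ n, L ≤ lk G n) ∧ Tendsto (lk G) atTop (𝓝 L) := by
  have h1 := tendsto_atTop_ciInf (lk_antitone hd hG) ⟨0, by
    rintro _ ⟨n, rfl⟩; exact lk_nonneg G n⟩
  refine ⟨_, ?_, ?_, h1⟩
  · exact le_ciInf (lk_nonneg G)
  · intro n
    exact ciInf_le ⟨0, by rintro _ ⟨n, rfl⟩; exact lk_nonneg G n⟩ n

theorem piCard_treeClosure {G : Subgroup (Perm (List (Fin d)))} (hG : G ≤ treeAut d) (n : ℕ) :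
    piCard (treeClosure (G : Set (Perm (List (Fin d))))) n =
      piCard (G : Set (Perm (List (Fin d)))) n := by
  unfold piCard
  congr 1
  apply Set.Subset.antisymm
  · rintro _ ⟨w, hw, rfl⟩
    obtain ⟨g, hg, H⟩ := hw.2 n
    exact ⟨g, hg, funext fun v => H v.1 v.2⟩
  · rintro _ ⟨g, hg, rfl⟩
    exact ⟨g, ⟨hG hg, fun m => ⟨g, hg, fun _ _ => rfl⟩⟩, rfl⟩

/-- If the normalised sizes converge to `L`, the Hausdorff dimension is `L / log d!`. -/
theorem hdim_eq (hd : 2 ≤ d) {G : Subgroup (Perm (List (Fin d)))} (hG : G ≤ treeAut d) {L : ℝ}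
    (hL : Tendsto (lk G) atTop (𝓝 L)) :
    hdim (treeClosure (G : Set (Perm (List (Fin d))))) = L / Real.log d.factorial := by
  unfold hdim
  apply Tendsto.liminf_eq
  have hd0 : (0 : ℝ) < d := by exact_mod_cast (by omega : 0 < d)
  have hlog : 0 < Real.log d.factorial := by
    apply Real.log_pos
    have : 2 ≤ d.factorial := by
      calc 2 = Nat.factorial 2 := rfl
        _ ≤ d.factorial := Nat.factorial_le hd
    exact_mod_cast this
  -- the sums
  set S : ℕ → ℝ := fun n => ∑ i ∈ Finset.range n, (d : ℝ) ^ i with hS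
  have hG' : ∀ n, Real.log (piCard (treeClosure (G : Set (Perm (List (Fin d))))) n) =
      ∑ i ∈ Finset.range n, lk G i * (d : ℝ) ^ i := by
    intro n
    rw [piCard_treeClosure hG, piCard_eq_prod hG, Nat.cast_prod, Real.log_prod]
    · apply Finset.sum_congr rfl
      intro i _
      unfold lk
      rw [div_mul_cancel₀]
      positivity
    · intro i _
      have := card_levK_pos G i
      positivity
  have hW : ∀ n, Real.log (piCard (treeAut d : Set (Perm (List (Fin d)))) n) =
      S n * Real.log d.factorial := by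
    intro n
    rw [piCard_eq_prod le_rfl, Nat.cast_prod, Real.log_prod]
    · rw [hS, Finset.sum_mul]
      apply Finset.sum_congr rfl
      intro i _
      rw [card_levK_treeAut, Nat.cast_pow, Real.log_pow]
      push_cast
      ring
    · intro i _
      have := card_levK_pos (treeAut d) i
      positivity
  have hSinf : Tendsto S atTop atTop := by
    rw [hS]
    refine tendsto_atTop_mono (f := fun n : ℕ => (n : ℝ)) (fun n => ?_) tendsto_natCast_atTop_atTop
    calc (n : ℝ) = ∑ i ∈ Finset.range n, (1 : ℝ) := by simp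
      _ ≤ ∑ i ∈ Finset.range n, (d : ℝ) ^ i := by
        apply Finset.sum_le_sum
        intro i _
        apply one_le_pow₀
        exact_mod_cast (by omega : 1 ≤ d)
  have hlo : (fun n => ∑ i ∈ Finset.range n, (lk G i - L) * (d : ℝ) ^ i) =o[atTop] S := by
    have := Asymptotics.IsLittleO.sum_range (f := fun i => (lk G i - L) * (d : ℝ) ^ i)
      (g := fun i => (d : ℝ) ^ i) ?_ (fun n => by positivity) hSinf
    · exact this
    · have h1 : (fun i => lk G i - L) =o[atTop] (fun _ => (1 : ℝ)) := by
        rw [Asymptotics.isLittleO_one_iff]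
        have := hL.sub_const L
        simpa using this
      simpa using h1.mul_isBigO (Asymptotics.isBigO_refl (fun i => (d : ℝ) ^ i) atTop)
  have hlim := hlo.tendsto_div_nhds_zero
  have h2 : Tendsto (fun n => (∑ i ∈ Finset.range n, (lk G i - L) * (d : ℝ) ^ i) / S n + L)
      atTop (𝓝 (0 + L)) := hlim.add_const L
  rw [zero_add] at h2
  have h3 := h2.div_const (Real.log d.factorial)
  apply h3.congr'
  filter_upwards [hSinf.eventually_gt_atTop 0] with n hn
  rw [hG' n, hW n]
  have : ∑ i ∈ Finset.range n, (lk G i - L) * (d : ℝ) ^ i =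
      (∑ i ∈ Finset.range n, lk G i * (d : ℝ) ^ i) - L * S n := by
    rw [hS, Finset.mul_sum, ← Finset.sum_sub_distrib]
    apply Finset.sum_congr rfl
    intro i _
    ring
  rw [this]
  field_simp
  ring

end Pool.Agent.SSG
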