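import Mathlib
import Pool.Agent.SSG.Limit

set_option autoImplicit false

namespace Pool.Agent.SSG

open Equiv Filter Topology

variable {d : ℕ}

/-- truncation: keep the labels at levels `< n` -/
noncomputable def trunc (g : Perm (List (Fin d))) (n : ℕ) : Perm (List (Fin d)) := by
  classical
  exact ofLabels (fun v => if v.length < n then label g v else 1)

theorem label_trunc (g : Perm (List (Fin d))) (n : ℕ) (v : List (Fin d)) :
    label (trunc g n) v = if v.length < n then label g v else 1 := by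
  unfold trunc
  rw [label_ofLabels]

theorem trunc_mem (g : Perm (List (Fin d))) (n : ℕ) : trunc g n ∈ treeAut d := ofLabels_mem _

/-- the finitary members of `H` -/
def fin (H : Subgroup (Perm (List (Fin d)))) (hH : H ≤ treeAut d) :
    Subgroup (Perm (List (Fin d))) where
  carrier := {g | g ∈ H ∧ ∃ N, ∀ v : List (Fin d), N ≤ v.length → label g v = 1}
  mul_mem' := by
    rintro a b ⟨ha, N, hN⟩ ⟨hb, M, hM⟩
    refine ⟨mul_mem ha hb, N + M, fun v hv => ?_⟩
    rw [label_mul (hH ha) (hH hb), hM v (by omega), hN (b v) (by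
      rw [treeAut_length (hH hb)]; omega), mul_one]
  one_mem' := ⟨one_mem _, 0, fun v _ => label_one v⟩
  inv_mem' := by
    rintro a ⟨ha, N, hN⟩
    refine ⟨inv_mem ha, N, fun v hv => ?_⟩
    rw [label_inv (hH ha), hN, inv_one]
    rw [treeAut_length (inv_mem (hH ha))]
    exact hv

theorem fin_le (H : Subgroup (Perm (List (Fin d)))) (hH : H ≤ treeAut d) : fin H hH ≤ H :=
  fun _ h => h.1

theorem fin_selfSimilar {H : Subgroup (Perm (List (Fin d)))} (hH : IsSelfSimilar H) :
    IsSelfSimilar (fin H hH.1) := by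
  rw [isSelfSimilar_iff]
  refine ⟨(fin_le H hH.1).trans hH.1, ?_⟩
  rintro g ⟨hg, N, hN⟩ x
  exact ⟨hH.sec_mem hg x, N, fun v hv => by rw [label_sec]; exact hN _ (by simp; omega)⟩

theorem fin_contracting {H : Subgroup (Perm (List (Fin d)))} (hH : IsSelfSimilar H) :
    IsContracting (fin H hH.1) := by
  refine ⟨fin_selfSimilar hH, {1}, Set.finite_singleton 1, ?_, ?_⟩
  · rintro _ rfl
    exact one_mem _
  · rintro g ⟨hg, N, hN⟩
    refine ⟨N, fun v hv => ⟨1, rfl, fun w => ?_⟩⟩
    rw [apply_append (hH.1 hg)]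
    congr 1
    have : secw g v = 1 := label_ext' (secw_mem _ _) (one_mem _) (fun u => by
      rw [label_secw, label_one]
      exact hN _ (by simp; omega))
    rw [this]

theorem levK_fin {H : Subgroup (Perm (List (Fin d)))} (hH : H ≤ treeAut d)
    (htr : ∀ g ∈ H, ∀ n, trunc g n ∈ H) (n : ℕ) : levK (fin H hH) n = levK H n := by
  apply le_antisymm
  · intro k hk
    obtain ⟨g, hg, hs, h⟩ := mem_levK.1 hk
    exact mem_levK.2 ⟨g, hg.1, hs, h⟩
  · intro k hk
    obtain ⟨g, hg, hs, h⟩ := mem_levK.1 hk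
    refine mem_levK.2 ⟨trunc g (n + 1), ⟨htr g hg _, n + 1, fun v hv => ?_⟩, ?_, fun v => ?_⟩
    · rw [label_trunc, if_neg (by omega)]
    · rw [mem_St_iff_label (trunc_mem _ _)]
      intro v hv
      rw [label_trunc, if_pos (by omega)]
      exact (mem_St_iff_label hs.1).1 hs v hv
    · rw [label_trunc, if_pos (by rw [v.2]; omega)]
      exact h v

/-- Realisation by a contracting group. -/
theorem realize (hd : 2 ≤ d) {H : Subgroup (Perm (List (Fin d)))} (hH : IsSelfSimilar H)
    (htr : ∀ g ∈ H, ∀ n, trunc g n ∈ H) {L : ℝ} (hL : Tendsto (lk H) atTop (𝓝 L)) :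
    ∃ G : Subgroup (Perm (List (Fin d))), IsContracting G ∧
      hdim (treeClosure (G : Set (Perm (List (Fin d))))) = L / Real.log d.factorial := by
  refine ⟨fin H hH.1, fin_contracting hH, ?_⟩
  apply hdim_eq hd (fin_selfSimilar hH).1
  apply hL.congr
  intro n
  unfold lk
  rw [levK_fin hH.1 htr]

end Pool.Agent.SSG
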