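import Mathlib

set_option autoImplicit false

namespace Pool.Agent.SSG

variable {ι Q : Type} [Group Q]

/-- values at `i` of the members of `K` supported at `i` only -/
def soloAt (K : Subgroup (ι → Q)) (i : ι) : Subgroup Q where
  carrier := {q | ∃ k ∈ K, (∀ j, j ≠ i → k j = 1) ∧ k i = q}
  mul_mem' := by
    rintro _ _ ⟨k, hk, h1, rfl⟩ ⟨l, hl, h2, rfl⟩
    exact ⟨k * l, mul_mem hk hl, fun j hj => by simp [h1 j hj, h2 j hj], rfl⟩
  one_mem' := ⟨1, one_mem _, fun _ _ => rfl, rfl⟩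
  inv_mem' := by
    rintro _ ⟨k, hk, h1, rfl⟩
    exact ⟨k⁻¹, inv_mem hk, fun j hj => by simp [h1 j hj], rfl⟩

/-- values at `i` of the members of `K` -/
def projAt (K : Subgroup (ι → Q)) (i : ι) : Subgroup Q := K.map (Pi.evalMonoidHom _ i)

/-- values at `i` of the members of `K` that vanish below `i` -/
def lowAt [LT ι] (K : Subgroup (ι → Q)) (i : ι) : Subgroup Q where
  carrier := {q | ∃ k ∈ K, (∀ j, j < i → k j = 1) ∧ k i = q}
  mul_mem' := by
    rintro _ _ ⟨k, hk, h1, rfl⟩ ⟨l, hl, h2, rfl⟩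
    exact ⟨k * l, mul_mem hk hl, fun j hj => by simp [h1 j hj, h2 j hj], rfl⟩
  one_mem' := ⟨1, one_mem _, fun _ _ => rfl, rfl⟩
  inv_mem' := by
    rintro _ ⟨k, hk, h1, rfl⟩
    exact ⟨k⁻¹, inv_mem hk, fun j hj => by simp [h1 j hj], rfl⟩

theorem mem_soloAt {K : Subgroup (ι → Q)} {i : ι} {q : Q} :
    q ∈ soloAt K i ↔ ∃ k ∈ K, (∀ j, j ≠ i → k j = 1) ∧ k i = q := Iff.rfl

theorem mem_projAt {K : Subgroup (ι → Q)} {i : ι} {q : Q} :
    q ∈ projAt K i ↔ ∃ k ∈ K, k i = q := Iff.rfl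

theorem mem_lowAt [LT ι] {K : Subgroup (ι → Q)} {i : ι} {q : Q} :
    q ∈ lowAt K i ↔ ∃ k ∈ K, (∀ j, j < i → k j = 1) ∧ k i = q := Iff.rfl

theorem card_eq_ker_mul_map {A B : Type} [Group A] [Group B] (f : A →* B) :
    Nat.card A = Nat.card f.ker * Nat.card f.range := by
  rw [← Subgroup.index_ker, Subgroup.card_mul_index]

theorem card_eq_prod_lowAt [Finite Q] {N : ℕ} (K : Subgroup (Fin N → Q)) :
    Nat.card K = ∏ i, Nat.card (lowAt K i) := by
  classical
  -- the filtration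
  let T : ℕ → Subgroup (Fin N → Q) := fun m =>
    { carrier := {k | k ∈ K ∧ ∀ i : Fin N, i.val < m → k i = 1}
      mul_mem' := by
        rintro a b ⟨ha, ha'⟩ ⟨hb, hb'⟩
        exact ⟨mul_mem ha hb, fun i hi => by simp [ha' i hi, hb' i hi]⟩
      one_mem' := ⟨one_mem _, fun _ _ => rfl⟩
      inv_mem' := by
        rintro a ⟨ha, ha'⟩
        exact ⟨inv_mem ha, fun i hi => by simp [ha' i hi]⟩ }
  have hT : ∀ m k, k ∈ T m ↔ k ∈ K ∧ ∀ i : Fin N, i.val < m → k i = 1 := fun m k => Iff.rfl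
  have step : ∀ m (hm : m < N), Nat.card (T m) =
      Nat.card (T (m + 1)) * Nat.card (lowAt K ⟨m, hm⟩) := by
    intro m hm
    let φ : T m →* Q := (Pi.evalMonoidHom _ ⟨m, hm⟩).comp (T m).subtype
    have h1 : φ.range = lowAt K ⟨m, hm⟩ := by
      ext q
      constructor
      · rintro ⟨k, rfl⟩
        exact ⟨k.1, k.2.1, fun j hj => k.2.2 j hj, rfl⟩
      · rintro ⟨k, hk, h, rfl⟩
        exact ⟨⟨k, hk, fun j hj => h j hj⟩, rfl⟩
    have h2 : Nat.card φ.ker = Nat.card (T (m + 1)) := by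
      refine Nat.card_congr ⟨fun k => ⟨k.1.1, ?_⟩, fun k => ⟨⟨k.1, ?_⟩, ?_⟩, ?_, ?_⟩
      · refine ⟨k.1.2.1, fun i hi => ?_⟩
        rcases Nat.lt_succ_iff_lt_or_eq.1 hi with hi | hi
        · exact k.1.2.2 i hi
        · have := k.2
          rw [MonoidHom.mem_ker] at this
          have hi' : i = ⟨m, hm⟩ := Fin.ext hi
          rw [hi']
          exact this
      · exact ⟨k.2.1, fun i hi => k.2.2 i (by omega)⟩
      · rw [MonoidHom.mem_ker]
        exact k.2.2 ⟨m, hm⟩ (by simp)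
      · intro k; rfl
      · intro k; rfl
    rw [card_eq_ker_mul_map φ, h1, h2]
  have main : ∀ m (hm : m ≤ N), Nat.card K =
      Nat.card (T m) * ∏ i : Fin m, Nat.card (lowAt K ⟨i.1, by omega⟩) := by
    intro m
    induction m with
    | zero =>
      intro _
      have : T 0 = K := by
        ext k
        simp [hT]
      rw [this]
      simp
    | succ m ih =>
      intro hm
      rw [ih (by omega), step m (by omega), Fin.prod_univ_castSucc]
      simp only [Fin.val_castSucc, Fin.val_last]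
      ring
  have h3 := main N le_rfl
  have h4 : T N = ⊥ := by
    rw [eq_bot_iff]
    intro k hk
    rw [Subgroup.mem_bot]
    funext i
    exact hk.2 i i.2
  rw [h4, Subgroup.card_bot, one_mul] at h3
  exact h3

/-- reversing the coordinates -/
theorem two_sided [Finite Q] {N : ℕ} (K : Subgroup (Fin N → Q)) (B : ℕ)
    (h : ∀ i, ∀ P P' : Subgroup Q, P ≤ projAt K i → P' ≤ projAt K i →
      (∀ q ∈ projAt K i, ∀ p ∈ P, q * p * q⁻¹ ∈ P) →
      (∀ q ∈ projAt K i, ∀ p ∈ P', q * p * q⁻¹ ∈ P') →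
      ⁅P, P'⁆ ≤ soloAt K i → Nat.card P * Nat.card P' ≤ B) :
    Nat.card K ^ 2 ≤ B ^ N := by
  classical
  let r : (Fin N → Q) ≃* (Fin N → Q) :=
    { toFun := fun f i => f (Fin.rev i)
      invFun := fun f i => f (Fin.rev i)
      left_inv := fun f => by funext i; simp
      right_inv := fun f => by funext i; simp
      map_mul' := fun f g => rfl }
  let K' := K.map r.toMonoidHom
  have hK' : ∀ k, k ∈ K' ↔ (fun i => k (Fin.rev i)) ∈ K := by
    intro k
    constructor
    · rintro ⟨l, hl, rfl⟩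
      simpa [r] using hl
    · intro hk
      exact ⟨_, hk, by funext i; simp [r]⟩
  have hcard : Nat.card K' = Nat.card K := by
    exact (Nat.card_congr (r.subgroupMap K).toEquiv).symm
  have hlow : ∀ i, Nat.card (lowAt K i) * Nat.card (lowAt K' (Fin.rev i)) ≤ B := by
    intro i
    apply h i
    · rintro _ ⟨k, hk, -, rfl⟩
      exact ⟨k, hk, rfl⟩
    · rintro _ ⟨k, hk, -, rfl⟩
      exact ⟨_, (hK' k).1 hk, by simp⟩
    · rintro _ ⟨l, hl, rfl⟩ _ ⟨k, hk, hk', rfl⟩
      exact ⟨l * k * l⁻¹, mul_mem (mul_mem hl hk) (inv_mem hl),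
        fun j hj => by simp [hk' j hj], rfl⟩
    · rintro _ ⟨l, hl, rfl⟩ _ ⟨k, hk, hk', rfl⟩
      have hl' : (fun i => l (Fin.rev i)) ∈ K' := by
        rw [hK']; simpa using hl
      refine ⟨(fun i => l (Fin.rev i)) * k * (fun i => l (Fin.rev i))⁻¹,
        mul_mem (mul_mem hl' hk) (inv_mem hl'), fun j hj => by simp [hk' j hj], by simp⟩
    · rw [Subgroup.commutator_le]
      rintro _ ⟨k, hk, hk', rfl⟩ _ ⟨l, hl, hl', rfl⟩
      have hl2 := (hK' l).1 hl
      refine ⟨k * (fun i => l (Fin.rev i)) * k⁻¹ * (fun i => l (Fin.rev i))⁻¹, ?_, ?_, ?_⟩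
      · exact mul_mem (mul_mem (mul_mem hk hl2) (inv_mem hk)) (inv_mem hl2)
      · intro j hj
        rcases lt_or_gt_of_ne hj with hj | hj
        · simp [hk' j hj]
        · have := hl' (Fin.rev j) (Fin.rev_lt_rev.2 hj)
          simp [this]
      · simp [commutatorElement_def]
  calc Nat.card K ^ 2 = Nat.card K * Nat.card K' := by rw [hcard, sq]
    _ = (∏ i, Nat.card (lowAt K i)) * ∏ i, Nat.card (lowAt K' i) := by
      rw [← card_eq_prod_lowAt, ← card_eq_prod_lowAt]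
    _ = (∏ i, Nat.card (lowAt K i)) * ∏ i, Nat.card (lowAt K' (Fin.rev i)) := by
      congr 1
      exact (Equiv.prod_comp Fin.revPerm (fun i => Nat.card (lowAt K' i))).symm
    _ = ∏ i, Nat.card (lowAt K i) * Nat.card (lowAt K' (Fin.rev i)) :=
      Finset.prod_mul_distrib.symm
    _ ≤ ∏ i : Fin N, B := Finset.prod_le_prod' (fun i _ => hlow i)
    _ = B ^ N := by simp

/-- The same for an arbitrary finite index type. -/
theorem two_sided' [Finite ι] [Finite Q] (K : Subgroup (ι → Q)) (B : ℕ)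
    (h : ∀ i, ∀ P P' : Subgroup Q, P ≤ projAt K i → P' ≤ projAt K i →
      (∀ q ∈ projAt K i, ∀ p ∈ P, q * p * q⁻¹ ∈ P) →
      (∀ q ∈ projAt K i, ∀ p ∈ P', q * p * q⁻¹ ∈ P') →
      ⁅P, P'⁆ ≤ soloAt K i → Nat.card P * Nat.card P' ≤ B) :
    Nat.card K ^ 2 ≤ B ^ Nat.card ι := by
  classical
  obtain e := Finite.equivFin ι
  let r : (ι → Q) ≃* (Fin (Nat.card ι) → Q) :=
    { toFun := fun f i => f (e.symm i)
      invFun := fun f i => f (e i)
      left_inv := fun f => by funext i; simp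
      right_inv := fun f => by funext i; simp
      map_mul' := fun f g => rfl }
  let K' := K.map r.toMonoidHom
  have hK' : ∀ k, k ∈ K' ↔ (fun i => k (e i)) ∈ K := by
    intro k
    constructor
    · rintro ⟨l, hl, rfl⟩
      simpa [r] using hl
    · intro hk
      exact ⟨_, hk, by funext i; simp [r]⟩
  have hcard : Nat.card K' = Nat.card K := by
    exact (Nat.card_congr (r.subgroupMap K).toEquiv).symm
  rw [← hcard]
  apply two_sided
  intro i P P' h1 h2 h3 h4 h5
  have hproj : projAt K' i = projAt K (e.symm i) := by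
    ext q
    constructor
    · rintro ⟨k, hk, rfl⟩
      exact ⟨_, (hK' k).1 hk, by simp⟩
    · rintro ⟨k, hk, rfl⟩
      exact ⟨fun i => k (e.symm i), (hK' _).2 (by simpa using hk), rfl⟩
  have hsolo : soloAt K' i ≤ soloAt K (e.symm i) := by
    rintro _ ⟨k, hk, hk', rfl⟩
    refine ⟨_, (hK' k).1 hk, fun j hj => hk' _ ?_, by simp⟩
    intro h
    exact hj (by rw [← h]; simp)
  rw [hproj] at h1 h2 h3 h4
  exact h (e.symm i) P P' h1 h2 h3 h4 (h5.trans hsolo)

end Pool.Agent.SSG
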