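import Mathlib
import Pool.Agent.SSG.Finitary
import Pool.Agent.SSG.TwoSided

set_option autoImplicit false

namespace Pool.Agent.SSG

open Equiv Filter Topology

variable {d : ℕ} {A : Type} [AddCommGroup A]

/-- Data for the construction. -/
structure PsiData (d : ℕ) (A : Type) [AddCommGroup A] where
  /-- permitted labels -/
  P : Subgroup (Perm (Fin d))
  /-- the homomorphism `P → A` -/
  lam : Perm (Fin d) → A
  lam_mul : ∀ σ ∈ P, ∀ τ ∈ P, lam (σ * τ) = lam σ + lam τ
  lam_surj : ∀ a, ∃ σ ∈ P, lam σ = a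
  /-- submodules -/
  M : ℕ → AddSubgroup (Fin d → A)
  /-- functionals -/
  mu : ℕ → (Fin d → A) → A
  mu_add : ∀ n, ∀ f ∈ M n, ∀ g ∈ M n, mu n (f + g) = mu n f + mu n g
  M_inv : ∀ n, ∀ f ∈ M n, ∀ σ ∈ P, (fun x => f (σ x)) ∈ M n
  mu_inv : ∀ n, ∀ f ∈ M n, ∀ σ ∈ P, mu n (fun x => f (σ x)) = mu n f
  mu_surj : ∀ n, ∀ a, ∃ f ∈ M n, mu n f = a

namespace PsiData

variable (D : PsiData d A)

/-- the functional on portraits -/
def psi : ℕ → (List (Fin d) → A) → A
  | 0, s => s []
  | (n + 1), s => D.mu n (fun x => psi n (fun v => s (x :: v)))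

/-- admissible vectors of level `n` -/
def VV : ℕ → (List (Fin d) → A) → Prop
  | 0, _ => True
  | (n + 1), s => (∀ x, VV n (fun v => s (x :: v))) ∧
      (fun x => D.psi n (fun v => s (x :: v))) ∈ D.M n

theorem psi_congr {n : ℕ} {s t : List (Fin d) → A} (h : ∀ v : List (Fin d), v.length = n →
    s v = t v) : D.psi n s = D.psi n t := by
  induction n generalizing s t with
  | zero => exact h [] rfl
  | succ n ih =>
    simp only [psi]
    congr 1
    funext x
    exact ih (fun v hv => h _ (by simp [hv]))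

theorem VV_congr {n : ℕ} {s t : List (Fin d) → A} (h : ∀ v : List (Fin d), v.length = n →
    s v = t v) (hs : D.VV n s) : D.VV n t := by
  induction n generalizing s t with
  | zero => trivial
  | succ n ih =>
    refine ⟨fun x => ih (fun v hv => h _ (by simp [hv])) (hs.1 x), ?_⟩
    have : (fun x => D.psi n (fun v => t (x :: v))) = (fun x => D.psi n (fun v => s (x :: v))) := by
      funext x
      exact D.psi_congr (fun v hv => (h _ (by simp [hv])).symm)
    rw [this]
    exact hs.2

theorem VV_psi_zero (n : ℕ) : D.VV n (fun _ => 0) ∧ D.psi n (fun _ => 0) = 0 := by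
  induction n with
  | zero => exact ⟨trivial, rfl⟩
  | succ n ih =>
    have h0 : (fun _ : Fin d => D.psi n (fun _ => 0)) = 0 := by
      funext x; exact ih.2
    refine ⟨⟨fun x => ih.1, ?_⟩, ?_⟩
    · show (fun _ : Fin d => D.psi n (fun _ => 0)) ∈ D.M n
      rw [h0]; exact zero_mem _
    · show D.mu n (fun _ : Fin d => D.psi n (fun _ => 0)) = 0
      rw [h0]
      have := D.mu_add n 0 (zero_mem _) 0 (zero_mem _)
      simpa using this

theorem VV_psi_add {n : ℕ} {s t : List (Fin d) → A} (hs : D.VV n s) (ht : D.VV n t) :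
    D.VV n (fun v => s v + t v) ∧
      D.psi n (fun v => s v + t v) = D.psi n s + D.psi n t := by
  induction n generalizing s t with
  | zero => exact ⟨trivial, rfl⟩
  | succ n ih =>
    have h1 : (fun x => D.psi n (fun v => s (x :: v) + t (x :: v))) =
        (fun x => D.psi n (fun v => s (x :: v))) + (fun x => D.psi n (fun v => t (x :: v))) := by
      funext x
      exact (ih (hs.1 x) (ht.1 x)).2
    refine ⟨⟨fun x => (ih (hs.1 x) (ht.1 x)).1, ?_⟩, ?_⟩
    · rw [h1]; exact add_mem hs.2 ht.2
    · show D.mu n (fun x => D.psi n (fun v => s (x :: v) + t (x :: v))) = _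
      rw [h1, D.mu_add n _ hs.2 _ ht.2]
      rfl

theorem VV_psi_neg {n : ℕ} {s : List (Fin d) → A} (hs : D.VV n s) :
    D.VV n (fun v => - s v) ∧ D.psi n (fun v => - s v) = - D.psi n s := by
  induction n generalizing s with
  | zero => exact ⟨trivial, rfl⟩
  | succ n ih =>
    have h1 : (fun x => D.psi n (fun v => - s (x :: v))) =
        - (fun x => D.psi n (fun v => s (x :: v))) := by
      funext x
      exact (ih (hs.1 x)).2
    refine ⟨⟨fun x => (ih (hs.1 x)).1, ?_⟩, ?_⟩
    · rw [h1]; exact neg_mem hs.2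
    · show D.mu n (fun x => D.psi n (fun v => - s (x :: v))) = _
      rw [h1]
      have h2 := D.mu_add n _ hs.2 _ (neg_mem hs.2)
      rw [add_neg_cancel] at h2
      have h3 := D.mu_add n 0 (zero_mem _) 0 (zero_mem _)
      have h4 : D.mu n 0 = 0 := by simpa using h3
      rw [h4] at h2
      exact (neg_eq_of_add_eq_zero_right h2.symm).symm

theorem VV_psi_comp {n : ℕ} {s : List (Fin d) → A} (hs : D.VV n s)
    {g : Perm (List (Fin d))} (hg : g ∈ treeAut d) (hP : ∀ v, label g v ∈ D.P) :
    D.VV n (fun v => s (g v)) ∧ D.psi n (fun v => s (g v)) = D.psi n s := by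
  induction n generalizing s g with
  | zero =>
    refine ⟨trivial, ?_⟩
    show s (g []) = s []
    rw [treeAut_nil hg]
  | succ n ih =>
    have hx : ∀ x, (fun v => s (g (x :: v))) =
        (fun v => (fun v => s (label g [] x :: v)) (sec g x v)) := by
      intro x
      funext v
      rw [apply_cons hg]
    have hih : ∀ x, D.VV n (fun v => s (g (x :: v))) ∧
        D.psi n (fun v => s (g (x :: v))) = D.psi n (fun v => s (label g [] x :: v)) := by
      intro x
      rw [hx x]
      exact ih (hs.1 (label g [] x)) (sec_mem _ _) (fun v => by rw [label_sec]; exact hP _)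
    have h1 : (fun x => D.psi n (fun v => s (g (x :: v)))) =
        (fun x => (fun x => D.psi n (fun v => s (x :: v))) (label g [] x)) := by
      funext x
      exact (hih x).2
    refine ⟨⟨fun x => (hih x).1, ?_⟩, ?_⟩
    · rw [h1]; exact D.M_inv n _ hs.2 _ (hP [])
    · show D.mu n (fun x => D.psi n (fun v => s (g (x :: v)))) = _
      rw [h1, D.mu_inv n _ hs.2 _ (hP [])]
      rfl

theorem lam_one : D.lam 1 = 0 := by
  have := D.lam_mul 1 (one_mem _) 1 (one_mem _)
  simpa using this

theorem lam_inv {σ : Perm (Fin d)} (h : σ ∈ D.P) : D.lam σ⁻¹ = - D.lam σ := by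
  have := D.lam_mul σ h σ⁻¹ (inv_mem h)
  rw [mul_inv_cancel, D.lam_one] at this
  exact (neg_eq_of_add_eq_zero_right this.symm).symm

/-- The group attached to the data. -/
def grp : Subgroup (Perm (List (Fin d))) where
  carrier := {g | g ∈ treeAut d ∧ (∀ v, label g v ∈ D.P) ∧
    ∀ n, D.VV n (fun v => D.lam (label g v))}
  mul_mem' := by
    rintro a b ⟨ha, hPa, hVa⟩ ⟨hb, hPb, hVb⟩
    refine ⟨mul_mem ha hb, fun v => ?_, fun n => ?_⟩
    · rw [label_mul ha hb]; exact mul_mem (hPa _) (hPb _)
    · have h1 := D.VV_psi_add (D.VV_psi_comp (hVa n) hb hPb).1 (hVb n)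
      have h2 : (fun v => D.lam (label (a * b) v)) =
          (fun v => D.lam (label a (b v)) + D.lam (label b v)) := by
        funext v
        rw [label_mul ha hb, D.lam_mul _ (hPa _) _ (hPb _)]
      rw [h2]
      exact h1.1
  one_mem' := by
    refine ⟨one_mem _, fun v => ?_, fun n => ?_⟩
    · rw [label_one]; exact one_mem _
    · have : (fun v : List (Fin d) => D.lam (label 1 v)) = fun _ => 0 := by
        funext v
        rw [label_one, D.lam_one]
      rw [this]
      exact (D.VV_psi_zero n).1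
  inv_mem' := by
    rintro a ⟨ha, hPa, hVa⟩
    have hP : ∀ v, label a⁻¹ v ∈ D.P := fun v => by
      rw [label_inv ha]; exact inv_mem (hPa _)
    refine ⟨inv_mem ha, hP, fun n => ?_⟩
    have h1 := (D.VV_psi_neg (D.VV_psi_comp (hVa n) (inv_mem ha) hP).1).1
    have h2 : (fun v => D.lam (label a⁻¹ v)) = (fun v => - D.lam (label a (a⁻¹ v))) := by
      funext v
      rw [label_inv ha, D.lam_inv (hPa _)]
    rw [h2]
    exact h1

theorem mem_grp {g : Perm (List (Fin d))} : g ∈ D.grp ↔ g ∈ treeAut d ∧
    (∀ v, label g v ∈ D.P) ∧ ∀ n, D.VV n (fun v => D.lam (label g v)) := Iff.rfl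

theorem grp_selfSimilar : IsSelfSimilar D.grp := by
  rw [isSelfSimilar_iff]
  refine ⟨fun g hg => hg.1, ?_⟩
  rintro g ⟨hg, hP, hV⟩ x
  refine ⟨sec_mem _ _, fun v => ?_, fun n => ?_⟩
  · rw [label_sec]; exact hP _
  · have : (fun v => D.lam (label (sec g x) v)) = (fun v => D.lam (label g (x :: v))) := by
      funext v; rw [label_sec]
    rw [this]
    exact (hV (n + 1)).1 x

theorem grp_trunc : ∀ g ∈ D.grp, ∀ n, trunc g n ∈ D.grp := by
  rintro g ⟨hg, hP, hV⟩ m
  refine ⟨trunc_mem _ _, fun v => ?_, fun n => ?_⟩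
  · rw [label_trunc]
    split
    · exact hP _
    · exact one_mem _
  · by_cases hn : n < m
    · refine D.VV_congr (fun v hv => ?_) (hV n)
      rw [label_trunc, if_pos (by omega)]
    · refine D.VV_congr (fun v hv => ?_) (D.VV_psi_zero n).1
      rw [label_trunc, if_neg (by omega), D.lam_one]

/-- extension by zero of a vector on level `n` -/
noncomputable def ext0 {n : ℕ} (s : Lev d n → A) : List (Fin d) → A := by
  classical
  exact fun v => if h : v.length = n then s ⟨v, h⟩ else 0

theorem ext0_apply {n : ℕ} (s : Lev d n → A) (v : Lev d n) : ext0 s v.1 = s v := by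
  unfold ext0
  rw [dif_pos v.2]

/-- admissible vectors of level `n`, as a subgroup -/
noncomputable def VS (n : ℕ) : AddSubgroup (Lev d n → A) where
  carrier := {s | D.VV n (ext0 s)}
  add_mem' := by
    intro s t hs ht
    refine D.VV_congr (fun v hv => ?_) (D.VV_psi_add hs ht).1
    simp only [ext0, hv, dif_pos, Pi.add_apply]
  zero_mem' := by
    refine D.VV_congr (fun v hv => ?_) (D.VV_psi_zero n).1
    simp only [ext0, hv, dif_pos, Pi.zero_apply]
  neg_mem' := by
    intro s hs
    refine D.VV_congr (fun v hv => ?_) (D.VV_psi_neg hs).1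
    simp only [ext0, hv, dif_pos, Pi.neg_apply]

theorem mem_VS {n : ℕ} {s : Lev d n → A} : s ∈ D.VS n ↔ D.VV n (ext0 s) := Iff.rfl

end PsiData

end Pool.Agent.SSG
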