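import Mathlib
import Pool.Agent.SSG.Psi

set_option autoImplicit false

namespace Pool.Agent.SSG

open Equiv Filter Topology

variable {d : ℕ} {A : Type} [AddCommGroup A]

/-- adding a letter in front -/
def consv {n : ℕ} (x : Fin d) (v : Lev d n) : Lev d (n + 1) := ⟨x :: v.1, by simp [v.2]⟩

theorem exists_consv {n : ℕ} (w : Lev d (n + 1)) : ∃ x v, w = consv x v := by
  obtain ⟨w, hw⟩ := w
  cases w with
  | nil => simp at hw
  | cons x v => exact ⟨x, ⟨v, by simpa using hw⟩, rfl⟩

theorem consv_inj {n : ℕ} {x y : Fin d} {v w : Lev d n} (h : consv x v = consv y w) :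
    x = y ∧ v = w := by
  have := congrArg Subtype.val h
  simp only [consv, List.cons.injEq] at this
  exact ⟨this.1, Subtype.ext this.2⟩

namespace PsiData

variable (D : PsiData d A)

theorem ext0_cons {n : ℕ} (s : Lev d (n + 1) → A) (x : Fin d) {v : List (Fin d)}
    (hv : v.length = n) : ext0 s (x :: v) = ext0 (fun v => s (consv x v)) v := by
  subst hv
  simp only [ext0, List.length_cons, dif_pos]
  rfl

theorem mem_VS_succ {n : ℕ} {s : Lev d (n + 1) → A} : s ∈ D.VS (n + 1) ↔
    (∀ x, (fun v => s (consv x v)) ∈ D.VS n) ∧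
      (fun x => D.psi n (ext0 (fun v => s (consv x v)))) ∈ D.M n := by
  have h2 : (fun x => D.psi n (fun v => ext0 s (x :: v))) =
      (fun x => D.psi n (ext0 (fun v => s (consv x v)))) := by
    funext x
    exact D.psi_congr (fun v hv => ext0_cons s x hv)
  constructor
  · intro h
    refine ⟨fun x => D.VV_congr (fun v hv => ext0_cons s x hv) (h.1 x), ?_⟩
    rw [← h2]; exact h.2
  · rintro ⟨h1, h3⟩
    refine ⟨fun x => D.VV_congr (fun v hv => (ext0_cons s x hv).symm) (h1 x), ?_⟩
    rw [h2]; exact h3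

theorem ext0_psi_add {n : ℕ} {s t : Lev d n → A} (hs : s ∈ D.VS n) (ht : t ∈ D.VS n) :
    D.psi n (ext0 (s + t)) = D.psi n (ext0 s) + D.psi n (ext0 t) := by
  rw [← (D.VV_psi_add hs ht).2]
  apply D.psi_congr
  intro v hv
  simp only [ext0, hv, dif_pos, Pi.add_apply]

/-- glue vectors on the subtrees -/
theorem exists_glue_vec {n : ℕ} (t : Fin d → (Lev d n → A)) :
    ∃ s : Lev d (n + 1) → A, ∀ x, (fun v => s (consv x v)) = t x := by
  classical
  refine ⟨fun w => t (w.1.head (by intro h; have := w.2; rw [h] at this; simp at this))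
    ⟨w.1.tail, by simp [w.2]⟩, fun x => ?_⟩
  funext v
  rfl

theorem psi_surj (n : ℕ) : ∀ a, ∃ s ∈ D.VS n, D.psi n (ext0 s) = a := by
  induction n with
  | zero => exact fun a => ⟨fun _ => a, trivial, by simp [psi, ext0]⟩
  | succ n ih =>
    intro a
    obtain ⟨f, hf, hfa⟩ := D.mu_surj n a
    choose t ht ht' using fun x => ih (f x)
    obtain ⟨s, hs⟩ := exists_glue_vec t
    have h2 : (fun x => D.psi n (ext0 (fun v => s (consv x v)))) = f := by
      funext x
      rw [hs x, ht' x]
    refine ⟨s, ?_, ?_⟩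
    · rw [mem_VS_succ]
      refine ⟨fun x => ?_, ?_⟩
      · rw [hs x]; exact ht x
      · rw [h2]; exact hf
    · show D.mu n (fun x => D.psi n (fun v => ext0 s (x :: v))) = a
      have h3 : (fun x => D.psi n (fun v => ext0 s (x :: v))) = f := by
        rw [← h2]
        funext x
        exact D.psi_congr (fun v hv => ext0_cons s x hv)
      rw [h3, hfa]

/-- The family of functionals on the subtrees. -/
noncomputable def Phi (n : ℕ) : (Fin d → D.VS n) →+ (Fin d → A) where
  toFun t := fun x => D.psi n (ext0 (t x).1)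
  map_zero' := by
    funext x
    have : D.psi n (ext0 (0 : Lev d n → A)) = 0 := by
      rw [← (D.VV_psi_zero n).2]
      apply D.psi_congr
      intro v hv
      simp only [ext0, hv, dif_pos, Pi.zero_apply]
    exact this
  map_add' s t := by
    funext x
    exact D.ext0_psi_add (s x).2 (t x).2

theorem Phi_surjective (n : ℕ) : Function.Surjective (D.Phi n) := by
  intro f
  choose t ht ht' using fun x => D.psi_surj n (f x)
  exact ⟨fun x => ⟨t x, ht x⟩, funext ht'⟩

theorem card_VS_succ [Finite A] (n : ℕ) :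
    Nat.card (D.VS (n + 1)) * (D.M n).index = Nat.card (D.VS n) ^ d := by
  have h1 : Nat.card (D.VS (n + 1)) = Nat.card ((D.M n).comap (D.Phi n)) := by
    let F : D.VS (n + 1) → (D.M n).comap (D.Phi n) := fun s =>
      ⟨fun x => ⟨fun v => s.1 (consv x v), (D.mem_VS_succ.1 s.2).1 x⟩,
        (D.mem_VS_succ.1 s.2).2⟩
    refine Nat.card_congr (Equiv.ofBijective F ⟨?_, ?_⟩)
    · intro s t h
      apply Subtype.ext
      funext w
      obtain ⟨x, v, rfl⟩ := exists_consv w
      have h1 := congrFun (congrArg Subtype.val h) x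
      exact congrFun (congrArg Subtype.val h1) v
    · rintro ⟨t, ht⟩
      obtain ⟨s, hs⟩ := exists_glue_vec (fun x => (t x).1)
      refine ⟨⟨s, D.mem_VS_succ.2 ⟨fun x => ?_, ?_⟩⟩, ?_⟩
      · rw [hs x]; exact (t x).2
      · have : (fun x => D.psi n (ext0 (fun v => s (consv x v)))) = D.Phi n t := by
          funext x
          rw [hs x]
          rfl
        rw [this]
        exact ht
      · apply Subtype.ext
        funext x
        apply Subtype.ext
        exact hs x
  have h2 : ((D.M n).comap (D.Phi n)).index = (D.M n).index :=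
    AddSubgroup.index_comap_of_surjective _ (D.Phi_surjective n)
  rw [h1, ← h2, AddSubgroup.card_mul_index, Nat.card_fun, Nat.card_eq_fintype_card (α := Fin d),
    Fintype.card_fin]

theorem card_VS_zero : Nat.card (D.VS 0) = Nat.card A := by
  have h1 : D.VS 0 = ⊤ := by
    rw [eq_top_iff]
    intro s _
    trivial
  rw [h1, AddSubgroup.card_top, Nat.card_fun, card_lev]
  simp

/-- size of the admissible vectors, when the `n`-th submodule has index `|A| ^ (j n)` -/
theorem log_card_VS [Finite A] (hd : 2 ≤ d) (j : ℕ → ℕ)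
    (hj : ∀ n, (D.M n).index = Nat.card A ^ j n) (n : ℕ) :
    Real.log (Nat.card (D.VS n)) = Real.log (Nat.card A) *
      (1 - ∑ i ∈ Finset.range n, (j i : ℝ) / (d : ℝ) ^ (i + 1)) * (d : ℝ) ^ n := by
  have hd0 : (d : ℝ) ≠ 0 := by positivity
  induction n with
  | zero => rw [card_VS_zero]; simp
  | succ n ih =>
    have h1 := congrArg (fun m : ℕ => Real.log m) (D.card_VS_succ n)
    simp only [Nat.cast_mul, Nat.cast_pow] at h1
    have hA : 0 < Nat.card A := Nat.card_pos
    have hV : 0 < Nat.card (D.VS (n + 1)) := Nat.card_pos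
    rw [hj n, Real.log_mul (by positivity) (by positivity), Real.log_pow, ih] at h1
    push_cast at h1
    rw [Real.log_pow] at h1
    rw [Finset.sum_range_succ]
    have h2 : Real.log (Nat.card (D.VS (n + 1))) = d * (Real.log (Nat.card A) *
      (1 - ∑ i ∈ Finset.range n, (j i : ℝ) / (d : ℝ) ^ (i + 1)) * (d : ℝ) ^ n) -
      j n * Real.log (Nat.card A) := by linarith
    rw [h2]
    field_simp
    ring

/-- the `P`-labelled vectors -/
theorem mem_levK_grp {n : ℕ} {k : Lev d n → Perm (Fin d)} : k ∈ levK D.grp n ↔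
    (∀ v, k v ∈ D.P) ∧ (fun v => D.lam (k v)) ∈ D.VS n := by
  classical
  constructor
  · intro hk
    obtain ⟨g, hg, hs, h⟩ := mem_levK.1 hk
    refine ⟨fun v => by rw [← h v]; exact hg.2.1 _, ?_⟩
    refine D.VV_congr (fun v hv => ?_) (hg.2.2 n)
    simp only [ext0, hv, dif_pos]
    rw [← h ⟨v, hv⟩]
  · rintro ⟨hP, hV⟩
    rw [mem_levK]
    refine ⟨ofLabels (fun v => if h : v.length = n then k ⟨v, h⟩ else 1),
      ⟨ofLabels_mem _, fun v => ?_, fun m => ?_⟩, ?_, fun v => ?_⟩
    · rw [label_ofLabels]
      split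
      · exact hP _
      · exact one_mem _
    · by_cases hm : m = n
      · subst hm
        refine D.VV_congr (fun v hv => ?_) hV
        rw [label_ofLabels]
        simp only [ext0, hv, dif_pos]
      · refine D.VV_congr (fun v hv => ?_) (D.VV_psi_zero m).1
        rw [label_ofLabels, dif_neg (by omega), D.lam_one]
    · rw [mem_St_iff_label (ofLabels_mem _)]
      intro v hv
      rw [label_ofLabels, dif_neg (by omega)]
    · rw [label_ofLabels, dif_pos v.2]

theorem card_levK_grp [Finite A] (n : ℕ) : Nat.card (levK D.grp n) * Nat.card A ^ d ^ n =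
    Nat.card D.P ^ d ^ n * Nat.card (D.VS n) := by
  -- the homomorphism on `P`-labelled vectors
  let f : (Lev d n → D.P) →* Multiplicative (Lev d n → A) :=
    { toFun := fun k => Multiplicative.ofAdd (fun v => D.lam (k v).1)
      map_one' := by
        show Multiplicative.ofAdd _ = _
        rw [← ofAdd_zero]
        congr 1
        funext v
        exact D.lam_one
      map_mul' := by
        intro k l
        rw [← ofAdd_add]
        congr 1
        funext v
        exact D.lam_mul _ (k v).2 _ (l v).2 }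
  have hf : Function.Surjective f := by
    intro s
    choose k hk hk' using fun v => D.lam_surj (Multiplicative.toAdd s v)
    refine ⟨fun v => ⟨k v, hk v⟩, ?_⟩
    show Multiplicative.ofAdd (fun v => D.lam (k v)) = s
    rw [funext hk']
    rfl
  let V : Subgroup (Multiplicative (Lev d n → A)) := AddSubgroup.toSubgroup (D.VS n)
  have h1 : (V.comap f).index = V.index := Subgroup.index_comap_of_surjective _ hf
  have h2 : Nat.card (V.comap f) = Nat.card (levK D.grp n) := by
    refine Nat.card_congr ⟨fun k => ⟨fun v => (k.1 v).1, ?_⟩,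
      fun k => ⟨fun v => ⟨k.1 v, (D.mem_levK_grp.1 k.2).1 v⟩, ?_⟩, ?_, ?_⟩
    · rw [mem_levK_grp]
      exact ⟨fun v => (k.1 v).2, k.2⟩
    · exact (D.mem_levK_grp.1 k.2).2
    · intro k; rfl
    · intro k; rfl
  have h3 := Subgroup.card_mul_index (V.comap f)
  have h4 := Subgroup.card_mul_index V
  have h5 : Nat.card V = Nat.card (D.VS n) := rfl
  have h6 : Nat.card (Multiplicative (Lev d n → A)) = Nat.card A ^ d ^ n := by
    have : Nat.card (Multiplicative (Lev d n → A)) = Nat.card (Lev d n → A) := rfl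
    rw [this, Nat.card_fun, card_lev]
  have h7 : Nat.card (Lev d n → D.P) = Nat.card D.P ^ d ^ n := by
    rw [Nat.card_fun, card_lev]
  rw [h2, h1, h7] at h3
  rw [h5, h6] at h4
  rw [← h4, ← h3]
  ring

theorem lk_grp [Finite A] (hd : 2 ≤ d) (j : ℕ → ℕ)
    (hj : ∀ n, (D.M n).index = Nat.card A ^ j n) (n : ℕ) :
    lk D.grp n = Real.log (Nat.card D.P) -
      Real.log (Nat.card A) * ∑ i ∈ Finset.range n, (j i : ℝ) / (d : ℝ) ^ (i + 1) := by
  have h1 := congrArg (fun m : ℕ => Real.log m) (D.card_levK_grp n)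
  simp only [Nat.cast_mul, Nat.cast_pow] at h1
  have hA : 0 < Nat.card A := Nat.card_pos
  have hP : 0 < Nat.card D.P := Nat.card_pos
  have hV : 0 < Nat.card (D.VS n) := Nat.card_pos
  have hK := card_levK_pos D.grp n
  rw [Real.log_mul (by positivity) (by positivity), Real.log_mul (by positivity) (by positivity),
    Real.log_pow, Real.log_pow, D.log_card_VS hd j hj n] at h1
  push_cast at h1
  have hd0 : (d : ℝ) ^ n ≠ 0 := by positivity
  unfold lk
  rw [div_eq_iff hd0]
  linarith

theorem tendsto_lk_grp [Finite A] (hd : 2 ≤ d) (j : ℕ → ℕ)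
    (hj : ∀ n, (D.M n).index = Nat.card A ^ j n) {c : ℝ}
    (hc : HasSum (fun i => (j i : ℝ) / (d : ℝ) ^ (i + 1)) c) :
    Tendsto (lk D.grp) atTop (𝓝 (Real.log (Nat.card D.P) - Real.log (Nat.card A) * c)) := by
  have h1 := (hc.tendsto_sum_nat.const_mul (Real.log (Nat.card A))).const_sub
    (Real.log (Nat.card D.P))
  apply h1.congr
  intro n
  rw [D.lk_grp hd j hj n]

end PsiData

end Pool.Agent.SSG
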