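import Mathlib
import Pool.Agent.SSG.PsiCount
import Pool.Agent.SSG.Cantor

set_option autoImplicit false

namespace Pool.Agent.SSG

open Equiv Filter Topology

variable {d : ℕ}

/-- the constant vectors -/
def constV (d : ℕ) (A : Type) [AddCommGroup A] : AddSubgroup (Fin d → A) where
  carrier := {f | ∀ x y, f x = f y}
  add_mem' := by
    intro f g hf hg x y
    simp only [Pi.add_apply, hf x y, hg x y]
  zero_mem' := fun _ _ => rfl
  neg_mem' := by
    intro f hf x y
    simp only [Pi.neg_apply, hf x y]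

theorem index_constV (hd : 0 < d) (A : Type) [AddCommGroup A] [Finite A] :
    (constV d A).index = Nat.card A ^ (d - 1) := by
  have h1 : Nat.card (constV d A) = Nat.card A := by
    refine Nat.card_congr ⟨fun f => f.1 ⟨0, hd⟩, fun a => ⟨fun _ => a, fun _ _ => rfl⟩, ?_, ?_⟩
    · intro f
      apply Subtype.ext
      funext x
      exact f.2 _ _
    · intro a; rfl
  have h2 := AddSubgroup.card_mul_index (constV d A)
  rw [h1, Nat.card_fun, Nat.card_eq_fintype_card (α := Fin d), Fintype.card_fin] at h2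
  have h3 : Nat.card A ^ d = Nat.card A * Nat.card A ^ (d - 1) := by
    rw [← pow_succ', Nat.sub_add_cancel hd]
  rw [h3] at h2
  exact Nat.eq_of_mul_eq_mul_left Nat.card_pos h2

open scoped Classical in
/-- Data with digits `0` and `d-1` for a given homomorphism to `A`. -/
noncomputable def cantorData (hd : 0 < d) (A : Type) [AddCommGroup A]
    (P : Subgroup (Perm (Fin d))) (lam : Perm (Fin d) → A)
    (lam_mul : ∀ σ ∈ P, ∀ τ ∈ P, lam (σ * τ) = lam σ + lam τ)
    (lam_surj : ∀ a, ∃ σ ∈ P, lam σ = a) (b : ℕ → Bool) : PsiData d A where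
  P := P
  lam := lam
  lam_mul := lam_mul
  lam_surj := lam_surj
  M := fun n => if b n then constV d A else ⊤
  mu := fun n f => if b n then f ⟨0, hd⟩ else ∑ x, f x
  mu_add := by
    intro n f _ g _
    split
    · rfl
    · simp [Finset.sum_add_distrib]
  M_inv := by
    intro n f hf σ _
    split
    · rename_i h
      rw [if_pos h] at hf
      exact fun x y => hf _ _
    · trivial
  mu_inv := by
    intro n f hf σ _
    split
    · rename_i h
      rw [if_pos h] at hf
      exact hf _ _
    · exact Equiv.sum_comp σ f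
  mu_surj := by
    intro n a
    split
    · exact ⟨fun _ => a, fun _ _ => rfl, rfl⟩
    · refine ⟨Pi.single ⟨0, hd⟩ a, trivial, ?_⟩
      simp

theorem cantorData_hasSum (hd : 2 ≤ d) (b : ℕ → Bool) :
    HasSum (fun i => (((if b i then d - 1 else 0 : ℕ) : ℝ)) / (d : ℝ) ^ (i + 1))
      (∑' n, cterm d b n) := by
  have h := (summable_cterm hd b).hasSum
  convert h using 1
  funext i
  unfold cterm
  split
  · rw [Nat.cast_sub (by omega)]; simp
  · simp

/-- The upper Cantor part is realised. -/
theorem realize_cantor (hd : 2 ≤ d) {c : ℝ} (hc : c ∈ cantor d) :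
    ∃ G : Subgroup (Perm (List (Fin d))), IsContracting G ∧
      hdim (treeClosure (G : Set (Perm (List (Fin d))))) =
        1 - Real.log 2 / Real.log d.factorial * c := by
  classical
  obtain ⟨b, rfl⟩ := hc
  have hnt : Nontrivial (Fin d) := Fin.nontrivial_iff_two_le.2 hd
  let D := cantorData (by omega : 0 < d) (Additive ℤˣ) (⊤ : Subgroup (Perm (Fin d)))
    (fun σ => Additive.ofMul (Perm.sign σ))
    (fun σ _ τ _ => by rw [map_mul, ofMul_mul])
    (fun a => by
      obtain ⟨σ, hσ⟩ := Perm.sign_surjective (Fin d) a.toMul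
      exact ⟨σ, trivial, by rw [hσ]; rfl⟩) b
  have hA : Nat.card (Additive ℤˣ) = 2 := by
    have : Nat.card (Additive ℤˣ) = Nat.card ℤˣ := rfl
    rw [this]; simp
  have hj : ∀ n, (D.M n).index = Nat.card (Additive ℤˣ) ^ (if b n then d - 1 else 0) := by
    intro n
    show (if b n then constV d (Additive ℤˣ) else ⊤ : AddSubgroup _).index = _
    split
    · exact index_constV (by omega) _
    · simp
  have hlim := D.tendsto_lk_grp hd _ hj (cantorData_hasSum hd b)
  obtain ⟨G, hG, hG2⟩ := realize hd D.grp_selfSimilar D.grp_trunc hlim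
  refine ⟨G, hG, ?_⟩
  rw [hG2]
  have hP : Nat.card D.P = d.factorial := by
    show Nat.card (⊤ : Subgroup (Perm (Fin d))) = _
    rw [Subgroup.card_top, Nat.card_eq_fintype_card, Fintype.card_perm, Fintype.card_fin]
  have hlog : 0 < Real.log d.factorial := by
    apply Real.log_pos
    have : 2 ≤ d.factorial := by
      calc 2 = Nat.factorial 2 := rfl
        _ ≤ d.factorial := Nat.factorial_le (by omega)
    exact_mod_cast this
  rw [hP, hA]
  push_cast
  field_simp

/-- digits for `d = 3` -/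
def M3 (a : Fin 3) : AddSubgroup (Fin 3 → ZMod 3) :=
  if a = 0 then ⊤ else if a = 1 then
    { carrier := {f | f 0 + f 1 + f 2 = 0}
      add_mem' := by
        intro f g hf hg
        show (f 0 + g 0) + (f 1 + g 1) + (f 2 + g 2) = 0
        have hf' : f 0 + f 1 + f 2 = 0 := hf
        have hg' : g 0 + g 1 + g 2 = 0 := hg
        linear_combination hf' + hg'
      zero_mem' := by show (0 : ZMod 3) + 0 + 0 = 0; simp
      neg_mem' := by
        intro f hf
        have hf' : f 0 + f 1 + f 2 = 0 := hf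
        show -f 0 + -f 1 + -f 2 = 0
        linear_combination -hf' }
  else constV 3 (ZMod 3)

/-- functionals for `d = 3` -/
def mu3 (a : Fin 3) (f : Fin 3 → ZMod 3) : ZMod 3 :=
  if a = 0 then f 0 + f 1 + f 2 else if a = 1 then f 1 - f 0 else f 0

theorem mem_M3 (a : Fin 3) (f : Fin 3 → ZMod 3) : f ∈ M3 a ↔
    (a = 0 ∨ (a = 1 ∧ f 0 + f 1 + f 2 = 0) ∨ (a = 2 ∧ f 0 = f 1 ∧ f 1 = f 2)) := by
  unfold M3
  fin_cases a
  · simp
  · simp only [Fin.mk_one, one_ne_zero, if_false, if_true]
    constructor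
    · intro h; exact Or.inr (Or.inl ⟨trivial, h⟩)
    · rintro (h | ⟨_, h⟩ | ⟨h, _⟩)
      · exact absurd h (by decide)
      · exact h
      · exact absurd h (by decide)
  · have e1 : ¬ ((⟨2, by norm_num⟩ : Fin 3) = 0) := by decide
    have e2 : ¬ ((⟨2, by norm_num⟩ : Fin 3) = 1) := by decide
    rw [if_neg e1, if_neg e2]
    constructor
    · intro h; exact Or.inr (Or.inr ⟨rfl, h 0 1, h 1 2⟩)
    · rintro (h | ⟨h, _⟩ | ⟨_, h1, h2⟩)
      · exact absurd h (by decide)
      · exact absurd h (by decide)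
      · intro x y
        fin_cases x <;> fin_cases y <;> simp [h1, h2]

theorem index_M3 (a : Fin 3) : (M3 a).index = Nat.card (ZMod 3) ^ (a : ℕ) := by
  have h3 : Nat.card (ZMod 3) = 3 := by simp
  fin_cases a
  · show (⊤ : AddSubgroup (Fin 3 → ZMod 3)).index = _
    simp
  · -- kernel of the sum
    let φ : (Fin 3 → ZMod 3) →+ ZMod 3 :=
      { toFun := fun f => f 0 + f 1 + f 2
        map_zero' := by simp
        map_add' := by
          intro f g
          simp only [Pi.add_apply]
          ring }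
    have h1 : M3 1 = φ.ker := by
      ext f
      rw [mem_M3, AddMonoidHom.mem_ker]
      constructor
      · rintro (h | ⟨_, h⟩ | ⟨h, _⟩)
        · exact absurd h (by decide)
        · exact h
        · exact absurd h (by decide)
      · intro h; exact Or.inr (Or.inl ⟨rfl, h⟩)
    have h2 : Function.Surjective φ := fun a => ⟨Pi.single 0 a, by simp [φ]⟩
    show (M3 1).index = _
    rw [h1, AddSubgroup.index_ker, AddMonoidHom.range_eq_top.2 h2, AddSubgroup.card_top, h3]
    rfl
  · have := index_constV (d := 3) (by norm_num) (ZMod 3)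
    exact this

theorem shift3 (σ : Perm (Fin 3)) (h : Perm.sign σ = 1) :
    (σ 0 = 0 ∧ σ 1 = 1 ∧ σ 2 = 2) ∨ (σ 0 = 1 ∧ σ 1 = 2 ∧ σ 2 = 0) ∨
      (σ 0 = 2 ∧ σ 1 = 0 ∧ σ 2 = 1) := by
  revert σ
  decide +kernel

theorem lam3_mul : ∀ σ : Perm (Fin 3), Perm.sign σ = 1 → ∀ τ : Perm (Fin 3), Perm.sign τ = 1 →
    ((σ * τ) 0 : ZMod 3) = (σ 0 : ZMod 3) + (τ 0 : ZMod 3) := by
  decide +kernel

theorem lam3_surj : ∀ a : Fin 3, ∃ σ : Perm (Fin 3), Perm.sign σ = 1 ∧ σ 0 = a := by
  decide +kernel

theorem mu3_inv_aux : ∀ a b c : ZMod 3, a + b + c = 0 → (c - b = b - a ∧ a - c = b - a) := by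
  decide

/-- Data for `d = 3`. -/
def data3 (a : ℕ → Fin 3) : PsiData 3 (ZMod 3) where
  P := alternatingGroup (Fin 3)
  lam := fun σ => (σ 0 : ZMod 3)
  lam_mul := fun σ hσ τ hτ => lam3_mul σ (Perm.mem_alternatingGroup.1 hσ) τ
    (Perm.mem_alternatingGroup.1 hτ)
  lam_surj := fun x => by
    obtain ⟨σ, h1, h2⟩ := lam3_surj (x : Fin 3)
    exact ⟨σ, Perm.mem_alternatingGroup.2 h1, h2⟩
  M := fun n => M3 (a n)
  mu := fun n => mu3 (a n)
  mu_add := by
    intro n f _ g _
    unfold mu3
    simp only [Pi.add_apply]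
    split
    · ring
    · split
      · ring
      · rfl
  M_inv := by
    intro n f hf σ hσ
    rw [mem_M3] at hf ⊢
    rcases shift3 σ (Perm.mem_alternatingGroup.1 hσ) with ⟨h0, h1, h2⟩ | ⟨h0, h1, h2⟩ |
      ⟨h0, h1, h2⟩
    · simp only [h0, h1, h2]; exact hf
    · simp only [h0, h1, h2]
      rcases hf with h | ⟨h, h'⟩ | ⟨h, h', h''⟩
      · exact Or.inl h
      · exact Or.inr (Or.inl ⟨h, by rw [← h']; ring⟩)
      · exact Or.inr (Or.inr ⟨h, h'', by rw [← h'', ← h']⟩)
    · simp only [h0, h1, h2]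
      rcases hf with h | ⟨h, h'⟩ | ⟨h, h', h''⟩
      · exact Or.inl h
      · exact Or.inr (Or.inl ⟨h, by rw [← h']; ring⟩)
      · exact Or.inr (Or.inr ⟨h, by rw [← h'', ← h'], h'⟩)
  mu_inv := by
    intro n f hf σ hσ
    rw [mem_M3] at hf
    unfold mu3
    rcases shift3 σ (Perm.mem_alternatingGroup.1 hσ) with ⟨h0, h1, h2⟩ | ⟨h0, h1, h2⟩ |
      ⟨h0, h1, h2⟩
    · simp only [h0, h1, h2]
    · simp only [h0, h1, h2]
      split
      · ring
      · rename_i hn
        split
        · rename_i hn'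
          rcases hf with h | ⟨h, h'⟩ | ⟨h, h', h''⟩
          · exact absurd h hn
          · exact (mu3_inv_aux _ _ _ h').1
          · rw [h] at hn'; exact absurd hn' (by decide)
        · rename_i hn'
          rcases hf with h | ⟨h, h'⟩ | ⟨h, h', h''⟩
          · exact absurd h hn
          · exact absurd h hn'
          · exact h'.symm
    · simp only [h0, h1, h2]
      split
      · ring
      · rename_i hn
        split
        · rename_i hn'
          rcases hf with h | ⟨h, h'⟩ | ⟨h, h', h''⟩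
          · exact absurd h hn
          · exact (mu3_inv_aux _ _ _ h').2
          · rw [h] at hn'; exact absurd hn' (by decide)
        · rename_i hn'
          rcases hf with h | ⟨h, h'⟩ | ⟨h, h', h''⟩
          · exact absurd h hn
          · exact absurd h hn'
          · rw [← h'', ← h']
  mu_surj := by
    intro n x
    have key : ∀ (e : Fin 3) (x : ZMod 3), ∃ f ∈ M3 e, mu3 e f = x := by
      intro e x
      fin_cases e
      · exact ⟨Pi.single 0 x, trivial, by simp [mu3]⟩
      · refine ⟨![0, x, -x], ?_, ?_⟩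
        · rw [mem_M3]
          right; left
          exact ⟨rfl, by simp⟩
        · simp [mu3]
      · exact ⟨fun _ => x, fun _ _ => rfl, by simp [mu3]⟩
    exact key (a n) x

theorem card_alt3 : Nat.card (alternatingGroup (Fin 3)) = 3 := by
  have := alternatingGroup.index_eq_two (α := Fin 3)
  have h2 := Subgroup.card_mul_index (alternatingGroup (Fin 3))
  rw [this, Nat.card_eq_fintype_card (α := Perm (Fin 3)), Fintype.card_perm,
    Fintype.card_fin] at h2
  have h3 : (3 : ℕ).factorial = 6 := rfl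
  omega

/-- For `d = 3` all of `[0, log 3 / log 6]` is realised. -/
theorem realize_three {τ : ℝ} (hτ : τ ∈ Set.Icc (0 : ℝ) 1) :
    ∃ G : Subgroup (Perm (List (Fin 3))), IsContracting G ∧
      hdim (treeClosure (G : Set (Perm (List (Fin 3))))) =
        Real.log 3 * τ / Real.log (Nat.factorial 3) := by
  have hτ' : 1 - τ ∈ Set.Icc (0 : ℝ) 1 := ⟨by linarith [hτ.2], by linarith [hτ.1]⟩
  obtain ⟨a, -, ha⟩ := Real.ofDigits_SurjOn (b := 3) (by norm_num) hτ'
  have hc : HasSum (fun i => (((a i : ℕ) : ℝ)) / ((3 : ℕ) : ℝ) ^ (i + 1)) (1 - τ) := by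
    have := (Real.summable_ofDigitsTerm (digits := a)).hasSum
    unfold Real.ofDigits at ha
    rw [ha] at this
    have e : (fun i => (((a i : ℕ) : ℝ)) / ((3 : ℕ) : ℝ) ^ (i + 1)) = Real.ofDigitsTerm a := by
      funext i
      unfold Real.ofDigitsTerm
      rw [div_eq_mul_inv]
    rw [e]
    exact this
  have hj : ∀ n, ((data3 a).M n).index = Nat.card (ZMod 3) ^ ((a n : ℕ)) :=
    fun n => index_M3 (a n)
  have hlim := (data3 a).tendsto_lk_grp (by norm_num) _ hj hc
  obtain ⟨G, hG, hG2⟩ := realize (by norm_num) (data3 a).grp_selfSimilar (data3 a).grp_trunc hlim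
  refine ⟨G, hG, ?_⟩
  rw [hG2]
  have hP : Nat.card (data3 a).P = 3 := card_alt3
  have hA : Nat.card (ZMod 3) = 3 := by simp
  rw [hP, hA]
  congr 1
  push_cast
  ring

end Pool.Agent.SSG
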