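import Mathlib

set_option autoImplicit false

namespace Pool.Agent.SSG

open Equiv

theorem card_le_of_not_alt {d : ℕ} (hd : 5 ≤ d) (H : Subgroup (Perm (Fin d)))
    (h : ¬ alternatingGroup (Fin d) ≤ H) : Nat.card H ≤ (d - 1).factorial := by
  have hcard : Nat.card (Perm (Fin d)) = d.factorial := by
    rw [Nat.card_eq_fintype_card, Fintype.card_perm, Fintype.card_fin]
  have hfac : d.factorial = d * (d - 1).factorial := (Nat.mul_factorial_pred (by omega)).symm
  have hidx : d ≤ H.index := by
    by_contra hlt
    push Not at hlt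
    have h1 : H.normalCore.index ∣ H.index.factorial := by
      rw [Subgroup.normalCore_eq_ker, Subgroup.index_ker, Subgroup.index_eq_card, ← Nat.card_perm]
      exact Subgroup.card_subgroup_dvd_card _
    have h2 : H.normalCore.index ≤ (d - 1).factorial :=
      (Nat.le_of_dvd (Nat.factorial_pos _) h1).trans (Nat.factorial_le (by omega))
    have h3 : H.normalCore ≠ ⊥ := by
      intro h0
      rw [h0, Subgroup.index_bot, hcard, hfac] at h2
      have := Nat.factorial_pos (d - 1)
      nlinarith
    have h4 : Nontrivial H.normalCore := (Subgroup.nontrivial_iff_ne_bot _).2 h3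
    have h5 := Equiv.Perm.alternatingGroup_le_of_normal (α := Fin d) (by simpa using hd) h4
    exact h (h5.trans H.normalCore_le)
  have h6 : Nat.card H * H.index = d * (d - 1).factorial := by
    rw [Subgroup.card_mul_index, hcard, hfac]
  by_contra hlt
  push Not at hlt
  have := Nat.factorial_pos (d - 1)
  nlinarith

theorem card_le_two_of_inf_alt {d : ℕ} (P : Subgroup (Perm (Fin d)))
    (h : P ⊓ alternatingGroup (Fin d) = ⊥) : Nat.card P ≤ 2 := by
  let f : P → ℤˣ := fun p => Perm.sign p.1
  have hf : Function.Injective f := by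
    intro a b hab
    have h1 : a.1 * b.1⁻¹ ∈ P ⊓ alternatingGroup (Fin d) := by
      refine Subgroup.mem_inf.2 ⟨mul_mem a.2 (inv_mem b.2), ?_⟩
      have hab' : Perm.sign a.1 = Perm.sign b.1 := hab
      rw [Perm.mem_alternatingGroup, map_mul, map_inv, hab', mul_inv_cancel]
    rw [h, Subgroup.mem_bot] at h1
    exact Subtype.ext (mul_inv_eq_one.1 h1)
  have := Nat.card_le_card_of_injective f hf
  simpa using this

/-- The key bound for `d ≥ 5`. -/
theorem perm_key_five {d : ℕ} (hd : 5 ≤ d) (Q P P' M : Subgroup (Perm (Fin d)))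
    (hP : P ≤ Q) (hP' : P' ≤ Q) (hn : ∀ q ∈ Q, ∀ p ∈ P, q * p * q⁻¹ ∈ P)
    (hn' : ∀ q ∈ Q, ∀ p ∈ P', q * p * q⁻¹ ∈ P') (hc : ⁅P, P'⁆ ≤ M)
    (hM : ¬ alternatingGroup (Fin d) ≤ M) :
    Nat.card P * Nat.card P' ≤ (d - 1).factorial ^ 2 := by
  have hcard : Nat.card (Perm (Fin d)) = d.factorial := by
    rw [Nat.card_eq_fintype_card, Fintype.card_perm, Fintype.card_fin]
  have hfac : d.factorial = d * (d - 1).factorial := (Nat.mul_factorial_pred (by omega)).symm
  by_cases hQ : alternatingGroup (Fin d) ≤ Q
  · -- a subgroup normalised by the alternating group that does not contain it is small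
    have small : ∀ R : Subgroup (Perm (Fin d)), (∀ q ∈ Q, ∀ p ∈ R, q * p * q⁻¹ ∈ R) →
        ¬ alternatingGroup (Fin d) ≤ R → Nat.card R ≤ 2 := by
      intro R hR hAR
      apply card_le_two_of_inf_alt
      have hnorm : (R.subgroupOf (alternatingGroup (Fin d))).Normal := by
        constructor
        intro n hn g
        rw [Subgroup.mem_subgroupOf] at hn ⊢
        exact hR g.1 (hQ g.2) n.1 hn
      have hsimple : IsSimpleGroup (alternatingGroup (Fin d)) :=
        alternatingGroup.isSimpleGroup (by simpa using hd)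
      rcases hnorm.eq_bot_or_eq_top with h0 | h0
      · rw [Subgroup.subgroupOf_eq_bot, disjoint_iff] at h0
        exact h0
      · rw [Subgroup.subgroupOf_eq_top] at h0
        exact absurd h0 hAR
    have big : ∀ R : Subgroup (Perm (Fin d)), Nat.card R ≤ d * (d - 1).factorial := by
      intro R
      rw [← hfac, ← hcard]
      exact Subgroup.card_le_card_group R
    have hnum : 2 * (d * (d - 1).factorial) ≤ (d - 1).factorial ^ 2 := by
      have h1 : 2 * d ≤ (d - 1).factorial := by
        obtain ⟨e, rfl⟩ : ∃ e, d = e + 5 := ⟨d - 5, by omega⟩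
        have : (e + 5 - 1).factorial = (e + 4) * ((e + 3) * (e + 2).factorial) := by
          rw [show e + 5 - 1 = (e + 3) + 1 by omega, Nat.factorial_succ,
            show e + 3 = (e + 2) + 1 by omega, Nat.factorial_succ]
        rw [this]
        have h2 : 1 ≤ (e + 2).factorial := Nat.factorial_pos _
        calc 2 * (e + 5) ≤ (e + 4) * ((e + 3) * 1) := by nlinarith [Nat.zero_le e]
          _ ≤ (e + 4) * ((e + 3) * (e + 2).factorial) := by gcongr
      nlinarith [Nat.factorial_pos (d - 1)]
    by_cases h1 : alternatingGroup (Fin d) ≤ P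
    · by_cases h2 : alternatingGroup (Fin d) ≤ P'
      · exfalso
        apply hM
        have h3 : ⁅alternatingGroup (Fin d), alternatingGroup (Fin d)⁆ =
            alternatingGroup (Fin d) := by
          rw [← Subgroup.map_subtype_commutator,
            commutator_alternatingGroup_eq_top (by simpa using hd), ← MonoidHom.range_eq_map,
            Subgroup.range_subtype]
        calc alternatingGroup (Fin d)
            = ⁅alternatingGroup (Fin d), alternatingGroup (Fin d)⁆ := h3.symm
          _ ≤ ⁅P, P'⁆ := Subgroup.commutator_mono h1 h2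
          _ ≤ M := hc
      · have := small P' hn' h2
        have := big P
        calc Nat.card P * Nat.card P' ≤ (d * (d - 1).factorial) * 2 := by gcongr
          _ = 2 * (d * (d - 1).factorial) := by ring
          _ ≤ _ := hnum
    · have := small P hn h1
      have := big P'
      calc Nat.card P * Nat.card P' ≤ 2 * (d * (d - 1).factorial) := by gcongr
        _ ≤ _ := hnum
  · have hq := card_le_of_not_alt hd Q hQ
    have h1 : Nat.card P ≤ Nat.card Q := Subgroup.card_le_of_le hP
    have h2 : Nat.card P' ≤ Nat.card Q := Subgroup.card_le_of_le hP'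
    calc Nat.card P * Nat.card P' ≤ (d - 1).factorial * (d - 1).factorial := by
          gcongr <;> omega
      _ = _ := (sq _).symm

theorem perm3_aux : ∀ t : Perm (Fin 3), t ≠ 1 → ∃ q : Perm (Fin 3),
    ∀ a : Perm (Fin 3), Perm.sign a = 1 →
      a = 1 ∨ a = q * t * q⁻¹ * t⁻¹ ∨ a = (q * t * q⁻¹ * t⁻¹) * (q * t * q⁻¹ * t⁻¹) := by
  decide +kernel

/-- The key bound for `d = 3`. -/
theorem perm_key_three (P P' M : Subgroup (Perm (Fin 3)))
    (hc : ⁅P, P'⁆ ≤ M) (hM : ¬ alternatingGroup (Fin 3) ≤ M) :
    Nat.card P * Nat.card P' ≤ 3 ^ 2 := by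
  have hcard : Nat.card (Perm (Fin 3)) = 6 := by
    rw [Nat.card_eq_fintype_card, Fintype.card_perm, Fintype.card_fin]; rfl
  have main : ∀ R R' : Subgroup (Perm (Fin 3)), ⁅R, R'⁆ ≤ M → Nat.card R = 6 → R' = ⊥ := by
    intro R R' hc hR
    have hR' : R = ⊤ := Subgroup.eq_top_of_card_eq R (by rw [hR, hcard])
    by_contra hne
    obtain ⟨t, ht⟩ := Subgroup.ne_bot_iff_exists_ne_one.1 hne
    obtain ⟨t, htR⟩ := t
    have ht1 : t ≠ 1 := fun h => ht (Subtype.ext h)
    have ht := htR
    obtain ⟨q, hq⟩ := perm3_aux t ht1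
    apply hM
    have hcm : q * t * q⁻¹ * t⁻¹ ∈ M := by
      have hqR : q ∈ R := by rw [hR']; trivial
      exact hc (Subgroup.commutator_mem_commutator hqR ht)
    intro a ha
    rw [Perm.mem_alternatingGroup] at ha
    rcases hq a ha with rfl | rfl | rfl
    · exact one_mem _
    · exact hcm
    · exact mul_mem hcm hcm
  have hdvd : ∀ R : Subgroup (Perm (Fin 3)), Nat.card R ≤ 3 ∨ Nat.card R = 6 := by
    intro R
    have h1 : Nat.card R ∣ 6 := by rw [← hcard]; exact Subgroup.card_subgroup_dvd_card R
    have h2 : Nat.card R ≤ 6 := Nat.le_of_dvd (by norm_num) h1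
    interval_cases h : Nat.card R <;> simp_all
  rcases hdvd P with h1 | h1
  · rcases hdvd P' with h2 | h2
    · nlinarith
    · have h3 := main P' P (by rw [Subgroup.commutator_comm]; exact hc) h2
      rw [h3, Subgroup.card_bot, h2]
      norm_num
  · have h3 := main P P' hc h1
    rw [h3, Subgroup.card_bot, h1]
    norm_num

end Pool.Agent.SSG
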