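import Mathlib
import Pool.Agent.SSG.PermGroups

set_option autoImplicit false

namespace Pool.Agent.SSG

open Equiv

/-- index of the partition of `{0,1,2,3}` in two pairs that contains `{a, b}` -/
def pidx (a b : Fin 4) : ZMod 3 :=
  if a = 3 then (b.val : ZMod 3) else if b = 3 then (a.val : ZMod 3)
  else -((a.val : ZMod 3) + (b.val : ZMod 3))

/-- sign in `ZMod 3` -/
def us (s : ℤˣ) : ZMod 3 := if s = 1 then 1 else -1

/-- rotation part of the action on the three partitions in pairs -/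
def tau (σ : Perm (Fin 4)) : ZMod 3 := us (Perm.sign σ) * pidx (σ 3) (σ 0)

theorem us_one : us 1 = 1 := by decide

theorem us_neg_one : us (-1) = -1 := by decide

theorem us_mul : ∀ s t : ℤˣ, us (s * t) = us s * us t := by decide

theorem us_mul_self : ∀ s : ℤˣ, us s * us s = 1 := by decide

theorem us_ne_zero : ∀ s : ℤˣ, us s ≠ 0 := by decide

theorem tau_mul : ∀ σ τ : Perm (Fin 4), tau (σ * τ) = us (Perm.sign τ) * tau σ + tau τ := by
  decide +kernel

theorem tau_one : tau 1 = 0 := by decide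

/-- the Klein four-group -/
def v4 : Subgroup (Perm (Fin 4)) where
  carrier := {σ | Perm.sign σ = 1 ∧ tau σ = 0}
  mul_mem' := by
    rintro a b ⟨ha, ha'⟩ ⟨hb, hb'⟩
    refine ⟨by rw [map_mul, ha, hb, one_mul], ?_⟩
    rw [tau_mul, ha', hb', mul_zero, zero_add]
  one_mem' := ⟨map_one _, tau_one⟩
  inv_mem' := by
    rintro a ⟨ha, ha'⟩
    refine ⟨by rw [map_inv, ha, inv_one], ?_⟩
    have h := tau_mul a⁻¹ a
    rw [inv_mul_cancel, tau_one, ha, us_one, one_mul, ha', add_zero] at h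
    exact h.symm

theorem mem_v4 {σ : Perm (Fin 4)} : σ ∈ v4 ↔ Perm.sign σ = 1 ∧ tau σ = 0 := Iff.rfl

instance : DecidablePred (· ∈ v4) := fun σ => decidable_of_iff _ (mem_v4 (σ := σ)).symm

theorem v4_trans : ∀ x y : Fin 4, ∃ b : Perm (Fin 4), (Perm.sign b = 1 ∧ tau b = 0) ∧ b x = y := by
  decide +kernel

theorem v4_swap : ∀ x y : Fin 4, x ≠ y → ∃ b : Perm (Fin 4), (Perm.sign b = 1 ∧ tau b = 0) ∧
    b x = y ∧ b y = x := by
  decide +kernel

theorem card_v4 : Nat.card v4 = 4 := by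
  rw [Nat.card_eq_fintype_card]
  decide +kernel

/-- a three-cycle fixing `x` -/
theorem three_fix : ∀ x : Fin 4, ∃ σ : Perm (Fin 4), Perm.sign σ = 1 ∧ σ x = x ∧
    ∀ y, y ≠ x → σ y ≠ y ∧ σ y ≠ x := by
  decide +kernel

theorem v4_conj_aux : ∀ p v : Perm (Fin 4), ((Perm.sign p = 1 ∧ tau p = 0) ∧ p ≠ 1 ∧
    (Perm.sign v = 1 ∧ tau v = 0)) → (v = 1 ∨ ∃ a : Perm (Fin 4),
      Perm.sign a = 1 ∧ a * p * a⁻¹ = v) := by
  decide +kernel

theorem not_v4_comm_aux : ∀ p : Perm (Fin 4), ¬ (Perm.sign p = 1 ∧ tau p = 0) →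
    ∃ v : Perm (Fin 4), (Perm.sign v = 1 ∧ tau v = 0) ∧ p * v * p⁻¹ * v⁻¹ ≠ 1 ∧
      (Perm.sign (p * v * p⁻¹ * v⁻¹) = 1 ∧ tau (p * v * p⁻¹ * v⁻¹) = 0) := by
  decide +kernel

theorem v4_le_of_mem {R : Subgroup (Perm (Fin 4))}
    (hR : ∀ q ∈ alternatingGroup (Fin 4), ∀ p ∈ R, q * p * q⁻¹ ∈ R)
    {p : Perm (Fin 4)} (hp : p ∈ R) (hpv : p ∈ v4) (hp1 : p ≠ 1) : v4 ≤ R := by
  intro v hv
  rcases v4_conj_aux p v ⟨mem_v4.1 hpv, hp1, mem_v4.1 hv⟩ with rfl | ⟨a, ha, rfl⟩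
  · exact one_mem _
  · exact hR a (Perm.mem_alternatingGroup.2 ha) p hp

theorem v4_le_or {R : Subgroup (Perm (Fin 4))}
    (hR : ∀ q ∈ alternatingGroup (Fin 4), ∀ p ∈ R, q * p * q⁻¹ ∈ R) :
    R = ⊥ ∨ v4 ≤ R := by
  by_cases h : R = ⊥
  · exact Or.inl h
  · right
    obtain ⟨⟨p, hp⟩, hp1⟩ := Subgroup.ne_bot_iff_exists_ne_one.1 h
    have hp1' : p ≠ 1 := fun h => hp1 (Subtype.ext h)
    by_cases hpv : p ∈ v4
    · exact v4_le_of_mem hR hp hpv hp1'
    · obtain ⟨v, hv, h1, h2⟩ := not_v4_comm_aux p hpv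
      refine v4_le_of_mem hR (p := p * v * p⁻¹ * v⁻¹) ?_ (mem_v4.2 h2) h1
      have h3 := hR v (Perm.mem_alternatingGroup.2 hv.1) p⁻¹ (inv_mem hp)
      have h4 : p * v * p⁻¹ * v⁻¹ = p * (v * p⁻¹ * v⁻¹) := by group
      rw [h4]
      exact mul_mem hp h3

/-- the size of a proper subgroup without the alternating group -/
theorem card_le_eight (Q : Subgroup (Perm (Fin 4))) (h : ¬ alternatingGroup (Fin 4) ≤ Q) :
    Nat.card Q ≤ 8 := by
  have hcard : Nat.card (Perm (Fin 4)) = 24 := by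
    rw [Nat.card_eq_fintype_card, Fintype.card_perm, Fintype.card_fin]; rfl
  have h1 := Subgroup.card_mul_index Q
  rw [hcard] at h1
  have h2 : Q.index ≠ 1 := by
    intro h2
    apply h
    rw [Subgroup.index_eq_one] at h2
    rw [h2]
    exact le_top
  have h3 : Q.index ≠ 2 := by
    intro h3
    apply h
    rw [Equiv.Perm.eq_alternatingGroup_of_index_eq_two h3]
  have h4 : Q.index ≠ 0 := by
    intro h4
    rw [h4, mul_zero] at h1
    omega
  have h5 : 3 ≤ Q.index := by omega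
  by_contra h6
  push Not at h6
  nlinarith

/-- The key bound for `d = 4`. -/
theorem perm_key_four (Q P P' M : Subgroup (Perm (Fin 4)))
    (hP : P ≤ Q) (hP' : P' ≤ Q) (hn : ∀ q ∈ Q, ∀ p ∈ P, q * p * q⁻¹ ∈ P)
    (hn' : ∀ q ∈ Q, ∀ p ∈ P', q * p * q⁻¹ ∈ P') (hc : ⁅P, P'⁆ ≤ M)
    (hM : ¬ (v4 ≤ M ∧ alternatingGroup (Fin 4) ≤ Q)) :
    Nat.card P * Nat.card P' ≤ 8 ^ 2 := by
  have hcard : Nat.card (Perm (Fin 4)) = 24 := by
    rw [Nat.card_eq_fintype_card, Fintype.card_perm, Fintype.card_fin]; rfl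
  have hle : ∀ R : Subgroup (Perm (Fin 4)), Nat.card R ≤ 24 := fun R => by
    rw [← hcard]
    exact Subgroup.card_le_card_group R
  by_cases hQ : alternatingGroup (Fin 4) ≤ Q
  · have hM' : ¬ v4 ≤ M := fun h => hM ⟨h, hQ⟩
    rcases v4_le_or (R := P) (fun q hq p hp => hn q (hQ hq) p hp) with h1 | h1
    · rw [h1, Subgroup.card_bot, one_mul]
      exact (hle P').trans (by norm_num)
    rcases v4_le_or (R := P') (fun q hq p hp => hn' q (hQ hq) p hp) with h2 | h2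
    · rw [h2, Subgroup.card_bot, mul_one]
      exact (hle P).trans (by norm_num)
    have hcn : ∀ q ∈ alternatingGroup (Fin 4), ∀ p ∈ ⁅P, P'⁆, q * p * q⁻¹ ∈ ⁅P, P'⁆ := by
      intro q hq p hp
      have h3 : ⁅P, P'⁆ ≤ (⁅P, P'⁆).comap (MulAut.conj q).toMonoidHom := by
        rw [Subgroup.commutator_le]
        intro a ha b hb
        rw [Subgroup.mem_comap]
        have h4 : (MulAut.conj q).toMonoidHom (a * b * a⁻¹ * b⁻¹) =
            (q * a * q⁻¹) * (q * b * q⁻¹) * (q * a * q⁻¹)⁻¹ * (q * b * q⁻¹)⁻¹ := by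
          show q * (a * b * a⁻¹ * b⁻¹) * q⁻¹ = _
          group
        rw [commutatorElement_def, h4, ← commutatorElement_def]
        exact Subgroup.commutator_mem_commutator (hn q (hQ hq) a ha) (hn' q (hQ hq) b hb)
      exact h3 hp
    have key : ∀ R R' : Subgroup (Perm (Fin 4)), v4 ≤ R' → ⁅R, R'⁆ = ⁅P, P'⁆ → R ≤ v4 := by
      intro R R' hR' hRR p hp
      by_contra hpv
      obtain ⟨v, hv, h3, h4⟩ := not_v4_comm_aux p hpv
      apply hM'
      refine le_trans ?_ hc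
      refine v4_le_of_mem hcn (p := p * v * p⁻¹ * v⁻¹) ?_ (mem_v4.2 h4) h3
      rw [← hRR]
      exact Subgroup.commutator_mem_commutator hp (hR' (mem_v4.2 hv))
    have h3 := key P P' h2 rfl
    have h4 := key P' P h1 (Subgroup.commutator_comm _ _)
    have h5 : Nat.card P ≤ 4 := (Subgroup.card_le_of_le h3).trans card_v4.le
    have h6 : Nat.card P' ≤ 4 := (Subgroup.card_le_of_le h4).trans card_v4.le
    nlinarith
  · have hq := card_le_eight Q hQ
    have h1 : Nat.card P ≤ Nat.card Q := Subgroup.card_le_of_le hP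
    have h2 : Nat.card P' ≤ Nat.card Q := Subgroup.card_le_of_le hP'
    calc Nat.card P * Nat.card P' ≤ 8 * 8 := by gcongr <;> omega
      _ = _ := by norm_num

end Pool.Agent.SSG
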