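import Mathlib
import Pool.Agent.SSG.Limit
import Pool.Agent.SSG.TwoSided
import Pool.Agent.SSG.PermGroups

set_option autoImplicit false

namespace Pool.Agent.SSG

open Equiv Filter Topology

variable {d : ℕ}

/-- action on a level -/
def gact {g : Perm (List (Fin d))} (hg : g ∈ treeAut d) (n : ℕ) (w : Lev d n) : Lev d n :=
  ⟨g w.1, by rw [treeAut_length hg]; exact w.2⟩

theorem conj_levK {G : Subgroup (Perm (List (Fin d)))} (hG : G ≤ treeAut d) {n : ℕ}
    {k : Lev d n → Perm (Fin d)} (hk : k ∈ levK G n) {g : Perm (List (Fin d))} (hg : g ∈ G) :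
    (fun w : Lev d n => (label g w.1)⁻¹ * k (gact (hG hg) n w) * label g w.1) ∈ levK G n := by
  obtain ⟨κ, hκ, hs, H⟩ := mem_levK.1 hk
  rw [mem_levK]
  have hgt := hG hg
  refine ⟨g⁻¹ * κ * g, mul_mem (mul_mem (inv_mem hg) hκ) hg, ⟨?_, ?_⟩, ?_⟩
  · exact mul_mem (mul_mem (inv_mem hgt) hs.1) hgt
  · intro v hv
    rw [Perm.mul_apply, Perm.mul_apply, hs.2 (g v) (by rw [treeAut_length hgt]; exact hv)]
    simp
  · intro v
    rw [label_mul (mul_mem (inv_mem hgt) hs.1) hgt, label_mul (inv_mem hgt) hs.1,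
      label_inv hgt]
    have h1 : κ (g v.1) = g v.1 := hs.2 _ (by rw [treeAut_length hgt]; exact v.2.le)
    rw [h1]
    have h2 : g⁻¹ (g v.1) = v.1 := by simp
    rw [h2]
    have h3 := H (gact hgt n v)
    show (label g v.1)⁻¹ * label κ (g v.1) * label g v.1 = _
    rw [← h3]
    rfl

theorem solo_conj {G : Subgroup (Perm (List (Fin d)))} (hG : G ≤ treeAut d) {n : ℕ}
    {v v' : Lev d n} {g : Perm (List (Fin d))} (hg : g ∈ G) (hv : g v'.1 = v.1)
    (h : alternatingGroup (Fin d) ≤ soloAt (levK G n) v) :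
    alternatingGroup (Fin d) ≤ soloAt (levK G n) v' := by
  intro a ha
  have h1 : label g v'.1 * a * (label g v'.1)⁻¹ ∈ alternatingGroup (Fin d) :=
    (alternatingGroup.normal (α := Fin d)).conj_mem a ha _
  obtain ⟨k, hk, hk1, hk2⟩ := h h1
  refine ⟨_, conj_levK hG hk hg, ?_, ?_⟩
  · intro w hw
    have : gact (hG hg) n w ≠ v := by
      intro h
      apply hw
      have h2 : g w.1 = g v'.1 := by rw [hv]; exact congrArg Subtype.val h
      exact Subtype.ext (g.injective h2)
    simp [hk1 _ this]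
  · have : gact (hG hg) n v' = v := Subtype.ext hv
    simp only [this, hk2]
    group

theorem exists_solo {G : Subgroup (Perm (List (Fin d)))} {n : ℕ} {v : Lev d n}
    (h : alternatingGroup (Fin d) ≤ soloAt (levK G n) v) {a : Perm (Fin d)}
    (ha : a ∈ alternatingGroup (Fin d)) :
    ∃ g ∈ G, g ∈ St d n ∧ label g v.1 = a ∧ ∀ w : Lev d n, w ≠ v → label g w.1 = 1 := by
  obtain ⟨k, hk, hk1, hk2⟩ := h ha
  obtain ⟨g, hg, hs, H⟩ := mem_levK.1 hk
  exact ⟨g, hg, hs, by rw [H v, hk2], fun w hw => by rw [H w, hk1 w hw]⟩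

theorem alt_trans (hd : 3 ≤ d) (x y : Fin d) : ∃ a ∈ alternatingGroup (Fin d), a x = y := by
  by_cases hxy : x = y
  · exact ⟨1, one_mem _, by simp [hxy]⟩
  · obtain ⟨z, hz⟩ : ∃ z : Fin d, z ∉ ({x, y} : Finset (Fin d)) := by
      by_contra h
      push Not at h
      have : (Finset.univ : Finset (Fin d)) ⊆ {x, y} := fun z _ => h z
      have := Finset.card_le_card this
      have h2 : ({x, y} : Finset (Fin d)).card ≤ 2 := Finset.card_le_two
      rw [Finset.card_univ, Fintype.card_fin] at this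
      omega
    simp only [Finset.mem_insert, Finset.mem_singleton, not_or] at hz
    refine ⟨swap x y * swap y z, ?_, ?_⟩
    · rw [Perm.mem_alternatingGroup, map_mul, Perm.sign_swap hxy, Perm.sign_swap (Ne.symm hz.2)]
      decide
    · rw [Perm.mul_apply, swap_apply_of_ne_of_ne hxy (Ne.symm hz.1), swap_apply_left]

theorem apply_snoc_St {n : ℕ} {g : Perm (List (Fin d))} (hg : g ∈ St d n) {v : List (Fin d)}
    (hv : v.length ≤ n) (x : Fin d) : g (v ++ [x]) = v ++ [label g v x] := by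
  rw [label_spec hg.1, hg.2 v hv]

theorem trans_lev (hd : 3 ≤ d) {G : Subgroup (Perm (List (Fin d)))} (hG : G ≤ treeAut d) (n : ℕ)
    (h : ∀ m < n, ∀ v : Lev d m, alternatingGroup (Fin d) ≤ soloAt (levK G m) v) :
    ∀ u u' : Lev d n, ∃ g ∈ G, g u.1 = u'.1 := by
  induction n with
  | zero =>
    rintro ⟨u, hu⟩ ⟨u', hu'⟩
    refine ⟨1, one_mem _, ?_⟩
    rw [List.length_eq_zero_iff] at hu hu'
    simp [hu, hu']
  | succ n ih =>
    rintro ⟨u, hu⟩ ⟨u', hu'⟩
    have hne : u ≠ [] := by rintro rfl; simp at hu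
    have hne' : u' ≠ [] := by rintro rfl; simp at hu'
    obtain ⟨v, x, rfl⟩ : ∃ v x, u = v ++ [x] :=
      ⟨u.dropLast, u.getLast hne, (List.dropLast_append_getLast hne).symm⟩
    obtain ⟨v', x', rfl⟩ : ∃ v x, u' = v ++ [x] :=
      ⟨u'.dropLast, u'.getLast hne', (List.dropLast_append_getLast hne').symm⟩
    have hv : v.length = n := by simpa using hu
    have hv' : v'.length = n := by simpa using hu'
    obtain ⟨g, hg, hgv⟩ := ih (fun m hm => h m (by omega)) ⟨v, hv⟩ ⟨v', hv'⟩
    simp only at hgv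
    obtain ⟨a, ha, hax⟩ := alt_trans hd (label g v x) x'
    obtain ⟨k, hk, hks, hk1, -⟩ := exists_solo (h n (by omega) ⟨v', hv'⟩) ha
    refine ⟨k * g, mul_mem hk hg, ?_⟩
    simp only [Perm.mul_apply]
    rw [label_spec (hG hg), hgv, apply_snoc_St hks hv'.le, hk1, hax]

theorem dich (hd : 3 ≤ d) {G : Subgroup (Perm (List (Fin d)))} (hG : G ≤ treeAut d) :
    (∀ n, ∀ v : Lev d n, alternatingGroup (Fin d) ≤ soloAt (levK G n) v) ∨
    (∃ n, ∀ v : Lev d n, ¬ alternatingGroup (Fin d) ≤ soloAt (levK G n) v) := by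
  classical
  by_cases h : ∀ n, ∀ v : Lev d n, alternatingGroup (Fin d) ≤ soloAt (levK G n) v
  · exact Or.inl h
  · right
    push Not at h
    have hn := Nat.find_spec h
    obtain ⟨v, hv⟩ := hn
    refine ⟨Nat.find h, fun v' hv' => hv ?_⟩
    have htr := trans_lev hd hG (Nat.find h) (fun m hm => by
      have := Nat.find_min h hm
      push Not at this
      exact this)
    obtain ⟨g, hg, hgv⟩ := htr v v'
    exact solo_conj hG hg hgv hv'

/-- The threshold. -/
def thr (d : ℕ) : ℕ := if d = 3 then 3 else (d - 1).factorial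

theorem thr_pos (d : ℕ) : 0 < thr d := by
  unfold thr
  split
  · norm_num
  · exact Nat.factorial_pos _

theorem lk_le_of_small (hd : d = 3 ∨ 5 ≤ d) {G : Subgroup (Perm (List (Fin d)))} {n : ℕ}
    (h : ∀ v : Lev d n, ¬ alternatingGroup (Fin d) ≤ soloAt (levK G n) v) :
    lk G n ≤ Real.log (thr d) := by
  have h1 : Nat.card (levK G n) ^ 2 ≤ ((thr d) ^ 2) ^ Nat.card (Lev d n) := by
    apply two_sided'
    intro v P P' h1 h2 h3 h4 h5
    rcases hd with rfl | hd
    · exact perm_key_three P P' _ h5 (h v)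
    · have := perm_key_five hd _ P P' _ h1 h2 h3 h4 h5 (h v)
      have h3 : thr d = (d - 1).factorial := by
        unfold thr; rw [if_neg (by omega)]
      rw [h3]
      exact this
  rw [card_lev, ← pow_mul, mul_comm 2, pow_mul] at h1
  have h2 : Nat.card (levK G n) ≤ thr d ^ d ^ n := by
    exact (Nat.pow_le_pow_iff_left (by norm_num)).1 h1
  unfold lk
  have hd0 : (0 : ℝ) < (d : ℝ) ^ n := by
    have : 0 < d := by omega
    positivity
  rw [div_le_iff₀ hd0, mul_comm]
  have h3 : Real.log (thr d ^ d ^ n : ℕ) = (d : ℝ) ^ n * Real.log (thr d) := by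
    push_cast
    rw [Real.log_pow]
    push_cast
    ring
  rw [← h3]
  apply Real.log_le_log
  · exact_mod_cast card_levK_pos G n
  · exact_mod_cast h2

end Pool.Agent.SSG
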