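import Mathlib
import Pool.Agent.SSG.Transit
import Pool.Agent.SSG.Cantor

set_option autoImplicit false

namespace Pool.Agent.SSG

open Equiv Filter Topology

variable {d : ℕ}

/-- appending a letter -/
def snoc {n : ℕ} (u : Lev d n) (x : Fin d) : Lev d (n + 1) := ⟨u.1 ++ [x], by simp [u.2]⟩

theorem snoc_inj {n : ℕ} {u u' : Lev d n} {x x' : Fin d} (h : snoc u x = snoc u' x') :
    u = u' ∧ x = x' := by
  have h1 := congrArg Subtype.val h
  simp only [snoc] at h1
  have h2 := List.append_inj' h1 rfl
  exact ⟨Subtype.ext h2.1, by simpa using h2.2⟩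

theorem exists_snoc {n : ℕ} (w : Lev d (n + 1)) : ∃ u x, w = snoc u x := by
  obtain ⟨w, hw⟩ := w
  have hne : w ≠ [] := by rintro rfl; simp at hw
  refine ⟨⟨w.dropLast, by simp [hw]⟩, w.getLast hne, ?_⟩
  apply Subtype.ext
  exact (List.dropLast_append_getLast hne).symm

/-- `Lev n × Fin d ≃ Lev (n+1)` -/
noncomputable def snocEquiv (d n : ℕ) : Lev d n × Fin d ≃ Lev d (n + 1) :=
  Equiv.ofBijective (fun p => snoc p.1 p.2) ⟨by
    rintro ⟨u, x⟩ ⟨u', x'⟩ h
    obtain ⟨rfl, rfl⟩ := snoc_inj h
    rfl, by
    intro w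
    obtain ⟨u, x, rfl⟩ := exists_snoc w
    exact ⟨(u, x), rfl⟩⟩

theorem snocEquiv_apply {n : ℕ} (p : Lev d n × Fin d) : snocEquiv d n p = snoc p.1 p.2 := rfl

theorem gact_snoc {g : Perm (List (Fin d))} (hg : g ∈ treeAut d) {n : ℕ} (u : Lev d n)
    (x : Fin d) : gact hg (n + 1) (snoc u x) = snoc (gact hg n u) (label g u.1 x) := by
  apply Subtype.ext
  simp only [gact, snoc]
  exact label_spec hg _ _

/-- `V` is stable under the action of `G` on the level `n` -/
def Inva (G : Subgroup (Perm (List (Fin d)))) (hG : G ≤ treeAut d) (n : ℕ)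
    (V : Subgroup (Lev d n → ℤˣ)) : Prop :=
  ∀ g (hg : g ∈ G), ∀ s ∈ V, (fun w => s (gact (hG hg) n w)) ∈ V

/-- product over siblings -/
noncomputable def sibProd (d n : ℕ) : (Lev d (n + 1) → ℤˣ) →* (Lev d n → ℤˣ) where
  toFun f := fun u => ∏ x, f (snoc u x)
  map_one' := by funext u; simp
  map_mul' f g := by funext u; simp [Finset.prod_mul_distrib]

/-- pulling back along the parent map -/
noncomputable def parPull (d n : ℕ) : (Lev d n → ℤˣ) →* (Lev d (n + 1) → ℤˣ) where
  toFun f := fun w => f ((snocEquiv d n).symm w).1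
  map_one' := rfl
  map_mul' f g := rfl

theorem parPull_snoc {n : ℕ} (f : Lev d n → ℤˣ) (u : Lev d n) (x : Fin d) :
    parPull d n f (snoc u x) = f u := by
  show f ((snocEquiv d n).symm (snocEquiv d n (u, x))).1 = f u
  rw [Equiv.symm_apply_apply]

theorem parPull_injective (hd : 0 < d) (n : ℕ) : Function.Injective (parPull d n) := by
  intro f g h
  funext u
  have := congrFun h (snoc u ⟨0, hd⟩)
  rwa [parPull_snoc, parPull_snoc] at this

theorem sibProd_surjective (hd : 0 < d) (n : ℕ) : Function.Surjective (sibProd d n) := by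
  classical
  intro f
  refine ⟨fun w => if ((snocEquiv d n).symm w).2 = ⟨0, hd⟩ then f ((snocEquiv d n).symm w).1
    else 1, ?_⟩
  funext u
  show ∏ x, (if ((snocEquiv d n).symm (snoc u x)).2 = ⟨0, hd⟩ then
    f ((snocEquiv d n).symm (snoc u x)).1 else 1) = f u
  have : ∀ x, (snocEquiv d n).symm (snoc u x) = (u, x) := by
    intro x
    rw [← snocEquiv_apply (u, x), Equiv.symm_apply_apply]
  simp only [this]
  rw [Finset.prod_eq_single ⟨0, hd⟩]
  · simp
  · intro x _ hx
    simp [hx]
  · simp

theorem card_ker_sibProd (hd : 0 < d) (n : ℕ) :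
    Nat.card (sibProd d n).ker = 2 ^ ((d - 1) * d ^ n) := by
  have h1 := card_eq_ker_mul_map (sibProd d n)
  have h2 : Nat.card (sibProd d n).range = 2 ^ d ^ n := by
    rw [MonoidHom.range_eq_top.2 (sibProd_surjective hd n), Subgroup.card_top, Nat.card_fun,
      card_lev]
    simp
  have h3 : Nat.card (Lev d (n + 1) → ℤˣ) = 2 ^ d ^ (n + 1) := by
    rw [Nat.card_fun, card_lev]
    simp
  rw [h2, h3] at h1
  have h4 : d ^ (n + 1) = (d - 1) * d ^ n + d ^ n := by
    obtain ⟨e, rfl⟩ : ∃ e, d = e + 1 := ⟨d - 1, by omega⟩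
    simp only [Nat.add_sub_cancel]
    ring
  rw [h4, pow_add] at h1
  exact (Nat.eq_of_mul_eq_mul_right (by positivity) h1).symm

/-- the vector with `-1` at the two children `x`, `y` of `u` -/
noncomputable def pairv {n : ℕ} (u : Lev d n) (x y : Fin d) : Lev d (n + 1) → ℤˣ := by
  classical
  exact fun w => if w = snoc u x ∨ w = snoc u y then -1 else 1

theorem alt_two (x y x' y' : Fin d) (h : x ≠ y) (h' : x' ≠ y') :
    ∃ a ∈ alternatingGroup (Fin d), (a x' = x ∧ a y' = y) ∨ (a x' = y ∧ a y' = x) := by
  have hex : ∃ σ : Perm (Fin d), σ x' = x ∧ σ y' = y := by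
    refine ⟨swap y (swap x' x y') * swap x' x, ?_, ?_⟩
    · rw [Perm.mul_apply, swap_apply_left, swap_apply_of_ne_of_ne h]
      intro h2
      have : swap x' x x = swap x' x (swap x' x y') := by rw [← h2]
      rw [swap_apply_right, swap_apply_self] at this
      exact h' this
    · rw [Perm.mul_apply, swap_apply_right]
  obtain ⟨σ, h1, h2⟩ := hex
  rcases Int.units_eq_one_or (Perm.sign σ) with hs | hs
  · exact ⟨σ, Perm.mem_alternatingGroup.2 hs, Or.inl ⟨h1, h2⟩⟩
  · refine ⟨swap x y * σ, ?_, Or.inr ⟨?_, ?_⟩⟩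
    · rw [Perm.mem_alternatingGroup, map_mul, hs, Perm.sign_swap h]
      decide
    · rw [Perm.mul_apply, h1, swap_apply_left]
    · rw [Perm.mul_apply, h2, swap_apply_right]

theorem unit_mul_eq_neg_one {a b : ℤˣ} (h : a ≠ b) : a * b = -1 := by
  rcases Int.units_eq_one_or a with rfl | rfl <;> rcases Int.units_eq_one_or b with rfl | rfl <;>
    simp_all

section main

variable {G : Subgroup (Perm (List (Fin d)))} {hG : G ≤ treeAut d}

theorem pairv_move {n : ℕ} {V : Subgroup (Lev d (n + 1) → ℤˣ)} (hV : Inva G hG (n + 1) V)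
    {u u' : Lev d n} {x y x' y' : Fin d} (h : pairv u x y ∈ V) {g : Perm (List (Fin d))}
    (hg : g ∈ G) (hu : gact (hG hg) n u' = u)
    (hxy : (label g u'.1 x' = x ∧ label g u'.1 y' = y) ∨
      (label g u'.1 x' = y ∧ label g u'.1 y' = x)) : pairv u' x' y' ∈ V := by
  classical
  have h1 := hV g hg _ h
  convert h1 using 1
  funext w
  have hinj : ∀ w1 w2 : Lev d (n + 1), gact (hG hg) (n + 1) w1 = gact (hG hg) (n + 1) w2 →
      w1 = w2 := by
    intro w1 w2 h
    apply Subtype.ext
    have := congrArg Subtype.val h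
    simpa [gact] using this
  have e1 : gact (hG hg) (n + 1) (snoc u' x') = snoc u (label g u'.1 x') := by
    rw [gact_snoc, hu]
  have e2 : gact (hG hg) (n + 1) (snoc u' y') = snoc u (label g u'.1 y') := by
    rw [gact_snoc, hu]
  unfold pairv
  have : (w = snoc u' x' ∨ w = snoc u' y') ↔ (gact (hG hg) (n + 1) w = snoc u x ∨
      gact (hG hg) (n + 1) w = snoc u y) := by
    constructor
    · rintro (rfl | rfl)
      · rw [e1]; rcases hxy with ⟨h1, h2⟩ | ⟨h1, h2⟩ <;> simp [h1]
      · rw [e2]; rcases hxy with ⟨h1, h2⟩ | ⟨h1, h2⟩ <;> simp [h2]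
    · rcases hxy with ⟨h1, h2⟩ | ⟨h1, h2⟩
      · rintro (h | h)
        · left; apply hinj; rw [h, e1, h1]
        · right; apply hinj; rw [h, e2, h2]
      · rintro (h | h)
        · right; apply hinj; rw [h, e2, h2]
        · left; apply hinj; rw [h, e1, h1]
  simp only [this]

theorem all_pairv (hd : 3 ≤ d)
    (hA : ∀ n, ∀ v : Lev d n, alternatingGroup (Fin d) ≤ soloAt (levK G n) v) {n : ℕ}
    {V : Subgroup (Lev d (n + 1) → ℤˣ)} (hV : Inva G hG (n + 1) V)
    {u : Lev d n} {x y : Fin d} (hxy : x ≠ y) (h : pairv u x y ∈ V) :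
    ∀ (u' : Lev d n) (x' y' : Fin d), x' ≠ y' → pairv u' x' y' ∈ V := by
  intro u' x' y' h'
  obtain ⟨g, hg, hgu⟩ := trans_lev hd hG n (fun m _ => hA m) u' u
  -- move to u'
  have h1 : pairv u' ((label g u'.1)⁻¹ x) ((label g u'.1)⁻¹ y) ∈ V :=
    pairv_move (hG := hG) hV h hg (Subtype.ext hgu) (Or.inl ⟨by simp, by simp⟩)
  have h2 : (label g u'.1)⁻¹ x ≠ (label g u'.1)⁻¹ y := fun h => hxy (by simpa using h)
  obtain ⟨a, ha, hax⟩ := alt_two _ _ x' y' h2 h'
  obtain ⟨k, hk, hks, hk1, -⟩ := exists_solo (hA n u') ha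
  refine pairv_move (hG := hG) hV h1 hk ?_ (by rw [hk1]; exact hax)
  exact Subtype.ext (hks.2 _ u'.2.le)

theorem exists_third (hd : 3 ≤ d) (x y : Fin d) : ∃ z : Fin d, z ≠ x ∧ z ≠ y := by
  by_contra h
  push Not at h
  have : (Finset.univ : Finset (Fin d)) ⊆ {x, y} := fun z _ => by
    by_cases hz : z = x
    · simp [hz]
    · simp [h z hz]
  have := Finset.card_le_card this
  have h2 : ({x, y} : Finset (Fin d)).card ≤ 2 := Finset.card_le_two
  rw [Finset.card_univ, Fintype.card_fin] at this
  omega

theorem pair_of_nonconst (hd : 3 ≤ d)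
    (hA : ∀ n, ∀ v : Lev d n, alternatingGroup (Fin d) ≤ soloAt (levK G n) v) {n : ℕ}
    {V : Subgroup (Lev d (n + 1) → ℤˣ)} (hV : Inva G hG (n + 1) V)
    {f : Lev d (n + 1) → ℤˣ} (hf : f ∈ V) {u : Lev d n} {x y : Fin d}
    (hne : f (snoc u x) ≠ f (snoc u y)) : ∃ (a b : Fin d), a ≠ b ∧ pairv u a b ∈ V := by
  classical
  obtain ⟨z, hzx, hzy⟩ := exists_third hd x y
  have hxy : x ≠ y := fun h => hne (by rw [h])
  -- the three-cycle
  set c : Perm (Fin d) := swap x y * swap y z with hc
  have hcx : c x = y := by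
    rw [hc, Perm.mul_apply, swap_apply_of_ne_of_ne hxy (Ne.symm hzx), swap_apply_left]
  have hcy : c y = z := by
    rw [hc, Perm.mul_apply, swap_apply_left, swap_apply_of_ne_of_ne hzx hzy]
  have hcz : c z = x := by
    rw [hc, Perm.mul_apply, swap_apply_right, swap_apply_right]
  have hco : ∀ t, t ≠ x → t ≠ y → t ≠ z → c t = t := by
    intro t h1 h2 h3
    rw [hc, Perm.mul_apply, swap_apply_of_ne_of_ne h2 h3, swap_apply_of_ne_of_ne h1 h2]
  have hcA : c ∈ alternatingGroup (Fin d) := by
    rw [Perm.mem_alternatingGroup, hc, map_mul, Perm.sign_swap hxy, Perm.sign_swap (Ne.symm hzy)]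
    decide
  obtain ⟨k, hk, hks, hk1, hk2⟩ := exists_solo (hA n u) hcA
  have hact : ∀ (w : Lev d n) (t : Fin d), gact (hG hk) (n + 1) (snoc w t) =
      snoc w (if w = u then c t else t) := by
    intro w t
    rw [gact_snoc]
    have h1 : gact (hG hk) n w = w := Subtype.ext (hks.2 _ w.2.le)
    rw [h1]
    by_cases hw : w = u
    · subst hw; rw [hk1]; simp
    · rw [hk2 w hw]; simp [hw]
  have hmem : (fun w => f w * f (gact (hG hk) (n + 1) w)) ∈ V := mul_mem hf (hV k hk f hf)
  have hsq : ∀ w, f w * f w = 1 := fun w => Int.units_mul_self _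
  have val : ∀ (w : Lev d n) (t : Fin d), (f (snoc w t) * f (gact (hG hk) (n + 1) (snoc w t))) =
      if w = u then f (snoc u t) * f (snoc u (c t)) else 1 := by
    intro w t
    rw [hact]
    by_cases hw : w = u
    · subst hw; simp
    · simp [hw, hsq]
  have h1 : f (snoc u x) * f (snoc u y) = -1 := unit_mul_eq_neg_one hne
  by_cases h2 : f (snoc u y) = f (snoc u z)
  · -- then `-1` at x (pair x,y) and z (pair z,x)
    refine ⟨x, z, Ne.symm hzx, ?_⟩
    convert hmem using 1
    funext w
    obtain ⟨w, t, rfl⟩ := exists_snoc w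
    rw [val]
    unfold pairv
    by_cases hw : w = u
    · subst hw
      simp only [if_true]
      by_cases htx : t = x
      · subst htx; rw [hcx, h1]; simp
      · by_cases htz : t = z
        · subst htz
          rw [hcz, ← h2, mul_comm, h1]; simp
        · have hnot : ¬ (snoc w t = snoc w x ∨ snoc w t = snoc w z) := by
            rintro (h | h)
            · exact htx (snoc_inj h).2
            · exact htz (snoc_inj h).2
          rw [if_neg hnot]
          by_cases hty : t = y
          · subst hty; rw [hcy, ← h2, hsq]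
          · rw [hco t htx hty htz, hsq]
    · rw [if_neg hw, if_neg]
      rintro (h | h) <;> exact hw (snoc_inj h).1
  · -- f y ≠ f z, hence f z = f x
    have h3 : f (snoc u z) = f (snoc u x) := by
      rcases Int.units_eq_one_or (f (snoc u x)) with a | a <;>
      rcases Int.units_eq_one_or (f (snoc u y)) with b | b <;>
      rcases Int.units_eq_one_or (f (snoc u z)) with e | e <;>
      simp_all
    refine ⟨x, y, hxy, ?_⟩
    convert hmem using 1
    funext w
    obtain ⟨w, t, rfl⟩ := exists_snoc w
    rw [val]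
    unfold pairv
    by_cases hw : w = u
    · subst hw
      simp only [if_true]
      by_cases htx : t = x
      · subst htx; rw [hcx, h1]; simp
      · by_cases hty : t = y
        · subst hty
          rw [hcy, h3, mul_comm, h1]; simp
        · have hnot : ¬ (snoc w t = snoc w x ∨ snoc w t = snoc w y) := by
            rintro (h | h)
            · exact htx (snoc_inj h).2
            · exact hty (snoc_inj h).2
          rw [if_neg hnot]
          by_cases htz : t = z
          · subst htz; rw [hcz, h3, hsq]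
          · rw [hco t htx hty htz, hsq]
    · rw [if_neg hw, if_neg]
      rintro (h | h) <;> exact hw (snoc_inj h).1

theorem ker_le_of_pairs (hd : 0 < d) {n : ℕ} {V : Subgroup (Lev d (n + 1) → ℤˣ)}
    (h : ∀ (u : Lev d n) (x y : Fin d), x ≠ y → pairv u x y ∈ V) : (sibProd d n).ker ≤ V := by
  classical
  intro f hf
  rw [MonoidHom.mem_ker] at hf
  set x0 : Fin d := ⟨0, hd⟩ with hx0
  -- the explicit product
  have hprod : f = ∏ p : Lev d n × Fin d,
      (if p.2 ≠ x0 ∧ f (snoc p.1 p.2) = -1 then pairv p.1 x0 p.2 else 1) := by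
    funext w
    obtain ⟨u, t, rfl⟩ := exists_snoc w
    rw [Finset.prod_apply, Fintype.prod_prod_type]
    rw [Finset.prod_eq_single u]
    · -- the product over the letters
      by_cases ht : t = x0
      · subst ht
        have h1 : ∏ x, f (snoc u x) = 1 := congrFun hf u
        rw [← Finset.mul_prod_erase _ _ (Finset.mem_univ x0)] at h1
        have h2 : f (snoc u x0) = ∏ x ∈ Finset.univ.erase x0, f (snoc u x) := by
          have h3 : f (snoc u x0) * f (snoc u x0) = 1 := Int.units_mul_self _
          calc f (snoc u x0) = f (snoc u x0) * (f (snoc u x0) *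
                ∏ x ∈ Finset.univ.erase x0, f (snoc u x)) := by rw [h1, mul_one]
            _ = ∏ x ∈ Finset.univ.erase x0, f (snoc u x) := by rw [← mul_assoc, h3, one_mul]
        rw [h2, ← Finset.mul_prod_erase _ _ (Finset.mem_univ x0)]
        simp only [ne_eq, not_true_eq_false, false_and, if_false, Pi.one_apply, one_mul]
        apply Finset.prod_congr rfl
        intro x hx
        have hx' : x ≠ x0 := Finset.ne_of_mem_erase hx
        rcases Int.units_eq_one_or (f (snoc u x)) with h5 | h5
        · rw [h5, if_neg]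
          · rfl
          · rintro ⟨_, h6⟩
            revert h6; decide
        · rw [h5, if_pos ⟨hx', rfl⟩]
          simp [pairv]
      · rw [Finset.prod_eq_single t]
        · rcases Int.units_eq_one_or (f (snoc u t)) with h5 | h5
          · rw [h5, if_neg]
            · rfl
            · rintro ⟨_, h6⟩
              revert h6; decide
          · rw [h5, if_pos ⟨ht, rfl⟩]
            simp [pairv]
        · intro x _ hx
          split
          · unfold pairv
            rw [if_neg]
            rintro (h | h)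
            · exact ht (snoc_inj h).2
            · exact hx (snoc_inj h).2.symm
          · rfl
        · simp
    · intro u' _ hu'
      apply Finset.prod_eq_one
      intro x _
      split
      · unfold pairv
        rw [if_neg]
        rintro (h | h) <;> exact hu' (snoc_inj h).1.symm
      · rfl
    · simp
  rw [hprod]
  apply prod_mem
  intro p _
  split
  · rename_i hp
    exact h _ _ _ (Ne.symm hp.1)
  · exact one_mem _

theorem parity_card (hd : 3 ≤ d)
    (hA : ∀ n, ∀ v : Lev d n, alternatingGroup (Fin d) ≤ soloAt (levK G n) v) (n : ℕ) :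
    ∀ V : Subgroup (Lev d n → ℤˣ), Inva G hG n V →
      ∃ c ∈ cantor d, Real.log (Nat.card V) = c * (d : ℝ) ^ n * Real.log 2 := by
  classical
  have hd2 : 2 ≤ d := by omega
  have hdR : (d : ℝ) ≠ 0 := by positivity
  induction n with
  | zero =>
    intro V _
    have hcard : Nat.card (Lev d 0 → ℤˣ) = 2 := by
      rw [Nat.card_fun, card_lev]; simp
    have hdvd : Nat.card V ∣ 2 := by rw [← hcard]; exact Subgroup.card_subgroup_dvd_card V
    rcases (Nat.dvd_prime Nat.prime_two).1 hdvd with h | h
    · exact ⟨0, cantor_zero d, by rw [h]; simp⟩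
    · exact ⟨1, cantor_one hd2, by rw [h]; simp⟩
  | succ n ih =>
    intro V hV
    by_cases hc : ∃ f ∈ V, ∃ (u : Lev d n) (x y : Fin d), f (snoc u x) ≠ f (snoc u y)
    · -- second case
      obtain ⟨f, hf, u, x, y, hne⟩ := hc
      obtain ⟨a, b, hab, hp⟩ := pair_of_nonconst hd hA hV hf hne
      have hall := all_pairv hd hA hV hab hp
      have hker := ker_le_of_pairs (by omega) hall
      let V' := V.map (sibProd d n)
      have hV' : Inva G hG n V' := by
        rintro g hg _ ⟨s, hs, rfl⟩
        refine ⟨_, hV g hg s hs, ?_⟩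
        funext u
        show ∏ x, s (gact (hG hg) (n + 1) (snoc u x)) = ∏ x, s (snoc (gact (hG hg) n u) x)
        simp only [gact_snoc]
        exact Equiv.prod_comp (label g u.1) (fun x => s (snoc (gact (hG hg) n u) x))
      obtain ⟨c, hc, hcard⟩ := ih V' hV'
      refine ⟨((d : ℝ) - 1) / d + c / d, cantor_add hd2 hc, ?_⟩
      have h1 : Nat.card V = 2 ^ ((d - 1) * d ^ n) * Nat.card V' := by
        have h2 := card_eq_ker_mul_map ((sibProd d n).comp V.subtype)
        have h3 : ((sibProd d n).comp V.subtype).range = V' := by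
          rw [MonoidHom.range_comp, Subgroup.range_subtype]
        have h4 : Nat.card ((sibProd d n).comp V.subtype).ker = Nat.card (sibProd d n).ker := by
          refine Nat.card_congr ⟨fun k => ⟨k.1.1, k.2⟩, fun k => ⟨⟨k.1, hker k.2⟩, k.2⟩, ?_, ?_⟩
          · intro k; rfl
          · intro k; rfl
        rw [h2, h3, h4, card_ker_sibProd (by omega)]
      rw [h1]
      push_cast
      rw [Real.log_mul (by positivity) (by
        have : 0 < Nat.card V' := Nat.card_pos
        positivity), Real.log_pow, hcard]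
      have h5 : (((d - 1) * d ^ n : ℕ) : ℝ) = ((d : ℝ) - 1) * (d : ℝ) ^ n := by
        push_cast [Nat.cast_sub (by omega : 1 ≤ d)]
        ring
      rw [h5, pow_succ]
      field_simp
    · -- first case
      push Not at hc
      let V' := V.comap (parPull d n)
      have hV' : Inva G hG n V' := by
        intro g hg s hs
        rw [Subgroup.mem_comap] at hs ⊢
        convert hV g hg _ hs using 1
        funext w
        obtain ⟨u, x, rfl⟩ := exists_snoc w
        rw [parPull_snoc, gact_snoc, parPull_snoc]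
      obtain ⟨c, hc', hcard⟩ := ih V' hV'
      refine ⟨c / d, cantor_div hd2 hc', ?_⟩
      have h1 : Nat.card V = Nat.card V' := by
        have h2 : V'.map (parPull d n) = V := by
          apply le_antisymm
          · rw [Subgroup.map_le_iff_le_comap]
          · intro f hf
            have hx0 : 0 < d := by omega
            have hpf : parPull d n (fun u => f (snoc u ⟨0, hx0⟩)) = f := by
              funext w
              obtain ⟨u, x, rfl⟩ := exists_snoc w
              rw [parPull_snoc]
              exact hc f hf u _ _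
            refine ⟨fun u => f (snoc u ⟨0, hx0⟩), ?_, hpf⟩
            show parPull d n _ ∈ V
            rw [hpf]
            exact hf
        rw [← h2]
        exact (Nat.card_congr (V'.equivMapOfInjective _
          (parPull_injective (by omega) n)).toEquiv).symm
      rw [h1, hcard, pow_succ]
      field_simp

end main

end Pool.Agent.SSG
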