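import Mathlib
import Pool.Agent.SSG.Four
import Pool.Agent.SSG.Parity

set_option autoImplicit false

namespace Pool.Agent.SSG

open Equiv

/-- A group acting on a set `U` with labels in `S_4`, rich enough. -/
structure LSys (Γ U : Type) [Group Γ] where
  /-- action -/
  act : Γ → U → U
  act_one : ∀ u, act 1 u = u
  act_mul : ∀ g h u, act (g * h) u = act g (act h u)
  /-- labels -/
  lab : Γ → U → Perm (Fin 4)
  lab_mul : ∀ g h u, lab (g * h) u = lab g (act h u) * lab h u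
  solo : ∀ u, ∀ b ∈ v4, ∃ h, (∀ w, act h w = w) ∧ lab h u = b ∧ ∀ w, w ≠ u → lab h w = 1
  proj : ∀ u, ∀ σ, Perm.sign σ = 1 → ∃ g, (∀ w, act g w = w) ∧ lab g u = σ
  tsurj : ∀ u u', u ≠ u' → ∃ g, (∀ w, act g w = w) ∧ (∀ w, Perm.sign (lab g w) = 1) ∧
    tau (lab g u) ≠ 0 ∧ tau (lab g u') = 0
  trans : ∀ u u', ∃ g, act g u = u'

namespace LSys

variable {Γ U : Type} [Group Γ] (D : LSys Γ U)

theorem lab_one (u : U) : D.lab 1 u = 1 := by
  have := D.lab_mul 1 1 u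
  rw [mul_one, D.act_one] at this
  simpa using this

theorem act_inv_act (g : Γ) (u : U) : D.act g⁻¹ (D.act g u) = u := by
  rw [← D.act_mul, inv_mul_cancel, D.act_one]

theorem act_act_inv (g : Γ) (u : U) : D.act g (D.act g⁻¹ u) = u := by
  rw [← D.act_mul, mul_inv_cancel, D.act_one]

theorem lab_inv_act (g : Γ) (u : U) : D.lab g⁻¹ (D.act g u) = (D.lab g u)⁻¹ := by
  have := D.lab_mul g⁻¹ g u
  rw [inv_mul_cancel, D.lab_one] at this
  exact (inv_eq_of_mul_eq_one_left this.symm).symm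

/-- action on the children -/
def pa (g : Γ) (p : U × Fin 4) : U × Fin 4 := (D.act g p.1, D.lab g p.1 p.2)

theorem pa_mk (g : Γ) (u : U) (x : Fin 4) : D.pa g (u, x) = (D.act g u, D.lab g u x) := rfl

theorem pa_one (p : U × Fin 4) : D.pa 1 p = p := by
  obtain ⟨u, x⟩ := p
  rw [pa_mk, D.act_one, D.lab_one]; rfl

theorem pa_mul (g h : Γ) (p : U × Fin 4) : D.pa (g * h) p = D.pa g (D.pa h p) := by
  obtain ⟨u, x⟩ := p
  rw [pa_mk, pa_mk, pa_mk, D.act_mul, D.lab_mul]; rfl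

theorem pa_inv_pa (g : Γ) (p : U × Fin 4) : D.pa g⁻¹ (D.pa g p) = p := by
  rw [← D.pa_mul, inv_mul_cancel, D.pa_one]

theorem pa_pa_inv (g : Γ) (p : U × Fin 4) : D.pa g (D.pa g⁻¹ p) = p := by
  rw [← D.pa_mul, mul_inv_cancel, D.pa_one]

theorem pa_injective (g : Γ) : Function.Injective (D.pa g) := fun p q h => by
  rw [← D.pa_inv_pa g p, h, D.pa_inv_pa]

/-- elements acting trivially on `U` -/
def N (g : Γ) : Prop := ∀ w, D.act g w = w

theorem N_mul {g h : Γ} (hg : D.N g) (hh : D.N h) : D.N (g * h) := fun w => by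
  rw [D.act_mul, hh, hg]

theorem N_inv {g : Γ} (hg : D.N g) : D.N g⁻¹ := fun w => by
  conv_lhs => rw [← hg w]
  exact D.act_inv_act g w

theorem N_conj {g : Γ} (hg : D.N g) (k : Γ) : D.N (k⁻¹ * g * k) := fun w => by
  rw [D.act_mul, D.act_mul, hg, D.act_inv_act]

/-- the label of a conjugate -/
theorem lab_conj {h : Γ} (hh : D.N h) (g : Γ) (u : U) :
    D.lab (g⁻¹ * h * g) u = (D.lab g u)⁻¹ * D.lab h (D.act g u) * D.lab g u := by
  rw [D.lab_mul, D.lab_mul, hh, D.lab_inv_act]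

open scoped Classical in
/-- `-1` at two points -/
noncomputable def pr (u : U) (x y : Fin 4) : U × Fin 4 → ℤˣ :=
  fun p => if p = (u, x) ∨ p = (u, y) then -1 else 1

/-- invariance of a module of signs -/
def InvS (V : Subgroup (U × Fin 4 → ℤˣ)) : Prop := ∀ g, ∀ s ∈ V, (fun p => s (D.pa g p)) ∈ V

variable {D}

theorem pr_move {V : Subgroup (U × Fin 4 → ℤˣ)} (hV : D.InvS V) {u u' : U} {x y x' y' : Fin 4}
    (h : pr u x y ∈ V) {g : Γ} (hu : D.act g u' = u)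
    (hxy : (D.lab g u' x' = x ∧ D.lab g u' y' = y) ∨
      (D.lab g u' x' = y ∧ D.lab g u' y' = x)) : pr u' x' y' ∈ V := by
  classical
  have h1 := hV g _ h
  convert h1 using 1
  funext w
  unfold pr
  have e1 : D.pa g (u', x') = (u, D.lab g u' x') := by rw [pa_mk, hu]
  have e2 : D.pa g (u', y') = (u, D.lab g u' y') := by rw [pa_mk, hu]
  have : (w = (u', x') ∨ w = (u', y')) ↔ (D.pa g w = (u, x) ∨ D.pa g w = (u, y)) := by
    constructor
    · rintro (rfl | rfl)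
      · rw [e1]; rcases hxy with ⟨h1, h2⟩ | ⟨h1, h2⟩ <;> simp [h1]
      · rw [e2]; rcases hxy with ⟨h1, h2⟩ | ⟨h1, h2⟩ <;> simp [h2]
    · rcases hxy with ⟨h1, h2⟩ | ⟨h1, h2⟩
      · rintro (h | h)
        · left; apply D.pa_injective g; rw [h, e1, h1]
        · right; apply D.pa_injective g; rw [h, e2, h2]
      · rintro (h | h)
        · right; apply D.pa_injective g; rw [h, e2, h2]
        · left; apply D.pa_injective g; rw [h, e1, h1]
  simp only [this]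

theorem all_pr {V : Subgroup (U × Fin 4 → ℤˣ)} (hV : D.InvS V) {u : U} {x y : Fin 4}
    (hxy : x ≠ y) (h : pr u x y ∈ V) : ∀ (u' : U) (x' y' : Fin 4), x' ≠ y' → pr u' x' y' ∈ V := by
  intro u' x' y' h'
  obtain ⟨g, hgu⟩ := D.trans u' u
  have h1 : pr u' ((D.lab g u')⁻¹ x) ((D.lab g u')⁻¹ y) ∈ V :=
    pr_move hV h hgu (Or.inl ⟨by simp, by simp⟩)
  have h2 : (D.lab g u')⁻¹ x ≠ (D.lab g u')⁻¹ y := fun h => hxy (by simpa using h)
  obtain ⟨a, ha, hax⟩ := alt_two _ _ x' y' h2 h'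
  obtain ⟨k, hk, hk1⟩ := D.proj u' a (Perm.mem_alternatingGroup.1 ha)
  refine pr_move hV h1 (g := k) (hk u') (by rw [hk1]; exact hax)

theorem odd_aux : ∀ f : Fin 4 → ℤˣ, f 0 * f 1 * f 2 * f 3 = -1 → ∃ x y : Fin 4, x ≠ y ∧
    ∀ z, f z * f ((swap 0 1 * swap 2 3 : Perm (Fin 4)) z) = if z = x ∨ z = y then -1 else 1 := by
  decide +kernel

theorem b1_mem : (swap 0 1 * swap 2 3 : Perm (Fin 4)) ∈ v4 := by
  rw [mem_v4]; decide +kernel

theorem pr_of_odd {V : Subgroup (U × Fin 4 → ℤˣ)} (hV : D.InvS V) {s : U × Fin 4 → ℤˣ}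
    (hs : s ∈ V) {u : U} (h : s (u, 0) * s (u, 1) * s (u, 2) * s (u, 3) = -1) :
    ∃ x y : Fin 4, x ≠ y ∧ pr u x y ∈ V := by
  classical
  obtain ⟨x, y, hxy, H⟩ := odd_aux (fun z => s (u, z)) h
  obtain ⟨g, hg, hg1, hg2⟩ := D.solo u _ b1_mem
  refine ⟨x, y, hxy, ?_⟩
  have hmem : (fun p => s p * s (D.pa g p)) ∈ V := mul_mem hs (hV g s hs)
  convert hmem using 1
  funext p
  obtain ⟨w, z⟩ := p
  rw [pa_mk, hg]
  by_cases hw : w = u
  · subst hw
    rw [hg1]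
    have := H z
    rw [this]
    unfold pr
    simp only [Prod.mk.injEq, true_and]
  · rw [hg2 w hw]
    simp [pr, hw]

theorem even_v4 : ∀ f : Fin 4 → ℤˣ, ∀ b : Perm (Fin 4), (f 0 * f 1 * f 2 * f 3 = 1 ∧
    (Perm.sign b = 1 ∧ tau b = 0)) → ∀ x y, f x * f (b x) = f y * f (b y) := by
  decide +kernel

theorem even_rot : ∀ f : Fin 4 → ℤˣ, ∀ b : Perm (Fin 4), (f 0 * f 1 * f 2 * f 3 = 1 ∧
    (Perm.sign b = 1 ∧ tau b ≠ 0) ∧ (∃ x y, f x ≠ f y)) →
      ∃ x y, f x * f (b x) ≠ f y * f (b y) := by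
  decide +kernel

theorem even_pair : ∀ f : Fin 4 → ℤˣ, (f 0 * f 1 * f 2 * f 3 = 1 ∧ (∃ x y, f x ≠ f y)) →
      ∃ x y, x ≠ y ∧ ∀ z, f z = if z = x ∨ z = y then -1 else 1 := by
  decide +kernel

theorem exists_rot : ∃ b : Perm (Fin 4), Perm.sign b = 1 ∧ tau b ≠ 0 := by
  decide +kernel

theorem dichV [Finite U] {V : Subgroup (U × Fin 4 → ℤˣ)} (hV : D.InvS V) :
    (∀ s ∈ V, ∀ u x y, s (u, x) = s (u, y)) ∨ (∀ u x y, x ≠ y → pr u x y ∈ V) := by
  classical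
  by_cases hc : ∀ s ∈ V, ∀ u x y, s (u, x) = s (u, y)
  · exact Or.inl hc
  right
  push Not at hc
  by_cases hodd : ∃ s ∈ V, ∃ u, s (u, 0) * s (u, 1) * s (u, 2) * s (u, 3) = -1
  · obtain ⟨s, hs, u, hu⟩ := hodd
    obtain ⟨x, y, hxy, h⟩ := pr_of_odd hV hs hu
    exact all_pr hV hxy h
  have heven : ∀ s ∈ V, ∀ u, s (u, 0) * s (u, 1) * s (u, 2) * s (u, 3) = 1 := by
    intro s hs u
    rcases Int.units_eq_one_or (s (u, 0) * s (u, 1) * s (u, 2) * s (u, 3)) with h | h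
    · exact h
    · exact absurd ⟨s, hs, u, h⟩ hodd
  obtain ⟨s0, hs0, u, x0, y0, hne⟩ := hc
  have key : ∀ S : Finset U, u ∉ S → ∃ s ∈ V, (∃ x y, s (u, x) ≠ s (u, y)) ∧
      ∀ w ∈ S, ∀ x y, s (w, x) = s (w, y) := by
    intro S
    induction S using Finset.induction_on with
    | empty => exact fun _ => ⟨s0, hs0, ⟨x0, y0, hne⟩, by simp⟩
    | insert w S _ ih =>
      intro hu
      rw [Finset.mem_insert, not_or] at hu
      obtain ⟨s, hs, hn, hS⟩ := ih hu.2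
      obtain ⟨g, hg, hg1, hg2, hg3⟩ := D.tsurj u w hu.1
      refine ⟨fun p => s p * s (D.pa g p), mul_mem hs (hV g s hs), ?_, ?_⟩
      · obtain ⟨x, y, hxy⟩ := even_rot (fun z => s (u, z)) (D.lab g u)
          ⟨heven s hs u, ⟨hg1 u, hg2⟩, hn⟩
        refine ⟨x, y, ?_⟩
        simp only [pa_mk, hg]
        exact hxy
      · intro w' hw' x y
        simp only [pa_mk, hg]
        rw [Finset.mem_insert] at hw'
        rcases hw' with rfl | hw'
        · exact even_v4 (fun z => s (w', z)) (D.lab g w') ⟨heven s hs w', hg1 w', hg3⟩ x y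
        · rw [hS w' hw' x y, hS w' hw' (D.lab g w' x) (D.lab g w' y)]
  have := Fintype.ofFinite U
  obtain ⟨s, hs, hn, hS⟩ := key (Finset.univ.erase u) (by simp)
  obtain ⟨b, hb1, hb2⟩ := exists_rot
  obtain ⟨g, hg, hg1⟩ := D.proj u b hb1
  have hs2 : (fun p => s p * s (D.pa g p)) ∈ V := mul_mem hs (hV g s hs)
  have h1 : ∃ x y, s (u, x) * s (u, b x) ≠ s (u, y) * s (u, b y) :=
    even_rot (fun z => s (u, z)) b ⟨heven s hs u, ⟨hb1, hb2⟩, hn⟩
  have h2 := heven _ hs2 u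
  simp only [pa_mk, hg u, hg1] at h2
  obtain ⟨x, y, hxy, H⟩ := even_pair (fun z => s (u, z) * s (u, b z)) ⟨h2, h1⟩
  refine all_pr hV hxy (u := u) ?_
  convert hs2 using 1
  funext p
  obtain ⟨w, z⟩ := p
  rw [pa_mk, hg]
  by_cases hw : w = u
  · subst hw
    rw [hg1]
    have := H z
    rw [this]
    unfold pr
    simp only [Prod.mk.injEq, true_and]
  · rw [hS w (by simp [hw]) z (D.lab g w z), Int.units_mul_self]
    simp [pr, hw]

end LSys

end Pool.Agent.SSG
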