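import Mathlib
import Pool.Agent.SSG.LSys

set_option autoImplicit false

namespace Pool.Agent.SSG

open Equiv

namespace LSys

variable {Γ U : Type} [Group Γ] {D : LSys Γ U}

/-- a cocycle of signs on the children -/
def IsCoc (D : LSys Γ U) (e : Γ → U × Fin 4 → ℤˣ) : Prop :=
  ∀ g h p, e (g * h) p = e g (D.pa h p) * e h p

/-- elements acting trivially on the children -/
def N1 (D : LSys Γ U) (g : Γ) : Prop := ∀ p, D.pa g p = p

/-- lifts of solo labels -/
def L (D : LSys Γ U) (u : U) (b : Perm (Fin 4)) (h : Γ) : Prop :=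
  D.N h ∧ D.lab h u = b ∧ ∀ w, w ≠ u → D.lab h w = 1

theorem pa_N {g : Γ} (hg : D.N g) (u : U) (x : Fin 4) : D.pa g (u, x) = (u, D.lab g u x) := by
  rw [pa_mk, hg]

theorem lab_mul_N {g h : Γ} (hh : D.N h) (u : U) : D.lab (g * h) u = D.lab g u * D.lab h u := by
  rw [D.lab_mul, hh]

theorem lab_inv_N {g : Γ} (hg : D.N g) (u : U) : D.lab g⁻¹ u = (D.lab g u)⁻¹ := by
  have := D.lab_inv_act g u
  rwa [hg u] at this

theorem N1_iff {g : Γ} : D.N1 g ↔ D.N g ∧ ∀ u, D.lab g u = 1 := by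
  constructor
  · intro h
    refine ⟨fun w => congrArg Prod.fst (h (w, 0)), fun u => ?_⟩
    ext x
    have := congrArg Prod.snd (h (u, x))
    simp only [pa_mk] at this
    rw [this]; rfl
  · rintro ⟨h1, h2⟩ ⟨u, x⟩
    rw [pa_N h1, h2]; rfl

theorem N1_mul {g h : Γ} (hg : D.N1 g) (hh : D.N1 h) : D.N1 (g * h) := fun p => by
  rw [D.pa_mul, hh, hg]

theorem N1_inv {g : Γ} (hg : D.N1 g) : D.N1 g⁻¹ := fun p => by
  conv_lhs => rw [← hg p]
  exact D.pa_inv_pa g p

theorem N1_one : D.N1 1 := fun p => D.pa_one p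

theorem N1_conj {g : Γ} (hg : D.N1 g) (k : Γ) : D.N1 (k⁻¹ * g * k) := fun p => by
  rw [D.pa_mul, D.pa_mul, hg, D.pa_inv_pa]

section

variable {e : Γ → U × Fin 4 → ℤˣ} (he : D.IsCoc e)

include he

theorem coc_one (p : U × Fin 4) : e 1 p = 1 := by
  have := he 1 1 p
  rw [mul_one, D.pa_one] at this
  simpa using this

theorem coc_inv (g : Γ) (p : U × Fin 4) : e g⁻¹ (D.pa g p) * e g p = 1 := by
  rw [← he, inv_mul_cancel, coc_one he]

theorem coc_inv' (g : Γ) (p : U × Fin 4) : e g⁻¹ (D.pa g p) = e g p := by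
  have h := coc_inv he g p
  rw [mul_eq_one_iff_eq_inv] at h
  rw [h, Int.units_inv_eq_self]

theorem coc_conj (g h : Γ) (p : U × Fin 4) (hp : D.pa h (D.pa g p) = D.pa g p) :
    e (g⁻¹ * h * g) p = e h (D.pa g p) := by
  rw [he, he, hp, coc_inv' he, mul_comm, ← mul_assoc, Int.units_mul_self, one_mul]

theorem same_lab (hC : ∀ k, D.N1 k → ∀ u x y, e k (u, x) = e k (u, y)) {g h : Γ} (hg : D.N g)
    (hh : D.N h) (H : ∀ w, D.lab g w = D.lab h w) (w : U) :
    ∃ c : ℤˣ, ∀ x, e h (w, x) = c * e g (w, x) := by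
  have h1 : D.N1 (g⁻¹ * h) := by
    rw [N1_iff]
    refine ⟨D.N_mul (D.N_inv hg) hh, fun u => ?_⟩
    rw [lab_mul_N hh, lab_inv_N hg, H u, inv_mul_cancel]
  refine ⟨e (g⁻¹ * h) (w, 0), fun x => ?_⟩
  have h2 : h = g * (g⁻¹ * h) := by group
  conv_lhs => rw [h2]
  rw [he, h1, hC _ h1 w x 0, mul_comm]

/-- first quasi-invariance -/
theorem A1 (hC : ∀ k, D.N1 k → ∀ u x y, e k (u, x) = e k (u, y)) {g : Γ} (hg : D.N g) {u : U}
    (hu : D.lab g u = 1) {b : Perm (Fin 4)} (hb : b ∈ v4) :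
    ∃ c : ℤˣ, ∀ x, e g (u, b x) = c * e g (u, x) := by
  obtain ⟨h, hh, hh1, hh2⟩ := D.solo u b hb
  obtain ⟨c, hc⟩ := same_lab he hC (D.N_mul hh hg) (D.N_mul hg hh) (fun w => by
    rw [lab_mul_N hg, lab_mul_N hh]
    by_cases hw : w = u
    · rw [hw, hu, one_mul, mul_one]
    · rw [hh2 w hw, one_mul, mul_one]) u
  refine ⟨c, fun x => ?_⟩
  have h3 := hc x
  rw [he, he, pa_N hh, hh1, pa_N hg, hu, Perm.one_apply] at h3
  -- e g (u, b x) * e h (u,x) = c * (e h (u,x) * e g (u,x))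
  have h4 : e g (u, b x) * e h (u, x) = (c * e g (u, x)) * e h (u, x) := by
    rw [h3, mul_comm (e h (u, x)), mul_assoc]
  exact mul_right_cancel h4

end

theorem const_of : ∀ f : Fin 4 → ℤˣ, ((∀ b : Perm (Fin 4), (Perm.sign b = 1 ∧ tau b = 0) →
    ∃ c : ℤˣ, ∀ x, f (b x) = c * f x) ∧ (∃ σ : Perm (Fin 4), (Perm.sign σ = 1 ∧ tau σ ≠ 0) ∧
      ∃ c : ℤˣ, ∀ x, f (σ x) = c * f x)) → ∀ x y, f x = f y := by
  decide +kernel

theorem v4_conj_self : ∀ a b : Perm (Fin 4), ((Perm.sign a = 1 ∧ tau a = 0) ∧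
    (Perm.sign b = 1 ∧ tau b = 0)) → a⁻¹ * b * a = b := by
  decide +kernel

theorem v4_sq : ∀ b : Perm (Fin 4), (Perm.sign b = 1 ∧ tau b = 0) → b * b = 1 := by
  decide +kernel

theorem cube_mem : ∀ b : Perm (Fin 4), Perm.sign b = 1 →
    (Perm.sign (b * b * b) = 1 ∧ tau (b * b * b) = 0) := by
  decide +kernel

theorem v4_conj_mem : ∀ a b : Perm (Fin 4), (Perm.sign b = 1 ∧ tau b = 0) →
    (Perm.sign (a⁻¹ * b * a) = 1 ∧ tau (a⁻¹ * b * a) = 0) := by
  decide +kernel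

section

variable {e : Γ → U × Fin 4 → ℤˣ} (he : D.IsCoc e)
  (hC : ∀ k, D.N1 k → ∀ u x y, e k (u, x) = e k (u, y))

include he hC

/-- lifts of solo labels: constant off the cone -/
theorem F2 {u w : U} (hw : w ≠ u) {b : Perm (Fin 4)} (hb : b ∈ v4) {h : Γ} (hh : D.L u b h)
    (x y : Fin 4) : e h (w, x) = e h (w, y) := by
  obtain ⟨g, hg, hg1, hg2, hg3⟩ := D.tsurj w u hw
  refine const_of (fun x => e h (w, x)) ⟨fun b' hb' => A1 he hC hh.1 (hh.2.2 w hw) hb', D.lab g w,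
    ⟨hg1 w, hg2⟩, ?_⟩ x y
  obtain ⟨c, hc⟩ := same_lab he hC hh.1 (D.N_conj hh.1 g) (fun v => by
    rw [D.lab_conj hh.1, hg]
    by_cases hv : v = u
    · rw [hv, hh.2.1]
      exact (v4_conj_self _ _ ⟨⟨hg1 u, hg3⟩, hb⟩).symm
    · rw [hh.2.2 v hv]; simp) w
  refine ⟨c, fun x => ?_⟩
  rw [← hc x, coc_conj he, pa_N hg]
  rw [pa_N hg, pa_N hh.1, hh.2.2 w hw]; rfl

/-- products of solo lifts -/
theorem F2' [Finite U] {u : U} {q : Γ} (hq : D.N q) (hq1 : ∀ w, D.lab q w ∈ v4)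
    (hqu : D.lab q u = 1) (x y : Fin 4) : e q (u, x) = e q (u, y) := by
  classical
  have := Fintype.ofFinite U
  have key : ∀ (S : Finset U), u ∉ S → ∀ q : Γ, D.N q → (∀ w, D.lab q w ∈ v4) →
      (∀ w, w ∉ S → D.lab q w = 1) → ∀ x y, e q (u, x) = e q (u, y) := by
    intro S
    induction S using Finset.induction_on with
    | empty =>
      intro _ q hq _ hS x y
      exact hC q (N1_iff.2 ⟨hq, fun w => hS w (by simp)⟩) u x y
    | insert w S hwS ih =>
      intro hu q hq hq1 hS x y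
      rw [Finset.mem_insert, not_or] at hu
      obtain ⟨h, hh, hh1, hh2⟩ := D.solo w _ (hq1 w)
      have hN : D.N (h⁻¹ * q) := D.N_mul (D.N_inv hh) hq
      have hl : ∀ v, D.lab (h⁻¹ * q) v = if v = w then 1 else D.lab q v := by
        intro v
        rw [lab_mul_N hq, lab_inv_N hh]
        by_cases hv : v = w
        · rw [hv, hh1]; simp
        · rw [hh2 v hv]; simp [hv]
      have h1 := ih hu.2 (h⁻¹ * q) hN (fun v => by
        rw [hl]; split
        · exact one_mem _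
        · exact hq1 v) (fun v hv => by
        rw [hl]; split
        · rfl
        · rename_i hvw
          exact hS v (by rw [Finset.mem_insert, not_or]; exact ⟨hvw, hv⟩))
      have h2 : q = h * (h⁻¹ * q) := by group
      have hqu : D.lab (h⁻¹ * q) u = 1 := by
        rw [hl, if_neg hu.1]
        exact hS u (by rw [Finset.mem_insert, not_or]; exact hu)
      have h3 : ∀ z, e q (u, z) = e h (u, z) * e (h⁻¹ * q) (u, z) := fun z => by
        conv_lhs => rw [h2]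
        rw [he, pa_N hN, hqu]; rfl
      rw [h3, h3, h1 x y, F2 he hC (u := w) hu.1 (hq1 w) ⟨hh, hh1, hh2⟩ x y]
  exact key (Finset.univ.erase u) (by simp) q hq hq1 (fun w hw => by
    simp only [Finset.mem_erase, Finset.mem_univ, and_true, not_not] at hw
    rw [hw, hqu]) x y

/-- elements with trivial label at `u` -/
theorem F4 [Finite U] {u : U} {g : Γ} (hg : D.N g) (hu : D.lab g u = 1) (x y : Fin 4) :
    e g (u, x) = e g (u, y) := by
  obtain ⟨b, hb1, hb2⟩ := exists_rot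
  obtain ⟨g0, hg0, hg01⟩ := D.proj u b hb1
  set k := g0 * g0 with hk
  have hkN : D.N k := D.N_mul hg0 hg0
  have hks : ∀ w, Perm.sign (D.lab k w) = 1 := fun w => by
    rw [hk, lab_mul_N hg0, map_mul, Int.units_mul_self]
  have hkt : tau (D.lab k u) ≠ 0 := by
    rw [hk, lab_mul_N hg0, hg01, tau_mul, hb1, us_one, one_mul]
    revert hb2
    generalize tau b = t
    revert t
    decide
  refine const_of (fun x => e g (u, x)) ⟨fun b' hb' => A1 he hC hg hu hb', D.lab k u,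
    ⟨hks u, hkt⟩, ?_⟩ x y
  set g' := k⁻¹ * g * k with hg'
  have hg'N : D.N g' := D.N_conj hg k
  set p := g⁻¹ * g' with hp
  have hpN : D.N p := D.N_mul (D.N_inv hg) hg'N
  have hlp : ∀ w, D.lab p w = (D.lab g w)⁻¹ * ((D.lab k w)⁻¹ * D.lab g w * D.lab k w) := by
    intro w
    rw [hp, lab_mul_N hg'N, lab_inv_N hg, hg', D.lab_conj hg, hkN]
  have hpu : D.lab p u = 1 := by rw [hlp, hu]; simp
  have hps : ∀ w, Perm.sign (D.lab p w) = 1 := by
    intro w
    rw [hlp]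
    simp only [map_mul, map_inv, hks]
    simp
  have h3N : D.N (p * p) := D.N_mul hpN hpN
  have h4N : D.N (p * p * p) := D.N_mul h3N hpN
  have h5 := F2' he hC (u := u) h4N (fun w => by
    rw [lab_mul_N hpN, lab_mul_N hpN]
    exact cube_mem _ (hps w)) (by rw [lab_mul_N hpN, lab_mul_N hpN, hpu]; simp)
  have h6 : ∀ z, e (p * p * p) (u, z) = e p (u, z) := fun z => by
    have hz : D.pa p (u, z) = (u, z) := by rw [pa_N hpN, hpu]; rfl
    rw [he, he, hz, hz, Int.units_mul_self, one_mul]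
  have h7 : ∀ z, e p (u, z) = e p (u, 0) := fun z => by rw [← h6, ← h6]; exact h5 _ _
  refine ⟨e p (u, 0), fun z => ?_⟩
  have h8 : e g' (u, z) = e g (u, D.lab k u z) := by
    rw [hg', coc_conj he, pa_N hkN]
    rw [pa_N hkN, pa_N hg, hu]; rfl
  have h9 : g' = g * p := by rw [hp]; group
  rw [← h8, h9, he, pa_N hpN, hpu, h7 z, mul_comm]; rfl

end

end LSys

end Pool.Agent.SSG
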