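import Mathlib
import Pool.Agent.SSG.LCoc

set_option autoImplicit false

namespace Pool.Agent.SSG

open Equiv

namespace LSys

variable {Γ U : Type} [Group Γ] {D : LSys Γ U}

theorem LL_N1 {u : U} {b : Perm (Fin 4)} {h : Γ} (hb : b ∈ v4) (hh : D.L u b h) :
    D.N1 (h * h) := by
  rw [N1_iff]
  refine ⟨D.N_mul hh.1 hh.1, fun w => ?_⟩
  rw [lab_mul_N hh.1]
  by_cases hw : w = u
  · rw [hw, hh.2.1]; exact v4_sq b hb
  · rw [hh.2.2 w hw, one_mul]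

section

variable {e : Γ → U × Fin 4 → ℤˣ} (he : D.IsCoc e)
  (hC : ∀ k, D.N1 k → ∀ u x y, e k (u, x) = e k (u, y))

include he hC

theorem tw_or_un :
    (∀ u b h, b ∈ v4 → D.L u b h → ∀ x, e (h * h) (u, x) = 1) ∨
    (∀ u b h, b ∈ v4 → b ≠ 1 → D.L u b h → (∀ x, e (h * h) (u, x) = -1) ∧
      ∀ w, w ≠ u → ∀ x, e (h * h) (w, x) = 1) := by
  by_cases hq : ∀ u b h, b ∈ v4 → D.L u b h → ∀ x, e (h * h) (u, x) = 1
  · exact Or.inl hq
  right
  push Not at hq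
  obtain ⟨u0, b0, h0, hb0, hL0, x0, hx0⟩ := hq
  have hb01 : b0 ≠ 1 := by
    intro h
    apply hx0
    have : D.N1 h0 := by
      rw [N1_iff]
      refine ⟨hL0.1, fun w => ?_⟩
      by_cases hw : w = u0
      · rw [hw, hL0.2.1, h]
      · exact hL0.2.2 w hw
    rw [he, this, Int.units_mul_self]
  have hm : ∀ x, e (h0 * h0) (u0, x) = -1 := by
    intro x
    rw [hC _ (LL_N1 hb0 hL0) u0 x x0]
    exact (Int.units_eq_one_or _).resolve_left hx0
  intro u b h hb hb1 hL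
  constructor
  · intro x
    obtain ⟨g, hg⟩ := D.trans u u0
    set l := D.lab g u with hl
    have hv : Perm.sign (l * b * l⁻¹) = 1 ∧ tau (l * b * l⁻¹) = 0 := by
      have := v4_conj_mem l⁻¹ b (mem_v4.1 hb)
      rwa [inv_inv] at this
    obtain ⟨a, ha, hav⟩ := (v4_conj_aux b0 (l * b * l⁻¹) ⟨mem_v4.1 hb0, hb01, hv⟩).resolve_left
      (by
        intro h
        apply hb1
        have h2 : b = l⁻¹ * (l * b * l⁻¹) * l := by group
        rw [h2, h]; group)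
    obtain ⟨k, hk, hk1⟩ := D.proj u0 a⁻¹ (by rw [map_inv, ha, inv_one])
    set g' := k * g with hg'
    have hg'u : D.act g' u = u0 := by rw [hg', D.act_mul, hk, hg]
    have hg'l : D.lab g' u = a⁻¹ * l := by rw [hg', D.lab_mul, hg, hk1]
    set h1 := g'⁻¹ * h0 * g' with hh1
    have hN1 : D.N h1 := D.N_conj hL0.1 g'
    have hlab : ∀ w, D.lab h w = D.lab h1 w := by
      intro w
      rw [hh1, D.lab_conj hL0.1]
      by_cases hw : w = u
      · rw [hw, hL.2.1, hg'u, hL0.2.1, hg'l]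
        have h2 : b = l⁻¹ * (l * b * l⁻¹) * l := by group
        rw [h2, ← hav]; group
      · rw [hL.2.2 w hw, hL0.2.2 _ (by
          intro h2
          apply hw
          rw [← D.act_inv_act g' w, h2, ← hg'u, D.act_inv_act])]
        simp
    obtain ⟨c, hc⟩ := same_lab he hC hN1 hL.1 (fun w => (hlab w).symm) u
    have h3 : e (h * h) (u, x) = e (h1 * h1) (u, x) := by
      rw [he, he, pa_N hL.1, pa_N hN1, ← hlab u, hc, hc]
      have : ∀ a b : ℤˣ, c * a * (c * b) = a * b := by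
        intro a b
        rw [mul_mul_mul_comm, Int.units_mul_self, one_mul]
      exact this _ _
    have h4 : h1 * h1 = g'⁻¹ * (h0 * h0) * g' := by rw [hh1]; group
    rw [h3, h4, coc_conj he _ _ _ (LL_N1 hb0 hL0 _), pa_mk, hg'u]
    exact hm _
  · intro w hw x
    have : D.pa h (w, x) = (w, x) := by rw [pa_N hL.1, hL.2.2 w hw]; rfl
    rw [he, this, Int.units_mul_self]

end

/-- the twisted cocycle -/
def twc (D : LSys Γ U) (φ : U × Fin 4 → ℤˣ) (e : Γ → U × Fin 4 → ℤˣ) : Γ → U × Fin 4 → ℤˣ :=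
  fun g p => e g p * φ p * φ (D.pa g p)

theorem twc_coc {e : Γ → U × Fin 4 → ℤˣ} (he : D.IsCoc e) (φ : U × Fin 4 → ℤˣ) :
    D.IsCoc (D.twc φ e) := by
  intro g h p
  unfold twc
  rw [he, D.pa_mul]
  have : ∀ a b c d f : ℤˣ, a * b * c * d = a * f * d * (b * c * f) := by decide
  exact this _ _ _ _ _

theorem twc_N1 (e : Γ → U × Fin 4 → ℤˣ) (φ : U × Fin 4 → ℤˣ) {k : Γ} (hk : D.N1 k)
    (p : U × Fin 4) : D.twc φ e k p = e k p := by
  unfold twc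
  rw [hk, mul_assoc, Int.units_mul_self, mul_one]

theorem phi_aux : ∀ β1 β2 : Fin 4 → ℤˣ,
    ((∀ x, β1 ((swap 0 1 * swap 2 3 : Perm (Fin 4)) x) * β1 x = 1) ∧
    (∀ x, β2 ((swap 0 2 * swap 1 3 : Perm (Fin 4)) x) * β2 x = 1) ∧
    (∀ x, (β1 ((swap 0 2 * swap 1 3 : Perm (Fin 4)) (((swap 0 1 * swap 2 3) *
      (swap 0 2 * swap 1 3) : Perm (Fin 4)) x)) *
      β2 (((swap 0 1 * swap 2 3) * (swap 0 2 * swap 1 3) : Perm (Fin 4)) x)) *
      (β1 ((swap 0 2 * swap 1 3 : Perm (Fin 4)) x) * β2 x) = 1)) →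
    ∃ φ : Fin 4 → ℤˣ, (∀ x, β1 x = φ x * φ ((swap 0 1 * swap 2 3 : Perm (Fin 4)) x)) ∧
      (∀ x, β2 x = φ x * φ ((swap 0 2 * swap 1 3 : Perm (Fin 4)) x)) := by
  decide +kernel

theorem v4_cases : ∀ b : Perm (Fin 4), (Perm.sign b = 1 ∧ tau b = 0) →
    (b = 1 ∨ b = swap 0 1 * swap 2 3 ∨ b = swap 0 2 * swap 1 3 ∨
      b = (swap 0 1 * swap 2 3) * (swap 0 2 * swap 1 3)) := by
  decide +kernel

theorem b2_mem : (swap 0 2 * swap 1 3 : Perm (Fin 4)) ∈ v4 := by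
  rw [mem_v4]; decide +kernel

/-- quasi-invariance under the Klein four-group -/
def QI (f : Fin 4 → ℤˣ) : Prop := ∀ b : Perm (Fin 4), (Perm.sign b = 1 ∧ tau b = 0) →
  ∃ c : ℤˣ, ∀ x, f (b x) = c * f x

instance : DecidablePred QI := fun f => by unfold QI; infer_instance

theorem chi_aux : ∀ (δ : Fin 4 → ℤˣ) (σ : Perm (Fin 4)),
    (QI δ ∧ (Perm.sign σ = 1 ∧ tau σ ≠ 0)) →
    ∃ χ : Fin 4 → ℤˣ, QI χ ∧ ∃ c : ℤˣ, ∀ x, δ x * χ x * χ (σ x) = c := by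
  decide +kernel

section

variable {e : Γ → U × Fin 4 → ℤˣ} (he : D.IsCoc e)
  (hC : ∀ k, D.N1 k → ∀ u x y, e k (u, x) = e k (u, y))

include he hC

theorem phi_exists (hun : ∀ u b h, b ∈ v4 → D.L u b h → ∀ x, e (h * h) (u, x) = 1) (u : U) :
    ∃ φ : Fin 4 → ℤˣ, ∀ b ∈ v4, ∀ h, D.L u b h →
      ∃ c : ℤˣ, ∀ x, e h (u, x) = c * (φ x * φ (b x)) := by
  obtain ⟨h1, h1L⟩ := D.solo u _ b1_mem
  obtain ⟨h2, h2L⟩ := D.solo u _ b2_mem
  have h3L : D.L u ((swap 0 1 * swap 2 3) * (swap 0 2 * swap 1 3)) (h1 * h2) := by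
    refine ⟨D.N_mul h1L.1 h2L.1, ?_, fun w hw => ?_⟩
    · rw [lab_mul_N h2L.1, h1L.2.1, h2L.2.1]
    · rw [lab_mul_N h2L.1, h1L.2.2 w hw, h2L.2.2 w hw, one_mul]
  have q1 := hun u _ h1 b1_mem h1L
  have q2 := hun u _ h2 b2_mem h2L
  have q3 := hun u _ _ (mul_mem b1_mem b2_mem) h3L
  have e1 : ∀ x, e (h1 * h1) (u, x) =
      e h1 (u, (swap 0 1 * swap 2 3 : Perm (Fin 4)) x) * e h1 (u, x) := fun x => by
    rw [he, pa_N h1L.1, h1L.2.1]
  have e2 : ∀ x, e (h2 * h2) (u, x) =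
      e h2 (u, (swap 0 2 * swap 1 3 : Perm (Fin 4)) x) * e h2 (u, x) := fun x => by
    rw [he, pa_N h2L.1, h2L.2.1]
  have e3 : ∀ x, e (h1 * h2) (u, x) =
      e h1 (u, (swap 0 2 * swap 1 3 : Perm (Fin 4)) x) * e h2 (u, x) := fun x => by
    rw [he, pa_N h2L.1, h2L.2.1]
  obtain ⟨φ, hφ1, hφ2⟩ := phi_aux (fun x => e h1 (u, x)) (fun x => e h2 (u, x))
    ⟨fun x => by rw [← e1]; exact q1 x, fun x => by rw [← e2]; exact q2 x, fun x => by
      rw [← e3 x, ← q3 x, he (h1 * h2), pa_N h3L.1, h3L.2.1,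
        e3 (((swap 0 1 * swap 2 3) * (swap 0 2 * swap 1 3) : Perm (Fin 4)) x)]⟩
  refine ⟨φ, ?_⟩
  have main : ∀ (b : Perm (Fin 4)) (h' : Γ), D.L u b h' →
      (∀ x, e h' (u, x) = φ x * φ (b x)) → ∀ h, D.L u b h →
      ∃ c : ℤˣ, ∀ x, e h (u, x) = c * (φ x * φ (b x)) := by
    intro b h' hh' H h hh
    obtain ⟨c, hc⟩ := same_lab he hC hh'.1 hh.1 (fun w => by
      by_cases hw : w = u
      · rw [hw, hh'.2.1, hh.2.1]
      · rw [hh'.2.2 w hw, hh.2.2 w hw]) u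
    exact ⟨c, fun x => by rw [hc, H]⟩
  intro b hb
  rcases v4_cases b (mem_v4.1 hb) with rfl | rfl | rfl | rfl
  · refine main 1 1 ⟨fun w => D.act_one w, D.lab_one u, fun w _ => D.lab_one w⟩ (fun x => ?_)
    rw [coc_one he, Perm.one_apply, Int.units_mul_self]
  · exact main _ h1 h1L hφ1
  · exact main _ h2 h2L hφ2
  · refine main _ _ h3L (fun x => ?_)
    rw [e3, hφ1, hφ2]
    simp only [Perm.mul_apply]
    have : ∀ a b c : ℤˣ, a * b * (c * a) = c * b := by decide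
    exact this _ _ _

omit hC in
/-- second quasi-invariance -/
theorem C1 (hP : ∀ u, ∀ b ∈ v4, ∀ h, D.L u b h → ∀ x y, e h (u, x) = e h (u, y)) (g : Γ)
    (u : U) {b : Perm (Fin 4)} (hb : b ∈ v4) : ∃ c : ℤˣ, ∀ x, e g (u, b x) = c * e g (u, x) := by
  obtain ⟨h, hL⟩ := D.solo u b hb
  set l := D.lab g u with hl
  have hL' : D.L (D.act g u) (l * b * l⁻¹) (g * h * g⁻¹) := by
    have hc : g * h * g⁻¹ = (g⁻¹)⁻¹ * h * g⁻¹ := by rw [inv_inv]
    refine ⟨?_, ?_, fun w hw => ?_⟩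
    · rw [hc]; exact D.N_conj hL.1 g⁻¹
    · rw [hc, D.lab_conj hL.1, D.act_inv_act, hL.2.1, D.lab_inv_act]; simp [hl]
    · rw [hc, D.lab_conj hL.1, hL.2.2 _ (by
        intro h2
        apply hw
        rw [← h2, D.act_act_inv])]
      simp
  have hv : l * b * l⁻¹ ∈ v4 := by
    have := v4_conj_mem l⁻¹ b (mem_v4.1 hb)
    rwa [inv_inv] at this
  refine ⟨e (g * h * g⁻¹) (D.act g u, 0) * e h (u, 0), fun x => ?_⟩
  have h1 : e (g * h) (u, x) = e g (u, b x) * e h (u, 0) := by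
    rw [he, pa_N hL.1, hL.2.1, hP u b hb h hL x 0]
  have h2 : e (g * h) (u, x) = e (g * h * g⁻¹) (D.act g u, 0) * e g (u, x) := by
    have : g * h = (g * h * g⁻¹) * g := by group
    conv_lhs => rw [this]
    rw [he, pa_mk, hP _ _ hv _ hL' _ 0]
  rw [h1] at h2
  have : ∀ a b c d : ℤˣ, a * b = c * d → a = c * b * d := by decide
  exact this _ _ _ _ h2

end

theorem rot_cases : ∀ ρ σ : Perm (Fin 4), ((Perm.sign ρ = 1 ∧ tau ρ ≠ 0) ∧
    (Perm.sign σ = 1 ∧ tau σ ≠ 0)) → ((Perm.sign (ρ * σ⁻¹) = 1 ∧ tau (ρ * σ⁻¹) = 0) ∨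
      (Perm.sign (ρ * σ) = 1 ∧ tau (ρ * σ) = 0)) := by
  decide +kernel

theorem rot_conj : ∀ l σ : Perm (Fin 4), (Perm.sign σ = 1 ∧ tau σ ≠ 0) →
    (Perm.sign (l⁻¹ * σ * l) = 1 ∧ tau (l⁻¹ * σ * l) ≠ 0) := by
  decide +kernel

section

variable {e : Γ → U × Fin 4 → ℤˣ} (he : D.IsCoc e)
  (hC : ∀ k, D.N1 k → ∀ u x y, e k (u, x) = e k (u, y))

include he hC

/-- all sections constant -/
theorem all_const [Finite U]
    (hP : ∀ u, ∀ b ∈ v4, ∀ h, D.L u b h → ∀ x y, e h (u, x) = e h (u, y))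
    (hR : ∀ u, ∃ g, D.N g ∧ (Perm.sign (D.lab g u) = 1 ∧ tau (D.lab g u) ≠ 0) ∧
      ∀ x y, e g (u, x) = e g (u, y)) (g : Γ) (u : U) (x y : Fin 4) :
    e g (u, x) = e g (u, y) := by
  have hα : ∀ (u : U) (q : Γ), D.N q → D.lab q u ∈ v4 → ∀ x y, e q (u, x) = e q (u, y) := by
    intro u q hq hqu x y
    obtain ⟨h, hL⟩ := D.solo u _ hqu
    have hN : D.N (h⁻¹ * q) := D.N_mul (D.N_inv hL.1) hq
    have hl : D.lab (h⁻¹ * q) u = 1 := by
      rw [lab_mul_N hq, lab_inv_N hL.1, hL.2.1, inv_mul_cancel]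
    have h2 : q = h * (h⁻¹ * q) := by group
    have h3 : ∀ z, e q (u, z) = e h (u, z) * e (h⁻¹ * q) (u, z) := fun z => by
      conv_lhs => rw [h2]
      rw [he, pa_N hN, hl]; rfl
    rw [h3, h3, F4 he hC hN hl x y, hP u _ hqu h hL x y]
  have hβ : ∀ (u : U) (q : Γ), D.N q → (Perm.sign (D.lab q u) = 1 ∧ tau (D.lab q u) ≠ 0) →
      ∀ x y, e q (u, x) = e q (u, y) := by
    intro u q hq hqu x y
    obtain ⟨g0, hg0, hr, hc⟩ := hR u
    rcases rot_cases _ _ ⟨hqu, hr⟩ with h | h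
    · have hN : D.N (q * g0⁻¹) := D.N_mul hq (D.N_inv hg0)
      have hl : D.lab (q * g0⁻¹) u ∈ v4 := by
        rw [lab_mul_N (D.N_inv hg0), lab_inv_N hg0]; exact h
      have h2 : q = (q * g0⁻¹) * g0 := by group
      have h3 : ∀ z, e q (u, z) = e (q * g0⁻¹) (u, D.lab g0 u z) * e g0 (u, z) := fun z => by
        conv_lhs => rw [h2]
        rw [he, pa_N hg0]
      rw [h3, h3, hc x y, hα u _ hN hl (D.lab g0 u x) (D.lab g0 u y)]
    · have hN : D.N (q * g0) := D.N_mul hq hg0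
      have hl : D.lab (q * g0) u ∈ v4 := by
        rw [lab_mul_N hg0]; exact h
      have h3 : ∀ z, e (q * g0) (u, z) = e q (u, D.lab g0 u z) * e g0 (u, z) := fun z => by
        rw [he, pa_N hg0]
      have h4 : ∀ z, e q (u, z) = e (q * g0) (u, 0) * e g0 (u, 0) := fun z => by
        have h5 := h3 ((D.lab g0 u)⁻¹ z)
        have h6 : D.lab g0 u ((D.lab g0 u)⁻¹ z) = z := by simp
        rw [hα u _ hN hl _ 0, hc _ 0, h6] at h5
        rw [h5, mul_assoc, Int.units_mul_self, mul_one]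
      rw [h4, h4 y]
  obtain ⟨g0, hg0, hr, hc⟩ := hR (D.act g u)
  have hN1 : D.N (g⁻¹ * g0 * g) := D.N_conj hg0 g
  have hl1 : D.lab (g⁻¹ * g0 * g) u = (D.lab g u)⁻¹ * D.lab g0 (D.act g u) * D.lab g u :=
    D.lab_conj hg0 g u
  have hr1 : Perm.sign (D.lab (g⁻¹ * g0 * g) u) = 1 ∧ tau (D.lab (g⁻¹ * g0 * g) u) ≠ 0 := by
    rw [hl1]; exact rot_conj _ _ hr
  refine const_of (fun x => e g (u, x)) ⟨fun b hb => C1 he hP g u hb, _, hr1,
    e g0 (D.act g u, 0) * e (g⁻¹ * g0 * g) (u, 0), fun z => ?_⟩ x y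
  have h1 : e (g0 * g) (u, z) = e g0 (D.act g u, 0) * e g (u, z) := by
    rw [he, pa_mk, hc _ 0]
  have h2 : e (g0 * g) (u, z) = e g (u, D.lab (g⁻¹ * g0 * g) u z) *
      e (g⁻¹ * g0 * g) (u, 0) := by
    have : g0 * g = g * (g⁻¹ * g0 * g) := by group
    conv_lhs => rw [this]
    rw [he, pa_N hN1, hβ u _ hN1 hr1 z 0]
  rw [h1] at h2
  have : ∀ a b c d : ℤˣ, a * b = c * d → c = a * d * b := by decide
  exact this _ _ _ _ h2

/-- The untwisted case: the cocycle comes from `U`. -/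
theorem untwist [Finite U]
    (hun : ∀ u b h, b ∈ v4 → D.L u b h → ∀ x, e (h * h) (u, x) = 1) :
    ∃ (φ : U × Fin 4 → ℤˣ) (e' : Γ → U → ℤˣ),
      (∀ g h u, e' (g * h) u = e' g (D.act h u) * e' h u) ∧
      ∀ g p, e g p = φ p * φ (D.pa g p) * e' g p.1 := by
  choose φ0 hφ0 using phi_exists he hC hun
  set e1 := D.twc (fun p => φ0 p.1 p.2) e with he1
  have he1c : D.IsCoc e1 := twc_coc he _
  have hC1 : ∀ k, D.N1 k → ∀ u x y, e1 k (u, x) = e1 k (u, y) := by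
    intro k hk u x y
    rw [he1, twc_N1 _ _ hk, twc_N1 _ _ hk]
    exact hC k hk u x y
  have hP1 : ∀ u, ∀ b ∈ v4, ∀ h, D.L u b h → ∀ x y, e1 h (u, x) = e1 h (u, y) := by
    intro u b hb h hL x y
    obtain ⟨c, hc⟩ := hφ0 u b hb h hL
    have : ∀ z, e1 h (u, z) = c := by
      intro z
      rw [he1]
      unfold twc
      rw [pa_N hL.1, hL.2.1, hc]
      have : ∀ a b c : ℤˣ, c * (a * b) * a * b = c := by decide
      exact this _ _ _
    rw [this, this]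
  obtain ⟨σ0, hσ1, hσ2⟩ := exists_rot
  choose g0 hg0 hg01 using fun u => D.proj u σ0 hσ1
  choose χ hχ1 hχ2 using fun u => chi_aux (fun x => e1 (g0 u) (u, x)) σ0
    ⟨fun b hb => C1 he1c hP1 (g0 u) u hb, hσ1, hσ2⟩
  set e2 := D.twc (fun p => χ p.1 p.2) e1 with he2
  have he2c : D.IsCoc e2 := twc_coc he1c _
  have hC2 : ∀ k, D.N1 k → ∀ u x y, e2 k (u, x) = e2 k (u, y) := by
    intro k hk u x y
    rw [he2, twc_N1 _ _ hk, twc_N1 _ _ hk]
    exact hC1 k hk u x y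
  have hP2 : ∀ u, ∀ b ∈ v4, ∀ h, D.L u b h → ∀ x y, e2 h (u, x) = e2 h (u, y) := by
    intro u b hb h hL x y
    obtain ⟨c, hc⟩ := hχ1 u b (mem_v4.1 hb)
    have : ∀ z, e2 h (u, z) = e1 h (u, 0) * c := by
      intro z
      rw [he2]
      unfold twc
      rw [pa_N hL.1, hL.2.1]
      simp only
      rw [hc, hP1 u b hb h hL z 0]
      have : ∀ a b c : ℤˣ, a * b * (c * b) = a * c := by decide
      exact this _ _ _
    rw [this, this]
  have hR2 : ∀ u, ∃ g, D.N g ∧ (Perm.sign (D.lab g u) = 1 ∧ tau (D.lab g u) ≠ 0) ∧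
      ∀ x y, e2 g (u, x) = e2 g (u, y) := by
    intro u
    refine ⟨g0 u, hg0 u, by rw [hg01]; exact ⟨hσ1, hσ2⟩, fun x y => ?_⟩
    obtain ⟨c, hc⟩ := hχ2 u
    have : ∀ z, e2 (g0 u) (u, z) = c := by
      intro z
      rw [he2]
      unfold twc
      rw [pa_N (hg0 u), hg01]
      exact hc z
    rw [this, this]
  have hall := all_const he2c hC2 hP2 hR2
  have hfor : ∀ g p, e g p = (φ0 p.1 p.2 * χ p.1 p.2) *
      (φ0 (D.pa g p).1 (D.pa g p).2 * χ (D.pa g p).1 (D.pa g p).2) * e2 g p := by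
    intro g p
    rw [he2, he1]
    unfold twc
    have : ∀ a b c d e : ℤˣ, a = b * d * (c * e) * (a * b * c * d * e) := by decide
    exact this _ _ _ _ _
  refine ⟨fun p => φ0 p.1 p.2 * χ p.1 p.2, fun g u => e2 g (u, 0), ?_, ?_⟩
  · intro g h u
    show e2 (g * h) (u, 0) = e2 g (D.act h u, 0) * e2 h (u, 0)
    rw [he2c, pa_mk, hall g _ _ 0]
  · intro g p
    rw [hfor g p]
    obtain ⟨u, x⟩ := p
    rw [hall g u x 0]

end

end LSys

end Pool.Agent.SSG
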