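import Mathlib
import Pool.Agent.SSG.LPhi

set_option autoImplicit false

namespace Pool.Agent.SSG

open Equiv

theorem us_cases : ∀ s : ℤˣ, us s = 1 ∨ us s = -1 := by decide

theorem zmod3_smul : ∀ c a : ZMod 3, c ≠ 0 → a = (a * c).val • c := by decide

theorem no_J3 {Q : Type} [AddCommGroup Q] (hcard : Nat.card Q = 3) (J : Q →+ Q)
    (hJ : ∀ q, J (J q) = -q) : False := by
  have : Fact (Nat.Prime 3) := ⟨Nat.prime_three⟩
  have : IsAddCyclic Q := isAddCyclic_of_prime_card hcard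
  obtain ⟨g, hg⟩ := IsAddCyclic.exists_generator (α := Q)
  obtain ⟨m, hm⟩ := AddSubgroup.mem_zmultiples_iff.1 (hg (J g))
  have h1 : J (J g) = (m * m) • g := by
    rw [← hm, map_zsmul, ← hm, smul_smul]
  rw [hJ] at h1
  have h2 : (m * m + 1) • g = 0 := by
    rw [add_smul, ← h1, one_smul, neg_add_cancel]
  have h3 : addOrderOf g = 3 := by
    rw [addOrderOf_eq_card_of_forall_mem_zmultiples hg, hcard]
  have h4 : (3 : ℤ) ∣ m * m + 1 := by
    have := addOrderOf_dvd_iff_zsmul_eq_zero.2 h2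
    rwa [h3] at this
  have h5 : (m * m + 1) % 3 = 0 := Int.emod_eq_zero_of_dvd h4
  have h6 : m % 3 = 0 ∨ m % 3 = 1 ∨ m % 3 = 2 := by omega
  rcases h6 with h | h | h <;> simp [Int.add_emod, Int.mul_emod, h] at h5

theorem card_J (W : AddSubgroup (Fin 4 → ZMod 3)) (J : (Fin 4 → ZMod 3) →+ (Fin 4 → ZMod 3))
    (hJ : ∀ f, J (J f) = -f) (hW : ∀ f ∈ W, J f ∈ W) :
    Nat.card W = 1 ∨ Nat.card W = 9 ∨ Nat.card W = 81 := by
  have h1 : Nat.card W ∣ 3 ^ 4 := by
    have := AddSubgroup.card_addSubgroup_dvd_card W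
    have h2 : Nat.card (Fin 4 → ZMod 3) = 3 ^ 4 := by
      rw [Nat.card_fun]; simp
    rwa [h2] at this
  obtain ⟨k, hk, hk2⟩ := (Nat.dvd_prime_pow Nat.prime_three).1 h1
  interval_cases k
  · left; simpa using hk2
  · exfalso
    refine no_J3 (Q := W) (by simpa using hk2)
      { toFun := fun x => ⟨J x.1, hW x.1 x.2⟩
        map_zero' := Subtype.ext (map_zero J)
        map_add' := fun x y => Subtype.ext (map_add J x.1 y.1) } (fun q => ?_)
    apply Subtype.ext
    exact hJ q.1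
  · right; left; simpa using hk2
  · exfalso
    have h3 := AddSubgroup.card_mul_index W
    have h2 : Nat.card (Fin 4 → ZMod 3) = 3 ^ 4 := by
      rw [Nat.card_fun]; simp
    rw [h2, hk2] at h3
    have h4 : W.index = 3 := by omega
    have hW' : W ≤ W.comap J := hW
    refine no_J3 (Q := (Fin 4 → ZMod 3) ⧸ W) h4 (QuotientAddGroup.map W W J hW') (fun q => ?_)
    induction q using QuotientAddGroup.induction_on with
    | H f =>
      have h5 : (QuotientAddGroup.map W W J hW') ((QuotientAddGroup.map W W J hW')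
        (f : (Fin 4 → ZMod 3) ⧸ W)) = ((J (J f) : Fin 4 → ZMod 3) : (Fin 4 → ZMod 3) ⧸ W) := rfl
      rw [h5, hJ]
      rfl
  · right; right; simpa using hk2

namespace LSys

variable {Γ U : Type} [Group Γ] {D : LSys Γ U}

/-- invariant modules over the field with three elements -/
def InvT (D : LSys Γ U) (e : Γ → U × Fin 4 → ℤˣ) (T : AddSubgroup (U × Fin 4 → ZMod 3)) : Prop :=
  ∀ g, ∀ t ∈ T, (fun p => us (e g p) * t (D.pa g p)) ∈ T

theorem single_top [Finite U] {T : AddSubgroup (U × Fin 4 → ZMod 3)}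
    (h : ∀ p, ∃ c : ZMod 3, c ≠ 0 ∧ (open scoped Classical in (Pi.single p c : U × Fin 4 → ZMod 3)) ∈ T) :
    T = ⊤ := by
  classical
  have := Fintype.ofFinite U
  rw [eq_top_iff]
  intro t _
  rw [← Finset.univ_sum_single t]
  apply sum_mem
  intro p _
  obtain ⟨c, hc, hT⟩ := h p
  rw [zmod3_smul c (t p) hc]
  have : (Pi.single p ((t p * c).val • c) : U × Fin 4 → ZMod 3) =
      (t p * c).val • (Pi.single p c : U × Fin 4 → ZMod 3) := by
    rw [← Pi.single_smul]
  rw [this]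
  have h3 : (Pi.single p c : U × Fin 4 → ZMod 3) ∈ T := by convert hT
  exact nsmul_mem h3 _

theorem pa_trans (D : LSys Γ U) (p q : U × Fin 4) : ∃ g, D.pa g p = q := by
  obtain ⟨u, x⟩ := p
  obtain ⟨v, y⟩ := q
  obtain ⟨g, hg⟩ := D.trans u v
  obtain ⟨b, hb, hbx⟩ := v4_trans (D.lab g u x) y
  obtain ⟨h, hN, hh, -⟩ := D.solo v b (mem_v4.2 hb)
  refine ⟨h * g, ?_⟩
  have e1 : D.pa g (u, x) = (v, D.lab g u x) := by rw [pa_mk, hg]
  rw [D.pa_mul, e1, pa_N hN, hh, hbx]

/-- the nonconstant case -/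
theorem caseI [Finite U] {e : Γ → U × Fin 4 → ℤˣ} {T : AddSubgroup (U × Fin 4 → ZMod 3)}
    (hT : D.InvT e T) (hpr : ∀ (u : U) (x y : Fin 4), x ≠ y → ∃ k, D.N1 k ∧ e k = pr u x y) :
    T = ⊥ ∨ T = ⊤ := by
  classical
  by_cases hbot : T = ⊥
  · exact Or.inl hbot
  right
  have hrestr : ∀ (u : U) (x y : Fin 4), x ≠ y → ∀ t ∈ T,
      (fun p => if p = (u, x) ∨ p = (u, y) then t p else 0) ∈ T := by
    intro u x y hxy t ht
    obtain ⟨k, hk, hek⟩ := hpr u x y hxy
    have h1 : (fun p => us (e k p) * t (D.pa k p)) ∈ T := hT k t ht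
    have h2 : -(t - (fun p => us (e k p) * t (D.pa k p))) ∈ T := neg_mem (sub_mem ht h1)
    convert h2 using 1
    funext p
    simp only [Pi.neg_apply, Pi.sub_apply]
    rw [hk p, hek]
    unfold pr
    split
    · rw [us_neg_one]
      generalize t p = a
      revert a
      decide
    · rw [us_one]; ring
  have hsing : ∀ (u : U) (x : Fin 4), ∀ t ∈ T, (Pi.single (u, x) (t (u, x)) : U × Fin 4 → ZMod 3) ∈ T := by
    intro u x t ht
    obtain ⟨y, z, hxy, hxz, hyz⟩ : ∃ y z : Fin 4, x ≠ y ∧ x ≠ z ∧ y ≠ z := by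
      revert x
      decide
    have h1 := hrestr u x z hxz _ (hrestr u x y hxy t ht)
    convert h1 using 1
    funext p
    by_cases hp : p = (u, x)
    · subst hp; simp
    · rw [Pi.single_eq_of_ne hp]
      by_cases hp2 : p = (u, z)
      · subst hp2
        have h3 : ¬ ((u, z) = (u, x)) := hp
        have h4 : ¬ ((u, z) = (u, y)) := fun h => hyz (Prod.mk.inj h).2.symm
        simp [h3, h4]
      · simp [hp, hp2]
  obtain ⟨t, ht, ht0⟩ : ∃ t ∈ T, t ≠ 0 := by
    by_contra h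
    push Not at h
    exact hbot ((AddSubgroup.eq_bot_iff_forall T).2 h)
  obtain ⟨⟨u, x⟩, hux⟩ := Function.ne_iff.1 ht0
  have h0 := hsing u x t ht
  apply single_top
  intro p
  obtain ⟨g, hg⟩ := pa_trans D p (u, x)
  refine ⟨us (e g p) * t (u, x), mul_ne_zero (us_ne_zero _) hux, ?_⟩
  have h1 := hT g _ h0
  convert h1 using 1
  funext q
  by_cases hq : q = p
  · subst hq
    rw [Pi.single_eq_same, hg, Pi.single_eq_same]
  · rw [Pi.single_eq_of_ne hq, Pi.single_eq_of_ne, mul_zero]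
    intro h
    apply hq
    exact D.pa_injective g (h.trans hg.symm)

open scoped Classical in
/-- extension by zero -/
noncomputable def ext (u : U) : (Fin 4 → ZMod 3) →+ (U × Fin 4 → ZMod 3) where
  toFun f := fun p => if p.1 = u then f p.2 else 0
  map_zero' := by funext p; simp
  map_add' f g := by
    funext p
    simp only [Pi.add_apply]
    split <;> simp

theorem ext_apply_same (u : U) (f : Fin 4 → ZMod 3) (x : Fin 4) : ext u f (u, x) = f x := by
  simp [ext]

theorem ext_apply_ne {u v : U} (h : v ≠ u) (f : Fin 4 → ZMod 3) (x : Fin 4) :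
    ext u f (v, x) = 0 := by
  simp [ext, h]

/-- local module -/
noncomputable def W (T : AddSubgroup (U × Fin 4 → ZMod 3)) (u : U) :
    AddSubgroup (Fin 4 → ZMod 3) := T.comap (ext u)

theorem mem_W {T : AddSubgroup (U × Fin 4 → ZMod 3)} {u : U} {f : Fin 4 → ZMod 3} :
    f ∈ W T u ↔ ext u f ∈ T := Iff.rfl

theorem eq_sum_ext [Fintype U] (t : U × Fin 4 → ZMod 3) :
    t = ∑ u, ext u (fun x => t (u, x)) := by
  classical
  funext p
  obtain ⟨u, x⟩ := p
  rw [Finset.sum_apply, Finset.sum_eq_single u]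
  · rw [ext_apply_same]
  · intro v _ hv
    rw [ext_apply_ne (Ne.symm hv)]
  · simp

/-- transport of local vectors -/
theorem ext_move (e : Γ → U × Fin 4 → ℤˣ) (g : Γ) (u : U) (f : Fin 4 → ZMod 3) :
    (fun p => us (e g p) * ext (D.act g u) f (D.pa g p)) =
      ext u (fun x => us (e g (u, x)) * f (D.lab g u x)) := by
  funext p
  obtain ⟨v, x⟩ := p
  by_cases hv : v = u
  · subst hv
    rw [ext_apply_same, pa_mk, ext_apply_same]
  · rw [ext_apply_ne hv, pa_mk, ext_apply_ne, mul_zero]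
    intro h
    apply hv
    rw [← D.act_inv_act g v, h, D.act_inv_act]

theorem W_move {e : Γ → U × Fin 4 → ℤˣ} {T : AddSubgroup (U × Fin 4 → ZMod 3)}
    (hT : D.InvT e T) (g : Γ) (u : U) {f : Fin 4 → ZMod 3} (hf : f ∈ W T (D.act g u)) :
    (fun x => us (e g (u, x)) * f (D.lab g u x)) ∈ W T u := by
  rw [mem_W, ← ext_move (D := D) e g u f]
  exact hT g _ hf

theorem card_W_le {e : Γ → U × Fin 4 → ℤˣ} {T : AddSubgroup (U × Fin 4 → ZMod 3)}
    (hT : D.InvT e T) (g : Γ) (u : U) : Nat.card (W T (D.act g u)) ≤ Nat.card (W T u) := by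
  let F : W T (D.act g u) → W T u := fun f =>
    ⟨fun x => us (e g (u, x)) * f.1 (D.lab g u x), W_move hT g u f.2⟩
  apply Nat.card_le_card_of_injective F
  intro f f' h
  apply Subtype.ext
  funext y
  have h1 := congrFun (congrArg Subtype.val h) ((D.lab g u)⁻¹ y)
  simp only [F] at h1
  have h2 : D.lab g u ((D.lab g u)⁻¹ y) = y := by simp
  rw [h2] at h1
  exact mul_left_cancel₀ (us_ne_zero _) h1

theorem card_W_eq {e : Γ → U × Fin 4 → ℤˣ} {T : AddSubgroup (U × Fin 4 → ZMod 3)}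
    (hT : D.InvT e T) (u v : U) : Nat.card (W T u) = Nat.card (W T v) := by
  apply le_antisymm
  · obtain ⟨g, hg⟩ := D.trans v u
    rw [← hg]
    exact card_W_le hT g v
  · obtain ⟨g, hg⟩ := D.trans u v
    rw [← hg]
    exact card_W_le hT g u

theorem b1_inv : ∀ x : Fin 4, (swap 0 1 * swap 2 3 : Perm (Fin 4))
    ((swap 0 1 * swap 2 3 : Perm (Fin 4)) x) = x := by decide

/-- the twisted case -/
theorem caseTw [Finite U] {e : Γ → U × Fin 4 → ℤˣ} (he : D.IsCoc e)
    {T : AddSubgroup (U × Fin 4 → ZMod 3)} (hT : D.InvT e T)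
    (htw : ∀ u b h, b ∈ v4 → b ≠ 1 → D.L u b h → (∀ x, e (h * h) (u, x) = -1) ∧
      ∀ w, w ≠ u → ∀ x, e (h * h) (w, x) = 1) :
    (T = ⊥ ∨ T = ⊤) ∨ Nat.card T = 9 ^ Nat.card U := by
  classical
  have := Fintype.ofFinite U
  have hb1 : (swap 0 1 * swap 2 3 : Perm (Fin 4)) ≠ 1 := by decide
  have hrestr : ∀ u, ∀ t ∈ T, ext u (fun x => t (u, x)) ∈ T := by
    intro u t ht
    obtain ⟨h, hL⟩ := D.solo u _ b1_mem
    obtain ⟨h1, h2⟩ := htw u _ h b1_mem hb1 hL
    have hN := LL_N1 b1_mem hL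
    have h3 : -(t - (fun p => us (e (h * h) p) * t (D.pa (h * h) p))) ∈ T :=
      neg_mem (sub_mem ht (hT _ t ht))
    convert h3 using 1
    funext p
    obtain ⟨w, x⟩ := p
    simp only [Pi.neg_apply, Pi.sub_apply]
    rw [hN]
    by_cases hw : w = u
    · subst hw
      rw [ext_apply_same, h1, us_neg_one]
      generalize t (w, x) = a
      revert a
      decide
    · rw [ext_apply_ne hw, h2 w hw, us_one]; ring
  have hcard : Nat.card T = ∏ u, Nat.card (W T u) := by
    rw [← Nat.card_pi]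
    refine Nat.card_congr ⟨fun t u => ⟨fun x => t.1 (u, x), hrestr u t.1 t.2⟩,
      fun f => ⟨fun p => (f p.1).1 p.2, ?_⟩, ?_, ?_⟩
    · rw [eq_sum_ext (fun p : U × Fin 4 => (f p.1).1 p.2)]
      exact sum_mem (fun u _ => (f u).2)
    · intro t; rfl
    · intro f; rfl
  rcases isEmpty_or_nonempty U with hU | hU
  · left; left
    rw [AddSubgroup.eq_bot_iff_forall]
    intro t _
    funext p
    exact (IsEmpty.false p.1).elim
  obtain ⟨u0⟩ := hU
  have hcard2 : Nat.card T = Nat.card (W T u0) ^ Nat.card U := by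
    rw [hcard, Finset.prod_congr rfl (fun u _ => card_W_eq hT u u0), Finset.prod_const,
      Finset.card_univ, Nat.card_eq_fintype_card (α := U)]
  obtain ⟨h, hL⟩ := D.solo u0 _ b1_mem
  obtain ⟨h1, h2⟩ := htw u0 _ h b1_mem hb1 hL
  let J : (Fin 4 → ZMod 3) →+ (Fin 4 → ZMod 3) :=
    { toFun := fun f x => us (e h (u0, x)) * f ((swap 0 1 * swap 2 3 : Perm (Fin 4)) x)
      map_zero' := by funext x; simp
      map_add' := by intro f g; funext x; simp [mul_add] }
  have hJJ : ∀ f, J (J f) = -f := by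
    intro f
    funext x
    show us (e h (u0, x)) * (us (e h (u0, (swap 0 1 * swap 2 3 : Perm (Fin 4)) x)) *
      f ((swap 0 1 * swap 2 3 : Perm (Fin 4)) ((swap 0 1 * swap 2 3 : Perm (Fin 4)) x))) = - f x
    have h3 := h1 x
    rw [he, pa_N hL.1, hL.2.1] at h3
    rw [← mul_assoc, ← us_mul, mul_comm (e h (u0, x)), h3, us_neg_one, b1_inv]
    ring
  have hJW : ∀ f ∈ W T u0, J f ∈ W T u0 := by
    intro f hf
    have h3 : f ∈ W T (D.act h u0) := by rw [hL.1]; exact hf
    have h4 := W_move hT h u0 h3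
    rw [hL.2.1] at h4
    exact h4
  rcases card_J _ J hJJ hJW with h3 | h3 | h3
  · left; left
    rw [h3, one_pow] at hcard2
    exact AddSubgroup.card_eq_one.1 hcard2
  · right
    rw [hcard2, h3]
  · left; right
    apply AddSubgroup.eq_top_of_card_eq
    rw [hcard2, h3, Nat.card_fun, Nat.card_prod]
    simp only [Nat.card_eq_fintype_card (α := Fin 4), Fintype.card_fin, Nat.card_zmod]
    rw [mul_comm, pow_mul]
    norm_num

end LSys

end Pool.Agent.SSG
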