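import Mathlib
import Pool.Agent.SSG.LMod

set_option autoImplicit false

namespace Pool.Agent.SSG

open Equiv

theorem fin1 : ∀ (f : Fin 4 → ZMod 3) (s : ℤˣ), (∃ x y, f x ≠ f y) →
    ∃ b : Perm (Fin 4), ((Perm.sign b = 1 ∧ tau b = 0) ∧ b ≠ 1) ∧
      ∃ x y, f (b x) - us s * f x ≠ f (b y) - us s * f y := by
  decide +kernel

/-- the characters of the Klein four-group -/
def chr : Fin 3 → Fin 4 → ZMod 3
  | 0 => ![1, 1, -1, -1]
  | 1 => ![1, -1, 1, -1]
  | 2 => ![1, -1, -1, 1]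

theorem fin2a : ∀ f : Fin 4 → ZMod 3, (∃ x y, f x ≠ f y) →
    ∃ b b' : Perm (Fin 4), ((Perm.sign b = 1 ∧ tau b = 0) ∧ (Perm.sign b' = 1 ∧ tau b' = 0)) ∧
      ∃ (i : Fin 3) (s : ℤˣ), ∀ x, us s * (f x - f (b x) - f (b' x) + f (b (b' x))) = chr i x := by
  decide +kernel

theorem fin2b : ∀ i j : Fin 3, ∃ σ : Perm (Fin 4), Perm.sign σ = 1 ∧ ∃ s : ℤˣ,
    ∀ x, us s * chr i (σ x) = chr j x := by
  decide +kernel

theorem fin2c : ∀ f : Fin 4 → ZMod 3, f 0 + f 1 + f 2 + f 3 = 0 → ∀ x, f x =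
    (f 0 * chr 0 0 + f 1 * chr 0 1 + f 2 * chr 0 2 + f 3 * chr 0 3) * chr 0 x +
    (f 0 * chr 1 0 + f 1 * chr 1 1 + f 2 * chr 1 2 + f 3 * chr 1 3) * chr 1 x +
    (f 0 * chr 2 0 + f 1 * chr 2 1 + f 2 * chr 2 2 + f 3 * chr 2 3) * chr 2 x := by
  decide +kernel

theorem us_mul_mem {ι : Type} {W : AddSubgroup (ι → ZMod 3)} {f : ι → ZMod 3} (hf : f ∈ W)
    (s : ℤˣ) : (fun x => us s * f x) ∈ W := by
  rcases us_cases s with h | h
  · rw [h]; simpa using hf
  · rw [h]
    have := neg_mem hf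
    convert this using 1
    funext x
    simp

theorem zmul_mem {ι : Type} {W : AddSubgroup (ι → ZMod 3)} {f : ι → ZMod 3} (hf : f ∈ W)
    (a : ZMod 3) : (fun x => a * f x) ∈ W := by
  have := nsmul_mem hf a.val
  convert this using 1
  funext x
  simp

theorem sumzero_mem {W : AddSubgroup (Fin 4 → ZMod 3)}
    (hW : ∀ f ∈ W, ∀ σ : Perm (Fin 4), Perm.sign σ = 1 → (fun x => f (σ x)) ∈ W)
    {f : Fin 4 → ZMod 3} (hf : f ∈ W) (hn : ∃ x y, f x ≠ f y) (f' : Fin 4 → ZMod 3)
    (hf' : f' 0 + f' 1 + f' 2 + f' 3 = 0) : f' ∈ W := by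
  obtain ⟨b, b', ⟨hb, hb'⟩, i, s, H⟩ := fin2a f hn
  have h1 : chr i ∈ W := by
    have h2 := us_mul_mem (add_mem (sub_mem (sub_mem hf (hW f hf b hb.1)) (hW f hf b' hb'.1))
      (hW _ (hW f hf b hb.1) b' hb'.1)) s
    convert h2 using 1
    funext x
    exact (H x).symm
  have h3 : ∀ j, chr j ∈ W := by
    intro j
    obtain ⟨σ, hσ, t, ht⟩ := fin2b i j
    have h4 := us_mul_mem (hW _ h1 σ hσ) t
    convert h4 using 1
    funext x
    exact (ht x).symm
  have h5 := add_mem (add_mem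
    (zmul_mem (h3 0) (f' 0 * chr 0 0 + f' 1 * chr 0 1 + f' 2 * chr 0 2 + f' 3 * chr 0 3))
    (zmul_mem (h3 1) (f' 0 * chr 1 0 + f' 1 * chr 1 1 + f' 2 * chr 1 2 + f' 3 * chr 1 3)))
    (zmul_mem (h3 2) (f' 0 * chr 2 0 + f' 1 * chr 2 1 + f' 2 * chr 2 2 + f' 3 * chr 2 3))
  convert h5 using 1
  funext x
  exact fin2c f' hf' x

namespace LSys

variable {Γ U : Type} [Group Γ] {D : LSys Γ U}

/-- invariance under a cocycle on `U` -/
def InvU (D : LSys Γ U) (e' : Γ → U → ℤˣ) (T : AddSubgroup (U → ZMod 3)) : Prop :=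
  ∀ g, ∀ t ∈ T, (fun u => us (e' g u) * t (D.act g u)) ∈ T

theorem stepS [Finite U] {e' : Γ → U → ℤˣ}
    (he' : ∀ g h u, e' (g * h) u = e' g (D.act h u) * e' h u)
    {S : AddSubgroup (U × Fin 4 → ZMod 3)} (hS : D.InvT (fun g p => e' g p.1) S) :
    (∀ t ∈ S, ∀ u x y, t (u, x) = t (u, y)) ∨
    (∀ t : U × Fin 4 → ZMod 3, (∀ u, t (u, 0) + t (u, 1) + t (u, 2) + t (u, 3) = 0) → t ∈ S) := by
  classical
  have := Fintype.ofFinite U
  by_cases hc : ∀ t ∈ S, ∀ u x y, t (u, x) = t (u, y)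
  · exact Or.inl hc
  right
  push Not at hc
  obtain ⟨t0, ht0, u, x0, y0, hne⟩ := hc
  have e'1 : ∀ u, e' 1 u = 1 := by
    intro u
    have := he' 1 1 u
    rw [mul_one, D.act_one] at this
    simpa using this
  have e'inv : ∀ g u, e' g⁻¹ (D.act g u) = e' g u := by
    intro g u
    have h := he' g⁻¹ g u
    rw [inv_mul_cancel, e'1] at h
    have : ∀ a b : ℤˣ, 1 = a * b → a = b := by decide
    exact this _ _ h
  -- lifts of the solo labels with the same signs
  have hlift : ∀ w, w ≠ u → ∃ s : ℤˣ, ∀ b ∈ v4, b ≠ 1 → ∃ h, D.L u b h ∧ e' h u * e' h w = s := by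
    intro w hw
    obtain ⟨h, hL⟩ := D.solo u _ b1_mem
    have hb1 : (swap 0 1 * swap 2 3 : Perm (Fin 4)) ≠ 1 := by decide
    refine ⟨e' h u * e' h w, fun b hb hb1' => ?_⟩
    obtain ⟨a, ha, hab⟩ := (v4_conj_aux _ b ⟨mem_v4.1 b1_mem, hb1, mem_v4.1 hb⟩).resolve_left hb1'
    obtain ⟨g, hg, hg1⟩ := D.proj u a⁻¹ (by rw [map_inv, ha, inv_one])
    refine ⟨g⁻¹ * h * g, ⟨D.N_conj hL.1 g, ?_, fun v hv => ?_⟩, ?_⟩
    · rw [D.lab_conj hL.1, hg, hL.2.1, hg1, inv_inv]
      exact hab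
    · rw [D.lab_conj hL.1, hg, hL.2.2 v hv]; simp
    · have h3 : ∀ v, e' (g⁻¹ * h * g) v = e' h v := by
        intro v
        rw [he', he', hg, hL.1]
        have h4 := e'inv g v
        rw [hg] at h4
        rw [h4]
        have : ∀ a b : ℤˣ, a * b * a = b := by decide
        exact this _ _
      rw [h3, h3]
  have key : ∀ F : Finset U, u ∉ F → ∃ t ∈ S, (∃ x y, t (u, x) ≠ t (u, y)) ∧
      ∀ w ∈ F, ∀ x, t (w, x) = 0 := by
    intro F
    induction F using Finset.induction_on with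
    | empty => exact fun _ => ⟨t0, ht0, ⟨x0, y0, hne⟩, by simp⟩
    | insert w F _ ih =>
      intro hu
      rw [Finset.mem_insert, not_or] at hu
      obtain ⟨t, ht, hn, hF⟩ := ih hu.2
      obtain ⟨s, hs⟩ := hlift w (Ne.symm hu.1)
      obtain ⟨b, ⟨hb, hb1⟩, x, y, hxy⟩ := fin1 (fun x => t (u, x)) s hn
      obtain ⟨h, hL, hhs⟩ := hs b (mem_v4.2 hb) hb1
      refine ⟨_, sub_mem (hS h t ht) (us_mul_mem ht (e' h w)), ⟨x, y, ?_⟩, ?_⟩
      · simp only [Pi.sub_apply, pa_N hL.1, hL.2.1]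
        have h5 : ∀ z, us (e' h u) * t (u, b z) - us (e' h w) * t (u, z) =
            us (e' h u) * (t (u, b z) - us s * t (u, z)) := by
          intro z
          rw [← hhs, us_mul, mul_sub, ← mul_assoc, ← mul_assoc, us_mul_self, one_mul]
        rw [h5, h5]
        intro h6
        exact hxy (mul_left_cancel₀ (us_ne_zero _) h6)
      · intro v hv z
        simp only [Pi.sub_apply]
        rw [Finset.mem_insert] at hv
        rcases hv with rfl | hv
        · rw [pa_N hL.1, hL.2.2 v (Ne.symm hu.1)]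
          simp
        · rw [pa_N hL.1, hF v hv, hF v hv]
          simp
  obtain ⟨t, ht, hn, hF⟩ := key (Finset.univ.erase u) (by simp)
  have hext : ext u (fun x => t (u, x)) = t := by
    funext p
    obtain ⟨w, x⟩ := p
    by_cases hw : w = u
    · subst hw; rw [ext_apply_same]
    · rw [ext_apply_ne hw, hF w (by simp [hw])]
  have hWu : (fun x => t (u, x)) ∈ W S u := by
    rw [mem_W, hext]; exact ht
  have hWinv : ∀ f ∈ W S u, ∀ σ : Perm (Fin 4), Perm.sign σ = 1 → (fun x => f (σ x)) ∈ W S u := by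
    intro f hf σ hσ
    obtain ⟨g, hg, hg1⟩ := D.proj u σ hσ
    have h1 : f ∈ W S (D.act g u) := by rw [hg]; exact hf
    have h2 := us_mul_mem (W_move hS g u h1) (e' g u)
    convert h2 using 1
    funext x
    rw [← mul_assoc, us_mul_self, one_mul, hg1]
  have hall : ∀ v, ∀ f : Fin 4 → ZMod 3, f 0 + f 1 + f 2 + f 3 = 0 → f ∈ W S v := by
    intro v f hf
    obtain ⟨g, hg⟩ := D.trans v u
    have h3 : (fun y => f ((D.lab g v)⁻¹ y)) ∈ W S u := by
      refine sumzero_mem hWinv hWu hn _ ?_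
      have h4 := Equiv.sum_comp (D.lab g v)⁻¹ f
      rw [Fin.sum_univ_four, Fin.sum_univ_four] at h4
      rw [h4, hf]
    rw [← hg] at h3
    have h5 := us_mul_mem (W_move hS g v h3) (e' g v)
    convert h5 using 1
    funext x
    rw [← mul_assoc, us_mul_self, one_mul]
    simp
  intro t ht
  rw [eq_sum_ext t]
  exact sum_mem (fun v _ => hall v _ (ht v))

/-- sum over the children -/
def sumHom (U : Type) : (U × Fin 4 → ZMod 3) →+ (U → ZMod 3) where
  toFun t := fun u => t (u, 0) + t (u, 1) + t (u, 2) + t (u, 3)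
  map_zero' := by funext u; simp
  map_add' s t := by
    funext u
    simp only [Pi.add_apply]
    ring

theorem sumHom_surjective (U : Type) : Function.Surjective (sumHom U) := by
  intro f
  refine ⟨fun p => if p.2 = 0 then f p.1 else 0, ?_⟩
  funext u
  simp [sumHom]

theorem card_ker_sumHom (U : Type) [Finite U] : Nat.card (sumHom U).ker = 27 ^ Nat.card U := by
  have h1 := AddSubgroup.card_mul_index (sumHom U).ker
  rw [AddSubgroup.index_ker, AddMonoidHom.range_eq_top.2 (sumHom_surjective U),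
    AddSubgroup.card_top, Nat.card_fun, Nat.card_fun, Nat.card_prod] at h1
  simp only [Nat.card_eq_fintype_card (α := Fin 4), Fintype.card_fin, Nat.card_zmod] at h1
  have h2 : (3 : ℕ) ^ (Nat.card U * 4) = 27 ^ Nat.card U * 3 ^ Nat.card U := by
    rw [← mul_pow, mul_comm, pow_mul]
    norm_num
  rw [h2] at h1
  exact Nat.eq_of_mul_eq_mul_right (by positivity) h1

/-- The untwisted step. -/
theorem caseUn [Finite U] {e : Γ → U × Fin 4 → ℤˣ} {T : AddSubgroup (U × Fin 4 → ZMod 3)}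
    (hT : D.InvT e T) {φ : U × Fin 4 → ℤˣ} {e' : Γ → U → ℤˣ}
    (he' : ∀ g h u, e' (g * h) u = e' g (D.act h u) * e' h u)
    (H : ∀ g p, e g p = φ p * φ (D.pa g p) * e' g p.1) :
    ∃ T' : AddSubgroup (U → ZMod 3), D.InvU e' T' ∧
      (Nat.card T = Nat.card T' ∨ Nat.card T = 27 ^ Nat.card U * Nat.card T') := by
  classical
  let Φ : (U × Fin 4 → ZMod 3) →+ (U × Fin 4 → ZMod 3) :=
    { toFun := fun t p => us (φ p) * t p
      map_zero' := by funext p; simp
      map_add' := by intro s t; funext p; simp [mul_add] }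
  have hΦ : ∀ t, Φ (Φ t) = t := by
    intro t
    funext p
    show us (φ p) * (us (φ p) * t p) = t p
    rw [← mul_assoc, us_mul_self, one_mul]
  let S := T.comap Φ
  have hST : Nat.card S = Nat.card T := by
    refine Nat.card_congr ⟨fun s => ⟨Φ s.1, s.2⟩, fun t => ⟨Φ t.1, ?_⟩, ?_, ?_⟩
    · show Φ (Φ t.1) ∈ T
      rw [hΦ]; exact t.2
    · intro s
      exact Subtype.ext (hΦ s.1)
    · intro t
      exact Subtype.ext (hΦ t.1)
  have hS : D.InvT (fun g p => e' g p.1) S := by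
    intro g t ht
    show (fun p => us (φ p) * (us (e' g p.1) * t (D.pa g p))) ∈ T
    have h1 := hT g _ ht
    convert h1 using 1
    funext p
    show _ = us (e g p) * (us (φ (D.pa g p)) * t (D.pa g p))
    rw [H, us_mul, us_mul]
    have h2 := us_mul_self (φ (D.pa g p))
    calc us (φ p) * (us (e' g p.1) * t (D.pa g p))
        = us (φ p) * (us (e' g p.1) * t (D.pa g p)) * (us (φ (D.pa g p)) * us (φ (D.pa g p))) := by
          rw [h2, mul_one]
      _ = _ := by ring
  rw [← hST]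
  rcases stepS he' hS with h | h
  · -- constant case
    let P : (U → ZMod 3) →+ (U × Fin 4 → ZMod 3) :=
      { toFun := fun t p => t p.1
        map_zero' := rfl
        map_add' := fun _ _ => rfl }
    refine ⟨S.comap P, ?_, Or.inl ?_⟩
    · intro g t ht
      exact hS g _ ht
    · refine Nat.card_congr ⟨fun s => ⟨fun u => s.1 (u, 0), ?_⟩, fun t => ⟨P t.1, t.2⟩, ?_, ?_⟩
      · show P _ ∈ S
        have : P (fun u => s.1 (u, 0)) = s.1 := by
          funext p
          exact h s.1 s.2 p.1 0 p.2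
        rw [this]; exact s.2
      · intro s
        apply Subtype.ext
        funext p
        exact h s.1 s.2 p.1 0 p.2
      · intro t
        rfl
  · refine ⟨S.map (sumHom U), ?_, Or.inr ?_⟩
    · rintro g _ ⟨t, ht, rfl⟩
      refine ⟨_, hS g t ht, ?_⟩
      funext u
      show us (e' g u) * t (D.pa g (u, 0)) + us (e' g u) * t (D.pa g (u, 1)) +
        us (e' g u) * t (D.pa g (u, 2)) + us (e' g u) * t (D.pa g (u, 3)) =
        us (e' g u) * (t (D.act g u, 0) + t (D.act g u, 1) + t (D.act g u, 2) +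
          t (D.act g u, 3))
      have h4 := Equiv.sum_comp (D.lab g u) (fun x => t (D.act g u, x))
      rw [Fin.sum_univ_four, Fin.sum_univ_four] at h4
      rw [← h4]
      simp only [pa_mk]
      ring
    · have h1 : Nat.card S = Nat.card ((sumHom U).comp S.subtype).ker *
          Nat.card ((sumHom U).comp S.subtype).range := by
        rw [← AddSubgroup.index_ker, AddSubgroup.card_mul_index]
      have h2 : ((sumHom U).comp S.subtype).range = S.map (sumHom U) := by
        rw [AddMonoidHom.range_comp, AddSubgroup.range_subtype]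
      have h3 : Nat.card ((sumHom U).comp S.subtype).ker = Nat.card (sumHom U).ker := by
        refine Nat.card_congr ⟨fun k => ⟨k.1.1, k.2⟩, fun k => ⟨⟨k.1, h k.1 (fun u => ?_)⟩, k.2⟩,
          ?_, ?_⟩
        · exact congrFun k.2 u
        · intro k; rfl
        · intro k; rfl
      rw [h1, h2, h3, card_ker_sumHom]

/-- The trichotomy. -/
theorem tricho [Finite U] {e : Γ → U × Fin 4 → ℤˣ} (he : D.IsCoc e)
    {T : AddSubgroup (U × Fin 4 → ZMod 3)} (hT : D.InvT e T) :
    (T = ⊥ ∨ T = ⊤) ∨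
    (Nat.card T = 9 ^ Nat.card U ∧ (∀ k, D.N1 k → ∀ u x y, e k (u, x) = e k (u, y)) ∧
      (∀ u b h, b ∈ v4 → b ≠ 1 → D.L u b h → (∀ x, e (h * h) (u, x) = -1) ∧
      ∀ w, w ≠ u → ∀ x, e (h * h) (w, x) = 1)) ∨
    (∃ (φ : U × Fin 4 → ℤˣ) (e' : Γ → U → ℤˣ),
      (∀ g h u, e' (g * h) u = e' g (D.act h u) * e' h u) ∧
      (∀ g p, e g p = φ p * φ (D.pa g p) * e' g p.1) ∧
      ∃ T' : AddSubgroup (U → ZMod 3), D.InvU e' T' ∧
      (Nat.card T = Nat.card T' ∨ Nat.card T = 27 ^ Nat.card U * Nat.card T')) := by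
  classical
  let V : Subgroup (U × Fin 4 → ℤˣ) :=
    { carrier := {s | ∃ k, D.N1 k ∧ e k = s}
      mul_mem' := by
        rintro _ _ ⟨k, hk, rfl⟩ ⟨l, hl, rfl⟩
        refine ⟨k * l, N1_mul hk hl, ?_⟩
        funext p
        rw [he, hl]; rfl
      one_mem' := ⟨1, N1_one, by funext p; exact coc_one he p⟩
      inv_mem' := by
        rintro _ ⟨k, hk, rfl⟩
        refine ⟨k⁻¹, N1_inv hk, ?_⟩
        funext p
        have := coc_inv' he k p
        rw [hk p] at this
        rw [this, Pi.inv_apply, Int.units_inv_eq_self] }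
  have hV : D.InvS V := by
    rintro g _ ⟨k, hk, rfl⟩
    refine ⟨g⁻¹ * k * g, N1_conj hk g, ?_⟩
    funext p
    exact coc_conj he g k p (hk _)
  rcases dichV hV with h | h
  · have hC : ∀ k, D.N1 k → ∀ u x y, e k (u, x) = e k (u, y) := fun k hk =>
      h (e k) ⟨k, hk, rfl⟩
    rcases tw_or_un he hC with hu | ht
    · right; right
      obtain ⟨φ, e', he', H⟩ := untwist he hC hu
      exact ⟨φ, e', he', H, caseUn hT he' H⟩
    · rcases caseTw he hT ht with h1 | h1
      · exact Or.inl h1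
      · right; left
        exact ⟨h1, hC, ht⟩
  · left
    exact caseI hT h

end LSys

end Pool.Agent.SSG
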