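import Mathlib
import Pool.Agent.SSG.Parity

set_option autoImplicit false

namespace Pool.Agent.SSG

open Equiv Filter Topology

variable {d : ℕ}

/-- signs of the labels of a level -/
noncomputable def sgnHom (d n : ℕ) : (Lev d n → Perm (Fin d)) →* (Lev d n → ℤˣ) :=
  (Perm.sign (α := Fin d)).compLeft (Lev d n)

theorem sgnHom_apply {n : ℕ} (k : Lev d n → Perm (Fin d)) (v : Lev d n) :
    sgnHom d n k v = Perm.sign (k v) := rfl

theorem sgnHom_surjective (hd : 2 ≤ d) (n : ℕ) : Function.Surjective (sgnHom d n) := by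
  intro f
  have : Nontrivial (Fin d) := Fin.nontrivial_iff_two_le.2 hd
  choose g hg using fun v => Perm.sign_surjective (Fin d) (f v)
  exact ⟨g, funext hg⟩

theorem log_card_ker_sgnHom (hd : 2 ≤ d) (n : ℕ) :
    Real.log (Nat.card (sgnHom d n).ker) =
      (Real.log d.factorial - Real.log 2) * (d : ℝ) ^ n := by
  have h1 := card_eq_ker_mul_map (sgnHom d n)
  rw [MonoidHom.range_eq_top.2 (sgnHom_surjective hd n), Subgroup.card_top, Nat.card_fun,
    Nat.card_fun, card_lev, Nat.card_eq_fintype_card, Fintype.card_perm, Fintype.card_fin,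
    Nat.card_eq_fintype_card (α := ℤˣ), Fintype.card_units_int] at h1
  have h2 : 0 < Nat.card (sgnHom d n).ker := Nat.card_pos
  have h3 := congrArg (fun m : ℕ => Real.log m) h1
  simp only [Nat.cast_mul, Nat.cast_pow] at h3
  rw [Real.log_mul (by positivity) (by positivity), Real.log_pow, Real.log_pow] at h3
  push_cast at h3
  linarith

theorem ker_sgnHom_le {G : Subgroup (Perm (List (Fin d)))} {n : ℕ}
    (hA : ∀ v : Lev d n, alternatingGroup (Fin d) ≤ soloAt (levK G n) v) :
    (sgnHom d n).ker ≤ levK G n := by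
  classical
  have h1 : (sgnHom d n).ker = Subgroup.pi Set.univ
      (fun _ : Lev d n => alternatingGroup (Fin d)) := by
    ext k
    rw [MonoidHom.mem_ker, Subgroup.mem_pi]
    constructor
    · intro h v _
      rw [Perm.mem_alternatingGroup]
      exact congrFun h v
    · intro h
      funext v
      exact Perm.mem_alternatingGroup.1 (h v trivial)
  rw [h1, Subgroup.pi_le_iff]
  intro v
  rintro _ ⟨a, ha, rfl⟩
  obtain ⟨k, hk, hk1, hk2⟩ := hA v ha
  convert hk using 1
  funext w
  by_cases hw : w = v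
  · subst hw
    simp [hk2]
  · simp [hw, hk1 w hw]

theorem lk_of_all (hd : 3 ≤ d) {G : Subgroup (Perm (List (Fin d)))} (hG : G ≤ treeAut d)
    (hA : ∀ n, ∀ v : Lev d n, alternatingGroup (Fin d) ≤ soloAt (levK G n) v) (n : ℕ) :
    ∃ c ∈ cantor d, lk G n = Real.log d.factorial - Real.log 2 + c * Real.log 2 := by
  let V := (levK G n).map (sgnHom d n)
  have hV : Inva G hG n V := by
    rintro g hg _ ⟨k, hk, rfl⟩
    refine ⟨_, conj_levK hG hk hg, ?_⟩
    funext w
    simp only [sgnHom_apply, map_mul, map_inv]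
    rw [mul_comm (Perm.sign (label g w.1))⁻¹, mul_assoc, inv_mul_cancel, mul_one]
  obtain ⟨c, hc, hcard⟩ := parity_card (hG := hG) hd hA n V hV
  refine ⟨c, hc, ?_⟩
  have h1 : Nat.card (levK G n) = Nat.card (sgnHom d n).ker * Nat.card V := by
    have h2 := card_eq_ker_mul_map ((sgnHom d n).comp (levK G n).subtype)
    have h3 : ((sgnHom d n).comp (levK G n).subtype).range = V := by
      rw [MonoidHom.range_comp, Subgroup.range_subtype]
    have h4 : Nat.card ((sgnHom d n).comp (levK G n).subtype).ker =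
        Nat.card (sgnHom d n).ker := by
      refine Nat.card_congr ⟨fun k => ⟨k.1.1, k.2⟩,
        fun k => ⟨⟨k.1, ker_sgnHom_le (hA n) k.2⟩, k.2⟩, ?_, ?_⟩
      · intro k; rfl
      · intro k; rfl
    rw [h2, h3, h4]
  have h2 : 0 < Nat.card (sgnHom d n).ker := Nat.card_pos
  have h3 : 0 < Nat.card V := Nat.card_pos
  have hd0 : (0 : ℝ) < (d : ℝ) ^ n := by
    have : 0 < d := by omega
    positivity
  unfold lk
  rw [h1]
  push_cast
  rw [Real.log_mul (by positivity) (by positivity), log_card_ker_sgnHom (by omega), hcard,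
    div_eq_iff hd0.ne']
  ring

/-- Upper part of the theorem for `d = 3` or `d ≥ 5`. -/
theorem upper (hd : d = 3 ∨ 5 ≤ d) {G : Subgroup (Perm (List (Fin d)))} (hG : IsSelfSimilar G) :
    hdim (treeClosure (G : Set (Perm (List (Fin d))))) ∈
      Set.Icc 0 (Real.log (thr d) / Real.log d.factorial) ∪
      {α : ℝ | ∃ c ∈ cantor d, α = 1 - Real.log 2 / Real.log d.factorial * c} := by
  have hd3 : 3 ≤ d := by omega
  have hlog : 0 < Real.log d.factorial := by
    apply Real.log_pos
    have : 2 ≤ d.factorial := by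
      calc 2 = Nat.factorial 2 := rfl
        _ ≤ d.factorial := Nat.factorial_le (by omega)
    exact_mod_cast this
  obtain ⟨L, hL0, hL1, hL2⟩ := exists_lim (by omega) hG
  rw [hdim_eq (by omega) hG.1 hL2]
  rcases dich hd3 hG.1 with hA | ⟨n, hn⟩
  · right
    choose c hc hc' using lk_of_all hd3 hG.1 hA
    have hlog2 : 0 < Real.log 2 := Real.log_pos (by norm_num)
    have h1 : Tendsto c atTop (𝓝 ((L - (Real.log d.factorial - Real.log 2)) / Real.log 2)) := by
      have h2 := (hL2.sub_const (Real.log d.factorial - Real.log 2)).div_const (Real.log 2)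
      apply h2.congr
      intro n
      rw [hc' n]
      field_simp
      ring
    have h2 := (cantor_closed (by omega : 2 ≤ d)).mem_of_tendsto h1
      (Eventually.of_forall hc)
    refine ⟨_, cantor_symm (by omega) h2, ?_⟩
    field_simp
    ring
  · left
    have h1 := (hL1 n).trans (lk_le_of_small hd hn)
    exact ⟨div_nonneg hL0 hlog.le, by gcongr⟩

end Pool.Agent.SSG
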