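import Mathlib
import Pool.Agent.SSG.LUn
import Pool.Agent.SSG.Upper

set_option autoImplicit false

namespace Pool.Agent.SSG

open Equiv Filter Topology

/-- the condition at a vertex -/
def cond4 (G : Subgroup (Perm (List (Fin 4)))) (n : ℕ) (v : Lev 4 n) : Prop :=
  v4 ≤ soloAt (levK G n) v ∧ alternatingGroup (Fin 4) ≤ projAt (levK G n) v

theorem exists_solo4 {G : Subgroup (Perm (List (Fin 4)))} {n : ℕ} {v : Lev 4 n}
    (h : v4 ≤ soloAt (levK G n) v) {a : Perm (Fin 4)} (ha : a ∈ v4) :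
    ∃ g ∈ G, g ∈ St 4 n ∧ label g v.1 = a ∧ ∀ w : Lev 4 n, w ≠ v → label g w.1 = 1 := by
  obtain ⟨k, hk, hk1, hk2⟩ := h ha
  obtain ⟨g, hg, hs, H⟩ := mem_levK.1 hk
  exact ⟨g, hg, hs, by rw [H v, hk2], fun w hw => by rw [H w, hk1 w hw]⟩

theorem exists_proj4 {G : Subgroup (Perm (List (Fin 4)))} {n : ℕ} {v : Lev 4 n}
    (h : alternatingGroup (Fin 4) ≤ projAt (levK G n) v) {a : Perm (Fin 4)}
    (ha : Perm.sign a = 1) : ∃ g ∈ G, g ∈ St 4 n ∧ label g v.1 = a := by
  obtain ⟨k, hk, hk1⟩ := h (Perm.mem_alternatingGroup.2 ha)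
  obtain ⟨g, hg, hs, H⟩ := mem_levK.1 hk
  exact ⟨g, hg, hs, by rw [H v]; exact hk1⟩

theorem trans_lev4 {G : Subgroup (Perm (List (Fin 4)))} (hG : G ≤ treeAut 4) (n : ℕ)
    (h : ∀ m < n, ∀ v : Lev 4 m, v4 ≤ soloAt (levK G m) v) :
    ∀ u u' : Lev 4 n, ∃ g ∈ G, g u.1 = u'.1 := by
  induction n with
  | zero =>
    rintro ⟨u, hu⟩ ⟨u', hu'⟩
    refine ⟨1, one_mem _, ?_⟩
    rw [List.length_eq_zero_iff] at hu hu'
    simp [hu, hu']
  | succ n ih =>
    intro w w'
    obtain ⟨v, x, rfl⟩ := exists_snoc w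
    obtain ⟨v', x', rfl⟩ := exists_snoc w'
    obtain ⟨g, hg, hgv⟩ := ih (fun m hm => h m (by omega)) v v'
    obtain ⟨a, ha, hax⟩ := v4_trans (label g v.1 x) x'
    obtain ⟨k, hk, hks, hk1, -⟩ := exists_solo4 (h n (by omega) v') (mem_v4.2 ha)
    refine ⟨k * g, mul_mem hk hg, ?_⟩
    simp only [Perm.mul_apply, snoc]
    rw [label_spec (hG hg), hgv, apply_snoc_St hks v'.2.le, hk1, hax]

theorem cond4_conj {G : Subgroup (Perm (List (Fin 4)))} (hG : G ≤ treeAut 4) {n : ℕ}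
    {v v' : Lev 4 n} {g : Perm (List (Fin 4))} (hg : g ∈ G) (hv : g v'.1 = v.1)
    (h : cond4 G n v) : cond4 G n v' := by
  have hv' : gact (hG hg) n v' = v := Subtype.ext hv
  constructor
  · intro a ha
    have h1 : label g v'.1 * a * (label g v'.1)⁻¹ ∈ v4 := by
      have := LSys.v4_conj_mem (label g v'.1)⁻¹ a (mem_v4.1 ha)
      rw [inv_inv] at this
      exact mem_v4.2 this
    obtain ⟨k, hk, hk1, hk2⟩ := h.1 h1
    refine ⟨_, conj_levK hG hk hg, ?_, ?_⟩
    · intro w hw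
      have : gact (hG hg) n w ≠ v := by
        intro h
        apply hw
        have h2 : g w.1 = g v'.1 := by rw [hv]; exact congrArg Subtype.val h
        exact Subtype.ext (g.injective h2)
      simp [hk1 _ this]
    · simp only [hv', hk2]
      group
  · intro a ha
    have h1 : label g v'.1 * a * (label g v'.1)⁻¹ ∈ alternatingGroup (Fin 4) :=
      (alternatingGroup.normal (α := Fin 4)).conj_mem a ha _
    obtain ⟨k, hk, hk1⟩ := h.2 h1
    refine ⟨_, conj_levK hG hk hg, ?_⟩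
    have hk1' : k v = label g v'.1 * a * (label g v'.1)⁻¹ := hk1
    show (label g v'.1)⁻¹ * k (gact (hG hg) n v') * label g v'.1 = a
    rw [hv', hk1']
    group

theorem dich4 {G : Subgroup (Perm (List (Fin 4)))} (hG : G ≤ treeAut 4) :
    (∀ n, ∀ v : Lev 4 n, cond4 G n v) ∨ (∃ n, ∀ v : Lev 4 n, ¬ cond4 G n v) := by
  classical
  by_cases h : ∀ n, ∀ v : Lev 4 n, cond4 G n v
  · exact Or.inl h
  · right
    push Not at h
    have hn := Nat.find_spec h
    obtain ⟨v, hv⟩ := hn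
    refine ⟨Nat.find h, fun v' hv' => hv ?_⟩
    have htr := trans_lev4 hG (Nat.find h) (fun m hm v => by
      have := Nat.find_min h hm
      push Not at this
      exact (this v).1)
    obtain ⟨g, hg, hgv⟩ := htr v v'
    exact cond4_conj hG hg hgv hv'

theorem lk_le_of_small4 {G : Subgroup (Perm (List (Fin 4)))} {n : ℕ}
    (h : ∀ v : Lev 4 n, ¬ cond4 G n v) : lk G n ≤ Real.log 8 := by
  have h1 : Nat.card (levK G n) ^ 2 ≤ (8 ^ 2) ^ Nat.card (Lev 4 n) := by
    apply two_sided'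
    intro v P P' h1 h2 h3 h4 h5
    exact perm_key_four _ P P' _ h1 h2 h3 h4 h5 (h v)
  rw [card_lev, ← pow_mul, mul_comm 2, pow_mul] at h1
  have h2 : Nat.card (levK G n) ≤ 8 ^ 4 ^ n :=
    (Nat.pow_le_pow_iff_left (by norm_num)).1 h1
  unfold lk
  rw [div_le_iff₀ (by positivity), mul_comm]
  have h3 : Real.log ((8 ^ 4 ^ n : ℕ) : ℝ) = ((4 : ℕ) : ℝ) ^ n * Real.log 8 := by
    push_cast
    rw [Real.log_pow]
    push_cast
    ring
  rw [← h3]
  apply Real.log_le_log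
  · exact_mod_cast card_levK_pos G n
  · exact_mod_cast h2

/-- surjectivity on pairs of coordinates -/
def tsurj4 (G : Subgroup (Perm (List (Fin 4)))) (n : ℕ) : Prop :=
  ∀ u u' : Lev 4 n, u ≠ u' → ∃ g ∈ G, g ∈ St 4 n ∧ (∀ w : Lev 4 n, Perm.sign (label g w.1) = 1) ∧
    tau (label g u.1) ≠ 0 ∧ tau (label g u'.1) = 0

/-- The three-part of a level. -/
def TT (G : Subgroup (Perm (List (Fin 4)))) (n : ℕ) : AddSubgroup (Lev 4 n → ZMod 3) where
  carrier := {t | ∃ g ∈ G, g ∈ St 4 n ∧ (∀ w : Lev 4 n, Perm.sign (label g w.1) = 1) ∧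
    ∀ w : Lev 4 n, tau (label g w.1) = t w}
  add_mem' := by
    rintro s t ⟨g, hg, hgs, hg1, hg2⟩ ⟨h, hh, hhs, hh1, hh2⟩
    refine ⟨g * h, mul_mem hg hh, mul_mem hgs hhs, fun w => ?_, fun w => ?_⟩
    · rw [label_mul hgs.1 hhs.1, hhs.2 _ w.2.le, map_mul, hg1, hh1, one_mul]
    · rw [label_mul hgs.1 hhs.1, hhs.2 _ w.2.le, tau_mul, hh1, us_one, one_mul, hg2, hh2]
      rfl
  zero_mem' := ⟨1, one_mem _, one_mem _, fun w => by rw [label_one, map_one],
    fun w => by rw [label_one, tau_one]; rfl⟩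
  neg_mem' := by
    rintro t ⟨g, hg, hgs, hg1, hg2⟩
    have h0 : ∀ w : Lev 4 n, label g⁻¹ w.1 = (label g w.1)⁻¹ := fun w => by
      rw [label_inv hgs.1, (inv_mem hgs).2 _ w.2.le]
    refine ⟨g⁻¹, inv_mem hg, inv_mem hgs, fun w => ?_, fun w => ?_⟩
    · rw [h0, map_inv, hg1, inv_one]
    · rw [h0]
      have h := tau_mul (label g w.1)⁻¹ (label g w.1)
      rw [inv_mul_cancel, tau_one, hg1, us_one, one_mul, hg2] at h
      exact (neg_eq_of_add_eq_zero_left h.symm).symm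

theorem mem_TT {G : Subgroup (Perm (List (Fin 4)))} {n : ℕ} {t : Lev 4 n → ZMod 3} :
    t ∈ TT G n ↔ ∃ g ∈ G, g ∈ St 4 n ∧ (∀ w : Lev 4 n, Perm.sign (label g w.1) = 1) ∧
    ∀ w : Lev 4 n, tau (label g w.1) = t w := Iff.rfl

theorem tau_conj : ∀ l k : Perm (Fin 4), Perm.sign k = 1 →
    tau (l⁻¹ * k * l) = us (Perm.sign l) * tau k := by
  decide +kernel

theorem TT_inv {G : Subgroup (Perm (List (Fin 4)))} (hG : G ≤ treeAut 4) {n : ℕ}
    {t : Lev 4 n → ZMod 3} (ht : t ∈ TT G n) {g : Perm (List (Fin 4))} (hg : g ∈ G) :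
    (fun w : Lev 4 n => us (Perm.sign (label g w.1)) * t (gact (hG hg) n w)) ∈ TT G n := by
  obtain ⟨k, hk, hks, hk1, hk2⟩ := ht
  have hgt := hG hg
  have hl : ∀ w : Lev 4 n, label (g⁻¹ * k * g) w.1 =
      (label g w.1)⁻¹ * label k (gact hgt n w).1 * label g w.1 := by
    intro v
    rw [label_mul (mul_mem (inv_mem hgt) hks.1) hgt, label_mul (inv_mem hgt) hks.1,
      label_inv hgt]
    have h1 : k (g v.1) = g v.1 := hks.2 _ (by rw [treeAut_length hgt]; exact v.2.le)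
    rw [h1]
    have h2 : g⁻¹ (g v.1) = v.1 := by simp
    rw [h2]
    rfl
  refine ⟨g⁻¹ * k * g, mul_mem (mul_mem (inv_mem hg) hk) hg,
    ⟨mul_mem (mul_mem (inv_mem hgt) hks.1) hgt, ?_⟩, fun w => ?_, fun w => ?_⟩
  · intro v hv
    rw [Perm.mul_apply, Perm.mul_apply, hks.2 (g v) (by rw [treeAut_length hgt]; exact hv)]
    simp
  · rw [hl, map_mul, map_mul, map_inv, hk1]
    simp
  · rw [hl, tau_conj _ _ (hk1 _), hk2]

/-- sizes -/
theorem card_levK4 {G : Subgroup (Perm (List (Fin 4)))} {n : ℕ}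
    (h : ∀ v : Lev 4 n, v4 ≤ soloAt (levK G n) v) :
    Nat.card (levK G n) = 4 ^ 4 ^ n * Nat.card (TT G n) *
      Nat.card ((levK G n).map (sgnHom 4 n)) := by
  classical
  have h1 := card_eq_ker_mul_map ((sgnHom 4 n).comp (levK G n).subtype)
  rw [MonoidHom.range_comp, Subgroup.range_subtype] at h1
  rw [h1]
  congr 1
  -- the kernel
  let f : ((sgnHom 4 n).comp (levK G n).subtype).ker →* Multiplicative (Lev 4 n → ZMod 3) :=
    { toFun := fun k => Multiplicative.ofAdd (fun v => tau (k.1.1 v))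
      map_one' := by
        rw [← ofAdd_zero]
        congr 1
      map_mul' := by
        intro k l
        rw [← ofAdd_add]
        congr 1
        funext v
        show tau (k.1.1 v * l.1.1 v) = _
        rw [tau_mul]
        have : Perm.sign (l.1.1 v) = 1 := congrFun l.2 v
        rw [this, us_one, one_mul]
        rfl }
  have h2 := card_eq_ker_mul_map f
  rw [h2]
  congr 1
  · have h3 : Nat.card (Lev 4 n → v4) = 4 ^ 4 ^ n := by
      rw [Nat.card_fun, card_lev, card_v4]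
    rw [← h3]
    have hmem : ∀ k : Lev 4 n → v4, (fun v => (k v).1) ∈ levK G n := by
      intro k
      have h4 : (fun v => (k v).1) ∈ Subgroup.pi Set.univ (fun _ : Lev 4 n => v4) :=
        fun v _ => (k v).2
      refine (Subgroup.pi_le_iff.2 ?_) h4
      intro v
      rintro _ ⟨a, ha, rfl⟩
      obtain ⟨k, hk, hk1, hk2⟩ := h v ha
      convert hk using 1
      funext w
      by_cases hw : w = v
      · subst hw
        simp [hk2]
      · simp [hw, hk1 w hw]
    refine Nat.card_congr ⟨fun k v => ⟨k.1.1.1 v, ?_⟩,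
      fun k => ⟨⟨⟨fun v => (k v).1, hmem k⟩, ?_⟩, ?_⟩, ?_, ?_⟩
    · rw [mem_v4]
      refine ⟨congrFun k.1.2 v, ?_⟩
      have := k.2
      rw [MonoidHom.mem_ker] at this
      exact congrFun (congrArg Multiplicative.toAdd this) v
    · rw [MonoidHom.mem_ker]
      funext v
      exact (mem_v4.1 (k v).2).1
    · rw [MonoidHom.mem_ker]
      show Multiplicative.ofAdd (fun v => tau (k v).1) = 1
      rw [← ofAdd_zero]
      congr 1
      funext v
      exact (mem_v4.1 (k v).2).2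
    · intro k; rfl
    · intro k; rfl
  · refine Nat.card_congr ⟨fun s => ⟨Multiplicative.toAdd s.1, ?_⟩,
      fun t => ⟨Multiplicative.ofAdd t.1, ?_⟩, ?_, ?_⟩
    · obtain ⟨k, hk⟩ := s.2
      obtain ⟨g, hg, hgs, H⟩ := mem_levK.1 k.1.2
      refine ⟨g, hg, hgs, fun w => ?_, fun w => ?_⟩
      · rw [H w]; exact congrFun k.2 w
      · rw [H w, ← hk]; rfl
    · obtain ⟨g, hg, hgs, h5, h6⟩ := t.2
      refine ⟨⟨⟨fun w => label g w.1, mem_levK.2 ⟨g, hg, hgs, fun _ => rfl⟩⟩, ?_⟩, ?_⟩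
      · rw [MonoidHom.mem_ker]
        funext v
        exact h5 v
      · show Multiplicative.ofAdd (fun v : Lev 4 n => tau (label g v.1)) = _
        congr 1
        funext v
        exact h6 v
    · intro k; rfl
    · intro k; rfl

end Pool.Agent.SSG
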