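import Mathlib
import Pool.Agent.SSG.FourLev

set_option autoImplicit false

namespace Pool.Agent.SSG

open Equiv Filter Topology

variable {G : Subgroup (Perm (List (Fin 4)))}

theorem gact_bij {g : Perm (List (Fin 4))} (hg : g ∈ treeAut 4) {n : ℕ} {w w' : Lev 4 n}
    (h : gact hg n w = gact hg n w') : w = w' := by
  apply Subtype.ext
  have := congrArg Subtype.val h
  exact g.injective this

theorem gact_snoc4 {g : Perm (List (Fin 4))} (hg : g ∈ treeAut 4) {n : ℕ} (u : Lev 4 n)
    (x : Fin 4) (h : g ∈ St 4 n) : gact hg (n + 1) (snoc u x) = snoc u (label g u.1 x) := by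
  rw [gact_snoc]
  congr 1
  exact Subtype.ext (h.2 _ u.2.le)

/-- each coordinate is nontrivial -/
theorem TT_ne (hc : ∀ n, ∀ v : Lev 4 n, cond4 G n v) {n : ℕ} (v : Lev 4 n) :
    ∃ t ∈ TT G n, t v ≠ 0 := by
  obtain ⟨b, hb1, hb2⟩ := LSys.exists_rot
  obtain ⟨g, hg, hs, hl⟩ := exists_proj4 (hc n v).2 hb1
  have hm : ∀ w : Lev 4 n, label (g * g) w.1 = label g w.1 * label g w.1 := fun w => by
    rw [label_mul hs.1 hs.1, hs.2 _ w.2.le]
  refine ⟨fun w => tau (label (g * g) w.1), ⟨g * g, mul_mem hg hg, mul_mem hs hs, fun w => ?_,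
    fun w => rfl⟩, ?_⟩
  · rw [hm, map_mul, Int.units_mul_self]
  · show tau (label (g * g) v.1) ≠ 0
    rw [hm, hl, tau_mul, hb1, us_one, one_mul]
    revert hb2
    generalize tau b = t
    revert t
    decide

/-- dependence of coordinates -/
def Rel (G : Subgroup (Perm (List (Fin 4)))) (n : ℕ) (v w : Lev 4 n) : Prop :=
  ∀ t ∈ TT G n, t w = 0 → t v = 0

theorem rel_symm (hc : ∀ n, ∀ v : Lev 4 n, cond4 G n v) {n : ℕ} {v w : Lev 4 n}
    (h : Rel G n v w) : Rel G n w v := by
  intro t ht htv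
  by_contra htw
  obtain ⟨s, hs, hsv⟩ := TT_ne hc v
  have hsw : s w ≠ 0 := fun h0 => hsv (h s hs h0)
  have h1 : s w = t w ∨ s w = - t w := by
    revert hsw htw
    generalize s w = a
    generalize t w = b
    revert a b
    decide
  rcases h1 with h1 | h1
  · have := h _ (sub_mem hs ht) (by simp [h1])
    simp only [Pi.sub_apply, htv, sub_zero] at this
    exact hsv this
  · have := h _ (add_mem hs ht) (by simp [h1])
    simp only [Pi.add_apply, htv, add_zero] at this
    exact hsv this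

theorem rel_move (hG : G ≤ treeAut 4) {n : ℕ} {v w : Lev 4 n} (h : Rel G n v w)
    {g : Perm (List (Fin 4))} (hg : g ∈ G) : Rel G n (gact (hG hg) n v) (gact (hG hg) n w) := by
  intro t ht htw
  have := h _ (TT_inv hG ht hg) (by
    show us _ * t (gact (hG hg) n w) = 0
    rw [htw, mul_zero])
  exact (mul_eq_zero.1 this).resolve_left (us_ne_zero _)

theorem z3a : ∀ c : ZMod 3, c + 1 * c = 0 → c = 0 := by decide

theorem z3b : ∀ c : ZMod 3, c - -1 * c = 0 → c = 0 := by decide

theorem rel_sign (hG : G ≤ treeAut 4) (hc : ∀ n, ∀ v : Lev 4 n, cond4 G n v) {n : ℕ}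
    {v w : Lev 4 n} (h : Rel G n v w) {g : Perm (List (Fin 4))} (hg : g ∈ G) (hs : g ∈ St 4 n) :
    Perm.sign (label g v.1) = Perm.sign (label g w.1) := by
  by_contra hne
  obtain ⟨t, ht, htv⟩ := TT_ne hc v
  have htw : t w ≠ 0 := fun h0 => htv (h t ht h0)
  have hfix : ∀ u, gact (hG hg) n u = u := fun u => Subtype.ext (hs.2 _ u.2.le)
  have h1 := TT_inv hG ht hg
  have hvals : ∀ u : Lev 4 n, us (Perm.sign (label g u.1)) * t (gact (hG hg) n u) =
      us (Perm.sign (label g u.1)) * t u := fun u => by rw [hfix]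
  rcases Int.units_eq_one_or (Perm.sign (label g v.1)) with a | a <;>
  rcases Int.units_eq_one_or (Perm.sign (label g w.1)) with b | b
  · exact hne (by rw [a, b])
  · -- sign v = 1, sign w = -1 : use the sum
    have h2 := h _ (add_mem ht h1) (by
      simp only [Pi.add_apply, hvals, b, us_neg_one]; ring)
    simp only [Pi.add_apply, hvals, a, us_one] at h2
    exact htv (z3a _ h2)
  · have h2 := h _ (sub_mem ht h1) (by
      simp only [Pi.sub_apply, hvals, b, us_one]; ring)
    simp only [Pi.sub_apply, hvals, a, us_neg_one] at h2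
    exact htv (z3b _ h2)
  · exact hne (by rw [a, b])

/-- a third element in the class -/
theorem rel_third (hG : G ≤ treeAut 4) (hc : ∀ n, ∀ v : Lev 4 n, cond4 G n v) {n : ℕ}
    {v w : Lev 4 n} (hvw : v ≠ w) (h : Rel G n v w) :
    ∃ z, z ≠ v ∧ z ≠ w ∧ Rel G n z w := by
  obtain _ | n := n
  · exfalso
    apply hvw
    apply Subtype.ext
    have h1 := v.2
    have h2 := w.2
    rw [List.length_eq_zero_iff] at h1 h2
    rw [h1, h2]
  obtain ⟨p, x, rfl⟩ := exists_snoc v
  obtain ⟨q, y, rfl⟩ := exists_snoc w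
  by_cases hpq : p = q
  · subst hpq
    have hxy : x ≠ y := fun h => hvw (by rw [h])
    obtain ⟨σ, hσ, hσy, hσo⟩ := three_fix y
    obtain ⟨g, hg, hs, hl⟩ := exists_proj4 (hc n p).2 hσ
    have h1 := rel_move hG h hg
    rw [gact_snoc4 _ _ _ hs, gact_snoc4 _ _ _ hs, hl, hσy] at h1
    refine ⟨_, ?_, ?_, h1⟩
    · intro h2
      exact (hσo x hxy).1 (snoc_inj h2).2
    · intro h2
      exact (hσo x hxy).2 (snoc_inj h2).2
  · -- move the first one only
    obtain ⟨g, hg, hs, hl, ho⟩ := exists_solo4 (hc n p).1 LSys.b1_mem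
    have h1 := rel_move hG h hg
    rw [gact_snoc4 _ _ _ hs, gact_snoc4 _ _ _ hs, hl, ho q (Ne.symm hpq)] at h1
    refine ⟨_, ?_, ?_, h1⟩
    · intro h2
      have h3 := (snoc_inj h2).2
      revert h3
      generalize x = z
      revert z
      decide
    · intro h2
      exact hpq (snoc_inj h2).1

theorem log_six_le : Real.log 6 ≤ 3 * Real.log 2 := by
  have : (3 : ℝ) * Real.log 2 = Real.log 8 := by
    rw [show (8 : ℝ) = 2 ^ 3 by norm_num, Real.log_pow]; norm_num
  rw [this]
  exact Real.log_le_log (by norm_num) (by norm_num)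

/-- If two coordinates are dependent then the group is small. -/
theorem small_of_rel (hG : G ≤ treeAut 4) (hc : ∀ n, ∀ v : Lev 4 n, cond4 G n v) {n : ℕ}
    {v w : Lev 4 n} (hvw : v ≠ w) (h : Rel G n v w) : lk G n ≤ Real.log 8 := by
  classical
  let S : Setoid (Lev 4 n) :=
    { r := Rel G n
      iseqv := ⟨fun _ _ _ h => h, fun h => rel_symm hc h, fun h1 h2 t ht h0 => h1 t ht (h2 t ht h0)⟩ }
  have htr := trans_lev4 hG n (fun m _ u => (hc m u).1)
  -- every class has at least three elements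
  have h3 : ∀ u : Lev 4 n, ∃ a b : Lev 4 n, a ≠ u ∧ b ≠ u ∧ a ≠ b ∧ Rel G n a u ∧ Rel G n b u := by
    intro u
    obtain ⟨g, hg, hgu⟩ := htr w u
    obtain ⟨z, hz1, hz2, hz⟩ := rel_third hG hc hvw h
    have hgw : gact (hG hg) n w = u := Subtype.ext hgu
    refine ⟨gact (hG hg) n v, gact (hG hg) n z, ?_, ?_, ?_, ?_, ?_⟩
    · intro h; exact hvw (gact_bij (hG hg) (h.trans hgw.symm))
    · intro h; exact hz2 (gact_bij (hG hg) (h.trans hgw.symm))
    · intro h; exact hz1 (gact_bij (hG hg) h).symm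
    · rw [← hgw]; exact rel_move hG h hg
    · rw [← hgw]; exact rel_move hG hz hg
  set Q := Quotient S with hQ
  have hfin : Fintype Q := Fintype.ofFinite _
  have hq : 3 * Nat.card Q ≤ 4 ^ n := by
    rw [← card_lev (d := 4) n, Nat.card_eq_fintype_card, Nat.card_eq_fintype_card,
      ← Finset.card_univ (α := Lev 4 n),
      Finset.card_eq_sum_card_fiberwise (f := fun u : Lev 4 n => (Quotient.mk S u : Q))
        (t := Finset.univ) (fun _ _ => Finset.mem_univ _),
      mul_comm, ← smul_eq_mul, ← Finset.card_univ]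
    apply Finset.card_nsmul_le_sum
    intro c _
    obtain ⟨u, rfl⟩ := Quotient.exists_rep c
    obtain ⟨a, b, h1, h2, h4, h5, h6⟩ := h3 u
    have h7 : ({u, a, b} : Finset (Lev 4 n)) ⊆
        Finset.univ.filter (fun u' => (Quotient.mk S u' : Q) = Quotient.mk S u) := by
      intro z hz
      simp only [Finset.mem_insert, Finset.mem_singleton] at hz
      simp only [Finset.mem_filter, Finset.mem_univ, true_and]
      rcases hz with rfl | rfl | rfl
      · rfl
      · exact Quotient.sound h5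
      · exact Quotient.sound h6
    have h8 := Finset.card_le_card h7
    have h9 : ({u, a, b} : Finset (Lev 4 n)).card = 3 := by
      rw [Finset.card_insert_of_notMem, Finset.card_pair h4]
      simp [Ne.symm h1, Ne.symm h2]
    rw [h9] at h8
    exact h8
  have hout : ∀ u : Lev 4 n, Rel G n u (Quotient.mk S u : Q).out := fun u =>
    rel_symm hc (Quotient.exact (Quotient.out_eq (Quotient.mk S u : Q)))
  have hT : Nat.card (TT G n) ≤ 3 ^ Nat.card Q := by
    have : Nat.card (Q → ZMod 3) = 3 ^ Nat.card Q := by rw [Nat.card_fun]; simp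
    rw [← this]
    apply Nat.card_le_card_of_injective (fun (t : TT G n) (c : Q) => t.1 c.out)
    intro t t' htt
    apply Subtype.ext
    funext u
    have h1 := hout u _ (sub_mem t.2 t'.2) (by
      have := congrFun htt (Quotient.mk S u : Q)
      simp only at this
      simp [this])
    simp only [Pi.sub_apply] at h1
    exact sub_eq_zero.1 h1
  have hV : Nat.card ((levK G n).map (sgnHom 4 n)) ≤ 2 ^ Nat.card Q := by
    have : Nat.card (Q → ℤˣ) = 2 ^ Nat.card Q := by rw [Nat.card_fun]; simp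
    rw [← this]
    apply Nat.card_le_card_of_injective
      (fun (s : (levK G n).map (sgnHom 4 n)) (c : Q) => s.1 c.out)
    have hcst : ∀ s ∈ (levK G n).map (sgnHom 4 n), ∀ u : Lev 4 n,
        s u = s (Quotient.mk S u : Q).out := by
      rintro _ ⟨k, hk, rfl⟩ u
      obtain ⟨g, hg, hgs, H⟩ := mem_levK.1 hk
      rw [sgnHom_apply, sgnHom_apply, ← H, ← H]
      exact rel_sign hG hc (hout u) hg hgs
    intro s s' hss
    apply Subtype.ext
    funext u
    rw [hcst s.1 s.2 u, hcst s'.1 s'.2 u]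
    exact congrFun hss (Quotient.mk S u : Q)
  have hK : Nat.card (levK G n) ≤ 4 ^ 4 ^ n * 6 ^ Nat.card Q := by
    rw [card_levK4 (fun v => (hc n v).1)]
    calc 4 ^ 4 ^ n * Nat.card (TT G n) * Nat.card ((levK G n).map (sgnHom 4 n))
        ≤ 4 ^ 4 ^ n * 3 ^ Nat.card Q * 2 ^ Nat.card Q := by gcongr
      _ = 4 ^ 4 ^ n * 6 ^ Nat.card Q := by
        rw [mul_assoc, ← mul_pow]
        norm_num
  unfold lk
  rw [div_le_iff₀ (by positivity)]
  have hlog : Real.log (Nat.card (levK G n)) ≤ (4 : ℝ) ^ n * Real.log 4 +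
      Nat.card Q * Real.log 6 := by
    have h1 : Real.log (Nat.card (levK G n)) ≤ Real.log ((4 : ℝ) ^ 4 ^ n * 6 ^ Nat.card Q) := by
      apply Real.log_le_log
      · exact_mod_cast card_levK_pos G n
      · exact_mod_cast hK
    rw [Real.log_mul (by positivity) (by positivity), Real.log_pow, Real.log_pow] at h1
    push_cast at h1
    exact h1
  have h4 : Real.log 4 = 2 * Real.log 2 := by
    rw [show (4 : ℝ) = 2 ^ 2 by norm_num, Real.log_pow]; norm_num
  have h8 : Real.log 8 = 3 * Real.log 2 := by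
    rw [show (8 : ℝ) = 2 ^ 3 by norm_num, Real.log_pow]; norm_num
  have hq' : 3 * (Nat.card Q : ℝ) ≤ (4 : ℝ) ^ n := by exact_mod_cast hq
  have h6 := log_six_le
  have hl2 : 0 < Real.log 2 := Real.log_pos (by norm_num)
  rw [h8]
  rw [h4] at hlog
  push_cast
  have hQ0 : (0 : ℝ) ≤ Nat.card Q := Nat.cast_nonneg _
  nlinarith [mul_le_mul_of_nonneg_left h6 hQ0, mul_le_mul_of_nonneg_right hq' hl2.le]

/-- pairs of coordinates are independent unless the group is small -/
theorem tsurj4_of (hG : G ≤ treeAut 4) (hc : ∀ n, ∀ v : Lev 4 n, cond4 G n v) {n : ℕ}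
    (hl : Real.log 8 < lk G n) : tsurj4 G n := by
  intro u u' hne
  by_contra hcon
  push Not at hcon
  apply absurd (small_of_rel hG hc hne (n := n) ?_) (not_le.2 hl)
  intro t ht htu'
  obtain ⟨g, hg, hgs, h1, h2⟩ := ht
  by_contra h0
  exact hcon g hg hgs h1 (by rw [h2]; exact h0) (by rw [h2]; exact htu')

end Pool.Agent.SSG
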