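import Mathlib
import Pool.Agent.SSG.FourSurj

set_option autoImplicit false

namespace Pool.Agent.SSG

open Equiv Filter Topology

/-- Parity count from a dichotomy. -/
theorem parity_card' {d : ℕ} (hd : 2 ≤ d) {G : Subgroup (Perm (List (Fin d)))}
    {hG : G ≤ treeAut d}
    (hdich : ∀ (n : ℕ) (V : Subgroup (Lev d (n + 1) → ℤˣ)), Inva G hG (n + 1) V →
      (∀ f ∈ V, ∀ (u : Lev d n) (x y : Fin d), f (snoc u x) = f (snoc u y)) ∨
      (∀ (u : Lev d n) (x y : Fin d), x ≠ y → pairv u x y ∈ V)) (n : ℕ) :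
    ∀ V : Subgroup (Lev d n → ℤˣ), Inva G hG n V →
      ∃ c ∈ cantor d, Real.log (Nat.card V) = c * (d : ℝ) ^ n * Real.log 2 := by
  classical
  have hdR : (d : ℝ) ≠ 0 := by positivity
  induction n with
  | zero =>
    intro V _
    have hcard : Nat.card (Lev d 0 → ℤˣ) = 2 := by
      rw [Nat.card_fun, card_lev]; simp
    have hdvd : Nat.card V ∣ 2 := by rw [← hcard]; exact Subgroup.card_subgroup_dvd_card V
    rcases (Nat.dvd_prime Nat.prime_two).1 hdvd with h | h
    · exact ⟨0, cantor_zero d, by rw [h]; simp⟩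
    · exact ⟨1, cantor_one hd, by rw [h]; simp⟩
  | succ n ih =>
    intro V hV
    rcases hdich n V hV with hc | hall
    · -- constant case
      let V' := V.comap (parPull d n)
      have hV' : Inva G hG n V' := by
        intro g hg s hs
        rw [Subgroup.mem_comap] at hs ⊢
        convert hV g hg _ hs using 1
        funext w
        obtain ⟨u, x, rfl⟩ := exists_snoc w
        rw [parPull_snoc, gact_snoc, parPull_snoc]
      obtain ⟨c, hc', hcard⟩ := ih V' hV'
      refine ⟨c / d, cantor_div hd hc', ?_⟩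
      have h1 : Nat.card V = Nat.card V' := by
        have h2 : V'.map (parPull d n) = V := by
          apply le_antisymm
          · rw [Subgroup.map_le_iff_le_comap]
          · intro f hf
            have hx0 : 0 < d := by omega
            have hpf : parPull d n (fun u => f (snoc u ⟨0, hx0⟩)) = f := by
              funext w
              obtain ⟨u, x, rfl⟩ := exists_snoc w
              rw [parPull_snoc]
              exact hc f hf u _ _
            refine ⟨fun u => f (snoc u ⟨0, hx0⟩), ?_, hpf⟩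
            show parPull d n _ ∈ V
            rw [hpf]
            exact hf
        rw [← h2]
        exact (Nat.card_congr (V'.equivMapOfInjective _
          (parPull_injective (by omega) n)).toEquiv).symm
      rw [h1, hcard, pow_succ]
      field_simp
    · have hker := ker_le_of_pairs (by omega) hall
      let V' := V.map (sibProd d n)
      have hV' : Inva G hG n V' := by
        rintro g hg _ ⟨s, hs, rfl⟩
        refine ⟨_, hV g hg s hs, ?_⟩
        funext u
        show ∏ x, s (gact (hG hg) (n + 1) (snoc u x)) = ∏ x, s (snoc (gact (hG hg) n u) x)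
        simp only [gact_snoc]
        exact Equiv.prod_comp (label g u.1) (fun x => s (snoc (gact (hG hg) n u) x))
      obtain ⟨c, hc, hcard⟩ := ih V' hV'
      refine ⟨((d : ℝ) - 1) / d + c / d, cantor_add hd hc, ?_⟩
      have h1 : Nat.card V = 2 ^ ((d - 1) * d ^ n) * Nat.card V' := by
        have h2 := card_eq_ker_mul_map ((sibProd d n).comp V.subtype)
        have h3 : ((sibProd d n).comp V.subtype).range = V' := by
          rw [MonoidHom.range_comp, Subgroup.range_subtype]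
        have h4 : Nat.card ((sibProd d n).comp V.subtype).ker = Nat.card (sibProd d n).ker := by
          refine Nat.card_congr ⟨fun k => ⟨k.1.1, k.2⟩, fun k => ⟨⟨k.1, hker k.2⟩, k.2⟩, ?_, ?_⟩
          · intro k; rfl
          · intro k; rfl
        rw [h2, h3, h4, card_ker_sibProd (by omega)]
      rw [h1]
      push_cast
      rw [Real.log_mul (by positivity) (by
        have : 0 < Nat.card V' := Nat.card_pos
        positivity), Real.log_pow, hcard]
      have h5 : (((d - 1) * d ^ n : ℕ) : ℝ) = ((d : ℝ) - 1) * (d : ℝ) ^ n := by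
        push_cast [Nat.cast_sub (by omega : 1 ≤ d)]
        ring
      rw [h5, pow_succ]
      field_simp

variable {G : Subgroup (Perm (List (Fin 4)))}

/-- the system of a level -/
noncomputable def lsys (hG : G ≤ treeAut 4) (hc : ∀ n, ∀ v : Lev 4 n, cond4 G n v) {n : ℕ}
    (ht : tsurj4 G n) : LSys G (Lev 4 n) where
  act g w := gact (hG g.2) n w
  act_one _ := Subtype.ext rfl
  act_mul _ _ _ := Subtype.ext rfl
  lab g w := label g.1 w.1
  lab_mul g h u := label_mul (hG g.2) (hG h.2) u.1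
  solo u b hb := by
    obtain ⟨g, hg, hs, hl, ho⟩ := exists_solo4 (hc n u).1 hb
    exact ⟨⟨g, hg⟩, fun w => Subtype.ext (hs.2 _ w.2.le), hl, ho⟩
  proj u σ hσ := by
    obtain ⟨g, hg, hs, hl⟩ := exists_proj4 (hc n u).2 hσ
    exact ⟨⟨g, hg⟩, fun w => Subtype.ext (hs.2 _ w.2.le), hl⟩
  tsurj u u' hne := by
    obtain ⟨g, hg, hs, h1, h2, h3⟩ := ht u u' hne
    exact ⟨⟨g, hg⟩, fun w => Subtype.ext (hs.2 _ w.2.le), h1, h2, h3⟩
  trans u u' := by
    obtain ⟨g, hg, h⟩ := trans_lev4 hG n (fun m _ v => (hc m v).1) u u'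
    exact ⟨⟨g, hg⟩, Subtype.ext h⟩

theorem fix_lev {g : Perm (List (Fin 4))} (hg : g ∈ treeAut 4) {n : ℕ} :
    g ∈ St 4 n ↔ ∀ w : Lev 4 n, gact hg n w = w := by
  constructor
  · exact fun h w => Subtype.ext (h.2 _ w.2.le)
  · intro h
    refine ⟨hg, fun v hv => ?_⟩
    have h1 := congrArg Subtype.val (h ⟨v ++ List.replicate (n - v.length) 0, by simp; omega⟩)
    simp only [gact] at h1
    rw [apply_append hg] at h1
    exact (List.append_inj h1 (by rw [treeAut_length hg])).1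

theorem lsys_N1 (hG : G ≤ treeAut 4) (hc : ∀ n, ∀ v : Lev 4 n, cond4 G n v) {n : ℕ}
    (ht : tsurj4 G n) (k : G) : (lsys hG hc ht).N1 k ↔ k.1 ∈ St 4 (n + 1) := by
  rw [fix_lev (hG k.2)]
  constructor
  · intro h w
    obtain ⟨u, x, rfl⟩ := exists_snoc w
    have h1 := h (u, x)
    rw [gact_snoc]
    have h2 := Prod.mk.inj h1
    have h3 : gact (hG k.2) n u = u := h2.1
    have h4 : label k.1 u.1 x = x := h2.2
    rw [h3, h4]
  · rintro h ⟨u, x⟩
    have h1 := h (snoc u x)
    rw [gact_snoc] at h1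
    obtain ⟨h2, h3⟩ := snoc_inj h1
    exact Prod.ext h2 h3

theorem lsys_N (hG : G ≤ treeAut 4) (hc : ∀ n, ∀ v : Lev 4 n, cond4 G n v) {n : ℕ}
    (ht : tsurj4 G n) (k : G) : (lsys hG hc ht).N k ↔ k.1 ∈ St 4 n := by
  rw [fix_lev (hG k.2)]; rfl

/-- the dichotomy at the levels -/
theorem dich_lev4 (hG : G ≤ treeAut 4) (hc : ∀ n, ∀ v : Lev 4 n, cond4 G n v)
    (ht : ∀ n, tsurj4 G n) (n : ℕ) (V : Subgroup (Lev 4 (n + 1) → ℤˣ))
    (hV : Inva G hG (n + 1) V) :
      (∀ f ∈ V, ∀ (u : Lev 4 n) (x y : Fin 4), f (snoc u x) = f (snoc u y)) ∨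
      (∀ (u : Lev 4 n) (x y : Fin 4), x ≠ y → pairv u x y ∈ V) := by
  classical
  let D := lsys hG hc (ht n)
  let E : (Lev 4 (n + 1) → ℤˣ) →* (Lev 4 n × Fin 4 → ℤˣ) :=
    { toFun := fun f p => f (snoc p.1 p.2)
      map_one' := rfl
      map_mul' := fun _ _ => rfl }
  have hE : Function.Injective E := by
    intro f f' h
    funext w
    obtain ⟨u, x, rfl⟩ := exists_snoc w
    exact congrFun h (u, x)
  have hV' : D.InvS (V.map E) := by
    rintro g _ ⟨s, hs, rfl⟩
    refine ⟨_, hV g.1 g.2 s hs, ?_⟩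
    funext p
    show s (gact (hG g.2) (n + 1) (snoc p.1 p.2)) = _
    rw [gact_snoc]
    rfl
  rcases D.dichV hV' with h | h
  · left
    intro f hf u x y
    exact h (E f) ⟨f, hf, rfl⟩ u x y
  · right
    intro u x y hxy
    obtain ⟨f, hf, hfe⟩ := h u x y hxy
    have : pairv u x y = f := by
      apply hE
      rw [hfe]
      funext p
      obtain ⟨v, z⟩ := p
      show pairv u x y (snoc v z) = LSys.pr u x y (v, z)
      unfold pairv LSys.pr
      have h1 : ∀ a b : Fin 4, snoc v a = snoc u b ↔ (v, a) = (u, b) := by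
        intro a b
        constructor
        · intro h
          obtain ⟨h1, h2⟩ := snoc_inj h
          rw [h1, h2]
        · intro h
          obtain ⟨h1, h2⟩ := Prod.mk.inj h
          rw [h1, h2]
      simp only [h1]
      by_cases hcc : (v, z) = (u, x) ∨ (v, z) = (u, y)
      · rw [if_pos hcc, if_pos hcc]
      · rw [if_neg hcc, if_neg hcc]
    rw [this]
    exact hf

/-- cocycles on a level -/
def LCo (hG : G ≤ treeAut 4) (i : ℕ) (ε : G → Lev 4 i → ℤˣ) : Prop :=
  ∀ (g h : G) (w : Lev 4 i), ε (g * h) w = ε g (gact (hG h.2) i w) * ε h w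

/-- invariance under a cocycle on a level -/
def LInv (hG : G ≤ treeAut 4) (i : ℕ) (ε : G → Lev 4 i → ℤˣ)
    (T : AddSubgroup (Lev 4 i → ZMod 3)) : Prop :=
  ∀ (g : G), ∀ t ∈ T, (fun w => us (ε g w) * t (gact (hG g.2) i w)) ∈ T

/-- The trichotomy at the levels. -/
theorem tricho_lev (hG : G ≤ treeAut 4) (hc : ∀ n, ∀ v : Lev 4 n, cond4 G n v)
    (ht : ∀ n, tsurj4 G n) {n : ℕ} {ε : G → Lev 4 (n + 1) → ℤˣ} (hε : LCo hG (n + 1) ε)
    {T : AddSubgroup (Lev 4 (n + 1) → ZMod 3)} (hT : LInv hG (n + 1) ε T) :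
    (T = ⊥ ∨ T = ⊤) ∨
    (Nat.card T = 9 ^ 4 ^ n ∧
      (∀ k : G, k.1 ∈ St 4 (n + 1) → ∀ (u : Lev 4 n) x y, ε k (snoc u x) = ε k (snoc u y)) ∧
      (∀ (u : Lev 4 n) b (h : G), b ∈ v4 → b ≠ 1 → h.1 ∈ St 4 n → label h.1 u.1 = b →
        (∀ w : Lev 4 n, w ≠ u → label h.1 w.1 = 1) → (∀ x, ε (h * h) (snoc u x) = -1) ∧
          ∀ w : Lev 4 n, w ≠ u → ∀ x, ε (h * h) (snoc w x) = 1)) ∨
    (∃ (φ : Lev 4 (n + 1) → ℤˣ) (ε' : G → Lev 4 n → ℤˣ), LCo hG n ε' ∧
      (∀ (g : G) (u : Lev 4 n) (x : Fin 4), ε g (snoc u x) =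
        φ (snoc u x) * φ (gact (hG g.2) (n + 1) (snoc u x)) * ε' g u) ∧
      ∃ T' : AddSubgroup (Lev 4 n → ZMod 3), LInv hG n ε' T' ∧
        (Nat.card T = Nat.card T' ∨ Nat.card T = 27 ^ 4 ^ n * Nat.card T')) := by
  classical
  let D := lsys hG hc (ht n)
  have hpa : ∀ (g : G) (p : Lev 4 n × Fin 4),
      gact (hG g.2) (n + 1) (snoc p.1 p.2) = snoc (D.pa g p).1 (D.pa g p).2 := by
    intro g p
    rw [gact_snoc]; rfl
  let e : G → Lev 4 n × Fin 4 → ℤˣ := fun g p => ε g (snoc p.1 p.2)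
  have he : D.IsCoc e := by
    intro g h p
    show ε (g * h) (snoc p.1 p.2) = _
    rw [hε, hpa]
  let E : (Lev 4 n × Fin 4 → ZMod 3) →+ (Lev 4 (n + 1) → ZMod 3) :=
    { toFun := fun t w => t ((snocEquiv 4 n).symm w)
      map_zero' := rfl
      map_add' := fun _ _ => rfl }
  have hEs : ∀ t p, E t (snoc p.1 p.2) = t p := by
    intro t p
    show t ((snocEquiv 4 n).symm (snocEquiv 4 n p)) = t p
    rw [Equiv.symm_apply_apply]
  have hE2 : ∀ t : Lev 4 (n + 1) → ZMod 3, E (fun p => t (snoc p.1 p.2)) = t := by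
    intro t
    funext w
    obtain ⟨u, x, rfl⟩ := exists_snoc w
    exact hEs _ (u, x)
  have hE3 : ∀ t : Lev 4 n × Fin 4 → ZMod 3, (fun p => E t (snoc p.1 p.2)) = t := by
    intro t
    funext p
    exact hEs t p
  let T1 := T.comap E
  have hcard : Nat.card T1 = Nat.card T := by
    refine Nat.card_congr ⟨fun t => ⟨E t.1, t.2⟩, fun t => ⟨fun p => t.1 (snoc p.1 p.2), ?_⟩,
      ?_, ?_⟩
    · show E _ ∈ T
      rw [hE2]; exact t.2
    · intro t
      exact Subtype.ext (hE3 t.1)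
    · intro t
      exact Subtype.ext (hE2 t.1)
  have hT1 : D.InvT e T1 := by
    intro g t ht
    show E _ ∈ T
    have h1 := hT g _ ht
    convert h1 using 1
    funext w
    obtain ⟨u, x, rfl⟩ := exists_snoc w
    rw [hEs _ (u, x), hpa g (u, x), hEs t (D.pa g (u, x))]
  rcases D.tricho he hT1 with (h | h) | h | h
  · left; left
    rw [AddSubgroup.eq_bot_iff_forall]
    intro t ht
    have h1 : (fun p : Lev 4 n × Fin 4 => t (snoc p.1 p.2)) ∈ T1 := by
      show E _ ∈ T
      rw [hE2]; exact ht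
    rw [h, AddSubgroup.mem_bot] at h1
    rw [← hE2 t, h1]; rfl
  · left; right
    rw [eq_top_iff]
    intro t _
    rw [← hE2 t]
    have h1 : (fun p : Lev 4 n × Fin 4 => t (snoc p.1 p.2)) ∈ T1 := by rw [h]; trivial
    exact h1
  · right; left
    obtain ⟨h1, h2, h3⟩ := h
    rw [hcard, card_lev] at h1
    refine ⟨h1, fun k hk u x y => h2 k ((lsys_N1 hG hc (ht n) k).2 hk) u x y, ?_⟩
    intro u b h hb hb1 hs hl ho
    exact h3 u b h hb hb1 ⟨(lsys_N hG hc (ht n) h).2 hs, hl, ho⟩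
  · right; right
    obtain ⟨φ, e', he', H, T', hT', hc'⟩ := h
    rw [hcard, card_lev] at hc'
    refine ⟨fun w => φ ((snocEquiv 4 n).symm w), e', he', ?_, T', hT', hc'⟩
    intro g u x
    have h1 : ∀ p : Lev 4 n × Fin 4, (snocEquiv 4 n).symm (snoc p.1 p.2) = p := by
      intro p
      show (snocEquiv 4 n).symm (snocEquiv 4 n p) = p
      rw [Equiv.symm_apply_apply]
    show ε g (snoc u x) = φ ((snocEquiv 4 n).symm (snoc u x)) *
      φ ((snocEquiv 4 n).symm (gact (hG g.2) (n + 1) (snoc u x))) * e' g u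
    rw [hpa g (u, x), h1 (D.pa g (u, x)), h1 (u, x)]
    exact H g (u, x)

theorem parity_card4 (hG : G ≤ treeAut 4) (hc : ∀ n, ∀ v : Lev 4 n, cond4 G n v)
    (ht : ∀ n, tsurj4 G n) (n : ℕ) (V : Subgroup (Lev 4 n → ℤˣ)) (hV : Inva G hG n V) :
      ∃ c ∈ cantor 4, Real.log (Nat.card V) = c * (4 : ℝ) ^ n * Real.log 2 := by
  have := parity_card' (d := 4) (by norm_num) (dich_lev4 hG hc ht) n V hV
  simpa using this

end Pool.Agent.SSG
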