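import Mathlib
import Pool.Agent.SSG.FourStep
import Pool.Agent.SSG.PsiCount

set_option autoImplicit false

namespace Pool.Agent.SSG

open Equiv Filter Topology

/-- prefix -/
def pre {d i n : ℕ} (h : i ≤ n) (w : Lev d n) : Lev d i := ⟨w.1.take i, by simp [w.2, h]⟩

theorem gact_pre {d : ℕ} {g : Perm (List (Fin d))} (hg : g ∈ treeAut d) {i n : ℕ} (h : i ≤ n)
    (w : Lev d n) : gact hg i (pre h w) = pre h (gact hg n w) := by
  apply Subtype.ext
  simp only [gact, pre]
  have h1 : g w.1 = g (w.1.take i) ++ secw g (w.1.take i) (w.1.drop i) := by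
    rw [← apply_append hg, List.take_append_drop]
  have h2 : (g (w.1.take i)).length = i := by
    rw [treeAut_length hg]
    simp [w.2, h]
  rw [h1, List.take_left' h2]

theorem pre_succ {d i n : ℕ} (h : i + 1 ≤ n) (w : Lev d n) :
    ∃ x, pre h w = snoc (pre (by omega : i ≤ n) w) x := by
  have hi : i < w.1.length := by rw [w.2]; omega
  refine ⟨w.1[i], Subtype.ext ?_⟩
  simp only [pre, snoc]
  rw [List.take_succ_eq_append_getElem hi]

theorem pre_self {d n : ℕ} (w : Lev d n) : pre le_rfl w = w := by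
  apply Subtype.ext
  simp only [pre]
  rw [List.take_of_length_le w.2.le]

theorem St_mono {d i n : ℕ} (h : i ≤ n) : St d n ≤ St d i :=
  fun _ hg => ⟨hg.1, fun v hv => hg.2 v (hv.trans h)⟩

theorem gact_consv {d : ℕ} {g : Perm (List (Fin d))} (hg : g ∈ treeAut d) {n : ℕ} (x : Fin d)
    (v : Lev d n) : gact hg (n + 1) (consv x v) =
      consv (label g [] x) (gact (sec_mem g x) n v) := by
  apply Subtype.ext
  simp only [gact, consv]
  rw [apply_cons hg]

theorem pre_consv {d i n : ℕ} (h : i ≤ n) (x : Fin d) (v : Lev d n) :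
    pre (Nat.succ_le_succ h) (consv x v) = consv x (pre h v) := rfl

variable {G : Subgroup (Perm (List (Fin 4)))}

/-- the sign cocycle of level `n` comes from level `i` -/
def UP (hG : G ≤ treeAut 4) {i n : ℕ} (h : i ≤ n) (ε : G → Lev 4 i → ℤˣ) : Prop :=
  LCo hG i ε ∧ ∃ φ : Lev 4 n → ℤˣ, ∀ (g : G) (w : Lev 4 n),
    Perm.sign (label g.1 w.1) = φ w * φ (gact (hG g.2) n w) * ε g (pre h w)

theorem UP_succ (hG : IsSelfSimilar G) {i n : ℕ} (h : i ≤ n) {ε : G → Lev 4 i → ℤˣ}
    (hU : UP hG.1 h ε) : ∃ ε', UP hG.1 (Nat.succ_le_succ h) ε' := by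
  obtain ⟨hε, φ, H⟩ := hU
  let sc : G → Fin 4 → G := fun g x => ⟨sec g.1 x, hG.sec_mem g.2 x⟩
  let hd : ∀ {m : ℕ}, Lev 4 (m + 1) → Fin 4 := fun w =>
    w.1.head (by intro h; have := w.2; rw [h] at this; simp at this)
  let tl : ∀ {m : ℕ}, Lev 4 (m + 1) → Lev 4 m := fun w => ⟨w.1.tail, by simp [w.2]⟩
  have hhd : ∀ {m : ℕ} (x : Fin 4) (v : Lev 4 m), hd (consv x v) = x := fun x v => rfl
  have htl : ∀ {m : ℕ} (x : Fin 4) (v : Lev 4 m), tl (consv x v) = v := fun x v => rfl
  refine ⟨fun g w => ε (sc g (hd w)) (tl w), ?_, fun w => φ (tl w), ?_⟩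
  · intro g k w
    obtain ⟨x, v, rfl⟩ := exists_consv w
    simp only [hhd, htl, gact_consv]
    have h1 : sc (g * k) x = sc g (label k.1 [] x) * sc k x := by
      apply Subtype.ext
      exact sec_mul (hG.1 g.2) (hG.1 k.2) x
    rw [h1, hε]
  · intro g w
    obtain ⟨x, v, rfl⟩ := exists_consv w
    rw [pre_consv]
    simp only [hhd, htl, gact_consv]
    have := H (sc g x) v
    simp only [sc, label_sec] at this
    exact this

/-- prescribed labels in the Klein four-group -/
theorem exists_pi4 (hc : ∀ n, ∀ v : Lev 4 n, cond4 G n v) {n : ℕ} (κ : Lev 4 n → Perm (Fin 4))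
    (hκ : ∀ v, κ v ∈ v4) : ∃ g : G, g.1 ∈ St 4 n ∧ ∀ v : Lev 4 n, label g.1 v.1 = κ v := by
  classical
  have h4 : κ ∈ Subgroup.pi Set.univ (fun _ : Lev 4 n => v4) := fun v _ => hκ v
  have h5 : κ ∈ levK G n := by
    refine (Subgroup.pi_le_iff.2 ?_) h4
    intro v
    rintro _ ⟨a, ha, rfl⟩
    obtain ⟨k, hk, hk1, hk2⟩ := (hc n v).1 ha
    convert hk using 1
    funext w
    by_cases hw : w = v
    · subst hw
      simp [hk2]
    · simp [hw, hk1 w hw]
  obtain ⟨g, hg, hs, H⟩ := mem_levK.1 h5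
  exact ⟨⟨g, hg⟩, hs, H⟩

theorem St_succ_of {g : Perm (List (Fin 4))} {n : ℕ} (hg : g ∈ St 4 n)
    (h : ∀ w : Lev 4 n, label g w.1 = 1) : g ∈ St 4 (n + 1) := by
  rw [mem_St_iff_label hg.1]
  intro v hv
  rcases Nat.lt_succ_iff_lt_or_eq.1 hv with hv | hv
  · exact (mem_St_iff_label hg.1).1 hg v hv
  · exact h ⟨v, hv⟩

theorem label_St {g : Perm (List (Fin 4))} {n : ℕ} (hg : g ∈ St 4 n) {m : ℕ} (hm : m < n)
    (w : Lev 4 m) : label g w.1 = 1 :=
  (mem_St_iff_label hg.1).1 hg w.1 (by rw [w.2]; exact hm)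

theorem label_mul_St {g h : Perm (List (Fin 4))} {n : ℕ} (hg : g ∈ treeAut 4) (hh : h ∈ St 4 n)
    (w : Lev 4 n) : label (g * h) w.1 = label g w.1 * label h w.1 := by
  rw [label_mul hg hh.1, hh.2 _ w.2.le]

theorem sq_fix : ∀ a : Perm (Fin 4), (Perm.sign (a * a) = 1 ∧ tau (a * a) = 0) →
    ∃ k : Perm (Fin 4), (Perm.sign k = 1 ∧ tau k = 0) ∧ a * k * (a * k) = 1 := by
  decide +kernel

/-- lifting elements of order two -/
theorem tw_lift (hG : G ≤ treeAut 4) (hc : ∀ n, ∀ v : Lev 4 n, cond4 G n v) {i j : ℕ}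
    (hU : ∀ m, i + 1 ≤ m → m < i + 1 + j → ∃ (h : m - j ≤ m) (ε : G → Lev 4 (m - j) → ℤˣ),
      UP hG h ε) (u : Lev 4 i) {b : Perm (Fin 4)} (hb : b ∈ v4) :
    ∃ h : G, h.1 ∈ St 4 i ∧ label h.1 u.1 = b ∧ (∀ w : Lev 4 i, w ≠ u → label h.1 w.1 = 1) ∧
      (h * h).1 ∈ St 4 (i + 1 + j) := by
  classical
  have key : ∀ m, i + 1 ≤ m → m ≤ i + 1 + j → ∃ h : G, h.1 ∈ St 4 i ∧ label h.1 u.1 = b ∧
      (∀ w : Lev 4 i, w ≠ u → label h.1 w.1 = 1) ∧ (h * h).1 ∈ St 4 m := by
    intro m hm
    induction m, hm using Nat.le_induction with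
    | base =>
      intro _
      obtain ⟨g, hg, hs, hl, ho⟩ := exists_solo4 (hc i u).1 hb
      refine ⟨⟨g, hg⟩, hs, hl, ho, St_succ_of (mul_mem hs hs) (fun w => ?_)⟩
      show label (g * g) w.1 = 1
      rw [label_mul_St hs.1 hs]
      by_cases hw : w = u
      · rw [hw, hl]; exact LSys.v4_sq b (mem_v4.1 hb)
      · rw [ho w hw, one_mul]
    | succ m hm ih =>
      intro hm2
      obtain ⟨h, hs, hl, ho, h2⟩ := ih (by omega)
      obtain ⟨hle, ε, hε, φ, H⟩ := hU m hm (by omega)
      have hcoe : ∀ g k : G, (g * k).1 = g.1 * k.1 := fun _ _ => rfl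
      -- the signs of `h * h` at level `m` are trivial
      have hsg : ∀ w : Lev 4 m, Perm.sign (label (h * h).1 w.1) = 1 := by
        intro w
        rw [H (h * h) w]
        have e1 : gact (hG (h * h).2) m w = w := Subtype.ext (h2.2 _ w.2.le)
        have e2 : gact (hG h.2) (m - j) (pre hle w) = pre hle w :=
          Subtype.ext (hs.2 _ (by rw [(pre hle w).2]; omega))
        rw [e1, Int.units_mul_self, one_mul, hε, e2, Int.units_mul_self]
      set h3 : G := h * h * h with hh3
      have hs3 : h3.1 ∈ St 4 i := by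
        show h.1 * h.1 * h.1 ∈ _
        exact mul_mem (mul_mem hs hs) hs
      have hl3 : ∀ w : Lev 4 i, label h3.1 w.1 = label h.1 w.1 * label h.1 w.1 * label h.1 w.1 := by
        intro w
        show label (h.1 * h.1 * h.1) w.1 = _
        rw [label_mul_St (mul_mem hs.1 hs.1) hs, label_mul_St hs.1 hs]
      have hsq : h3 * h3 = (h * h) * (h * h) * (h * h) := by rw [hh3]; group
      have hs6 : (h3 * h3).1 ∈ St 4 m := by
        rw [hsq]
        show (h * h).1 * (h * h).1 * (h * h).1 ∈ _
        exact mul_mem (mul_mem h2 h2) h2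
      have hl6 : ∀ w : Lev 4 m, label (h3 * h3).1 w.1 ∈ v4 := by
        intro w
        rw [hsq]
        show label ((h * h).1 * (h * h).1 * (h * h).1) w.1 ∈ _
        rw [label_mul_St (mul_mem h2.1 h2.1) h2, label_mul_St h2.1 h2]
        exact LSys.cube_mem _ (hsg w)
      -- the involution on the level
      set ι : Lev 4 m → Lev 4 m := fun w => gact (hG h3.2) m w with hι
      have hιι : ∀ w, ι (ι w) = w := by
        intro w
        apply Subtype.ext
        exact hs6.2 _ w.2.le
      have hκ : ∀ w : Lev 4 m, label (h3 * h3).1 w.1 = label h3.1 (ι w).1 * label h3.1 w.1 := by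
        intro w
        show label (h3.1 * h3.1) w.1 = _
        rw [label_mul (hG h3.2) (hG h3.2)]; rfl
      obtain ⟨eq⟩ := Finite.equivFin (Lev 4 m) |> fun e => (⟨e⟩ : Nonempty _)
      have hκfix : ∀ w : Lev 4 m, ι w = w → ∃ k : Perm (Fin 4), k ∈ v4 ∧
          label h3.1 w.1 * k * (label h3.1 w.1 * k) = 1 := by
        intro w hw
        have h7 := hl6 w
        rw [hκ, hw] at h7
        obtain ⟨k, hk, hk2⟩ := sq_fix _ (mem_v4.1 h7)
        exact ⟨k, mem_v4.2 hk, hk2⟩
      choose kf hkf1 hkf2 using hκfix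
      let κ : Lev 4 m → Perm (Fin 4) := fun w =>
        if hw : ι w = w then kf w hw else
          if eq w < eq (ι w) then 1 else (label (h3 * h3).1 w.1)⁻¹
      have hκ4 : ∀ w, κ w ∈ v4 := by
        intro w
        simp only [κ]
        split
        · exact hkf1 _ _
        · split
          · exact one_mem _
          · exact inv_mem (hl6 w)
      obtain ⟨k, hks, hkl⟩ := exists_pi4 hc κ hκ4
      have hmi : i < m := by omega
      have hkm : k.1 ∈ St 4 i := St_mono hmi.le hks
      have hlab : ∀ w : Lev 4 i, label (h3 * k).1 w.1 = label h3.1 w.1 := by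
        intro w
        show label (h3.1 * k.1) w.1 = _
        rw [label_mul_St hs3.1 hkm, label_St hks hmi, mul_one]
      refine ⟨h3 * k, ?_, ?_, ?_, ?_⟩
      · show h3.1 * k.1 ∈ _
        exact mul_mem hs3 hkm
      · rw [hlab, hl3, hl, LSys.v4_sq b (mem_v4.1 hb), one_mul]
      · intro w hw
        rw [hlab, hl3, ho w hw]; simp
      · have hkfix : ∀ w : Lev 4 m, k.1 w.1 = w.1 := fun w => hks.2 _ w.2.le
        have hiw : ∀ w : Lev 4 m, h3.1 w.1 = (ι w).1 := fun w => rfl
        apply St_succ_of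
        · rw [fix_lev (hG ((h3 * k) * (h3 * k)).2)]
          intro w
          apply Subtype.ext
          show h3.1 (k.1 (h3.1 (k.1 w.1))) = w.1
          rw [hkfix, hiw, hkfix, hiw, hιι]
        · intro w
          show label ((h3.1 * k.1) * (h3.1 * k.1)) w.1 = 1
          have hm1 : h3.1 * k.1 ∈ treeAut 4 := mul_mem hs3.1 hks.1
          rw [label_mul hm1 hm1, label_mul hs3.1 hks.1, label_mul hs3.1 hks.1]
          have e1 : (h3.1 * k.1) w.1 = (ι w).1 := by
            show h3.1 (k.1 w.1) = _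
            rw [hkfix]; rfl
          rw [e1, hkfix, hkfix, hkl, hkl]
          by_cases hw : ι w = w
          · rw [hw]
            have : κ w = kf w hw := by simp only [κ]; rw [dif_pos hw]
            rw [this]
            exact hkf2 w hw
          · have hw' : ¬ ι (ι w) = ι w := by
              rw [hιι]; exact fun h => hw h.symm
            by_cases hlt : eq w < eq (ι w)
            · have c1 : κ w = 1 := by
                simp only [κ]; rw [dif_neg hw, if_pos hlt]
              have c2 : κ (ι w) = (label (h3 * h3).1 (ι w).1)⁻¹ := by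
                simp only [κ]
                rw [dif_neg hw', if_neg]
                rw [hιι]; exact not_lt.2 hlt.le
              rw [c1, c2, hκ, hιι]; group
            · have c1 : κ w = (label (h3 * h3).1 w.1)⁻¹ := by
                simp only [κ]; rw [dif_neg hw, if_neg hlt]
              have c2 : κ (ι w) = 1 := by
                simp only [κ]
                rw [dif_neg hw', if_pos]
                rw [hιι]
                rcases lt_trichotomy (eq w) (eq (ι w)) with h8 | h8 | h8
                · exact absurd h8 hlt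
                · exact absurd (eq.injective h8).symm hw
                · exact h8
              rw [c1, c2, hκ]; group
  exact key _ (by omega) le_rfl

end Pool.Agent.SSG
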