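import Mathlib
import Pool.Agent.SSG.FourAsm

set_option autoImplicit false

namespace Pool.Agent.SSG

open Equiv Filter Topology

/-- terminal excesses -/
def E0 : Set ℝ := ({y | ∃ x ∈ cantor 4, y = x * Real.log 2} ∪
  {y | ∃ x ∈ cantor 4, y = Real.log 3 + x * Real.log 2}) ∪
  {(2 * Real.log 3 + Real.log 2) / 4}

/-- approximations of the set of excesses -/
def EE : ℕ → Set ℝ
  | 0 => Set.Icc 0 (Real.log 6)
  | (k + 1) => (E0 ∪ {y | ∃ z ∈ EE k, y = z / 4}) ∪ {y | ∃ z ∈ EE k, y = (3 * Real.log 3 + z) / 4}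

theorem log_two_pos : 0 < Real.log 2 := Real.log_pos (by norm_num)

theorem log_three_pos : 0 < Real.log 3 := Real.log_pos (by norm_num)

theorem log_six : Real.log 6 = Real.log 2 + Real.log 3 := by
  rw [show (6 : ℝ) = 2 * 3 by norm_num, Real.log_mul (by norm_num) (by norm_num)]

theorem isClosed_E0 : IsClosed E0 := by
  have hC := cantor_closed (d := 4) (by norm_num)
  apply IsClosed.union
  · apply IsClosed.union
    · have : {y | ∃ x ∈ cantor 4, y = x * Real.log 2} = (fun y => y / Real.log 2) ⁻¹' cantor 4 := by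
        ext y
        constructor
        · rintro ⟨x, hx, rfl⟩
          show x * Real.log 2 / Real.log 2 ∈ cantor 4
          rw [mul_div_cancel_right₀ _ log_two_pos.ne']
          exact hx
        · intro hy
          exact ⟨_, hy, by rw [div_mul_cancel₀ _ log_two_pos.ne']⟩
      rw [this]
      exact hC.preimage (continuous_id.div_const _)
    · have : {y | ∃ x ∈ cantor 4, y = Real.log 3 + x * Real.log 2} =
          (fun y => (y - Real.log 3) / Real.log 2) ⁻¹' cantor 4 := by
        ext y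
        constructor
        · rintro ⟨x, hx, rfl⟩
          show (Real.log 3 + x * Real.log 2 - Real.log 3) / Real.log 2 ∈ cantor 4
          rw [add_sub_cancel_left, mul_div_cancel_right₀ _ log_two_pos.ne']
          exact hx
        · intro hy
          exact ⟨_, hy, by rw [div_mul_cancel₀ _ log_two_pos.ne']; ring⟩
      rw [this]
      exact hC.preimage ((continuous_id.sub continuous_const).div_const _)
  · exact isClosed_singleton

theorem isClosed_EE (k : ℕ) : IsClosed (EE k) := by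
  induction k with
  | zero => exact isClosed_Icc
  | succ k ih =>
    apply IsClosed.union
    · apply IsClosed.union isClosed_E0
      have : {y | ∃ z ∈ EE k, y = z / 4} = (fun y => 4 * y) ⁻¹' EE k := by
        ext y
        constructor
        · rintro ⟨x, hx, rfl⟩
          show 4 * (x / 4) ∈ EE k
          rw [mul_div_cancel₀ _ (by norm_num : (4 : ℝ) ≠ 0)]
          exact hx
        · intro hy
          exact ⟨_, hy, by ring⟩
      rw [this]
      exact ih.preimage (continuous_const.mul continuous_id)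
    · have : {y | ∃ z ∈ EE k, y = (3 * Real.log 3 + z) / 4} =
          (fun y => 4 * y - 3 * Real.log 3) ⁻¹' EE k := by
        ext y
        constructor
        · rintro ⟨x, hx, rfl⟩
          show 4 * ((3 * Real.log 3 + x) / 4) - 3 * Real.log 3 ∈ EE k
          have : 4 * ((3 * Real.log 3 + x) / 4) - 3 * Real.log 3 = x := by ring
          rw [this]
          exact hx
        · intro hy
          exact ⟨_, hy, by ring⟩
      rw [this]
      exact ih.preimage ((continuous_const.mul continuous_id).sub continuous_const)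

variable {G : Subgroup (Perm (List (Fin 4)))}

/-- the sign module of the elements fixing level `n`, seen on level `i` -/
def VP (hG : G ≤ treeAut 4) {i n : ℕ} (h : i ≤ n) {ε : G → Lev 4 i → ℤˣ} (hε : LCo hG i ε) :
    Subgroup (Lev 4 i → ℤˣ) where
  carrier := {s | ∃ k : G, k.1 ∈ St 4 n ∧ ε k = s}
  mul_mem' := by
    rintro _ _ ⟨k, hk, rfl⟩ ⟨l, hl, rfl⟩
    refine ⟨k * l, ?_, ?_⟩
    · show k.1 * l.1 ∈ _
      exact mul_mem hk hl
    · funext w
      rw [hε]
      have : gact (hG l.2) i w = w := Subtype.ext (hl.2 _ (by rw [w.2]; exact h))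
      rw [this]; rfl
  one_mem' := by
    refine ⟨1, one_mem _, ?_⟩
    funext w
    have := hε 1 1 w
    rw [mul_one] at this
    have e : gact (hG (1 : G).2) i w = w := Subtype.ext rfl
    rw [e] at this
    simpa using this
  inv_mem' := by
    rintro _ ⟨k, hk, rfl⟩
    refine ⟨k⁻¹, ?_, ?_⟩
    · show k.1⁻¹ ∈ _
      exact inv_mem hk
    · funext w
      have h1 := hε k⁻¹ k w
      have e : gact (hG k.2) i w = w := Subtype.ext (hk.2 _ (by rw [w.2]; exact h))
      rw [inv_mul_cancel, e] at h1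
      have h2 := hε 1 1 w
      rw [mul_one] at h2
      have e : gact (hG (1 : G).2) i w = w := Subtype.ext rfl
      rw [e] at h2
      have : ∀ a b c : ℤˣ, c = a * b → c = c * c → a = b⁻¹ := by decide
      exact this _ _ _ h1 h2

theorem mem_VP {hG : G ≤ treeAut 4} {i n : ℕ} {h : i ≤ n} {ε : G → Lev 4 i → ℤˣ}
    {hε : LCo hG i ε} {s : Lev 4 i → ℤˣ} :
    s ∈ VP hG h hε ↔ ∃ k : G, k.1 ∈ St 4 n ∧ ε k = s := Iff.rfl

theorem VP_inv (hG : G ≤ treeAut 4) {i n : ℕ} (h : i ≤ n) {ε : G → Lev 4 i → ℤˣ}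
    (hε : LCo hG i ε) : Inva G hG i (VP hG h hε) := by
  rintro g hg _ ⟨k, hk, rfl⟩
  have hgt := hG hg
  set g' : G := ⟨g, hg⟩ with hg'
  refine ⟨g'⁻¹ * k * g', ?_, ?_⟩
  · show g⁻¹ * k.1 * g ∈ St 4 n
    refine ⟨mul_mem (mul_mem (inv_mem hgt) hk.1) hgt, ?_⟩
    intro v hv
    rw [Perm.mul_apply, Perm.mul_apply, hk.2 (g v) (by rw [treeAut_length hgt]; exact hv)]
    simp
  · funext w
    rw [hε, hε]
    have e1 : gact (hG k.2) i (gact (hG g'.2) i w) = gact (hG g'.2) i w :=
      Subtype.ext (hk.2 _ (by rw [(gact (hG g'.2) i w).2]; exact h))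
    rw [e1]
    have h1 := hε g'⁻¹ g' w
    have h2 := hε 1 1 w
    rw [mul_one] at h2
    have e : gact (hG (1 : G).2) i w = w := Subtype.ext rfl
    rw [e] at h2
    rw [inv_mul_cancel] at h1
    have : ∀ a b c d : ℤˣ, c = a * b → c = c * c → a * d * b = d := by decide
    exact this _ _ _ _ h1 h2

theorem log_card_le (i : ℕ) (V : Subgroup (Lev 4 i → ℤˣ)) :
    Real.log (Nat.card V) ≤ (4 : ℝ) ^ i * Real.log 2 := by
  have h1 := Subgroup.card_le_card_group V
  have h2 : Nat.card (Lev 4 i → ℤˣ) = 2 ^ 4 ^ i := by rw [Nat.card_fun, card_lev]; simp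
  rw [h2] at h1
  have h3 : Real.log (Nat.card V) ≤ Real.log ((2 : ℝ) ^ 4 ^ i) := by
    apply Real.log_le_log
    · have : 0 < Nat.card V := Nat.card_pos
      exact_mod_cast this
    · exact_mod_cast h1
  rw [Real.log_pow] at h3
  push_cast at h3
  exact h3

theorem card_fun3 (i : ℕ) : Nat.card (Lev 4 i → ZMod 3) = 3 ^ 4 ^ i := by
  rw [Nat.card_fun, card_lev]; simp

theorem log_cardT_le (i : ℕ) (T : AddSubgroup (Lev 4 i → ZMod 3)) :
    Real.log (Nat.card T) ≤ (4 : ℝ) ^ i * Real.log 3 := by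
  have h1 : Nat.card T ≤ Nat.card (Lev 4 i → ZMod 3) :=
    Nat.card_le_card_of_injective _ Subtype.val_injective
  rw [card_fun3] at h1
  have h3 : Real.log (Nat.card T) ≤ Real.log ((3 : ℝ) ^ 4 ^ i) := by
    apply Real.log_le_log
    · have : 0 < Nat.card T := Nat.card_pos
      exact_mod_cast this
    · exact_mod_cast h1
  rw [Real.log_pow] at h3
  push_cast at h3
  exact h3

/-- existence of the structure at depth `j` propagates -/
theorem UP_mono (hG : IsSelfSimilar G) {i0 n0 : ℕ} (h0 : i0 ≤ n0)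
    (hU : ∃ ε : G → Lev 4 i0 → ℤˣ, UP hG.1 h0 ε) (k : ℕ) :
    ∃ (h : i0 + k ≤ n0 + k) (ε : G → Lev 4 (i0 + k) → ℤˣ), UP hG.1 h ε := by
  induction k with
  | zero => exact ⟨h0, hU⟩
  | succ k ih =>
    obtain ⟨h, ε, hε⟩ := ih
    obtain ⟨ε', hε'⟩ := UP_succ hG h hε
    exact ⟨_, ε', hε'⟩

theorem VP_sib (hG : G ≤ treeAut 4) {i n : ℕ} (h : i + 1 ≤ n) {ε : G → Lev 4 (i + 1) → ℤˣ}
    (hε : LCo hG (i + 1) ε)
    (hC : ∀ k : G, k.1 ∈ St 4 (i + 1) → ∀ (u : Lev 4 i) x y, ε k (snoc u x) = ε k (snoc u y))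
    (hL : ∀ u : Lev 4 i, ∃ k : G, k.1 ∈ St 4 n ∧ (∀ x, ε k (snoc u x) = -1) ∧
      ∀ w, w ≠ u → ∀ x, ε k (snoc w x) = 1) :
    Nat.card (VP hG h hε) = 2 ^ 4 ^ i := by
  classical
  have h1 : VP hG h hε = (⊤ : Subgroup (Lev 4 i → ℤˣ)).map (parPull 4 i) := by
    apply le_antisymm
    · rintro _ ⟨k, hk, rfl⟩
      refine ⟨fun u => ε k (snoc u 0), trivial, ?_⟩
      funext w
      obtain ⟨u, x, rfl⟩ := exists_snoc w
      rw [parPull_snoc]
      exact hC k (St_mono h hk) u 0 x
    · rintro _ ⟨f, -, rfl⟩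
      have hf : f = ∏ u, Pi.mulSingle u (f u) := by
        rw [Finset.univ_prod_mulSingle]
      rw [hf, map_prod]
      apply prod_mem
      intro u _
      rcases Int.units_eq_one_or (f u) with h2 | h2
      · rw [h2, Pi.mulSingle_one, map_one]; exact one_mem _
      · obtain ⟨k, hk, hk1, hk2⟩ := hL u
        refine ⟨k, hk, ?_⟩
        funext w
        obtain ⟨v, x, rfl⟩ := exists_snoc w
        rw [parPull_snoc, h2]
        by_cases hv : v = u
        · subst hv; rw [hk1, Pi.mulSingle_eq_same]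
        · rw [hk2 v hv, Pi.mulSingle_eq_of_ne hv]
  rw [h1, ← Nat.card_congr ((⊤ : Subgroup (Lev 4 i → ℤˣ)).equivMapOfInjective _
    (parPull_injective (by norm_num) i)).toEquiv, Subgroup.card_top, Nat.card_fun, card_lev]
  simp

theorem main_step (hG : IsSelfSimilar G) (hc : ∀ n, ∀ v : Lev 4 n, cond4 G n v)
    (ht : ∀ n, tsurj4 G n) (k : ℕ) : ∀ j : ℕ, ∃ N : ℕ, ∀ (i n : ℕ) (h : i ≤ n), i + j = n → N ≤ n →
      ∀ (ε : G → Lev 4 i → ℤˣ) (hU : UP hG.1 h ε) (T : AddSubgroup (Lev 4 i → ZMod 3)),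
        LInv hG.1 i ε T →
        (Real.log (Nat.card (VP hG.1 h hU.1)) + Real.log (Nat.card T)) / 4 ^ i ∈ EE k := by
  induction k with
  | zero =>
    intro j
    refine ⟨0, fun i n h _ _ ε hU T _ => ?_⟩
    have h1 := log_card_le i (VP hG.1 h hU.1)
    have h2 := log_cardT_le i T
    have h3 : 0 ≤ Real.log (Nat.card (VP hG.1 h hU.1)) := Real.log_natCast_nonneg _
    have h4 : 0 ≤ Real.log (Nat.card T) := Real.log_natCast_nonneg _
    refine ⟨div_nonneg (add_nonneg h3 h4) (by positivity), ?_⟩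
    rw [div_le_iff₀ (by positivity), log_six]
    nlinarith
  | succ k ih =>
    intro j
    obtain ⟨N1, hN1⟩ := ih (j + 1)
    by_cases hex : ∃ (i0 n0 : ℕ) (h0 : i0 ≤ n0), i0 + j = n0 ∧
        ∃ ε : G → Lev 4 i0 → ℤˣ, UP hG.1 h0 ε
    swap
    · refine ⟨0, fun i n h hij _ ε hU T _ => ?_⟩
      exact absurd ⟨i, n, h, hij, ε, hU⟩ hex
    obtain ⟨i0, n0, h0, hij0, hU0⟩ := hex
    refine ⟨max N1 (i0 + 2 * j + 1), fun i n h hij hN ε hU T hT => ?_⟩
    have hNa : N1 ≤ n := le_trans (le_max_left _ _) hN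
    have hNb : i0 + 2 * j + 1 ≤ n := le_trans (le_max_right _ _) hN
    obtain ⟨i, rfl⟩ : ∃ i', i = i' + 1 := ⟨i - 1, by omega⟩
    have h4i : (0 : ℝ) < 4 ^ (i + 1) := by positivity
    obtain ⟨x, hx, hVx⟩ := parity_card4 hG.1 hc ht (i + 1) _ (VP_inv hG.1 h hU.1)
    rcases tricho_lev hG.1 hc ht hU.1 hT with (hT0 | hT1) | ⟨hT9, hC, htw⟩ |
      ⟨φ2, ε', hε', H, T', hT', hcard⟩
    · -- T trivial
      left; left; left; left
      refine ⟨x, hx, ?_⟩
      have : Nat.card T = 1 := AddSubgroup.card_eq_one.2 hT0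
      rw [this, hVx]
      field_simp
      simp
    · -- T everything
      left; left; left; right
      refine ⟨x, hx, ?_⟩
      have : Nat.card T = 3 ^ 4 ^ (i + 1) := by rw [hT1, AddSubgroup.card_top, card_fun3]
      rw [this, hVx]
      push_cast
      rw [Real.log_pow]
      push_cast
      field_simp
      ring
    · -- twisted
      left; left; right
      have hVc : Nat.card (VP hG.1 h hU.1) = 2 ^ 4 ^ i := by
        apply VP_sib hG.1 h hU.1 hC
        intro u
        obtain ⟨g, hgs, hgl, hgo, hg2⟩ := tw_lift hG.1 hc (i := i) (j := j) (fun m hm1 hm2 => by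
          obtain ⟨hle, ε1, hε1⟩ := UP_mono hG h0 hU0 (m - n0)
          have e1 : i0 + (m - n0) = m - j := by omega
          have e2 : n0 + (m - n0) = m := by omega
          revert ε1 hle
          rw [e1, e2]
          intro hle ε1 hε1
          exact ⟨hle, ε1, hε1⟩) u LSys.b1_mem
        have hb1 : (swap 0 1 * swap 2 3 : Perm (Fin 4)) ≠ 1 := by decide
        obtain ⟨h1, h2⟩ := htw u _ g LSys.b1_mem hb1 hgs hgl hgo
        refine ⟨g * g, ?_, h1, h2⟩
        rw [hij] at hg2
        exact hg2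
      rw [hVc, hT9]
      show _ = _
      push_cast
      rw [Real.log_pow, Real.log_pow]
      have h9 : Real.log 9 = 2 * Real.log 3 := by
        rw [show (9 : ℝ) = 3 ^ 2 by norm_num, Real.log_pow]; norm_num
      rw [h9]
      push_cast
      rw [pow_succ]
      field_simp
      ring
    · -- untwisted
      have h' : i ≤ n := by omega
      have hU' : UP hG.1 h' ε' := by
        obtain ⟨-, φ, hφ⟩ := hU
        refine ⟨hε', fun w => φ w * φ2 (pre h w), fun g w => ?_⟩
        rw [hφ g w]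
        obtain ⟨x, hx⟩ := pre_succ h w
        show φ w * φ (gact (hG.1 g.2) n w) * ε g (pre h w) = φ w * φ2 (pre h w) *
          (φ (gact (hG.1 g.2) n w) * φ2 (pre h (gact (hG.1 g.2) n w))) * ε' g (pre h' w)
        rw [← gact_pre (hG.1 g.2) h w, hx, H g _ x]
        have : ∀ a b c d e : ℤˣ, a * b * (c * d * e) = a * c * (b * d) * e := by decide
        exact this _ _ _ _ _
      have hmem := hN1 i n h' (by omega) hNa ε' hU' T' hT'
      have hVV : Nat.card (VP hG.1 h hU.1) = Nat.card (VP hG.1 h' hU'.1) := by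
        have h1 : VP hG.1 h hU.1 = (VP hG.1 h' hU'.1).map (parPull 4 i) := by
          have hcalc : ∀ k : G, k.1 ∈ St 4 n → parPull 4 i (ε' k) = ε k := by
            intro k hk
            funext w
            obtain ⟨u, x, rfl⟩ := exists_snoc w
            rw [parPull_snoc, H k u x]
            have : gact (hG.1 k.2) (i + 1) (snoc u x) = snoc u x :=
              Subtype.ext (hk.2 _ (by rw [(snoc u x).2]; exact h))
            rw [this, Int.units_mul_self, one_mul]
          apply le_antisymm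
          · rintro _ ⟨k, hk, rfl⟩
            exact ⟨ε' k, ⟨k, hk, rfl⟩, hcalc k hk⟩
          · rintro _ ⟨_, ⟨k, hk, rfl⟩, rfl⟩
            exact ⟨k, hk, (hcalc k hk).symm⟩
        rw [h1]
        exact (Nat.card_congr ((VP hG.1 h' hU'.1).equivMapOfInjective _
          (parPull_injective (by norm_num) i)).toEquiv).symm
      rw [hVV]
      rcases hcard with hcard | hcard
      · left; right
        refine ⟨_, hmem, ?_⟩
        rw [hcard, pow_succ]
        field_simp
      · right
        refine ⟨_, hmem, ?_⟩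
        rw [hcard]
        have hT0 : 0 < Nat.card T' := Nat.card_pos
        push_cast
        rw [Real.log_mul (by positivity) (by positivity), Real.log_pow]
        have h27 : Real.log 27 = 3 * Real.log 3 := by
          rw [show (27 : ℝ) = 3 ^ 3 by norm_num, Real.log_pow]; norm_num
        rw [h27]
        push_cast
        rw [pow_succ]
        field_simp
        ring

/-- the excess of a level lies in `EE k` from some level on -/
theorem excess_mem (hG : IsSelfSimilar G) (hc : ∀ n, ∀ v : Lev 4 n, cond4 G n v)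
    (ht : ∀ n, tsurj4 G n) (k : ℕ) : ∃ N : ℕ, ∀ n, N ≤ n → lk G n - Real.log 4 ∈ EE k := by
  obtain ⟨N, hN⟩ := main_step hG hc ht k 0
  refine ⟨N, fun n hn => ?_⟩
  let ε : G → Lev 4 n → ℤˣ := fun g w => Perm.sign (label g.1 w.1)
  have hU : UP hG.1 (le_refl n) ε := by
    refine ⟨fun g h w => ?_, fun _ => 1, fun g w => ?_⟩
    · show Perm.sign (label (g.1 * h.1) w.1) = _
      rw [label_mul (hG.1 g.2) (hG.1 h.2), map_mul]
      rfl
    · rw [pre_self]
      simp [ε]
  have hT : LInv hG.1 n ε (TT G n) := fun g t ht => TT_inv hG.1 ht g.2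
  have h1 := hN n n le_rfl rfl hn ε hU (TT G n) hT
  convert h1 using 1
  have h2 : VP hG.1 (le_refl n) hU.1 = (levK G n).map (sgnHom 4 n) := by
    apply le_antisymm
    · rintro _ ⟨k, hk, rfl⟩
      exact ⟨fun w => label k.1 w.1, mem_levK.2 ⟨k.1, k.2, hk, fun _ => rfl⟩, rfl⟩
    · rintro _ ⟨κ, hκ, rfl⟩
      obtain ⟨g, hg, hs, H⟩ := mem_levK.1 hκ
      refine ⟨⟨g, hg⟩, hs, ?_⟩
      funext w
      show Perm.sign (label g w.1) = Perm.sign (κ w)
      rw [H w]
  rw [h2]
  unfold lk
  rw [card_levK4 (fun v => (hc n v).1)]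
  have hT0 : 0 < Nat.card (TT G n) := Nat.card_pos
  have hV0 : 0 < Nat.card ((levK G n).map (sgnHom 4 n)) := Nat.card_pos
  push_cast
  rw [Real.log_mul (by positivity) (by positivity), Real.log_mul (by positivity) (by positivity),
    Real.log_pow]
  push_cast
  field_simp
  ring

/-- Upper part of the theorem for `d = 4`. -/
theorem upper4 (hG : IsSelfSimilar G) :
    hdim (treeClosure (G : Set (Perm (List (Fin 4))))) ∈
      Set.Icc 0 (Real.log 8 / Real.log 24) ∪
      {α : ℝ | ∃ e, (∀ k, e ∈ EE k) ∧ α = (Real.log 4 + e) / Real.log 24} := by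
  have hfac : ((4 : ℕ).factorial : ℝ) = 24 := by norm_num [Nat.factorial]
  have hlog : 0 < Real.log 24 := Real.log_pos (by norm_num)
  obtain ⟨L, hL0, hL1, hL2⟩ := exists_lim (by norm_num) hG
  rw [hdim_eq (by norm_num) hG.1 hL2, hfac]
  by_cases hL : L ≤ Real.log 8
  · left
    exact ⟨div_nonneg hL0 hlog.le, by gcongr⟩
  · push Not at hL
    right
    have hc : ∀ n, ∀ v : Lev 4 n, cond4 G n v := by
      rcases dich4 hG.1 with h | ⟨n, hn⟩
      · exact h
      · exact absurd ((hL1 n).trans (lk_le_of_small4 hn)) (not_le.2 hL)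
    have ht : ∀ n, tsurj4 G n := fun n => tsurj4_of hG.1 hc (lt_of_lt_of_le hL (hL1 n))
    refine ⟨L - Real.log 4, fun k => ?_, by ring⟩
    obtain ⟨N, hN⟩ := excess_mem hG hc ht k
    exact (isClosed_EE k).mem_of_tendsto (hL2.sub_const (Real.log 4))
      (eventually_atTop.2 ⟨N, hN⟩)

end Pool.Agent.SSG
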