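import Mathlib
import Pool.Agent.SSG.Limit
import Pool.Agent.SSG.PsiCount

set_option autoImplicit false

namespace Pool.Agent.SSG

open Equiv Filter Topology

/-- permutational wreath product of `A` with the symmetric group -/
@[ext] structure Wr (d : ℕ) (A : Type) where
  /-- permutation -/
  p : Perm (Fin d)
  /-- sections -/
  f : Fin d → A

namespace Wr

variable {d : ℕ} {A : Type}

/-- as a product -/
def equivProd (d : ℕ) (A : Type) : Wr d A ≃ Perm (Fin d) × (Fin d → A) where
  toFun w := (w.p, w.f)
  invFun w := ⟨w.1, w.2⟩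
  left_inv _ := rfl
  right_inv _ := rfl

instance [Finite A] : Finite (Wr d A) := Finite.of_equiv _ (equivProd d A).symm

instance [Group A] : Group (Wr d A) where
  mul a b := ⟨a.p * b.p, fun x => a.f (b.p x) * b.f x⟩
  one := ⟨1, fun _ => 1⟩
  inv a := ⟨a.p⁻¹, fun x => (a.f (a.p⁻¹ x))⁻¹⟩
  mul_assoc a b c := by
    apply Wr.ext
    · exact mul_assoc _ _ _
    · funext x
      exact mul_assoc _ _ _
  one_mul a := by
    apply Wr.ext
    · exact one_mul _
    · funext x
      exact one_mul _
  mul_one a := by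
    apply Wr.ext
    · exact mul_one _
    · funext x
      exact mul_one _
  inv_mul_cancel a := by
    apply Wr.ext
    · exact inv_mul_cancel _
    · funext x
      show (a.f (a.p⁻¹ (a.p x)))⁻¹ * a.f x = 1
      have : a.p⁻¹ (a.p x) = x := by simp
      rw [this, inv_mul_cancel]

theorem mul_def [Group A] (a b : Wr d A) : a * b = ⟨a.p * b.p, fun x => a.f (b.p x) * b.f x⟩ := rfl

theorem one_def [Group A] : (1 : Wr d A) = ⟨1, fun _ => 1⟩ := rfl

theorem inv_def [Group A] (a : Wr d A) : a⁻¹ = ⟨a.p⁻¹, fun x => (a.f (a.p⁻¹ x))⁻¹⟩ := rfl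

end Wr

/-- a submonoid of a finite group is closed under inverses -/
theorem inv_mem_of_finite {A : Type} [Group A] [Finite A] (S : Submonoid A) {a : A} (ha : a ∈ S) :
    a⁻¹ ∈ S := by
  have h1 : a ^ (orderOf a - 1) * a = 1 := by
    rw [← pow_succ, Nat.sub_add_cancel (orderOf_pos a), pow_orderOf_eq_one]
  rw [← eq_inv_of_mul_eq_one_left h1]
  exact pow_mem ha _

theorem sec_one {d : ℕ} (x : Fin d) : sec (1 : Perm (List (Fin d))) x = 1 := by
  apply label_ext' (sec_mem _ _) (one_mem _)
  intro v
  rw [label_sec, label_one, label_one]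

theorem sec_inv {d : ℕ} {g : Perm (List (Fin d))} (hg : g ∈ treeAut d) (x : Fin d) :
    sec g⁻¹ x = (sec g ((label g [])⁻¹ x))⁻¹ := by
  have hl : label g⁻¹ [] = (label g [])⁻¹ := by
    rw [label_inv hg, treeAut_nil (inv_mem hg)]
  have h := sec_mul hg (inv_mem hg) x
  rw [mul_inv_cancel, sec_one, hl] at h
  exact (inv_eq_of_mul_eq_one_right h.symm).symm

/-- Data for the general construction. -/
structure WData (d : ℕ) (A : Type) [Group A] where
  /-- the homomorphism on labels -/
  lam : Perm (Fin d) →* A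
  /-- permitted sections -/
  M : ℕ → Subgroup (Wr d A)
  /-- functionals -/
  mu : ℕ → Wr d A → A
  mu_mul : ∀ n, ∀ a ∈ M n, ∀ b ∈ M n, mu n (a * b) = mu n a * mu n b

namespace WData

variable {d : ℕ} {A : Type} [Group A] (D : WData d A)

theorem mu_one (n : ℕ) : D.mu n 1 = 1 := by
  have := D.mu_mul n 1 (one_mem _) 1 (one_mem _)
  rw [mul_one] at this
  simpa using this

theorem mu_inv (n : ℕ) {a : Wr d A} (ha : a ∈ D.M n) : D.mu n a⁻¹ = (D.mu n a)⁻¹ := by
  have := D.mu_mul n a⁻¹ (inv_mem ha) a ha
  rw [inv_mul_cancel, D.mu_one] at this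
  exact eq_inv_of_mul_eq_one_left this.symm

/-- the functional of depth `n` -/
noncomputable def psi : ℕ → Perm (List (Fin d)) → A
  | 0, g => D.lam (label g [])
  | (n + 1), g => D.mu n ⟨label g [], fun x => psi n (sec g x)⟩

/-- admissibility at depth `n` -/
def Adm : ℕ → Perm (List (Fin d)) → Prop
  | 0, _ => True
  | (n + 1), g => (∀ x, Adm n (sec g x)) ∧
      (⟨label g [], fun x => D.psi n (sec g x)⟩ : Wr d A) ∈ D.M n

theorem adm_mul {n : ℕ} {g h : Perm (List (Fin d))} (hg : g ∈ treeAut d) (hh : h ∈ treeAut d)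
    (ag : D.Adm n g) (ah : D.Adm n h) :
    D.Adm n (g * h) ∧ D.psi n (g * h) = D.psi n g * D.psi n h := by
  induction n generalizing g h with
  | zero =>
    refine ⟨trivial, ?_⟩
    show D.lam (label (g * h) []) = D.lam (label g []) * D.lam (label h [])
    rw [label_mul hg hh, treeAut_nil hh, map_mul]
  | succ n ih =>
    have hx : ∀ x, D.Adm n (sec (g * h) x) ∧ D.psi n (sec (g * h) x) =
        D.psi n (sec g (label h [] x)) * D.psi n (sec h x) := by
      intro x
      rw [sec_mul hg hh]
      exact ih (sec_mem _ _) (sec_mem _ _) (ag.1 _) (ah.1 _)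
    have hw : (⟨label (g * h) [], fun x => D.psi n (sec (g * h) x)⟩ : Wr d A) =
        ⟨label g [], fun x => D.psi n (sec g x)⟩ * ⟨label h [], fun x => D.psi n (sec h x)⟩ := by
      rw [Wr.mul_def]
      apply Wr.ext
      · show label (g * h) [] = _
        rw [label_mul hg hh, treeAut_nil hh]
      · funext x
        exact (hx x).2
    refine ⟨⟨fun x => (hx x).1, ?_⟩, ?_⟩
    · rw [hw]; exact mul_mem ag.2 ah.2
    · show D.mu n _ = D.mu n _ * D.mu n _
      rw [hw, D.mu_mul n _ ag.2 _ ah.2]

theorem adm_one (n : ℕ) : D.Adm n 1 ∧ D.psi n 1 = 1 := by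
  induction n with
  | zero =>
    refine ⟨trivial, ?_⟩
    show D.lam (label 1 []) = 1
    rw [label_one, map_one]
  | succ n ih =>
    have hw : (⟨label 1 [], fun x => D.psi n (sec 1 x)⟩ : Wr d A) = 1 := by
      rw [Wr.one_def]
      apply Wr.ext
      · exact label_one _
      · funext x
        show D.psi n (sec 1 x) = 1
        rw [sec_one]; exact ih.2
    refine ⟨⟨fun x => by rw [sec_one]; exact ih.1, ?_⟩, ?_⟩
    · rw [hw]; exact one_mem _
    · show D.mu n _ = 1
      rw [hw, D.mu_one]

theorem adm_inv {n : ℕ} {g : Perm (List (Fin d))} (hg : g ∈ treeAut d) (ag : D.Adm n g) :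
    D.Adm n g⁻¹ ∧ D.psi n g⁻¹ = (D.psi n g)⁻¹ := by
  induction n generalizing g with
  | zero =>
    refine ⟨trivial, ?_⟩
    show D.lam (label g⁻¹ []) = (D.lam (label g []))⁻¹
    rw [label_inv hg, treeAut_nil (inv_mem hg), map_inv]
  | succ n ih =>
    have hx : ∀ x, D.Adm n (sec g⁻¹ x) ∧ D.psi n (sec g⁻¹ x) =
        (D.psi n (sec g ((label g [])⁻¹ x)))⁻¹ := by
      intro x
      rw [sec_inv hg]
      exact ih (sec_mem _ _) (ag.1 _)
    have hw : (⟨label g⁻¹ [], fun x => D.psi n (sec g⁻¹ x)⟩ : Wr d A) =
        (⟨label g [], fun x => D.psi n (sec g x)⟩ : Wr d A)⁻¹ := by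
      rw [Wr.inv_def]
      apply Wr.ext
      · show label g⁻¹ [] = _
        rw [label_inv hg, treeAut_nil (inv_mem hg)]
      · funext x
        exact (hx x).2
    refine ⟨⟨fun x => (hx x).1, ?_⟩, ?_⟩
    · rw [hw]; exact inv_mem ag.2
    · show D.mu n _ = (D.mu n _)⁻¹
      rw [hw, D.mu_inv n ag.2]

/-- the group of the data -/
def grp : Subgroup (Perm (List (Fin d))) where
  carrier := {g | g ∈ treeAut d ∧ ∀ n, D.Adm n g}
  mul_mem' := by
    rintro a b ⟨ha, ha'⟩ ⟨hb, hb'⟩
    exact ⟨mul_mem ha hb, fun n => (D.adm_mul ha hb (ha' n) (hb' n)).1⟩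
  one_mem' := ⟨one_mem _, fun n => (D.adm_one n).1⟩
  inv_mem' := by
    rintro a ⟨ha, ha'⟩
    exact ⟨inv_mem ha, fun n => (D.adm_inv ha (ha' n)).1⟩

theorem mem_grp {g : Perm (List (Fin d))} : g ∈ D.grp ↔ g ∈ treeAut d ∧ ∀ n, D.Adm n g := Iff.rfl

theorem grp_selfSimilar : IsSelfSimilar D.grp := by
  rw [isSelfSimilar_iff]
  exact ⟨fun g hg => hg.1, fun g hg x => ⟨sec_mem _ _, fun n => (hg.2 (n + 1)).1 x⟩⟩

/-- the functional on vectors of labels of level `n` -/
def vpsi : ℕ → (List (Fin d) → Perm (Fin d)) → A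
  | 0, s => D.lam (s [])
  | (n + 1), s => D.mu n ⟨1, fun x => vpsi n (fun v => s (x :: v))⟩

/-- admissible vectors of labels of level `n` -/
def VV : ℕ → (List (Fin d) → Perm (Fin d)) → Prop
  | 0, _ => True
  | (n + 1), s => (∀ x, VV n (fun v => s (x :: v))) ∧
      (⟨1, fun x => D.vpsi n (fun v => s (x :: v))⟩ : Wr d A) ∈ D.M n

theorem vpsi_congr {n : ℕ} {s t : List (Fin d) → Perm (Fin d)}
    (h : ∀ v : List (Fin d), v.length = n → s v = t v) : D.vpsi n s = D.vpsi n t := by
  induction n generalizing s t with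
  | zero => simp only [vpsi]; rw [h [] rfl]
  | succ n ih =>
    simp only [vpsi]
    congr 2
    funext x
    exact ih (fun v hv => h _ (by simp [hv]))

theorem VV_congr {n : ℕ} {s t : List (Fin d) → Perm (Fin d)}
    (h : ∀ v : List (Fin d), v.length = n → s v = t v) (hs : D.VV n s) : D.VV n t := by
  induction n generalizing s t with
  | zero => trivial
  | succ n ih =>
    refine ⟨fun x => ih (fun v hv => h _ (by simp [hv])) (hs.1 x), ?_⟩
    have : (fun x => D.vpsi n (fun v => t (x :: v))) =
        (fun x => D.vpsi n (fun v => s (x :: v))) := by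
      funext x
      exact D.vpsi_congr (fun v hv => (h _ (by simp [hv])).symm)
    rw [this]
    exact hs.2

theorem adm_St {n : ℕ} {g : Perm (List (Fin d))} (hg : g ∈ St d n) :
    (D.Adm n g ↔ D.VV n (label g)) ∧ D.psi n g = D.vpsi n (label g) := by
  induction n generalizing g with
  | zero => exact ⟨Iff.rfl, rfl⟩
  | succ n ih =>
    have h1 : ∀ x, (fun v => label g (x :: v)) = label (sec g x) := fun x => by
      funext v; rw [label_sec]
    have h0 : label g [] = 1 := (mem_St_iff_label hg.1).1 hg [] (by simp)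
    have h2 : (fun x => D.vpsi n (fun v => label g (x :: v))) = fun x => D.psi n (sec g x) := by
      funext x
      rw [h1, (ih (sec_mem_St hg x)).2]
    constructor
    · simp only [Adm, VV]
      rw [h2, h0]
      apply and_congr _ Iff.rfl
      apply forall_congr'
      intro x
      rw [h1]
      exact (ih (sec_mem_St hg x)).1
    · simp only [psi, vpsi]
      rw [h2, h0]

/-- automorphism with given root label and sections -/
noncomputable def node (σ : Perm (Fin d)) (s : Fin d → Perm (List (Fin d))) :
    Perm (List (Fin d)) :=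
  ofLabels (fun v => match v with
    | [] => σ
    | (x :: v) => label (s x) v)

theorem node_mem (σ : Perm (Fin d)) (s : Fin d → Perm (List (Fin d))) : node σ s ∈ treeAut d :=
  ofLabels_mem _

theorem label_node_nil (σ : Perm (Fin d)) (s : Fin d → Perm (List (Fin d))) :
    label (node σ s) [] = σ := by
  unfold node
  rw [label_ofLabels]

theorem label_node_cons (σ : Perm (Fin d)) (s : Fin d → Perm (List (Fin d))) (x : Fin d)
    (v : List (Fin d)) : label (node σ s) (x :: v) = label (s x) v := by
  unfold node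
  rw [label_ofLabels]

theorem sec_node (σ : Perm (Fin d)) {s : Fin d → Perm (List (Fin d))}
    (hs : ∀ x, s x ∈ treeAut d) (x : Fin d) : sec (node σ s) x = s x :=
  label_ext' (sec_mem _ _) (hs x) (fun v => by rw [label_sec, label_node_cons])

/-- extension of a vector of labels of level `n` -/
noncomputable def extn (a : Perm (Fin d) → Perm (List (Fin d))) :
    ℕ → (List (Fin d) → Perm (Fin d)) → Perm (List (Fin d))
  | 0, k => a (k [])
  | (n + 1), k => node 1 (fun x => extn a n (fun v => k (x :: v)))

theorem extn_mem {a : Perm (Fin d) → Perm (List (Fin d))} (ha : ∀ σ, a σ ∈ treeAut d) (n : ℕ)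
    (k : List (Fin d) → Perm (Fin d)) : extn a n k ∈ treeAut d := by
  cases n with
  | zero => exact ha _
  | succ n => exact node_mem _ _

theorem label_extn {a : Perm (Fin d) → Perm (List (Fin d))} (ha1 : ∀ σ, label (a σ) [] = σ)
    (n : ℕ) (k : List (Fin d) → Perm (Fin d)) :
    (∀ v : List (Fin d), v.length < n → label (extn a n k) v = 1) ∧
      (∀ v : List (Fin d), v.length = n → label (extn a n k) v = k v) := by
  induction n generalizing k with
  | zero =>
    refine ⟨fun v hv => absurd hv (by omega), fun v hv => ?_⟩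
    rw [List.length_eq_zero_iff] at hv
    subst hv
    exact ha1 _
  | succ n ih =>
    constructor
    · intro v hv
      cases v with
      | nil => exact label_node_nil _ _
      | cons x v =>
        show label (node 1 _) (x :: v) = 1
        rw [label_node_cons]
        exact (ih _).1 v (by simpa using hv)
    · intro v hv
      cases v with
      | nil => simp at hv
      | cons x v =>
        show label (node 1 _) (x :: v) = _
        rw [label_node_cons]
        exact (ih _).2 v (by simpa using hv)

theorem adm_extn {a : Perm (Fin d) → Perm (List (Fin d))} (ha : ∀ σ, a σ ∈ treeAut d)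
    (ha1 : ∀ σ, label (a σ) [] = σ) (ha2 : ∀ σ m, D.Adm m (a σ))
    (ha3 : ∀ σ m, D.psi (m + 1) (a σ) = 1) (n : ℕ) (k : List (Fin d) → Perm (Fin d))
    (hk : D.VV n k) (m : ℕ) :
    D.Adm m (extn a n k) ∧ D.psi m (extn a n k) = if m = n then D.vpsi n k else 1 := by
  induction n generalizing k m with
  | zero =>
    refine ⟨ha2 _ _, ?_⟩
    cases m with
    | zero =>
      simp only [if_true]
      show D.lam (label (a (k [])) []) = D.lam (k [])
      rw [ha1]
    | succ m => simp only [Nat.add_one_ne_zero, if_false]; exact ha3 _ _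
  | succ n ih =>
    cases m with
    | zero =>
      refine ⟨trivial, ?_⟩
      rw [if_neg (by omega)]
      show D.lam (label (node 1 _) []) = 1
      rw [label_node_nil, map_one]
    | succ m =>
      have hs : ∀ x, sec (extn a (n + 1) k) x = extn a n (fun v => k (x :: v)) := fun x =>
        sec_node _ (fun x => extn_mem ha _ _) x
      have hl : label (extn a (n + 1) k) [] = 1 := label_node_nil _ _
      have hx := fun x => ih (fun v => k (x :: v)) (hk.1 x) m
      by_cases hmn : m = n
      · subst hmn
        have hw : (fun x => D.psi m (sec (extn a (m + 1) k) x)) =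
            fun x => D.vpsi m (fun v => k (x :: v)) := by
          funext x
          rw [hs, (hx x).2, if_pos rfl]
        refine ⟨⟨fun x => by rw [hs]; exact (hx x).1, ?_⟩, ?_⟩
        · rw [hl, hw]; exact hk.2
        · simp only [psi, vpsi, if_true]
          rw [hl, hw]
      · have hw : (fun x => D.psi m (sec (extn a (n + 1) k) x)) = fun _ => 1 := by
          funext x
          rw [hs, (hx x).2, if_neg hmn]
        refine ⟨⟨fun x => by rw [hs]; exact (hx x).1, ?_⟩, ?_⟩
        · rw [hl, hw]; exact one_mem (D.M m)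
        · rw [if_neg (by omega)]
          simp only [psi]
          rw [hl, hw]
          exact D.mu_one m

end WData

end Pool.Agent.SSG
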