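import Mathlib
import Pool.Agent.SSG.Wr

set_option autoImplicit false

namespace Pool.Agent.SSG

open Equiv Filter Topology

variable {d : ℕ}

theorem secw_mul {g h : Perm (List (Fin d))} (hg : g ∈ treeAut d) (hh : h ∈ treeAut d)
    (v : List (Fin d)) : secw (g * h) v = secw g (h v) * secw h v := by
  apply label_ext' (secw_mem _ _) (mul_mem (secw_mem _ _) (secw_mem _ _))
  intro w
  rw [label_secw, label_mul hg hh, label_mul (secw_mem _ _) (secw_mem _ _), label_secw,
    label_secw, apply_append hh]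

theorem secw_one (v : List (Fin d)) : secw (1 : Perm (List (Fin d))) v = 1 := by
  apply label_ext' (secw_mem _ _) (one_mem _)
  intro w
  rw [label_secw, label_one, label_one]

theorem secw_inv {g : Perm (List (Fin d))} (hg : g ∈ treeAut d) (v : List (Fin d)) :
    secw g⁻¹ v = (secw g (g⁻¹ v))⁻¹ := by
  have h := secw_mul hg (inv_mem hg) v
  rw [mul_inv_cancel, secw_one] at h
  exact (inv_eq_of_mul_eq_one_right h.symm).symm

theorem secw_cons (g : Perm (List (Fin d))) (x : Fin d) (v : List (Fin d)) :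
    secw g (x :: v) = secw (sec g x) v := by
  apply label_ext' (secw_mem _ _) (secw_mem _ _)
  intro w
  rw [label_secw, label_secw, label_sec]
  rfl

theorem secw_nil {g : Perm (List (Fin d))} (hg : g ∈ treeAut d) : secw g [] = g := by
  apply label_ext' (secw_mem _ _) hg
  intro w
  rw [label_secw]
  rfl

theorem secw_mem_of {S : Set (Perm (List (Fin d)))} (hS : ∀ g ∈ S, g ∈ treeAut d)
    (h : ∀ g ∈ S, ∀ x, sec g x ∈ S) {g : Perm (List (Fin d))} (hg : g ∈ S) (v : List (Fin d)) :
    secw g v ∈ S := by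
  induction v generalizing g with
  | nil => rw [secw_nil (hS g hg)]; exact hg
  | cons x v ih => rw [secw_cons]; exact ih (h g hg x)

/-- the members of `H` whose deep sections lie in `N` -/
def finN (H : Subgroup (Perm (List (Fin d)))) (hH : H ≤ treeAut d)
    (N : Subgroup (Perm (List (Fin d)))) : Subgroup (Perm (List (Fin d))) where
  carrier := {g | g ∈ H ∧ ∃ m, ∀ v : List (Fin d), m ≤ v.length → secw g v ∈ N}
  mul_mem' := by
    rintro a b ⟨ha, N1, hN⟩ ⟨hb, M1, hM⟩
    refine ⟨mul_mem ha hb, N1 + M1, fun v hv => ?_⟩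
    rw [secw_mul (hH ha) (hH hb)]
    exact mul_mem (hN _ (by rw [treeAut_length (hH hb)]; omega)) (hM _ (by omega))
  one_mem' := ⟨one_mem _, 0, fun v _ => by rw [secw_one]; exact one_mem _⟩
  inv_mem' := by
    rintro a ⟨ha, N1, hN⟩
    refine ⟨inv_mem ha, N1, fun v hv => ?_⟩
    rw [secw_inv (hH ha)]
    exact inv_mem (hN _ (by rw [treeAut_length (inv_mem (hH ha))]; exact hv))

theorem finN_le (H : Subgroup (Perm (List (Fin d)))) (hH : H ≤ treeAut d)
    (N : Subgroup (Perm (List (Fin d)))) : finN H hH N ≤ H := fun _ h => h.1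

theorem finN_selfSimilar {H : Subgroup (Perm (List (Fin d)))} (hH : IsSelfSimilar H)
    (N : Subgroup (Perm (List (Fin d)))) : IsSelfSimilar (finN H hH.1 N) := by
  rw [isSelfSimilar_iff]
  refine ⟨(finN_le H hH.1 N).trans hH.1, ?_⟩
  rintro g ⟨hg, m, hm⟩ x
  refine ⟨hH.sec_mem hg x, m, fun v hv => ?_⟩
  rw [← secw_cons]
  exact hm _ (by simp; omega)

theorem finN_contracting {H : Subgroup (Perm (List (Fin d)))} (hH : IsSelfSimilar H)
    (N : Subgroup (Perm (List (Fin d)))) (hfin : (N : Set (Perm (List (Fin d)))).Finite) :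
    IsContracting (finN H hH.1 N) := by
  have hs := finN_selfSimilar hH N
  refine ⟨hs, {h | h ∈ N ∧ h ∈ finN H hH.1 N}, hfin.subset (fun h hh => hh.1),
    fun h hh => hh.2, ?_⟩
  intro g hg
  obtain ⟨m, hm⟩ := hg.2
  refine ⟨m, fun v hv => ⟨secw g v, ⟨hm v hv, ?_⟩, fun w => apply_append (hH.1 hg.1) v w⟩⟩
  exact secw_mem_of (S := {g | g ∈ finN H hH.1 N}) (fun g hg => hH.1 hg.1)
    (fun g hg x => hs.sec_mem hg x) hg v

/-- Realisation with a finite nucleus. -/
theorem realizeN (hd : 2 ≤ d) {H : Subgroup (Perm (List (Fin d)))} (hH : IsSelfSimilar H)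
    (N : Subgroup (Perm (List (Fin d)))) (hfin : (N : Set (Perm (List (Fin d)))).Finite)
    (hdense : ∀ n, ∀ k ∈ levK H n, ∃ g ∈ finN H hH.1 N, g ∈ St d n ∧
      ∀ v : Lev d n, label g v.1 = k v) {L : ℝ} (hL : Tendsto (lk H) atTop (𝓝 L)) :
    ∃ G : Subgroup (Perm (List (Fin d))), IsContracting G ∧
      hdim (treeClosure (G : Set (Perm (List (Fin d))))) = L / Real.log d.factorial := by
  refine ⟨finN H hH.1 N, finN_contracting hH N hfin, ?_⟩
  apply hdim_eq hd (finN_selfSimilar hH N).1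
  apply hL.congr
  intro n
  unfold lk
  have : levK (finN H hH.1 N) n = levK H n := by
    apply le_antisymm
    · intro k hk
      obtain ⟨g, hg, hs, h⟩ := mem_levK.1 hk
      exact mem_levK.2 ⟨g, hg.1, hs, h⟩
    · intro k hk
      exact mem_levK.2 (hdense n k hk)
  rw [this]

namespace WData

variable {A : Type} [Group A] (D : WData d A)

/-- extension by one of a vector on level `n` -/
noncomputable def ext1 {n : ℕ} (s : Lev d n → Perm (Fin d)) : List (Fin d) → Perm (Fin d) := by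
  classical
  exact fun v => if h : v.length = n then s ⟨v, h⟩ else 1

theorem ext1_apply {n : ℕ} (s : Lev d n → Perm (Fin d)) (v : Lev d n) : ext1 s v.1 = s v := by
  unfold ext1
  rw [dif_pos v.2]

theorem ext1_cons {n : ℕ} (s : Lev d (n + 1) → Perm (Fin d)) (x : Fin d) {v : List (Fin d)}
    (hv : v.length = n) : ext1 s (x :: v) = ext1 (fun v => s (consv x v)) v := by
  subst hv
  simp only [ext1, List.length_cons, dif_pos]
  rfl

/-- extension data -/
structure Ext where
  /-- lifts of labels -/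
  a : Perm (Fin d) → Perm (List (Fin d))
  /-- finite set of states -/
  N : Subgroup (Perm (List (Fin d)))
  fin : (N : Set (Perm (List (Fin d)))).Finite
  tree : ∀ g ∈ N, g ∈ treeAut d
  sec : ∀ g ∈ N, ∀ x, sec g x ∈ N
  a_mem : ∀ σ, a σ ∈ N
  a_lab : ∀ σ, label (a σ) [] = σ
  a_adm : ∀ σ m, D.Adm m (a σ)
  a_psi : ∀ σ m, D.psi (m + 1) (a σ) = 1

variable {D}

theorem Ext.secw_extn (X : D.Ext) (n : ℕ) (k : List (Fin d) → Perm (Fin d)) (v : List (Fin d))
    (hv : n ≤ v.length) : secw (extn X.a n k) v ∈ X.N := by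
  have ha : ∀ σ, X.a σ ∈ treeAut d := fun σ => X.tree _ (X.a_mem σ)
  induction n generalizing k v with
  | zero => exact secw_mem_of (S := {g | g ∈ X.N}) X.tree X.sec (X.a_mem _) v
  | succ n ih =>
    cases v with
    | nil => simp at hv
    | cons x v =>
      rw [secw_cons]
      have : SSG.sec (extn X.a (n + 1) k) x = extn X.a n (fun v => k (x :: v)) :=
        sec_node _ (fun x => extn_mem ha _ _) x
      rw [this]
      exact ih _ v (by simpa using hv)

theorem Ext.lift (X : D.Ext) {n : ℕ} (k : Lev d n → Perm (Fin d)) (hk : D.VV n (ext1 k)) :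
    ∃ g ∈ finN D.grp D.grp_selfSimilar.1 X.N, g ∈ St d n ∧ ∀ v : Lev d n, label g v.1 = k v := by
  have ha : ∀ σ, X.a σ ∈ treeAut d := fun σ => X.tree _ (X.a_mem σ)
  have hl := label_extn X.a_lab n (ext1 k)
  refine ⟨extn X.a n (ext1 k), ⟨⟨extn_mem ha _ _, fun m => ?_⟩, n, X.secw_extn n _⟩, ?_, ?_⟩
  · exact (D.adm_extn ha X.a_lab X.a_adm X.a_psi n _ hk m).1
  · rw [mem_St_iff_label (extn_mem ha _ _)]
    exact hl.1
  · intro v
    rw [hl.2 v.1 v.2, ext1_apply]

theorem Ext.mem_levK_grp (X : D.Ext) {n : ℕ} {k : Lev d n → Perm (Fin d)} :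
    k ∈ levK D.grp n ↔ D.VV n (ext1 k) := by
  constructor
  · intro hk
    obtain ⟨g, hg, hs, h⟩ := mem_levK.1 hk
    refine D.VV_congr (fun v hv => ?_) ((D.adm_St hs).1.1 (hg.2 n))
    have := h ⟨v, hv⟩
    rw [this]
    exact (ext1_apply k ⟨v, hv⟩).symm
  · intro hk
    obtain ⟨g, hg, hs, h⟩ := X.lift k hk
    exact mem_levK.2 ⟨g, hg.1, hs, h⟩

theorem vpsi_lift {n : ℕ} {k : Lev d n → Perm (Fin d)} {g : Perm (List (Fin d))}
    (hs : g ∈ St d n) (h : ∀ v : Lev d n, label g v.1 = k v) :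
    D.psi n g = D.vpsi n (ext1 k) := by
  rw [(D.adm_St hs).2]
  apply D.vpsi_congr
  intro v hv
  rw [h ⟨v, hv⟩]
  exact (ext1_apply k ⟨v, hv⟩).symm

/-- the functional on the labels of a level -/
noncomputable def vh (D : WData d A) (n : ℕ) : levK D.grp n →* A where
  toFun k := D.vpsi n (ext1 k.1)
  map_one' := by
    show D.vpsi n (ext1 (1 : Lev d n → Perm (Fin d))) = 1
    rw [← vpsi_lift (D := D) (g := 1) (k := 1) (one_mem _) (fun v => label_one _)]
    exact (D.adm_one n).2
  map_mul' := by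
    rintro ⟨k, hk⟩ ⟨l, hl⟩
    obtain ⟨g, hg, hgs, h1⟩ := mem_levK.1 hk
    obtain ⟨h, hh, hhs, h2⟩ := mem_levK.1 hl
    show D.vpsi n (ext1 (k * l)) = D.vpsi n (ext1 k) * D.vpsi n (ext1 l)
    rw [← vpsi_lift hgs h1, ← vpsi_lift hhs h2, ← (D.adm_mul hg.1 hh.1 (hg.2 n) (hh.2 n)).2]
    symm
    apply vpsi_lift (mul_mem hgs hhs)
    intro v
    rw [label_mul hg.1 hh.1, hhs.2 _ v.2.le, h1, h2]
    rfl

theorem Ext.mem_levK_succ (X : D.Ext) {n : ℕ} {k : Lev d (n + 1) → Perm (Fin d)} :
    k ∈ levK D.grp (n + 1) ↔ (∀ x, (fun v => k (consv x v)) ∈ levK D.grp n) ∧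
      (⟨1, fun x => D.vpsi n (ext1 (fun v => k (consv x v)))⟩ : Wr d A) ∈ D.M n := by
  rw [X.mem_levK_grp]
  have h2 : (fun x => D.vpsi n (fun v => ext1 k (x :: v))) =
      (fun x => D.vpsi n (ext1 (fun v => k (consv x v)))) := by
    funext x
    exact D.vpsi_congr (fun v hv => ext1_cons k x hv)
  constructor
  · rintro ⟨h1, h3⟩
    refine ⟨fun x => X.mem_levK_grp.2 (D.VV_congr (fun v hv => ext1_cons k x hv) (h1 x)), ?_⟩
    rw [← h2]; exact h3
  · rintro ⟨h1, h3⟩
    refine ⟨fun x => D.VV_congr (fun v hv => (ext1_cons k x hv).symm)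
      (X.mem_levK_grp.1 (h1 x)), ?_⟩
    rw [h2]; exact h3

/-- glue vectors on the subtrees -/
theorem exists_glue_perm {n : ℕ} (t : Fin d → (Lev d n → Perm (Fin d))) :
    ∃ s : Lev d (n + 1) → Perm (Fin d), ∀ x, (fun v => s (consv x v)) = t x := by
  classical
  refine ⟨fun w => t (w.1.head (by intro h; have := w.2; rw [h] at this; simp at this))
    ⟨w.1.tail, by simp [w.2]⟩, fun x => ?_⟩
  funext v
  rfl

variable (D)

/-- the sections over the identity with values in `B` -/
def M1 (B : Subgroup A) (n : ℕ) : Subgroup (Fin d → A) where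
  carrier := {f | (∀ x, f x ∈ B) ∧ (⟨1, f⟩ : Wr d A) ∈ D.M n}
  mul_mem' := by
    rintro a b ⟨ha, ha'⟩ ⟨hb, hb'⟩
    exact ⟨fun x => mul_mem (ha x) (hb x), mul_mem ha' hb'⟩
  one_mem' := ⟨fun _ => one_mem _, one_mem (D.M n)⟩
  inv_mem' := by
    rintro a ⟨ha, ha'⟩
    exact ⟨fun x => inv_mem (ha x), inv_mem ha'⟩

theorem mem_M1 {B : Subgroup A} {n : ℕ} {f : Fin d → A} :
    f ∈ D.M1 B n ↔ (∀ x, f x ∈ B) ∧ (⟨1, f⟩ : Wr d A) ∈ D.M n := Iff.rfl

/-- compatible ranges -/
def IsRange (B : ℕ → Subgroup A) : Prop :=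
  B 0 = D.lam.range ∧ ∀ n a, a ∈ B (n + 1) ↔ ∃ f ∈ D.M1 (B n) n, D.mu n ⟨1, f⟩ = a

variable {D}

theorem Ext.range_vh (X : D.Ext) {B : ℕ → Subgroup A} (hB : D.IsRange B) (n : ℕ) :
    (D.vh n).range = B n := by
  induction n with
  | zero =>
    rw [hB.1]
    ext a
    constructor
    · rintro ⟨k, rfl⟩
      exact ⟨_, rfl⟩
    · rintro ⟨σ, rfl⟩
      have hk : (fun _ => σ : Lev d 0 → Perm (Fin d)) ∈ levK D.grp 0 :=
        X.mem_levK_grp.2 trivial
      refine ⟨⟨_, hk⟩, ?_⟩
      show D.lam (ext1 (fun _ => σ : Lev d 0 → Perm (Fin d)) []) = D.lam σ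
      rw [ext1_apply (fun _ => σ : Lev d 0 → Perm (Fin d)) ⟨[], rfl⟩]
  | succ n ih =>
    ext a
    rw [hB.2]
    constructor
    · rintro ⟨⟨k, hk⟩, rfl⟩
      obtain ⟨h1, h2⟩ := X.mem_levK_succ.1 hk
      refine ⟨fun x => D.vpsi n (ext1 (fun v => k (consv x v))), ⟨fun x => ?_, h2⟩, ?_⟩
      · rw [← ih]
        exact ⟨⟨_, h1 x⟩, rfl⟩
      · show _ = D.mu n ⟨1, fun x => D.vpsi n (fun v => ext1 k (x :: v))⟩
        congr 2
        funext x
        exact D.vpsi_congr (fun v hv => (ext1_cons k x hv).symm)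
    · rintro ⟨f, ⟨hf1, hf2⟩, rfl⟩
      have h1 : ∀ x, ∃ k : levK D.grp n, D.vh n k = f x := fun x => by
        have := hf1 x
        rw [← ih] at this
        exact this
      choose t ht using h1
      obtain ⟨s, hs⟩ := exists_glue_perm (fun x => (t x).1)
      have h3 : (fun x => D.vpsi n (ext1 (fun v => s (consv x v)))) = f := by
        funext x
        rw [hs x]
        exact ht x
      refine ⟨⟨s, X.mem_levK_succ.2 ⟨fun x => ?_, ?_⟩⟩, ?_⟩
      · rw [hs x]; exact (t x).2
      · rw [h3]; exact hf2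
      · show D.mu n ⟨1, fun x => D.vpsi n (fun v => ext1 s (x :: v))⟩ = _
        congr 2
        rw [← h3]
        funext x
        exact D.vpsi_congr (fun v hv => ext1_cons s x hv)

theorem Ext.card_succ [Finite A] (X : D.Ext) {B : ℕ → Subgroup A} (hB : D.IsRange B) (n : ℕ) :
    Nat.card (levK D.grp (n + 1)) * Nat.card (B n) ^ d =
      Nat.card (levK D.grp n) ^ d * Nat.card (D.M1 (B n) n) := by
  let Φ : (Fin d → levK D.grp n) →* (Fin d → A) := (D.vh n).compLeft (Fin d)
  have hr : Φ.range = Subgroup.pi Set.univ (fun _ : Fin d => B n) := by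
    ext f
    rw [Subgroup.mem_pi]
    constructor
    · rintro ⟨t, rfl⟩ x _
      rw [← X.range_vh hB n]
      exact ⟨t x, rfl⟩
    · intro hf
      have h1 : ∀ x, ∃ k : levK D.grp n, D.vh n k = f x := fun x => by
        have := hf x trivial
        rw [← X.range_vh hB n] at this
        exact this
      choose t ht using h1
      exact ⟨t, funext ht⟩
  have hcr : Nat.card Φ.range = Nat.card (B n) ^ d := by
    rw [hr]
    have : Nat.card (Fin d → B n) = Nat.card (B n) ^ d := by
      rw [Nat.card_fun, Nat.card_eq_fintype_card (α := Fin d), Fintype.card_fin]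
    rw [← this]
    exact Nat.card_congr ⟨fun f x => ⟨f.1 x, f.2 x trivial⟩,
      fun f => ⟨fun x => (f x).1, fun x _ => (f x).2⟩, fun _ => rfl, fun _ => rfl⟩
  have h1 : Nat.card (Fin d → levK D.grp n) = Nat.card Φ.ker * Nat.card Φ.range :=
    card_eq_ker_mul_map Φ
  have hle : D.M1 (B n) n ≤ Φ.range := by
    rw [hr]
    intro f hf
    rw [Subgroup.mem_pi]
    exact fun x _ => hf.1 x
  have h2 : Nat.card ((D.M1 (B n) n).comap Φ) = Nat.card Φ.ker * Nat.card (D.M1 (B n) n) := by
    have h3 := card_eq_ker_mul_map (Φ.comp ((D.M1 (B n) n).comap Φ).subtype)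
    rw [h3]
    congr 1
    · refine Nat.card_congr ⟨fun k => ⟨k.1.1, k.2⟩, fun k => ⟨⟨k.1, ?_⟩, k.2⟩, fun _ => rfl,
        fun _ => rfl⟩
      rw [Subgroup.mem_comap]
      have : Φ k.1 = 1 := k.2
      rw [this]
      exact one_mem _
    · have h4 : (Φ.comp ((D.M1 (B n) n).comap Φ).subtype).range = D.M1 (B n) n := by
        rw [MonoidHom.range_comp, Subgroup.range_subtype, Subgroup.map_comap_eq]
        exact inf_eq_right.2 hle
      rw [h4]
  have h3 : Nat.card (levK D.grp (n + 1)) = Nat.card ((D.M1 (B n) n).comap Φ) := by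
    let F : levK D.grp (n + 1) → (D.M1 (B n) n).comap Φ := fun k =>
      ⟨fun x => ⟨fun v => k.1 (consv x v), (X.mem_levK_succ.1 k.2).1 x⟩,
        ⟨fun x => by rw [← X.range_vh hB n]; exact ⟨_, rfl⟩, (X.mem_levK_succ.1 k.2).2⟩⟩
    refine Nat.card_congr (Equiv.ofBijective F ⟨?_, ?_⟩)
    · intro s t h
      apply Subtype.ext
      funext w
      obtain ⟨x, v, rfl⟩ := exists_consv w
      have h1 := congrFun (congrArg Subtype.val h) x
      exact congrFun (congrArg Subtype.val h1) v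
    · rintro ⟨t, ht⟩
      obtain ⟨s, hs⟩ := exists_glue_perm (fun x => (t x).1)
      refine ⟨⟨s, X.mem_levK_succ.2 ⟨fun x => ?_, ?_⟩⟩, ?_⟩
      · rw [hs x]; exact (t x).2
      · have : (fun x => D.vpsi n (ext1 (fun v => s (consv x v)))) = Φ t := by
          funext x
          rw [hs x]
          rfl
        rw [this]
        exact ht.2
      · apply Subtype.ext
        funext x
        apply Subtype.ext
        exact hs x
  rw [h3, h2, ← hcr]
  have h4 : Nat.card (levK D.grp n) ^ d = Nat.card Φ.ker * Nat.card Φ.range := by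
    rw [← h1, Nat.card_fun, Nat.card_eq_fintype_card (α := Fin d), Fintype.card_fin]
  rw [h4]
  ring

theorem Ext.card_zero (X : D.Ext) : Nat.card (levK D.grp 0) = d.factorial := by
  have : levK D.grp 0 = ⊤ := by
    rw [eq_top_iff]
    intro k _
    exact X.mem_levK_grp.2 trivial
  rw [this, Subgroup.card_top, Nat.card_fun, card_lev, pow_zero, pow_one,
    Nat.card_eq_fintype_card, Fintype.card_perm, Fintype.card_fin]

/-- defect of a stage -/
noncomputable def defect (D : WData d A) (B : ℕ → Subgroup A) (n : ℕ) : ℝ :=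
  d * Real.log (Nat.card (B n)) - Real.log (Nat.card (D.M1 (B n) n))

theorem Ext.lk_grp [Finite A] (hd : 2 ≤ d) (X : D.Ext) {B : ℕ → Subgroup A} (hB : D.IsRange B)
    (n : ℕ) : lk D.grp n = Real.log d.factorial -
      ∑ i ∈ Finset.range n, D.defect B i / (d : ℝ) ^ (i + 1) := by
  have hd0 : (d : ℝ) ≠ 0 := by positivity
  induction n with
  | zero =>
    unfold lk
    rw [X.card_zero]
    simp
  | succ n ih =>
    rw [Finset.sum_range_succ, ← sub_sub, ← ih]
    have h1 := congrArg (fun m : ℕ => Real.log m) (X.card_succ hB n)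
    simp only [Nat.cast_mul, Nat.cast_pow] at h1
    have h2 := card_levK_pos D.grp (n + 1)
    have h3 := card_levK_pos D.grp n
    have h4 : 0 < Nat.card (B n) := Nat.card_pos
    have h5 : 0 < Nat.card (D.M1 (B n) n) := Nat.card_pos
    rw [Real.log_mul (by positivity) (by positivity), Real.log_mul (by positivity) (by positivity),
      Real.log_pow, Real.log_pow] at h1
    unfold lk defect
    have h6 : Real.log (Nat.card (levK D.grp (n + 1))) =
        d * Real.log (Nat.card (levK D.grp n)) + Real.log (Nat.card (D.M1 (B n) n)) -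
          d * Real.log (Nat.card (B n)) := by linarith
    rw [h6]
    field_simp
    ring

/-- Realisation by the data. -/
theorem Ext.realize [Finite A] (hd : 2 ≤ d) (X : D.Ext) {B : ℕ → Subgroup A} (hB : D.IsRange B)
    {c : ℝ} (hc : HasSum (fun i => D.defect B i / (d : ℝ) ^ (i + 1)) c) :
    ∃ G : Subgroup (Perm (List (Fin d))), IsContracting G ∧
      hdim (treeClosure (G : Set (Perm (List (Fin d))))) =
        (Real.log d.factorial - c) / Real.log d.factorial := by
  refine realizeN hd D.grp_selfSimilar X.N X.fin (fun n k hk => ?_) (L := Real.log d.factorial - c) ?_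
  · exact X.lift k (X.mem_levK_grp.1 hk)
  · have h1 := hc.tendsto_sum_nat.const_sub (Real.log d.factorial)
    apply h1.congr
    intro n
    rw [X.lk_grp hd hB n]

end WData

end Pool.Agent.SSG
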