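import Mathlib
import Pool.Agent.SSG.WrCount
import Pool.Agent.SSG.Four

set_option autoImplicit false

namespace Pool.Agent.SSG

open Equiv Filter Topology

section auto

variable {d : ℕ} {Q : Type} [Group Q] (wr : Q →* Wr d Q)

/-- labels of the automorphism given by a state -/
def stl : Q → List (Fin d) → Perm (Fin d)
  | q, [] => (wr q).p
  | q, (x :: v) => stl ((wr q).f x) v

/-- the automorphism given by a state -/
noncomputable def autQ (q : Q) : Perm (List (Fin d)) := ofLabels (stl wr q)

theorem autQ_mem (q : Q) : autQ wr q ∈ treeAut d := ofLabels_mem _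

theorem label_autQ (q : Q) : label (autQ wr q) [] = (wr q).p := by
  unfold autQ
  rw [label_ofLabels]
  rfl

theorem sec_autQ (q : Q) (x : Fin d) : sec (autQ wr q) x = autQ wr ((wr q).f x) := by
  apply label_ext' (sec_mem _ _) (autQ_mem _ _)
  intro v
  rw [label_sec]
  unfold autQ
  rw [label_ofLabels, label_ofLabels]
  rfl

theorem label_autQ_mul (q q' : Q) (v : List (Fin d)) :
    label (autQ wr (q * q')) v = label (autQ wr q * autQ wr q') v := by
  induction v generalizing q q' with
  | nil =>
    rw [label_mul (autQ_mem wr q) (autQ_mem wr q'), treeAut_nil (autQ_mem wr q'), label_autQ,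
      label_autQ, label_autQ, map_mul]
    rfl
  | cons x v ih =>
    rw [← label_sec, sec_autQ, ← label_sec, sec_mul (autQ_mem wr q) (autQ_mem wr q'), sec_autQ,
      sec_autQ, label_autQ, map_mul]
    exact ih _ _

/-- the homomorphism given by the automaton -/
noncomputable def autHom : Q →* Perm (List (Fin d)) where
  toFun := autQ wr
  map_one' := by
    have h : ∀ (v : List (Fin d)), label (autQ wr 1) v = 1 := by
      intro v
      induction v with
      | nil => rw [label_autQ, map_one]; rfl
      | cons x v ih =>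
        rw [← label_sec, sec_autQ, map_one]
        exact ih
    apply label_ext' (autQ_mem wr 1) (one_mem _)
    intro v
    rw [h, label_one]
  map_mul' q q' := label_ext' (autQ_mem wr _) (mul_mem (autQ_mem wr q) (autQ_mem wr q'))
    (label_autQ_mul wr q q')

variable {A : Type} [Group A]

/-- extension data from an automaton -/
noncomputable def extOfAuto [Finite Q] (D : WData d A) (lift : Perm (Fin d) → Q)
    (hlift : ∀ σ, (wr (lift σ)).p = σ) (π : ℕ → Q → A) (h0 : ∀ q, π 0 q = D.lam (wr q).p)
    (hM : ∀ m q, (⟨(wr q).p, fun x => π m ((wr q).f x)⟩ : Wr d A) ∈ D.M m)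
    (hs : ∀ m q, π (m + 1) q = D.mu m ⟨(wr q).p, fun x => π m ((wr q).f x)⟩)
    (h1 : ∀ m σ, π (m + 1) (lift σ) = 1) : D.Ext := by
  have key : ∀ m q, D.Adm m (autQ wr q) ∧ D.psi m (autQ wr q) = π m q := by
    intro m
    induction m with
    | zero =>
      intro q
      refine ⟨trivial, ?_⟩
      show D.lam (label (autQ wr q) []) = _
      rw [label_autQ, h0]
    | succ m ih =>
      intro q
      have hw : (⟨label (autQ wr q) [], fun x => D.psi m (sec (autQ wr q) x)⟩ : Wr d A) =
          ⟨(wr q).p, fun x => π m ((wr q).f x)⟩ := by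
        apply Wr.ext
        · exact label_autQ wr q
        · funext x
          show D.psi m (sec (autQ wr q) x) = _
          rw [sec_autQ]
          exact (ih _).2
      refine ⟨⟨fun x => ?_, ?_⟩, ?_⟩
      · rw [sec_autQ]; exact (ih _).1
      · rw [hw]; exact hM m q
      · show D.mu m _ = _
        rw [hw, hs]
  exact
    { a := fun σ => autQ wr (lift σ)
      N := (autHom wr).range
      fin := by
        have : ((autHom wr).range : Set (Perm (List (Fin d)))) = Set.range (autHom wr) := rfl
        rw [this]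
        exact Set.finite_range _
      tree := by
        rintro _ ⟨q, rfl⟩
        exact autQ_mem wr q
      sec := by
        rintro _ ⟨q, rfl⟩ x
        exact ⟨_, (sec_autQ wr q x).symm⟩
      a_mem := fun σ => ⟨_, rfl⟩
      a_lab := fun σ => by rw [label_autQ, hlift]
      a_adm := fun σ m => (key m _).1
      a_psi := fun σ m => by rw [(key _ _).2, h1] }

end auto

/-- the group `S_3` as pairs sign, rotation -/
@[ext] structure S3 where
  /-- sign -/
  s : ℤˣ
  /-- rotation -/
  t : ZMod 3
deriving DecidableEq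

namespace S3

/-- as a product -/
def equivProd : S3 ≃ ℤˣ × ZMod 3 where
  toFun w := (w.s, w.t)
  invFun w := ⟨w.1, w.2⟩
  left_inv _ := rfl
  right_inv _ := rfl

instance : Fintype S3 := Fintype.ofEquiv _ equivProd.symm

instance : Group S3 where
  mul a b := ⟨a.s * b.s, us b.s * a.t + b.t⟩
  one := ⟨1, 0⟩
  inv a := ⟨a.s, -(us a.s * a.t)⟩
  mul_assoc a b c := by
    apply S3.ext
    · exact mul_assoc _ _ _
    · show us c.s * (us b.s * a.t + b.t) + c.t = us (b.s * c.s) * a.t + (us c.s * b.t + c.t)
      rw [us_mul]; ring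
  one_mul a := by
    apply S3.ext
    · exact one_mul _
    · show us a.s * 0 + a.t = a.t
      ring
  mul_one a := by
    apply S3.ext
    · exact mul_one _
    · show us 1 * a.t + 0 = a.t
      rw [us_one]; ring
  inv_mul_cancel a := by
    apply S3.ext
    · exact Int.units_mul_self _
    · show us a.s * -(us a.s * a.t) + a.t = 0
      have := us_mul_self a.s
      calc us a.s * -(us a.s * a.t) + a.t = -((us a.s * us a.s) * a.t) + a.t := by ring
        _ = 0 := by rw [this]; ring

theorem mul_s (a b : S3) : (a * b).s = a.s * b.s := rfl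

theorem mul_t (a b : S3) : (a * b).t = us b.s * a.t + b.t := rfl

theorem one_s : (1 : S3).s = 1 := rfl

theorem one_t : (1 : S3).t = 0 := rfl

theorem card : Nat.card S3 = 6 := by
  rw [Nat.card_congr equivProd, Nat.card_prod]
  simp

end S3

/-- `S_4 → S_3` -/
def lam4 : Perm (Fin 4) →* S3 where
  toFun σ := ⟨Perm.sign σ, tau σ⟩
  map_one' := by
    apply S3.ext
    · exact map_one _
    · exact tau_one
  map_mul' σ τ := by
    apply S3.ext
    · exact map_mul _ _ _
    · exact tau_mul σ τ

theorem lam4_surj_aux : ∀ (s : ℤˣ) (t : ZMod 3), ∃ σ : Perm (Fin 4), Perm.sign σ = s ∧ tau σ = t := by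
  decide +kernel

theorem lam4_range : lam4.range = ⊤ := by
  rw [MonoidHom.range_eq_top]
  rintro ⟨s, t⟩
  obtain ⟨σ, h1, h2⟩ := lam4_surj_aux s t
  exact ⟨σ, S3.ext h1 h2⟩

/-- the tetracode -/
def inC (f : Fin 4 → ZMod 3) : Prop := f 2 = f 0 + f 1 ∧ f 3 = f 0 - f 1

instance : DecidablePred inC := fun f => by unfold inC; infer_instance

theorem inC_add {f g : Fin 4 → ZMod 3} (hf : inC f) (hg : inC g) : inC (fun x => f x + g x) := by
  obtain ⟨h1, h2⟩ := hf
  obtain ⟨h3, h4⟩ := hg
  constructor
  · show f 2 + g 2 = f 0 + g 0 + (f 1 + g 1)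
    rw [h1, h3]; ring
  · show f 3 + g 3 = f 0 + g 0 - (f 1 + g 1)
    rw [h2, h4]; ring

/-- the automorphisms of the tetracode -/
def isAut (p : Perm (Fin 4)) (η : Fin 4 → ℤˣ) : Prop :=
  ∀ f, inC f → inC (fun x => us (η x) * f (p x))

instance (p : Perm (Fin 4)) : DecidablePred (isAut p) := fun η => by
  unfold isAut; infer_instance

theorem isAut_mul {p q : Perm (Fin 4)} {η θ : Fin 4 → ℤˣ} (h1 : isAut p η) (h2 : isAut q θ) :
    isAut (p * q) (fun x => η (q x) * θ x) := by
  intro f hf
  have := h2 _ (h1 f hf)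
  convert this using 1
  funext x
  rw [us_mul, Perm.mul_apply]
  ring

theorem isAut_one : isAut 1 (fun _ => 1) := by
  intro f hf
  convert hf using 1
  funext x
  rw [us_one, one_mul]; rfl

/-- the kinds of stages -/
inductive Kind where
  | cst : Kind
  | sgc : Kind
  | fr : Bool → Bool → Kind
  | tw : Kind
  | triv : Kind

/-- conditions of the stages -/
def condK : Kind → Wr 4 S3 → Prop
  | .cst, w => ∀ x y, w.f x = w.f y
  | .sgc, w => ∀ x y, (w.f x).s = (w.f y).s
  | .fr δ dig, w => (δ = false → ∀ x, (w.f x).t = 0) ∧ (dig = true → ∀ x y, (w.f x).s = (w.f y).s)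
  | .tw, w => isAut w.p (fun x => (w.f x).s) ∧ inC (fun x => (w.f x).t)
  | .triv, _ => True

/-- functionals of the stages -/
def muK : Kind → Wr 4 S3 → S3
  | .cst, w => w.f 0
  | .sgc, w => ⟨(w.f 0).s, (w.f 0).t + (w.f 1).t + (w.f 2).t + (w.f 3).t⟩
  | .fr _ dig, w => ⟨if dig then (w.f 0).s else ∏ x, (w.f x).s, 0⟩
  | .tw, _ => 1
  | .triv, _ => 1

theorem condK_mul (K : Kind) {a b : Wr 4 S3} (ha : condK K a) (hb : condK K b) :
    condK K (a * b) := by
  cases K with
  | cst => exact fun x y => congrArg₂ (· * ·) (ha _ _) (hb _ _)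
  | sgc => exact fun x y => congrArg₂ (· * ·) (ha _ _) (hb _ _)
  | fr δ dig =>
    refine ⟨fun h x => ?_, fun h x y => congrArg₂ (· * ·) (ha.2 h _ _) (hb.2 h _ _)⟩
    show us (b.f x).s * (a.f (b.p x)).t + (b.f x).t = 0
    rw [ha.1 h, hb.1 h]; ring
  | tw =>
    refine ⟨isAut_mul ha.1 hb.1, ?_⟩
    exact inC_add (hb.1 _ ha.2) hb.2
  | triv => trivial

theorem condK_one (K : Kind) : condK K 1 := by
  cases K with
  | cst => exact fun x y => rfl
  | sgc => exact fun x y => rfl
  | fr δ dig => exact ⟨fun _ _ => rfl, fun _ _ _ => rfl⟩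
  | tw => exact ⟨isAut_one, by constructor <;> rfl⟩
  | triv => trivial

/-- the subgroups of the stages -/
def MK (K : Kind) : Subgroup (Wr 4 S3) :=
  let S : Submonoid (Wr 4 S3) :=
    { carrier := {w | condK K w}
      mul_mem' := fun ha hb => condK_mul K ha hb
      one_mem' := condK_one K }
  { S with inv_mem' := fun ha => inv_mem_of_finite S ha }

theorem mem_MK {K : Kind} {w : Wr 4 S3} : w ∈ MK K ↔ condK K w := Iff.rfl

theorem muK_mul (K : Kind) {a b : Wr 4 S3} (ha : condK K a) (hb : condK K b) :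
    muK K (a * b) = muK K a * muK K b := by
  cases K with
  | cst =>
    show a.f (b.p 0) * b.f 0 = a.f 0 * b.f 0
    rw [ha (b.p 0) 0]
  | sgc =>
    apply S3.ext
    · show (a.f (b.p 0)).s * (b.f 0).s = (a.f 0).s * (b.f 0).s
      rw [ha (b.p 0) 0]
    · show (us (b.f 0).s * (a.f (b.p 0)).t + (b.f 0).t) + (us (b.f 1).s * (a.f (b.p 1)).t +
        (b.f 1).t) + (us (b.f 2).s * (a.f (b.p 2)).t + (b.f 2).t) +
        (us (b.f 3).s * (a.f (b.p 3)).t + (b.f 3).t) =
        us (b.f 0).s * ((a.f 0).t + (a.f 1).t + (a.f 2).t + (a.f 3).t) +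
          ((b.f 0).t + (b.f 1).t + (b.f 2).t + (b.f 3).t)
      have h4 := Equiv.sum_comp b.p (fun x => (a.f x).t)
      rw [Fin.sum_univ_four, Fin.sum_univ_four] at h4
      rw [← h4, hb 1 0, hb 2 0, hb 3 0]
      ring
  | fr δ dig =>
    apply S3.ext
    · show (if dig then (a.f (b.p 0)).s * (b.f 0).s else ∏ x, (a.f (b.p x)).s * (b.f x).s) =
        (if dig then (a.f 0).s else ∏ x, (a.f x).s) * (if dig then (b.f 0).s else ∏ x, (b.f x).s)
      cases dig with
      | true => simp only [if_true]; rw [ha.2 rfl (b.p 0) 0]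
      | false =>
        simp only [Bool.false_eq_true, if_false]
        rw [Finset.prod_mul_distrib, Equiv.prod_comp b.p (fun x => (a.f x).s)]
    · show (0 : ZMod 3) = us _ * 0 + 0
      ring
  | tw => exact (mul_one _).symm
  | triv => exact (mul_one _).symm

/-- the data for a sequence of stages -/
def dataK (K : ℕ → Kind) : WData 4 S3 where
  lam := lam4
  M n := MK (K n)
  mu n := muK (K n)
  mu_mul _ _ ha _ hb := muK_mul _ ha hb

end Pool.Agent.SSG
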