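import Mathlib
import Pool.Agent.SSG.WrAuto
import Pool.Agent.SSG.FourUpper

set_option autoImplicit false

namespace Pool.Agent.SSG

open Equiv Filter Topology

/-- the signs in `S_3` -/
def Sg : Subgroup S3 where
  carrier := {a | a.t = 0}
  mul_mem' := by
    intro a b ha hb
    show us b.s * a.t + b.t = 0
    have ha' : a.t = 0 := ha
    have hb' : b.t = 0 := hb
    rw [ha', hb']; ring
  one_mem' := rfl
  inv_mem' := by
    intro a ha
    show -(us a.s * a.t) = 0
    have ha' : a.t = 0 := ha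
    rw [ha']; ring

theorem mem_Sg {a : S3} : a ∈ Sg ↔ a.t = 0 := Iff.rfl

theorem card_Sg : Nat.card Sg = 2 := by
  have : Nat.card ℤˣ = 2 := by simp
  rw [← this]
  refine Nat.card_congr ⟨fun a => a.1.s, fun s => ⟨⟨s, 0⟩, rfl⟩, fun a => ?_, fun _ => rfl⟩
  apply Subtype.ext
  exact S3.ext rfl (mem_Sg.1 a.2).symm

theorem card_S3_top : Nat.card (⊤ : Subgroup S3) = 6 := by
  rw [Subgroup.card_top, S3.card]

/-- elements over the identity -/
theorem mem_M1K {K : ℕ → Kind} {B : Subgroup S3} {n : ℕ} {f : Fin 4 → S3} :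
    f ∈ (dataK K).M1 B n ↔ (∀ x, f x ∈ B) ∧ condK (K n) ⟨1, f⟩ := Iff.rfl

theorem card_cst {K : ℕ → Kind} {n : ℕ} (h : K n = .cst) :
    Nat.card ((dataK K).M1 ⊤ n) = 6 := by
  rw [← S3.card]
  refine Nat.card_congr ⟨fun f => f.1 0, fun a => ⟨fun _ => a, ?_⟩, fun f => ?_, fun _ => rfl⟩
  · rw [mem_M1K, h]
    exact ⟨fun _ => trivial, fun _ _ => rfl⟩
  · apply Subtype.ext
    funext x
    have := f.2
    rw [mem_M1K, h] at this
    exact this.2 0 x

theorem card_sgc_aux {B : Subgroup S3} {K : ℕ → Kind} {n : ℕ}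
    (h : ∀ f : Fin 4 → S3, f ∈ (dataK K).M1 B n ↔ ∀ x y, (f x).s = (f y).s) :
    Nat.card ((dataK K).M1 B n) = 162 := by
  have hc : Nat.card (ℤˣ × (Fin 4 → ZMod 3)) = 162 := by
    rw [Nat.card_prod, Nat.card_fun]; simp
  rw [← hc]
  refine Nat.card_congr ⟨fun f => ((f.1 0).s, fun x => (f.1 x).t),
    fun a => ⟨fun x => ⟨a.1, a.2 x⟩, ?_⟩, fun f => ?_, fun _ => rfl⟩
  · rw [h]; exact fun _ _ => rfl
  · apply Subtype.ext
    funext x
    have := (h f.1).1 f.2
    exact S3.ext (this 0 x) rfl

theorem card_t0_aux {B : Subgroup S3} {K : ℕ → Kind} {n : ℕ}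
    (h : ∀ f : Fin 4 → S3, f ∈ (dataK K).M1 B n ↔ ∀ x, (f x).t = 0) :
    Nat.card ((dataK K).M1 B n) = 16 := by
  have hc : Nat.card (Fin 4 → ℤˣ) = 16 := by
    rw [Nat.card_fun]; simp
  rw [← hc]
  refine Nat.card_congr ⟨fun f => fun x => (f.1 x).s,
    fun a => ⟨fun x => ⟨a x, 0⟩, ?_⟩, fun f => ?_, fun _ => rfl⟩
  · rw [h]; exact fun _ => rfl
  · apply Subtype.ext
    funext x
    have := (h f.1).1 f.2
    exact S3.ext rfl (this x).symm

theorem card_t0c_aux {B : Subgroup S3} {K : ℕ → Kind} {n : ℕ}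
    (h : ∀ f : Fin 4 → S3, f ∈ (dataK K).M1 B n ↔
      (∀ x, (f x).t = 0) ∧ ∀ x y, (f x).s = (f y).s) :
    Nat.card ((dataK K).M1 B n) = 2 := by
  have hc : Nat.card ℤˣ = 2 := by simp
  rw [← hc]
  refine Nat.card_congr ⟨fun f => (f.1 0).s,
    fun a => ⟨fun x => ⟨a, 0⟩, ?_⟩, fun f => ?_, fun _ => rfl⟩
  · rw [h]; exact ⟨fun _ => rfl, fun _ _ => rfl⟩
  · apply Subtype.ext
    funext x
    have := (h f.1).1 f.2
    exact S3.ext (this.2 0 x) (this.1 x).symm

theorem card_free {K : ℕ → Kind} {n : ℕ} (h : K n = .fr true false) :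
    Nat.card ((dataK K).M1 ⊤ n) = 1296 := by
  have hc : Nat.card (Fin 4 → S3) = 1296 := by
    rw [Nat.card_fun, S3.card]; simp
  rw [← hc]
  refine Nat.card_congr ⟨fun f => f.1, fun a => ⟨a, ?_⟩, fun _ => rfl, fun _ => rfl⟩
  rw [mem_M1K, h]
  exact ⟨fun _ => trivial, fun h => absurd h (by decide), fun h => absurd h (by decide)⟩

theorem card_isAut : Fintype.card {η : Fin 4 → ℤˣ // isAut 1 η} = 2 := by
  decide +kernel

theorem card_inC : Fintype.card {f : Fin 4 → ZMod 3 // inC f} = 9 := by
  decide +kernel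

theorem card_tw {K : ℕ → Kind} {n : ℕ} (h : K n = .tw) :
    Nat.card ((dataK K).M1 ⊤ n) = 18 := by
  have hc : Nat.card ({η : Fin 4 → ℤˣ // isAut 1 η} × {f : Fin 4 → ZMod 3 // inC f}) = 18 := by
    rw [Nat.card_prod, Nat.card_eq_fintype_card, Nat.card_eq_fintype_card, card_isAut, card_inC]
  rw [← hc]
  have hm : ∀ f : Fin 4 → S3, f ∈ (dataK K).M1 ⊤ n ↔ isAut 1 (fun x => (f x).s) ∧
      inC (fun x => (f x).t) := by
    intro f
    rw [mem_M1K, h]
    constructor
    · exact fun h => h.2
    · exact fun h => ⟨fun _ => trivial, h⟩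
  refine Nat.card_congr ⟨fun f => (⟨_, ((hm f.1).1 f.2).1⟩, ⟨_, ((hm f.1).1 f.2).2⟩),
    fun a => ⟨fun x => ⟨a.1.1 x, a.2.1 x⟩, ?_⟩, fun f => ?_, fun _ => rfl⟩
  · rw [hm]; exact ⟨a.1.2, a.2.2⟩
  · rfl

theorem card_triv {K : ℕ → Kind} {n : ℕ} (h : K n = .triv) :
    Nat.card ((dataK K).M1 ⊥ n) = 1 := by
  rw [Subgroup.card_eq_one, eq_bot_iff]
  intro f hf
  rw [mem_M1K, h] at hf
  rw [Subgroup.mem_bot]
  funext x
  exact Subgroup.mem_bot.1 (hf.1 x)

/-- first stages -/
def kst (b : ℕ → Bool) (n : ℕ) : Kind := if b n then .sgc else .cst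

/-- stages of the untwisted type -/
def Kfr (r : ℕ) (b : ℕ → Bool) (δ : Bool) (dig : ℕ → Bool) (n : ℕ) : Kind :=
  if n < r then kst b n else .fr δ (dig (n - r))

/-- stages of the twisted type -/
def Ktw (r : ℕ) (b : ℕ → Bool) (n : ℕ) : Kind :=
  if n < r then kst b n else if n = r then .tw else .triv

/-- ranges -/
def Bfr (r : ℕ) (n : ℕ) : Subgroup S3 := if n ≤ r then ⊤ else Sg

/-- ranges -/
def Btw (r : ℕ) (n : ℕ) : Subgroup S3 := if n ≤ r then ⊤ else ⊥

theorem range_kst {K : ℕ → Kind} {b : ℕ → Bool} {n : ℕ} (h : K n = kst b n) (a : S3) :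
    ∃ f ∈ (dataK K).M1 ⊤ n, (dataK K).mu n ⟨1, f⟩ = a := by
  show ∃ f ∈ (dataK K).M1 ⊤ n, muK (K n) ⟨1, f⟩ = a
  simp only [mem_M1K]
  rw [h]
  unfold kst
  cases b n with
  | false => exact ⟨fun _ => a, ⟨fun _ => trivial, fun _ _ => rfl⟩, rfl⟩
  | true =>
    refine ⟨fun x => ⟨a.s, if x = 0 then a.t else 0⟩, ⟨fun _ => trivial, fun _ _ => rfl⟩, ?_⟩
    apply S3.ext
    · rfl
    · show (if (0 : Fin 4) = 0 then a.t else 0) + (if (1 : Fin 4) = 0 then a.t else 0) +
        (if (2 : Fin 4) = 0 then a.t else 0) + (if (3 : Fin 4) = 0 then a.t else 0) = a.t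
      simp

theorem isRange_fr (r : ℕ) (b : ℕ → Bool) (δ : Bool) (dig : ℕ → Bool) :
    (dataK (Kfr r b δ dig)).IsRange (Bfr r) := by
  refine ⟨?_, fun n a => ?_⟩
  · show Bfr r 0 = lam4.range
    rw [lam4_range]; simp [Bfr]
  · by_cases hn : n < r
    · have hB : Bfr r n = ⊤ := if_pos hn.le
      have hB' : Bfr r (n + 1) = ⊤ := if_pos hn
      rw [hB, hB']
      exact ⟨fun _ => range_kst (b := b) (if_pos hn) a, fun _ => trivial⟩
    · have hK : Kfr r b δ dig n = .fr δ (dig (n - r)) := if_neg hn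
      have hB' : Bfr r (n + 1) = Sg := if_neg (by omega)
      rw [hB', mem_Sg]
      constructor
      · intro ha
        show ∃ f ∈ (dataK (Kfr r b δ dig)).M1 (Bfr r n) n, muK (Kfr r b δ dig n) ⟨1, f⟩ = a
        simp only [mem_M1K]
        rw [hK]
        have hSg : ∀ c : S3, c.t = 0 → c ∈ Bfr r n := by
          intro c hc
          unfold Bfr
          split
          · trivial
          · exact hc
        cases hd : dig (n - r) with
        | true =>
          refine ⟨fun _ => a, ⟨fun _ => hSg a ha, fun _ _ => ha, fun _ _ _ => rfl⟩, ?_⟩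
          exact S3.ext rfl ha.symm
        | false =>
          refine ⟨fun x => if x = 0 then a else 1, ⟨fun x => ?_, fun _ x => ?_,
            fun h => absurd h (by decide)⟩, ?_⟩
          · show (if x = 0 then a else 1 : S3) ∈ Bfr r n
            split
            · exact hSg a ha
            · exact one_mem _
          · show (if x = 0 then a else 1 : S3).t = 0
            split
            · exact ha
            · rfl
          · apply S3.ext
            · show ∏ x : Fin 4, (if x = 0 then a else 1 : S3).s = a.s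
              rw [Fin.prod_univ_four]
              simp [S3.one_s]
            · exact ha.symm
      · rintro ⟨f, hf, hfa⟩
        rw [← hfa]
        show (muK (Kfr r b δ dig n) ⟨1, f⟩).t = 0
        rw [hK]
        rfl

theorem isRange_tw (r : ℕ) (b : ℕ → Bool) : (dataK (Ktw r b)).IsRange (Btw r) := by
  refine ⟨?_, fun n a => ?_⟩
  · show Btw r 0 = lam4.range
    rw [lam4_range]; simp [Btw]
  · by_cases hn : n < r
    · have hB : Btw r n = ⊤ := if_pos hn.le
      have hB' : Btw r (n + 1) = ⊤ := if_pos hn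
      rw [hB, hB']
      exact ⟨fun _ => range_kst (b := b) (if_pos hn) a, fun _ => trivial⟩
    · have hB' : Btw r (n + 1) = ⊥ := if_neg (by omega)
      rw [hB', Subgroup.mem_bot]
      have hmu : ∀ f, (dataK (Ktw r b)).mu n ⟨1, f⟩ = 1 := by
        intro f
        show muK (Ktw r b n) ⟨1, f⟩ = 1
        unfold Ktw
        rw [if_neg hn]
        split <;> rfl
      constructor
      · rintro rfl
        exact ⟨1, one_mem _, hmu _⟩
      · rintro ⟨f, -, hfa⟩
        rw [← hfa, hmu]

theorem log_162 : Real.log 162 = Real.log 2 + 4 * Real.log 3 := by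
  rw [show (162 : ℝ) = 2 * 3 ^ 4 by norm_num, Real.log_mul (by norm_num) (by norm_num),
    Real.log_pow]
  norm_num

theorem log_1296 : Real.log 1296 = 4 * Real.log 2 + 4 * Real.log 3 := by
  rw [show (1296 : ℝ) = 2 ^ 4 * 3 ^ 4 by norm_num, Real.log_mul (by norm_num) (by norm_num),
    Real.log_pow, Real.log_pow]
  norm_num

theorem log_16 : Real.log 16 = 4 * Real.log 2 := by
  rw [show (16 : ℝ) = 2 ^ 4 by norm_num, Real.log_pow]
  norm_num

theorem log_18 : Real.log 18 = Real.log 2 + 2 * Real.log 3 := by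
  rw [show (18 : ℝ) = 2 * 3 ^ 2 by norm_num, Real.log_mul (by norm_num) (by norm_num),
    Real.log_pow]
  norm_num

theorem defect_kst {K : ℕ → Kind} {b : ℕ → Bool} {n : ℕ} (h : K n = kst b n)
    {B : ℕ → Subgroup S3} (hB : B n = ⊤) : (dataK K).defect B n =
      3 * Real.log 2 + (if b n then 0 else 3) * Real.log 3 := by
  unfold WData.defect
  rw [hB, card_S3_top]
  cases hb : b n with
  | false =>
    have h' : K n = .cst := by rw [h]; unfold kst; rw [hb]; rfl
    rw [card_cst h']
    push_cast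
    rw [log_six]
    try simp only [reduceIte, Bool.false_eq_true]
    ring
  | true =>
    have h' : K n = .sgc := by rw [h]; unfold kst; rw [hb]; rfl
    rw [card_sgc_aux (fun f => by
      rw [mem_M1K, h']
      exact ⟨fun h => h.2, fun h => ⟨fun _ => trivial, h⟩⟩)]
    push_cast
    rw [log_six, log_162]
    try simp only [reduceIte]
    ring

theorem defect_fr (r : ℕ) (b : ℕ → Bool) (δ : Bool) (dig : ℕ → Bool) (m : ℕ) :
    (dataK (Kfr r b δ dig)).defect (Bfr r) (m + r) =
      (if m = 0 then (if δ then 0 else 4) * Real.log 3 else 0) +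
        (if dig m then 3 else 0) * Real.log 2 := by
  have hK : Kfr r b δ dig (m + r) = .fr δ (dig m) := by
    unfold Kfr
    rw [if_neg (by omega), Nat.add_sub_cancel]
  unfold WData.defect
  by_cases hm : m = 0
  · subst hm
    have hB : Bfr r (0 + r) = ⊤ := if_pos (by omega)
    rw [hB, card_S3_top]
    cases hδ : δ with
    | true =>
      rw [hδ] at hK
      cases hd : dig 0 with
      | true =>
        rw [hd] at hK
        rw [card_sgc_aux (fun f => by
          rw [mem_M1K, hK]
          exact ⟨fun h => h.2.2 rfl, fun h => ⟨fun _ => trivial,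
            fun h => absurd h (by decide), fun _ => h⟩⟩)]
        push_cast
        rw [log_six, log_162]
        try simp only [reduceIte]
        ring
      | false =>
        rw [hd] at hK
        rw [card_free hK]
        push_cast
        rw [log_six, log_1296]
        try simp only [reduceIte, Bool.false_eq_true]
        ring
    | false =>
      rw [hδ] at hK
      cases hd : dig 0 with
      | true =>
        rw [hd] at hK
        rw [card_t0c_aux (fun f => by
          rw [mem_M1K, hK]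
          exact ⟨fun h => ⟨h.2.1 rfl, h.2.2 rfl⟩, fun h => ⟨fun _ => trivial,
            fun _ => h.1, fun _ => h.2⟩⟩)]
        push_cast
        rw [log_six]
        try simp only [reduceIte, Bool.false_eq_true]
        ring
      | false =>
        rw [hd] at hK
        rw [card_t0_aux (fun f => by
          rw [mem_M1K, hK]
          exact ⟨fun h => h.2.1 rfl, fun h => ⟨fun _ => trivial,
            fun _ => h, fun h => absurd h (by decide)⟩⟩)]
        push_cast
        rw [log_six, log_16]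
        try simp only [reduceIte, Bool.false_eq_true]
        ring
  · have hB : Bfr r (m + r) = Sg := if_neg (by omega)
    rw [hB, card_Sg, if_neg hm]
    cases hd : dig m with
    | true =>
      rw [hd] at hK
      rw [card_t0c_aux (fun f => by
        rw [mem_M1K, hK]
        exact ⟨fun h => ⟨h.1, h.2.2 rfl⟩, fun h => ⟨h.1, fun _ => h.1, fun _ => h.2⟩⟩)]
      push_cast
      try simp only [reduceIte]
      ring
    | false =>
      rw [hd] at hK
      rw [card_t0_aux (fun f => by
        rw [mem_M1K, hK]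
        exact ⟨fun h => h.1, fun h => ⟨h,
          fun _ => h, fun h => absurd h (by decide)⟩⟩)]
      push_cast
      rw [log_16]
      try simp only [reduceIte, Bool.false_eq_true]
      ring

theorem defect_tw (r : ℕ) (b : ℕ → Bool) (m : ℕ) :
    (dataK (Ktw r b)).defect (Btw r) (m + r) =
      if m = 0 then 3 * Real.log 2 + 2 * Real.log 3 else 0 := by
  unfold WData.defect
  by_cases hm : m = 0
  · subst hm
    have hK : Ktw r b (0 + r) = .tw := by
      unfold Ktw
      rw [if_neg (by omega), if_pos (by omega)]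
    have hB : Btw r (0 + r) = ⊤ := if_pos (by omega)
    rw [hB, card_S3_top, card_tw hK]
    push_cast
    rw [log_six, log_18]
    try simp only [reduceIte]
    ring
  · have hK : Ktw r b (m + r) = .triv := by
      unfold Ktw
      rw [if_neg (by omega), if_neg (by omega)]
    have hB : Btw r (m + r) = ⊥ := if_neg (by omega)
    rw [hB, card_triv hK, if_neg hm]
    simp

/-- the sum of the first defects -/
theorem sum_kst (b : ℕ → Bool) (r : ℕ) :
    ∑ i ∈ Finset.range r, (3 * Real.log 2 + (if b i then 0 else 3) * Real.log 3) /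
      ((4 : ℕ) : ℝ) ^ (i + 1) = Real.log 2 * (1 - 1 / 4 ^ r) +
        Real.log 3 * (1 - 1 / 4 ^ r - ∑ i ∈ Finset.range r, cterm 4 b i) := by
  induction r with
  | zero => simp
  | succ r ih =>
    rw [Finset.sum_range_succ, Finset.sum_range_succ, ih]
    unfold cterm
    cases b r with
    | true =>
      try simp only [reduceIte]
      push_cast
      rw [pow_succ]
      field_simp
      ring
    | false =>
      try simp only [reduceIte, Bool.false_eq_true]
      push_cast
      rw [pow_succ]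
      field_simp
      ring

theorem hasSum_defect {K : ℕ → Kind} {B : ℕ → Subgroup S3} {r : ℕ} {b : ℕ → Bool}
    (h : ∀ n < r, K n = kst b n) (hB : ∀ n < r, B n = ⊤) {c : ℝ}
    (hc : HasSum (fun m => (dataK K).defect B (m + r) / ((4 : ℕ) : ℝ) ^ (m + r + 1)) c) :
    HasSum (fun i => (dataK K).defect B i / ((4 : ℕ) : ℝ) ^ (i + 1))
      (Real.log 2 * (1 - 1 / 4 ^ r) +
        Real.log 3 * (1 - 1 / 4 ^ r - ∑ i ∈ Finset.range r, cterm 4 b i) + c) := by
  have h1 : ∑ i ∈ Finset.range r, (dataK K).defect B i / ((4 : ℕ) : ℝ) ^ (i + 1) =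
      Real.log 2 * (1 - 1 / 4 ^ r) +
        Real.log 3 * (1 - 1 / 4 ^ r - ∑ i ∈ Finset.range r, cterm 4 b i) := by
    rw [← sum_kst b r]
    apply Finset.sum_congr rfl
    intro i hi
    rw [Finset.mem_range] at hi
    rw [defect_kst (h i hi) (hB i hi)]
  rw [← h1]
  refine (hasSum_nat_add_iff' r).1 ?_
  rw [add_sub_cancel_left]
  exact hc

/-- extension data for the untwisted type -/
noncomputable def extFr (r : ℕ) (b : ℕ → Bool) (δ : Bool) (dig : ℕ → Bool) :
    (dataK (Kfr r b δ dig)).Ext := by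
  let wr : Perm (Fin 4) →* Wr 4 (Perm (Fin 4)) :=
    { toFun := fun σ => ⟨σ, fun _ => 1⟩
      map_one' := rfl
      map_mul' := fun σ τ => by
        rw [Wr.mul_def]
        simp }
  let π : ℕ → Perm (Fin 4) → S3 := fun m σ => match m with
    | 0 => lam4 σ
    | (_ + 1) => 1
  have hπ : ∀ m, π m 1 = 1 := by
    intro m
    cases m with
    | zero => exact map_one lam4
    | succ m => rfl
  have hcond : ∀ (m : ℕ) (σ : Perm (Fin 4)), condK (Kfr r b δ dig m) ⟨σ, fun _ => 1⟩ := by
    intro m σ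
    unfold Kfr kst
    split
    · split
      · exact fun _ _ => rfl
      · exact fun _ _ => rfl
    · exact ⟨fun _ _ => rfl, fun _ _ _ => rfl⟩
  refine extOfAuto wr (dataK (Kfr r b δ dig)) id (fun _ => rfl) π (fun _ => rfl) ?_ ?_
    (fun _ _ => rfl)
  · intro m σ
    show condK (Kfr r b δ dig m) ⟨σ, fun _ => π m 1⟩
    rw [hπ]
    exact hcond m σ
  · intro m σ
    show 1 = muK (Kfr r b δ dig m) ⟨σ, fun _ => π m 1⟩
    rw [hπ]
    unfold Kfr kst
    split
    · split
      · exact S3.ext rfl (by show (0 : ZMod 3) = 0 + 0 + 0 + 0; ring)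
      · rfl
    · apply S3.ext
      · show (1 : ℤˣ) = if dig (m - r) then 1 else ∏ _x : Fin 4, (1 : ℤˣ)
        simp
      · rfl

/-- Realisation of the untwisted type. -/
theorem realize_fr (r : ℕ) (b : ℕ → Bool) (δ : Bool) {x : ℝ} (hx : x ∈ cantor 4) :
    ∃ G : Subgroup (Perm (List (Fin 4))), IsContracting G ∧
      hdim (treeClosure (G : Set (Perm (List (Fin 4))))) =
        (Real.log 4 + (Real.log 3 * ∑ i ∈ Finset.range r, cterm 4 b i +
          ((if δ then Real.log 3 else 0) + x * Real.log 2) / 4 ^ r)) / Real.log 24 := by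
  obtain ⟨dig, hdig⟩ := cantor_symm (by norm_num : 2 ≤ 4) hx
  have hsum := (summable_cterm (by norm_num : 2 ≤ 4) dig).hasSum
  rw [← hdig] at hsum
  have hc : HasSum (fun m => (dataK (Kfr r b δ dig)).defect (Bfr r) (m + r) /
      ((4 : ℕ) : ℝ) ^ (m + r + 1))
      ((if δ then 0 else Real.log 3) / 4 ^ r + (1 - x) * (Real.log 2 / 4 ^ r)) := by
    have h1 := hsum.mul_right (Real.log 2 / 4 ^ r)
    have h2 : HasSum (fun m : ℕ => if m = 0 then (if δ then 0 else Real.log 3) / 4 ^ r else 0)
        ((if δ then 0 else Real.log 3) / (4 : ℝ) ^ r) := by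
      have := hasSum_ite_eq (0 : ℕ) ((if δ then 0 else Real.log 3) / (4 : ℝ) ^ r)
      exact this
    convert h2.add h1 using 1
    funext m
    rw [defect_fr]
    unfold cterm
    by_cases hm : m = 0
    · subst hm
      cases δ <;> cases dig 0 <;> simp <;> field_simp <;> ring
    · rw [if_neg hm, if_neg hm]
      cases dig m
      · simp
      · simp only [reduceIte]
        push_cast
        rw [pow_add (4 : ℝ) (m + r) 1, pow_add (4 : ℝ) m r, pow_succ]
        field_simp
        ring
  have hc2 := hasSum_defect (K := Kfr r b δ dig) (B := Bfr r) (r := r) (b := b)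
    (fun n hn => if_pos hn) (fun n hn => if_pos hn.le) hc
  obtain ⟨G, hG, hG2⟩ := (extFr r b δ dig).realize (by norm_num) (isRange_fr r b δ dig) hc2
  refine ⟨G, hG, ?_⟩
  rw [hG2]
  have hfac : ((4 : ℕ).factorial : ℝ) = 24 := by norm_num [Nat.factorial]
  rw [hfac]
  congr 1
  have h24 : Real.log 24 = 3 * Real.log 2 + Real.log 3 := by
    rw [show (24 : ℝ) = 2 ^ 3 * 3 by norm_num, Real.log_mul (by norm_num) (by norm_num),
      Real.log_pow]
    norm_num
  have h4 : Real.log 4 = 2 * Real.log 2 := by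
    rw [show (4 : ℝ) = 2 ^ 2 by norm_num, Real.log_pow]; norm_num
  rw [h24, h4]
  cases δ <;> simp only [Bool.false_eq_true, if_false, if_true] <;> ring

end Pool.Agent.SSG
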