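import Mathlib
import Pool.Agent.SSG.WrInst

set_option autoImplicit false

namespace Pool.Agent.SSG

open Equiv Filter Topology

/-- monomial automorphisms of the tetracode -/
def Gam : Subgroup (Wr 4 ℤˣ) :=
  let S : Submonoid (Wr 4 ℤˣ) :=
    { carrier := {w | isAut w.p w.f}
      mul_mem' := fun ha hb => isAut_mul ha hb
      one_mem' := isAut_one }
  { S with inv_mem' := fun ha => inv_mem_of_finite S ha }

theorem mem_Gam {w : Wr 4 ℤˣ} : w ∈ Gam ↔ isAut w.p w.f := Iff.rfl

/-- an involution over a transposition -/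
def rho : Wr 4 ℤˣ := ⟨swap 1 2, ![1, -1, -1, -1]⟩

theorem rho_mem : rho ∈ Gam := by
  rw [mem_Gam]
  unfold rho
  decide +kernel

theorem rho_sq : rho * rho = 1 := by
  rw [Wr.mul_def, Wr.one_def]
  apply Wr.ext
  · decide +kernel
  · decide +kernel

theorem lam4_rho : lam4 rho.p = ⟨-1, 0⟩ := by
  apply S3.ext
  · decide +kernel
  · decide +kernel

theorem exists_aut : ∀ σ : Perm (Fin 4), ∃ η : Fin 4 → ℤˣ, isAut σ η := by
  decide +kernel

/-- the involution as a homomorphism -/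
def rr : ℤˣ →* Gam where
  toFun s := if s = 1 then 1 else ⟨rho, rho_mem⟩
  map_one' := if_pos rfl
  map_mul' s t := by
    have h : (⟨rho, rho_mem⟩ : Gam) * ⟨rho, rho_mem⟩ = 1 := Subtype.ext rho_sq
    rcases Int.units_eq_one_or s with rfl | rfl <;> rcases Int.units_eq_one_or t with rfl | rfl
    · simp
    · simp
    · simp
    · have h1 : ¬ ((-1 : ℤˣ) = 1) := by decide
      have h2 : (-1 : ℤˣ) * -1 = 1 := by decide
      rw [if_neg h1, h2, if_pos rfl, h]

theorem lam4_rr (s : ℤˣ) : lam4 (rr s).1.p = ⟨s, 0⟩ := by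
  rcases Int.units_eq_one_or s with rfl | rfl
  · show lam4 (if (1 : ℤˣ) = 1 then (1 : Gam) else ⟨rho, rho_mem⟩).1.p = _
    rw [if_pos rfl]
    exact map_one lam4
  · show lam4 (if (-1 : ℤˣ) = 1 then (1 : Gam) else ⟨rho, rho_mem⟩).1.p = _
    have h1 : ¬ ((-1 : ℤˣ) = 1) := by decide
    rw [if_neg h1]
    exact lam4_rho

/-- the register -/
def reg {r : ℕ} (e : Fin r → ℤˣ) (y : ℤˣ) (i : ℕ) : ℤˣ := if h : i < r then e ⟨i, h⟩ else y

theorem reg_mul {r : ℕ} (e e' : Fin r → ℤˣ) (y y' : ℤˣ) (i : ℕ) :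
    reg (e * e') (y * y') i = reg e y i * reg e' y' i := by
  unfold reg
  split <;> rfl

/-- the automaton -/
def wrT (r : ℕ) : Gam × (Fin r → ℤˣ) →* Wr 4 (Gam × (Fin r → ℤˣ)) where
  toFun q := ⟨q.1.1.p, fun x => (rr (reg q.2 (q.1.1.f x) 0),
    fun i => reg q.2 (q.1.1.f x) (i.1 + 1))⟩
  map_one' := by
    apply Wr.ext
    · rfl
    · funext x
      apply Prod.ext
      · show rr (reg (1 : Fin r → ℤˣ) 1 0) = 1
        have : reg (1 : Fin r → ℤˣ) 1 0 = 1 := by unfold reg; split <;> rfl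
        rw [this, map_one]
      · funext i
        show reg (1 : Fin r → ℤˣ) 1 (i.1 + 1) = 1
        unfold reg; split <;> rfl
  map_mul' q q' := by
    apply Wr.ext
    · rfl
    · funext x
      apply Prod.ext
      · show rr (reg (q.2 * q'.2) (q.1.1.f (q'.1.1.p x) * q'.1.1.f x) 0) =
          rr (reg q.2 (q.1.1.f (q'.1.1.p x)) 0) * rr (reg q'.2 (q'.1.1.f x) 0)
        rw [reg_mul, map_mul]
      · funext i
        exact reg_mul _ _ _ _ _

/-- extension data for the twisted type -/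
noncomputable def extTw (r : ℕ) (b : ℕ → Bool) : (dataK (Ktw r b)).Ext := by
  let π : ℕ → Gam × (Fin r → ℤˣ) → S3 := fun m q => match m with
    | 0 => lam4 q.1.1.p
    | (m + 1) => if h : m < r then ⟨q.2 ⟨m, h⟩, 0⟩ else 1
  have hπ : ∀ (m : ℕ) (q : Gam × (Fin r → ℤˣ)) (x : Fin 4), π m ((wrT r q).f x) =
      if m ≤ r then ⟨reg q.2 (q.1.1.f x) m, 0⟩ else 1 := by
    intro m q x
    cases m with
    | zero =>
      rw [if_pos (Nat.zero_le r)]
      exact lam4_rr _
    | succ m =>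
      show (if h : m < r then (⟨reg q.2 (q.1.1.f x) (m + 1), 0⟩ : S3) else 1) = _
      by_cases h : m < r
      · rw [dif_pos h, if_pos (by omega)]
      · rw [dif_neg h, if_neg (by omega)]
  have hfun : ∀ (m : ℕ) (q : Gam × (Fin r → ℤˣ)), (fun x => π m ((wrT r q).f x)) =
      fun x => if m ≤ r then ⟨reg q.2 (q.1.1.f x) m, 0⟩ else 1 := fun m q => funext (hπ m q)
  have hlt : ∀ (m : ℕ) (h : m < r) (q : Gam × (Fin r → ℤˣ)),
      (fun x : Fin 4 => if m ≤ r then (⟨reg q.2 (q.1.1.f x) m, 0⟩ : S3) else 1) =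
        fun _ => ⟨q.2 ⟨m, h⟩, 0⟩ := by
    intro m h q
    funext x
    rw [if_pos h.le]
    unfold reg
    rw [dif_pos h]
  have hlift := exists_aut
  choose η hη using hlift
  refine extOfAuto (wrT r) (dataK (Ktw r b)) (fun σ => (⟨⟨σ, η σ⟩, hη σ⟩, 1)) (fun _ => rfl) π
    (fun _ => rfl) ?_ ?_ ?_
  · intro m q
    show condK (Ktw r b m) ⟨q.1.1.p, fun x => π m ((wrT r q).f x)⟩
    rw [hfun]
    unfold Ktw
    by_cases h : m < r
    · rw [if_pos h, hlt m h q]
      unfold kst
      split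
      · exact fun _ _ => rfl
      · exact fun _ _ => rfl
    · rw [if_neg h]
      by_cases h2 : m = r
      · subst h2
        rw [if_pos rfl]
        have : (fun x : Fin 4 => if m ≤ m then (⟨reg q.2 (q.1.1.f x) m, 0⟩ : S3) else 1) =
            fun x => ⟨q.1.1.f x, 0⟩ := by
          funext x
          rw [if_pos le_rfl]
          unfold reg
          rw [dif_neg h]
        rw [this]
        refine ⟨q.1.2, ?_⟩
        constructor
        · show (0 : ZMod 3) = 0 + 0
          ring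
        · show (0 : ZMod 3) = 0 - 0
          ring
      · rw [if_neg h2]
        trivial
  · intro m q
    show (if h : m < r then (⟨q.2 ⟨m, h⟩, 0⟩ : S3) else 1) =
      muK (Ktw r b m) ⟨q.1.1.p, fun x => π m ((wrT r q).f x)⟩
    rw [hfun]
    unfold Ktw
    by_cases h : m < r
    · rw [if_pos h, hlt m h q, dif_pos h]
      unfold kst
      split
      · exact S3.ext rfl (by show (0 : ZMod 3) = 0 + 0 + 0 + 0; ring)
      · rfl
    · rw [if_neg h, dif_neg h]
      split <;> rfl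
  · intro m σ
    show (if h : m < r then (⟨(1 : Fin r → ℤˣ) ⟨m, h⟩, 0⟩ : S3) else 1) = 1
    split <;> rfl

/-- Realisation of the twisted type. -/
theorem realize_tw (r : ℕ) (b : ℕ → Bool) :
    ∃ G : Subgroup (Perm (List (Fin 4))), IsContracting G ∧
      hdim (treeClosure (G : Set (Perm (List (Fin 4))))) =
        (Real.log 4 + (Real.log 3 * ∑ i ∈ Finset.range r, cterm 4 b i +
          ((2 * Real.log 3 + Real.log 2) / 4) / 4 ^ r)) / Real.log 24 := by
  have hc : HasSum (fun m => (dataK (Ktw r b)).defect (Btw r) (m + r) /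
      ((4 : ℕ) : ℝ) ^ (m + r + 1)) ((3 * Real.log 2 + 2 * Real.log 3) / 4 ^ (r + 1)) := by
    have h2 := hasSum_ite_eq (0 : ℕ) ((3 * Real.log 2 + 2 * Real.log 3) / (4 : ℝ) ^ (r + 1))
    convert h2 using 1
    funext m
    rw [defect_tw]
    by_cases hm : m = 0
    · subst hm
      simp
    · rw [if_neg hm, if_neg hm, zero_div]
  have hc2 := hasSum_defect (K := Ktw r b) (B := Btw r) (r := r) (b := b)
    (fun n hn => if_pos hn) (fun n hn => if_pos hn.le) hc
  obtain ⟨G, hG, hG2⟩ := (extTw r b).realize (by norm_num) (isRange_tw r b) hc2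
  refine ⟨G, hG, ?_⟩
  rw [hG2]
  have hfac : ((4 : ℕ).factorial : ℝ) = 24 := by norm_num [Nat.factorial]
  rw [hfac]
  congr 1
  have h24 : Real.log 24 = 3 * Real.log 2 + Real.log 3 := by
    rw [show (24 : ℝ) = 2 ^ 3 * 3 by norm_num, Real.log_mul (by norm_num) (by norm_num),
      Real.log_pow]
    norm_num
  have h4 : Real.log 4 = 2 * Real.log 2 := by
    rw [show (4 : ℝ) = 2 ^ 2 by norm_num, Real.log_pow]; norm_num
  rw [h24, h4, pow_succ]
  field_simp
  ring

end Pool.Agent.SSG
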