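import Mathlib
import Pool.Agent.SSG.WrTw
import Pool.Agent.SSG.Inst

set_option autoImplicit false

namespace Pool.Agent.SSG

open Equiv Filter Topology

/-- parity in `ZMod 2` -/
def par (σ : Perm (Fin 4)) : ZMod 2 := if Perm.sign σ = 1 then 0 else 1

theorem par_mul : ∀ σ τ : Perm (Fin 4), par (σ * τ) = par σ + par τ := by
  decide +kernel

/-- submodules for the digits -/
def inM4 : Fin 4 → (Fin 4 → ZMod 2) → Prop
  | 0, _ => True
  | 1, f => f 0 + f 1 + f 2 + f 3 = 0
  | 2, f => f 0 = f 1 ∧ f 2 = f 3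
  | 3, f => f 0 = f 1 ∧ f 1 = f 2 ∧ f 2 = f 3

instance (a : Fin 4) : DecidablePred (inM4 a) := fun f => by
  unfold inM4
  split <;> infer_instance

/-- functionals for the digits -/
def muM4 : Fin 4 → (Fin 4 → ZMod 2) → ZMod 2
  | 0, f => f 0 + f 1 + f 2 + f 3
  | 1, f => f 0 + f 1
  | 2, f => f 0 + f 2
  | 3, f => f 0

theorem inM4_add : ∀ a : Fin 4, ∀ f g, inM4 a f → inM4 a g → inM4 a (fun x => f x + g x) := by
  intro a f g hf hg
  fin_cases a
  · trivial
  · show (f 0 + g 0) + (f 1 + g 1) + (f 2 + g 2) + (f 3 + g 3) = 0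
    have hf' : f 0 + f 1 + f 2 + f 3 = 0 := hf
    have hg' : g 0 + g 1 + g 2 + g 3 = 0 := hg
    linear_combination hf' + hg'
  · have hf' : f 0 = f 1 ∧ f 2 = f 3 := hf
    have hg' : g 0 = g 1 ∧ g 2 = g 3 := hg
    exact ⟨by show f 0 + g 0 = f 1 + g 1; rw [hf'.1, hg'.1],
      by show f 2 + g 2 = f 3 + g 3; rw [hf'.2, hg'.2]⟩
  · have hf' : f 0 = f 1 ∧ f 1 = f 2 ∧ f 2 = f 3 := hf
    have hg' : g 0 = g 1 ∧ g 1 = g 2 ∧ g 2 = g 3 := hg
    exact ⟨by show f 0 + g 0 = f 1 + g 1; rw [hf'.1, hg'.1],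
      by show f 1 + g 1 = f 2 + g 2; rw [hf'.2.1, hg'.2.1],
      by show f 2 + g 2 = f 3 + g 3; rw [hf'.2.2, hg'.2.2]⟩

theorem inM4_zero : ∀ a : Fin 4, inM4 a (fun _ => 0) := by decide

theorem neg_eq_self2 : ∀ a : ZMod 2, -a = a := by decide

/-- submodules for the digits -/
def M4 (a : Fin 4) : AddSubgroup (Fin 4 → ZMod 2) where
  carrier := {f | inM4 a f}
  add_mem' := fun hf hg => inM4_add a _ _ hf hg
  zero_mem' := inM4_zero a
  neg_mem' := by
    intro f hf
    have : -f = f := by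
      funext x
      exact neg_eq_self2 _
    rw [this]; exact hf

theorem mem_M4 {a : Fin 4} {f : Fin 4 → ZMod 2} : f ∈ M4 a ↔ inM4 a f := Iff.rfl

theorem card_M4_aux : ∀ a : Fin 4, Fintype.card {f : Fin 4 → ZMod 2 // inM4 a f} = 2 ^ (4 - a.val) := by
  decide +kernel

theorem index_M4 (a : Fin 4) : (M4 a).index = Nat.card (ZMod 2) ^ (a : ℕ) := by
  have h1 := AddSubgroup.card_mul_index (M4 a)
  have h2 : Nat.card (M4 a) = 2 ^ (4 - a.val) := by
    rw [← card_M4_aux a, ← Nat.card_eq_fintype_card]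
    rfl
  rw [h2, Nat.card_fun] at h1
  have h3 : Nat.card (ZMod 2) = 2 := by simp
  rw [h3] at h1 ⊢
  have h4 : Nat.card (Fin 4) = 4 := by simp
  rw [h4] at h1
  have h5 : (2 : ℕ) ^ 4 = 2 ^ (4 - a.val) * 2 ^ a.val := by
    rw [← pow_add]
    congr 1
    have := a.2
    omega
  rw [h5] at h1
  exact Nat.eq_of_mul_eq_mul_left (by positivity) h1

/-- preserving the partition `01|23` -/
def inD (σ : Perm (Fin 4)) : Prop := (σ 0).val / 2 = (σ 1).val / 2

instance : DecidablePred inD := fun σ => by unfold inD; infer_instance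

theorem inv_aux : ∀ (a : Fin 4) (f : Fin 4 → ZMod 2) (σ : Perm (Fin 4)), (inM4 a f ∧ inD σ) →
    (inM4 a (fun x => f (σ x)) ∧ muM4 a (fun x => f (σ x)) = muM4 a f) := by
  decide +kernel

/-- membership in the three label groups -/
def inP : Fin 3 → Perm (Fin 4) → Prop
  | 0, σ => σ 2 = 2 ∧ σ 3 = 3
  | 1, σ => (σ 0).val / 2 = 0 ∧ (σ 1).val / 2 = 0
  | 2, σ => (σ 0).val / 2 = (σ 1).val / 2

instance (i : Fin 3) : DecidablePred (inP i) := fun σ => by
  unfold inP
  split <;> infer_instance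

theorem inP_mul : ∀ (i : Fin 3) (σ τ : Perm (Fin 4)), (inP i σ ∧ inP i τ) → inP i (σ * τ) := by
  decide +kernel

theorem inP_inv : ∀ (i : Fin 3) (σ : Perm (Fin 4)), inP i σ → inP i σ⁻¹ := by
  decide +kernel

theorem inP_one : ∀ i : Fin 3, inP i 1 := by decide +kernel

theorem inP_inD : ∀ (i : Fin 3) (σ : Perm (Fin 4)), inP i σ → inD σ := by
  decide +kernel

theorem inP_surj : ∀ (i : Fin 3) (a : ZMod 2), ∃ σ : Perm (Fin 4), inP i σ ∧ par σ = a := by
  decide +kernel

theorem card_inP : ∀ i : Fin 3, Fintype.card {σ : Perm (Fin 4) // inP i σ} = 2 ^ (i.val + 1) := by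
  decide +kernel

/-- the three label groups -/
def P4 (i : Fin 3) : Subgroup (Perm (Fin 4)) where
  carrier := {σ | inP i σ}
  mul_mem' := fun ha hb => inP_mul i _ _ ⟨ha, hb⟩
  one_mem' := inP_one i
  inv_mem' := fun ha => inP_inv i _ ha

theorem card_P4 (i : Fin 3) : Nat.card (P4 i) = 2 ^ (i.val + 1) := by
  rw [← card_inP i, ← Nat.card_eq_fintype_card]
  rfl

/-- data for the interval -/
def data4 (i : Fin 3) (a : ℕ → Fin 4) : PsiData 4 (ZMod 2) where
  P := P4 i
  lam := par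
  lam_mul := fun σ _ τ _ => par_mul σ τ
  lam_surj := fun x => inP_surj i x
  M := fun n => M4 (a n)
  mu := fun n => muM4 (a n)
  mu_add := by
    intro n f _ g _
    generalize a n = e
    fin_cases e
    · show (f 0 + g 0) + (f 1 + g 1) + (f 2 + g 2) + (f 3 + g 3) =
        (f 0 + f 1 + f 2 + f 3) + (g 0 + g 1 + g 2 + g 3)
      ring
    · show (f 0 + g 0) + (f 1 + g 1) = (f 0 + f 1) + (g 0 + g 1)
      ring
    · show (f 0 + g 0) + (f 2 + g 2) = (f 0 + f 2) + (g 0 + g 2)
      ring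
    · rfl
  M_inv := fun n f hf σ hσ => (inv_aux (a n) f σ ⟨hf, inP_inD i σ hσ⟩).1
  mu_inv := fun n f hf σ hσ => (inv_aux (a n) f σ ⟨hf, inP_inD i σ hσ⟩).2
  mu_surj := by
    intro n x
    have key : ∀ (e : Fin 4) (x : ZMod 2), ∃ f : Fin 4 → ZMod 2, inM4 e f ∧ muM4 e f = x := by
      decide +kernel
    exact key (a n) x

theorem realize_four_aux (i : Fin 3) {c : ℝ} (hc0 : c ∈ Set.Icc (0 : ℝ) 1) :
    ∃ G : Subgroup (Perm (List (Fin 4))), IsContracting G ∧
      hdim (treeClosure (G : Set (Perm (List (Fin 4))))) =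
        ((i.val + 1) * Real.log 2 - Real.log 2 * c) / Real.log 24 := by
  obtain ⟨a, -, ha⟩ := Real.ofDigits_SurjOn (b := 4) (by norm_num) hc0
  have hc : HasSum (fun i => (((a i : ℕ) : ℝ)) / ((4 : ℕ) : ℝ) ^ (i + 1)) c := by
    have := (Real.summable_ofDigitsTerm (digits := a)).hasSum
    unfold Real.ofDigits at ha
    rw [ha] at this
    have e : (fun i => (((a i : ℕ) : ℝ)) / ((4 : ℕ) : ℝ) ^ (i + 1)) = Real.ofDigitsTerm a := by
      funext i
      unfold Real.ofDigitsTerm
      rw [div_eq_mul_inv]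
    rw [e]
    exact this
  have hj : ∀ n, ((data4 i a).M n).index = Nat.card (ZMod 2) ^ ((a n : ℕ)) :=
    fun n => index_M4 (a n)
  have hlim := (data4 i a).tendsto_lk_grp (by norm_num) _ hj hc
  obtain ⟨G, hG, hG2⟩ := realize (by norm_num) (data4 i a).grp_selfSimilar
    (data4 i a).grp_trunc hlim
  refine ⟨G, hG, ?_⟩
  have hfac : ((4 : ℕ).factorial : ℝ) = 24 := by norm_num [Nat.factorial]
  rw [hG2, hfac]
  have hP : Nat.card (data4 i a).P = 2 ^ (i.val + 1) := card_P4 i
  have hA : Nat.card (ZMod 2) = 2 := by simp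
  rw [hP, hA]
  congr 1
  push_cast
  rw [Real.log_pow]
  push_cast
  ring

/-- For `d = 4` all of `[0, log 8 / log 24]` is realised. -/
theorem realize_four {α : ℝ} (hα : α ∈ Set.Icc (0 : ℝ) (Real.log 8 / Real.log 24)) :
    ∃ G : Subgroup (Perm (List (Fin 4))), IsContracting G ∧
      hdim (treeClosure (G : Set (Perm (List (Fin 4))))) = α := by
  have hl2 := log_two_pos
  have hlog : 0 < Real.log 24 := Real.log_pos (by norm_num)
  have h8 : Real.log 8 = 3 * Real.log 2 := by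
    rw [show (8 : ℝ) = 2 ^ 3 by norm_num, Real.log_pow]; norm_num
  set y := α * Real.log 24 / Real.log 2 with hy
  have hy0 : 0 ≤ y := div_nonneg (mul_nonneg hα.1 hlog.le) hl2.le
  have hy3 : y ≤ 3 := by
    rw [hy, div_le_iff₀ hl2, ← h8]
    rw [← le_div_iff₀ hlog]
    exact hα.2
  have hfin : ∀ (i : Fin 3), (i.val : ℝ) ≤ y → y ≤ i.val + 1 →
      ∃ G : Subgroup (Perm (List (Fin 4))), IsContracting G ∧
      hdim (treeClosure (G : Set (Perm (List (Fin 4))))) = α := by
    intro i h1 h2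
    obtain ⟨G, hG, hG2⟩ := realize_four_aux i (c := i.val + 1 - y) ⟨by linarith, by linarith⟩
    refine ⟨G, hG, ?_⟩
    rw [hG2, hy]
    field_simp
    ring
  rcases le_total y 1 with h1 | h1
  · exact hfin 0 (by simpa using hy0) (by simpa using h1)
  · rcases le_total y 2 with h2 | h2
    · refine hfin 1 (by simpa using h1) ?_
      have : ((1 : Fin 3).val : ℝ) = 1 := by norm_num
      rw [this]; linarith
    · have e : ((2 : Fin 3).val : ℝ) = 2 := by norm_num
      refine hfin 2 (by rw [e]; exact h2) ?_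
      rw [e]; linarith

/-- Realisation of the infinite type. -/
theorem realize_inf {x : ℝ} (hx : x ∈ cantor 4) :
    ∃ G : Subgroup (Perm (List (Fin 4))), IsContracting G ∧
      hdim (treeClosure (G : Set (Perm (List (Fin 4))))) =
        (Real.log 4 + Real.log 3 * x) / Real.log 24 := by
  classical
  obtain ⟨b, hb⟩ := cantor_symm (by norm_num : 2 ≤ 4) hx
  let D := cantorData (by norm_num : 0 < 4) (ZMod 3) (alternatingGroup (Fin 4)) tau
    (fun σ hσ τ hτ => by
      rw [tau_mul, Perm.mem_alternatingGroup.1 hτ, us_one, one_mul])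
    (fun a => by
      obtain ⟨σ, h1, h2⟩ := lam4_surj_aux 1 a
      exact ⟨σ, Perm.mem_alternatingGroup.2 h1, h2⟩) b
  have hA : Nat.card (ZMod 3) = 3 := by simp
  have hj : ∀ n, (D.M n).index = Nat.card (ZMod 3) ^ (if b n then 4 - 1 else 0) := by
    intro n
    show (if b n then constV 4 (ZMod 3) else ⊤ : AddSubgroup _).index = _
    split
    · exact index_constV (by norm_num) _
    · simp
  have hsum := cantorData_hasSum (by norm_num : 2 ≤ 4) b
  rw [← hb] at hsum
  have hlim := D.tendsto_lk_grp (by norm_num) _ hj hsum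
  obtain ⟨G, hG, hG2⟩ := realize (by norm_num) D.grp_selfSimilar D.grp_trunc hlim
  refine ⟨G, hG, ?_⟩
  have hfac : ((4 : ℕ).factorial : ℝ) = 24 := by norm_num [Nat.factorial]
  rw [hG2, hfac]
  have hP : Nat.card D.P = 12 := by
    show Nat.card (alternatingGroup (Fin 4)) = 12
    have := alternatingGroup.index_eq_two (α := Fin 4)
    have h2 := Subgroup.card_mul_index (alternatingGroup (Fin 4))
    rw [this, Nat.card_eq_fintype_card (α := Perm (Fin 4)), Fintype.card_perm,
      Fintype.card_fin] at h2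
    have h3 : (4 : ℕ).factorial = 24 := rfl
    omega
  rw [hP, hA]
  congr 1
  push_cast
  have h12 : Real.log 12 = Real.log 4 + Real.log 3 := by
    rw [show (12 : ℝ) = 4 * 3 by norm_num, Real.log_mul (by norm_num) (by norm_num)]
  rw [h12]
  ring

end Pool.Agent.SSG
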