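import Mathlib
import Pool.Agent.SSG.Finitary
import Pool.Agent.SSG.Parity

set_option autoImplicit false

namespace Pool.Agent.SSG

open Equiv Filter Topology

variable {d : ℕ}

/-- position of a reversed word -/
noncomputable def lef (x0 : Fin d) : List (Fin d) → ℝ
  | [] => 0
  | (x :: r) => if x = x0 then lef x0 r / d else 1 / d + ((d : ℝ) - 1) / d * lef x0 r

theorem lef_nonneg (hd : 2 ≤ d) (x0 : Fin d) (r : List (Fin d)) : 0 ≤ lef x0 r := by
  have h1 : (1 : ℝ) ≤ d := by exact_mod_cast (by omega : 1 ≤ d)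
  have h2 : 0 ≤ (d : ℝ) - 1 := by linarith
  induction r with
  | nil => exact le_rfl
  | cons x r ih =>
    simp only [lef]
    split
    · positivity
    · positivity

theorem lef_lt_one (hd : 2 ≤ d) (x0 : Fin d) (r : List (Fin d)) : lef x0 r < 1 := by
  have h1 : (2 : ℝ) ≤ d := by exact_mod_cast hd
  have h0 : (0 : ℝ) < d := by linarith
  induction r with
  | nil => exact zero_lt_one
  | cons x r ih =>
    simp only [lef]
    split
    · rw [div_lt_one h0]; linarith
    · have h2 : ((d : ℝ) - 1) / d * lef x0 r < ((d : ℝ) - 1) / d * 1 := by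
        apply mul_lt_mul_of_pos_left ih
        apply div_pos <;> linarith
      have h3 : 1 / (d : ℝ) + ((d : ℝ) - 1) / d * 1 = 1 := by field_simp; ring
      linarith

theorem lef_append (hd : 2 ≤ d) (x0 : Fin d) (r s : List (Fin d)) :
    lef x0 r ≤ lef x0 (r ++ s) := by
  have h1 : (1 : ℝ) ≤ d := by exact_mod_cast (by omega : 1 ≤ d)
  have h2 : 0 ≤ (d : ℝ) - 1 := by linarith
  induction r with
  | nil => exact lef_nonneg hd x0 _
  | cons x r ih =>
    simp only [List.cons_append, lef]
    split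
    · gcongr
    · gcongr

/-- position of a word -/
noncomputable def left (x0 : Fin d) (v : List (Fin d)) : ℝ := lef x0 v.reverse

theorem left_snoc (x0 : Fin d) (v : List (Fin d)) (x : Fin d) :
    left x0 (v ++ [x]) = if x = x0 then left x0 v / d else
      1 / d + ((d : ℝ) - 1) / d * left x0 v := by
  unfold left
  rw [List.reverse_append]
  rfl

theorem left_cons (hd : 2 ≤ d) (x0 : Fin d) (v : List (Fin d)) (x : Fin d) :
    left x0 v ≤ left x0 (x :: v) := by
  unfold left
  rw [List.reverse_cons]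
  exact lef_append hd x0 _ _

theorem left_comp {x0 : Fin d} {g : Perm (List (Fin d))} (hg : g ∈ treeAut d)
    (h : ∀ v, label g v x0 = x0) (v : List (Fin d)) : left x0 (g v) = left x0 v := by
  induction v using List.reverseRecOn with
  | nil => rw [treeAut_nil hg]
  | append_singleton v x ih =>
    rw [label_spec hg, left_snoc, left_snoc, ih]
    have : label g v x = x0 ↔ x = x0 := by
      constructor
      · intro hx
        rw [← h v] at hx
        exact (label g v).injective hx
      · rintro rfl; exact h v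
    simp only [this]

/-- The group of automorphisms whose labels fix `x0`, and are trivial at the words of position
at least `α`. -/
def thrGrp (hd : 2 ≤ d) (x0 : Fin d) (α : ℝ) : Subgroup (Perm (List (Fin d))) where
  carrier := {g | g ∈ treeAut d ∧ (∀ v, label g v x0 = x0) ∧ ∀ v, α ≤ left x0 v → label g v = 1}
  mul_mem' := by
    rintro a b ⟨ha, ha1, ha2⟩ ⟨hb, hb1, hb2⟩
    refine ⟨mul_mem ha hb, fun v => ?_, fun v hv => ?_⟩
    · rw [label_mul ha hb, Perm.mul_apply, hb1, ha1]
    · rw [label_mul ha hb, hb2 v hv, ha2 (b v) (by rw [left_comp hb hb1]; exact hv), mul_one]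
  one_mem' := ⟨one_mem _, fun v => by rw [label_one]; rfl, fun v _ => label_one v⟩
  inv_mem' := by
    rintro a ⟨ha, ha1, ha2⟩
    have h1 : ∀ v, label a⁻¹ v x0 = x0 := fun v => by
      rw [label_inv ha, Perm.inv_eq_iff_eq, ha1]
    refine ⟨inv_mem ha, h1, fun v hv => ?_⟩
    rw [label_inv ha, ha2, inv_one]
    rw [left_comp (inv_mem ha) h1]
    exact hv

theorem thrGrp_selfSimilar (hd : 2 ≤ d) (x0 : Fin d) (α : ℝ) :
    IsSelfSimilar (thrGrp hd x0 α) := by
  rw [isSelfSimilar_iff]
  refine ⟨fun g hg => hg.1, ?_⟩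
  rintro g ⟨hg, h1, h2⟩ x
  refine ⟨sec_mem _ _, fun v => by rw [label_sec]; exact h1 _, fun v hv => ?_⟩
  rw [label_sec]
  exact h2 _ (hv.trans (left_cons hd x0 v x))

theorem thrGrp_trunc (hd : 2 ≤ d) (x0 : Fin d) (α : ℝ) :
    ∀ g ∈ thrGrp hd x0 α, ∀ n, trunc g n ∈ thrGrp hd x0 α := by
  rintro g ⟨hg, h1, h2⟩ n
  refine ⟨trunc_mem _ _, fun v => ?_, fun v hv => ?_⟩
  · rw [label_trunc]; split
    · exact h1 v
    · rfl
  · rw [label_trunc]; split
    · exact h2 v hv
    · rfl

theorem mem_levK_thr (hd : 2 ≤ d) (x0 : Fin d) (α : ℝ) {n : ℕ} {k : Lev d n → Perm (Fin d)} :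
    k ∈ levK (thrGrp hd x0 α) n ↔ ∀ v, k v x0 = x0 ∧ (α ≤ left x0 v.1 → k v = 1) := by
  classical
  constructor
  · intro hk
    obtain ⟨g, hg, hs, h⟩ := mem_levK.1 hk
    intro v
    rw [← h v]
    exact ⟨hg.2.1 _, hg.2.2 _⟩
  · intro hk
    rw [mem_levK]
    refine ⟨ofLabels (fun v => if h : v.length = n then k ⟨v, h⟩ else 1),
      ⟨ofLabels_mem _, fun v => ?_, fun v hv => ?_⟩, ?_, fun v => ?_⟩
    · rw [label_ofLabels]
      split
      · exact (hk _).1
      · rfl
    · rw [label_ofLabels]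
      split
      · exact (hk _).2 hv
      · rfl
    · rw [mem_St_iff_label (ofLabels_mem _)]
      intro v hv
      rw [label_ofLabels, dif_neg (by omega)]
    · rw [label_ofLabels, dif_pos v.2]

/-- the stabiliser of a letter has order `(d-1)!` -/
theorem card_stab (hd : 1 ≤ d) (x0 : Fin d) :
    Nat.card {σ : Perm (Fin d) // σ x0 = x0} = (d - 1).factorial := by
  have h1 : Nat.card (MulAction.orbit (Perm (Fin d)) x0) *
      Nat.card (MulAction.stabilizer (Perm (Fin d)) x0) = Nat.card (Perm (Fin d)) := by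
    rw [← Nat.card_prod]
    exact Nat.card_congr (MulAction.orbitProdStabilizerEquivGroup (Perm (Fin d)) x0)
  have h2 : MulAction.orbit (Perm (Fin d)) x0 = Set.univ := by
    ext y
    simp only [Set.mem_univ, iff_true]
    exact ⟨swap x0 y, by simp⟩
  rw [h2, Nat.card_coe_set_eq, Set.ncard_univ, Nat.card_eq_fintype_card (α := Fin d),
    Fintype.card_fin, Nat.card_eq_fintype_card (α := Perm (Fin d)), Fintype.card_perm,
    Fintype.card_fin, ← Nat.mul_factorial_pred (by omega : d ≠ 0)] at h1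
  have h3 := Nat.eq_of_mul_eq_mul_left (by omega) h1
  rw [← h3]
  rfl

open scoped Classical in
/-- number of words of length `n` of position less than `α` -/
noncomputable def cnt (x0 : Fin d) (n : ℕ) (α : ℝ) : ℝ :=
  ∑ v : Lev d n, if left x0 v.1 < α then (1 : ℝ) else 0

theorem card_levK_thr (hd : 2 ≤ d) (x0 : Fin d) (α : ℝ) (n : ℕ) :
    Real.log (Nat.card (levK (thrGrp hd x0 α) n)) =
      Real.log (d - 1).factorial * cnt x0 n α := by
  classical
  have h1 : Nat.card (levK (thrGrp hd x0 α) n) =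
      ∏ v : Lev d n, Nat.card {σ : Perm (Fin d) // σ x0 = x0 ∧ (α ≤ left x0 v.1 → σ = 1)} := by
    rw [← Nat.card_pi]
    refine Nat.card_congr ⟨fun k v => ⟨k.1 v, (mem_levK_thr hd x0 α).1 k.2 v⟩,
      fun k => ⟨fun v => (k v).1, (mem_levK_thr hd x0 α).2 (fun v => (k v).2)⟩, ?_, ?_⟩
    · intro k; rfl
    · intro k; rfl
  have h2 : ∀ v : Lev d n, Nat.card {σ : Perm (Fin d) // σ x0 = x0 ∧ (α ≤ left x0 v.1 → σ = 1)} =
      if left x0 v.1 < α then (d - 1).factorial else 1 := by
    intro v
    split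
    · rename_i h
      rw [← card_stab (by omega) x0]
      apply Nat.card_congr
      apply Equiv.subtypeEquivRight
      intro σ
      constructor
      · exact fun h => h.1
      · exact fun h' => ⟨h', fun h'' => absurd h (not_lt.2 h'')⟩
    · rename_i h
      rw [Nat.card_eq_one_iff_unique]
      constructor
      · constructor
        rintro ⟨a, ha⟩ ⟨b, hb⟩
        apply Subtype.ext
        show a = b
        rw [ha.2 (not_lt.1 h), hb.2 (not_lt.1 h)]
      · exact ⟨1, rfl, fun _ => rfl⟩
  rw [h1]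
  simp only [h2]
  rw [Nat.cast_prod, Real.log_prod]
  · unfold cnt
    rw [Finset.mul_sum]
    apply Finset.sum_congr rfl
    intro v _
    split <;> simp
  · intro v _
    split
    · have := Nat.factorial_pos (d - 1)
      positivity
    · simp

theorem cnt_succ (hd : 2 ≤ d) (x0 : Fin d) (n : ℕ) (α : ℝ) :
    cnt x0 (n + 1) α = cnt x0 n (d * α) +
      ((d : ℝ) - 1) * cnt x0 n ((d * α - 1) / ((d : ℝ) - 1)) := by
  classical
  have hd0 : (0 : ℝ) < d := by positivity
  have hd1 : (0 : ℝ) < (d : ℝ) - 1 := by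
    have : (2 : ℝ) ≤ d := by exact_mod_cast hd
    linarith
  unfold cnt
  rw [← Equiv.sum_comp (snocEquiv d n), Fintype.sum_prod_type, Finset.mul_sum,
    ← Finset.sum_add_distrib]
  apply Finset.sum_congr rfl
  intro u _
  have e1 : ∀ x, (left x0 (snocEquiv d n (u, x)).1 < α) ↔
      (if x = x0 then left x0 u.1 < d * α else left x0 u.1 < (d * α - 1) / ((d : ℝ) - 1)) := by
    intro x
    rw [snocEquiv_apply]
    show left x0 (u.1 ++ [x]) < α ↔ _
    rw [left_snoc]
    by_cases hx : x = x0
    · simp only [hx, if_true]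
      rw [div_lt_iff₀ hd0, mul_comm]
    · simp only [hx, if_false]
      rw [lt_div_iff₀ hd1]
      constructor
      · intro h
        have := mul_lt_mul_of_pos_left h hd0
        have e : (d : ℝ) * (1 / d + ((d : ℝ) - 1) / d * left x0 u.1) =
          1 + left x0 u.1 * ((d : ℝ) - 1) := by field_simp
        linarith
      · intro h
        have e : 1 / (d : ℝ) + ((d : ℝ) - 1) / d * left x0 u.1 =
          (1 + left x0 u.1 * ((d : ℝ) - 1)) / d := by field_simp
        rw [e, div_lt_iff₀ hd0]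
        linarith
  simp only [e1]
  rw [← Finset.add_sum_erase _ _ (Finset.mem_univ x0)]
  congr 1
  · simp
  · rw [Finset.sum_congr rfl (g := fun _ => if left x0 u.1 < (d * α - 1) / ((d : ℝ) - 1) then
      (1 : ℝ) else 0)]
    · rw [Finset.sum_const, Finset.card_erase_of_mem (Finset.mem_univ _), Finset.card_univ,
        Fintype.card_fin, nsmul_eq_mul, Nat.cast_sub (by omega)]
      simp
    · intro x hx
      have hx' : x ≠ x0 := Finset.ne_of_mem_erase hx
      simp only [hx', if_false]

theorem cnt_of_nonpos (hd : 2 ≤ d) (x0 : Fin d) (n : ℕ) {α : ℝ} (h : α ≤ 0) :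
    cnt x0 n α = 0 := by
  unfold cnt
  apply Finset.sum_eq_zero
  intro v _
  rw [if_neg]
  have := lef_nonneg hd x0 v.1.reverse
  unfold left
  linarith

theorem cnt_of_one_le (hd : 2 ≤ d) (x0 : Fin d) (n : ℕ) {α : ℝ} (h : 1 ≤ α) :
    cnt x0 n α = (d : ℝ) ^ n := by
  unfold cnt
  rw [Finset.sum_congr rfl (g := fun _ => (1 : ℝ))]
  · rw [Finset.sum_const, Finset.card_univ, ← Nat.card_eq_fintype_card, card_lev]
    simp
  · intro v _
    rw [if_pos]
    have := lef_lt_one hd x0 v.1.reverse
    unfold left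
    linarith

theorem cnt_bound (hd : 2 ≤ d) (x0 : Fin d) (n : ℕ) : ∀ α ∈ Set.Icc (0 : ℝ) 1,
    |cnt x0 n α / (d : ℝ) ^ n - α| ≤ (((d : ℝ) - 1) / d) ^ n := by
  have hd2 : (2 : ℝ) ≤ d := by exact_mod_cast hd
  have hd0 : (0 : ℝ) < d := by linarith
  have hd1 : (0 : ℝ) < (d : ℝ) - 1 := by linarith
  induction n with
  | zero =>
    rintro α ⟨h0, h1⟩
    have h2 : cnt x0 0 α = 0 ∨ cnt x0 0 α = 1 := by
      by_cases h : α = 0
      · left; exact cnt_of_nonpos hd x0 0 (by rw [h])
      · right
        unfold cnt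
        have h3 : (∀ v : Lev d 0, left x0 v.1 = 0) := by
          rintro ⟨v, hv⟩
          rw [List.length_eq_zero_iff] at hv
          subst hv
          rfl
        simp only [h3]
        have h4 : 0 < α := lt_of_le_of_ne h0 (Ne.symm h)
        simp only [h4, if_true, Finset.sum_const, Finset.card_univ]
        rw [← Nat.card_eq_fintype_card, card_lev]
        simp
    rw [pow_zero, pow_zero, div_one, abs_le]
    rcases h2 with h2 | h2 <;> rw [h2] <;> constructor <;> linarith
  | succ n ih =>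
    rintro α ⟨h0, h1⟩
    rw [cnt_succ hd]
    by_cases hα : d * α ≤ 1
    · have h3 : (d * α - 1) / ((d : ℝ) - 1) ≤ 0 :=
        div_nonpos_of_nonpos_of_nonneg (by linarith) hd1.le
      rw [cnt_of_nonpos hd x0 n h3, mul_zero, add_zero]
      have h4 := ih (d * α) ⟨by positivity, hα⟩
      have h5 : cnt x0 n (d * α) / (d : ℝ) ^ (n + 1) - α =
          (1 / d) * (cnt x0 n (d * α) / (d : ℝ) ^ n - d * α) := by
        rw [pow_succ]; field_simp
      rw [h5, abs_mul, abs_of_pos (by positivity), pow_succ, mul_comm]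
      have h6 : 1 / (d : ℝ) ≤ ((d : ℝ) - 1) / d := by gcongr; linarith
      gcongr
    · push Not at hα
      rw [cnt_of_one_le hd x0 n hα.le]
      have h4 := ih ((d * α - 1) / ((d : ℝ) - 1)) ⟨by
        apply div_nonneg <;> linarith, by
        rw [div_le_one hd1]
        nlinarith⟩
      have h5 : ((d : ℝ) ^ n + ((d : ℝ) - 1) * cnt x0 n ((d * α - 1) / ((d : ℝ) - 1))) /
          (d : ℝ) ^ (n + 1) - α = (((d : ℝ) - 1) / d) *
          (cnt x0 n ((d * α - 1) / ((d : ℝ) - 1)) / (d : ℝ) ^ n -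
            (d * α - 1) / ((d : ℝ) - 1)) := by
        rw [pow_succ]; field_simp; ring
      rw [h5, abs_mul, abs_of_pos (by positivity), pow_succ, mul_comm (_ ^ n)]
      gcongr

/-- All of `[0, log (d-1)! / log d!]` is realised. -/
theorem realize_threshold (hd : 2 ≤ d) {τ : ℝ} (hτ : τ ∈ Set.Icc (0 : ℝ) 1) :
    ∃ G : Subgroup (Perm (List (Fin d))), IsContracting G ∧
      hdim (treeClosure (G : Set (Perm (List (Fin d))))) =
        Real.log (d - 1).factorial * τ / Real.log d.factorial := by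
  have hd2 : (2 : ℝ) ≤ d := by exact_mod_cast hd
  have hd0 : (0 : ℝ) < d := by linarith
  have hd1 : (0 : ℝ) < (d : ℝ) - 1 := by linarith
  set x0 : Fin d := ⟨0, by omega⟩
  have h1 : Tendsto (fun n => cnt x0 n τ / (d : ℝ) ^ n) atTop (𝓝 τ) := by
    rw [tendsto_iff_norm_sub_tendsto_zero]
    have h3 : ∀ n, ‖cnt x0 n τ / (d : ℝ) ^ n - τ‖ ≤ (((d : ℝ) - 1) / d) ^ n := fun n => by
      rw [Real.norm_eq_abs]
      exact cnt_bound hd x0 n τ hτ
    apply squeeze_zero (fun n => norm_nonneg _) h3
    apply tendsto_pow_atTop_nhds_zero_of_lt_one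
    · positivity
    · rw [div_lt_one hd0]; linarith
  have h2 : Tendsto (lk (thrGrp hd x0 τ)) atTop (𝓝 (Real.log (d - 1).factorial * τ)) := by
    apply (h1.const_mul (Real.log (d - 1).factorial)).congr
    intro n
    unfold lk
    rw [card_levK_thr hd]
    ring
  exact realize hd (thrGrp_selfSimilar hd x0 τ) (thrGrp_trunc hd x0 τ) h2

end Pool.Agent.SSG
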