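import Mathlib
import Pool.Agent.SSG.Upper
import Pool.Agent.SSG.Inst
import Pool.Agent.SSG.Threshold

set_option autoImplicit false

namespace Pool.Agent.SSG

open Equiv Filter Topology

/-- The set of values for the given `d`. -/
noncomputable def specSet (d : ℕ) : Set ℝ :=
  Set.Icc 0 (Real.log (thr d) / Real.log d.factorial) ∪
      {α : ℝ | ∃ c ∈ cantor d, α = 1 - Real.log 2 / Real.log d.factorial * c}

theorem cantor_two : cantor 2 = Set.Icc 0 1 := by
  apply Set.Subset.antisymm
  · rintro _ ⟨b, rfl⟩
    refine ⟨tsum_nonneg (cterm_nonneg le_rfl b), ?_⟩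
    rw [← (hasSum_bound le_rfl).tsum_eq]
    exact (summable_cterm le_rfl b).tsum_le_tsum (cterm_le le_rfl b)
      (hasSum_bound le_rfl).summable
  · intro c hc
    obtain ⟨a, -, ha⟩ := Real.ofDigits_SurjOn (b := 2) (by norm_num) hc
    refine ⟨fun n => decide (a n = 1), ?_⟩
    rw [← ha]
    unfold Real.ofDigits
    congr 1
    funext n
    unfold Real.ofDigitsTerm cterm
    have : a n = 0 ∨ a n = 1 := by
      have := (a n).2
      rcases h : a n with ⟨x, hx⟩
      interval_cases x
      · left; rfl
      · right; rfl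
    rcases this with h | h
    · simp [h]
    · have h1 : decide (a n = 1) = true := by simp [h]
      simp only [h1, if_true]
      rw [h]
      norm_num [div_eq_mul_inv]

theorem hdim_mem_Icc {d : ℕ} (hd : 2 ≤ d) {G : Subgroup (Perm (List (Fin d)))}
    (hG : IsSelfSimilar G) :
    hdim (treeClosure (G : Set (Perm (List (Fin d))))) ∈ Set.Icc (0 : ℝ) 1 := by
  have hlog : 0 < Real.log d.factorial := by
    apply Real.log_pos
    have : 2 ≤ d.factorial := by
      calc 2 = Nat.factorial 2 := rfl
        _ ≤ d.factorial := Nat.factorial_le (by omega)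
    exact_mod_cast this
  obtain ⟨L, hL0, hL1, hL2⟩ := exists_lim (by omega) hG
  rw [hdim_eq hd hG.1 hL2]
  refine ⟨div_nonneg hL0 hlog.le, ?_⟩
  rw [div_le_one hlog]
  refine (hL1 0).trans ?_
  unfold lk
  rw [pow_zero, div_one]
  apply Real.log_le_log
  · exact_mod_cast card_levK_pos G 0
  · have h1 : Nat.card (levK G 0) ≤ Nat.card (levK (treeAut d) 0) := by
      rw [levK_treeAut]
      exact Subgroup.card_le_of_le le_top
    rw [card_levK_treeAut, pow_zero, pow_one] at h1
    exact_mod_cast h1

theorem upper_all {d : ℕ} (hd : 2 ≤ d) (hd4 : d ≠ 4) {G : Subgroup (Perm (List (Fin d)))}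
    (hG : IsSelfSimilar G) :
    hdim (treeClosure (G : Set (Perm (List (Fin d))))) ∈ specSet d := by
  by_cases h2 : d = 2
  · subst h2
    have := hdim_mem_Icc hd hG
    right
    refine ⟨1 - hdim (treeClosure (G : Set (Perm (List (Fin 2))))), ?_, ?_⟩
    · rw [cantor_two]
      exact ⟨by linarith [this.2], by linarith [this.1]⟩
    · have h3 : Nat.factorial 2 = 2 := rfl
      have hlog2 : Real.log 2 ≠ 0 := (Real.log_pos (by norm_num)).ne'
      rw [h3]
      push_cast
      rw [div_self hlog2]
      ring
  · exact upper (by omega) hG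

theorem lower_all {d : ℕ} (hd : 2 ≤ d) {α : ℝ} (hα : α ∈ specSet d) :
    ∃ G : Subgroup (Perm (List (Fin d))), IsContracting G ∧
      hdim (treeClosure (G : Set (Perm (List (Fin d))))) = α := by
  have hlog : 0 < Real.log d.factorial := by
    apply Real.log_pos
    have : 2 ≤ d.factorial := by
      calc 2 = Nat.factorial 2 := rfl
        _ ≤ d.factorial := Nat.factorial_le (by omega)
    exact_mod_cast this
  rcases hα with hα | ⟨c, hc, rfl⟩
  · by_cases h3 : d = 3
    · subst h3
      have hlog3 : 0 < Real.log 3 := Real.log_pos (by norm_num)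
      have h4 : thr 3 = 3 := rfl
      rw [h4] at hα
      push_cast at hα
      obtain ⟨G, hG, hG2⟩ := realize_three (τ := α * Real.log (Nat.factorial 3) / Real.log 3)
        ⟨div_nonneg (mul_nonneg hα.1 hlog.le) hlog3.le, by
          rw [div_le_one hlog3, ← le_div_iff₀ hlog]
          exact hα.2⟩
      refine ⟨G, hG, ?_⟩
      rw [hG2]
      field_simp
    · have h4 : thr d = (d - 1).factorial := by unfold thr; rw [if_neg h3]
      rw [h4] at hα
      by_cases h2 : d = 2
      · subst h2
        have h5 : α = 0 := by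
          have h6 : Real.log ((2 - 1).factorial : ℕ) = 0 := by simp
          rw [h6, zero_div] at hα
          exact le_antisymm hα.2 hα.1
        obtain ⟨G, hG, hG2⟩ := realize_threshold hd (τ := 0) ⟨le_rfl, zero_le_one⟩
        refine ⟨G, hG, ?_⟩
        rw [hG2, h5]
        simp
      · have hlog' : 0 < Real.log (d - 1).factorial := by
          apply Real.log_pos
          have : 2 ≤ (d - 1).factorial := by
            calc 2 = Nat.factorial 2 := rfl
              _ ≤ (d - 1).factorial := Nat.factorial_le (by omega)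
          exact_mod_cast this
        obtain ⟨G, hG, hG2⟩ := realize_threshold hd
          (τ := α * Real.log d.factorial / Real.log (d - 1).factorial)
          ⟨div_nonneg (mul_nonneg hα.1 hlog.le) hlog'.le, by
            rw [div_le_one hlog', ← le_div_iff₀ hlog]
            exact hα.2⟩
        refine ⟨G, hG, ?_⟩
        rw [hG2]
        field_simp
  · exact realize_cantor hd hc

/-- Self-similar groups, `d ≠ 4`. -/
theorem main_selfSimilar {d : ℕ} (hd : 2 ≤ d) (hd4 : d ≠ 4) :
    {α : ℝ | ∃ G : Subgroup (Perm (List (Fin d))), IsSelfSimilar G ∧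
      hdim (treeClosure (G : Set (Perm (List (Fin d))))) = α} = specSet d := by
  apply Set.Subset.antisymm
  · rintro _ ⟨G, hG, rfl⟩
    exact upper_all hd hd4 hG
  · intro α hα
    obtain ⟨G, hG, hG2⟩ := lower_all hd hα
    exact ⟨G, hG.1, hG2⟩

/-- Contracting groups, `d ≠ 4`. -/
theorem main_contracting {d : ℕ} (hd : 2 ≤ d) (hd4 : d ≠ 4) :
    {α : ℝ | ∃ G : Subgroup (Perm (List (Fin d))), IsContracting G ∧
      hdim (treeClosure (G : Set (Perm (List (Fin d))))) = α} = specSet d := by
  apply Set.Subset.antisymm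
  · rintro _ ⟨G, hG, rfl⟩
    exact upper_all hd hd4 hG.1
  · intro α hα
    exact lower_all hd hα

end Pool.Agent.SSG
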