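import Mathlib
import Pool.Agent.SSG.FourLower
import Pool.Agent.SSG.Main

set_option autoImplicit false

namespace Pool.Agent.SSG

open Equiv Filter Topology

/-- prepend a digit -/
def consb (b0 : Bool) (b : ℕ → Bool) : ℕ → Bool := fun n => Nat.casesOn n b0 b

theorem sum_consb (b0 : Bool) (b : ℕ → Bool) (r : ℕ) :
    ∑ i ∈ Finset.range (r + 1), cterm 4 (consb b0 b) i =
      (if b0 then 3 else 0) / 4 + (∑ i ∈ Finset.range r, cterm 4 b i) / 4 := by
  rw [Finset.sum_range_succ', add_comm]
  congr 1
  · unfold cterm consb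
    cases b0
    · simp
    · norm_num
  · rw [Finset.sum_div]
    apply Finset.sum_congr rfl
    intro i _
    unfold cterm consb
    simp only
    rw [pow_succ ((4 : ℕ) : ℝ) (i + 1), div_div]
    norm_num

/-- unfolding the approximations -/
theorem EE_cases (k : ℕ) : ∀ e ∈ EE k,
    (∃ (r : ℕ) (b : ℕ → Bool), ∃ e0 ∈ E0,
      e = Real.log 3 * ∑ i ∈ Finset.range r, cterm 4 b i + e0 / 4 ^ r) ∨
    (∃ (b : ℕ → Bool), ∃ z ∈ Set.Icc 0 (Real.log 6),
      e = Real.log 3 * ∑ i ∈ Finset.range k, cterm 4 b i + z / 4 ^ k) := by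
  induction k with
  | zero =>
    intro e he
    right
    exact ⟨fun _ => false, e, he, by simp⟩
  | succ k ih =>
    rintro e ((he | ⟨z, hz, rfl⟩) | ⟨z, hz, rfl⟩)
    · left
      exact ⟨0, fun _ => false, e, he, by simp⟩
    · rcases ih z hz with ⟨r, b, e0, he0, h⟩ | ⟨b, y, hy, h⟩
      · left
        refine ⟨r + 1, consb false b, e0, he0, ?_⟩
        rw [sum_consb, h, pow_succ]
        simp only [Bool.false_eq_true, if_false]
        field_simp
        ring
      · right
        refine ⟨consb false b, y, hy, ?_⟩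
        rw [sum_consb, h, pow_succ]
        simp only [Bool.false_eq_true, if_false]
        field_simp
        ring
    · rcases ih z hz with ⟨r, b, e0, he0, h⟩ | ⟨b, y, hy, h⟩
      · left
        refine ⟨r + 1, consb true b, e0, he0, ?_⟩
        rw [sum_consb, h, pow_succ]
        simp only [if_true]
        field_simp
        ring
      · right
        refine ⟨consb true b, y, hy, ?_⟩
        rw [sum_consb, h, pow_succ]
        simp only [if_true]
        field_simp
        ring

theorem sum_mem_cantor (b : ℕ → Bool) (k : ℕ) : ∑ i ∈ Finset.range k, cterm 4 b i ∈ cantor 4 := by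
  refine ⟨fun n => if n < k then b n else false, ?_⟩
  rw [tsum_eq_sum (s := Finset.range k)]
  · apply Finset.sum_congr rfl
    intro i hi
    rw [Finset.mem_range] at hi
    unfold cterm
    simp [hi]
  · intro i hi
    rw [Finset.mem_range] at hi
    unfold cterm
    simp [hi]

/-- Description of the set of excesses. -/
theorem excess_cases {e : ℝ} (he : ∀ k, e ∈ EE k) :
    (∃ x ∈ cantor 4, e = Real.log 3 * x) ∨
    (∃ (r : ℕ) (b : ℕ → Bool), ∃ e0 ∈ E0,
      e = Real.log 3 * ∑ i ∈ Finset.range r, cterm 4 b i + e0 / 4 ^ r) := by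
  by_cases h : ∃ (r : ℕ) (b : ℕ → Bool), ∃ e0 ∈ E0,
      e = Real.log 3 * ∑ i ∈ Finset.range r, cterm 4 b i + e0 / 4 ^ r
  · exact Or.inr h
  left
  have h3 := log_three_pos
  have hk : ∀ k, ∃ (b : ℕ → Bool), ∃ z ∈ Set.Icc 0 (Real.log 6),
      e = Real.log 3 * ∑ i ∈ Finset.range k, cterm 4 b i + z / 4 ^ k := fun k =>
    (EE_cases k e (he k)).resolve_left h
  choose b z hz hb using hk
  have hlim : Tendsto (fun k => ∑ i ∈ Finset.range k, cterm 4 (b k) i) atTop
      (𝓝 (e / Real.log 3)) := by
    have h1 : ∀ k, ∑ i ∈ Finset.range k, cterm 4 (b k) i =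
        e / Real.log 3 - z k / 4 ^ k / Real.log 3 := by
      intro k
      have := hb k
      field_simp
      rw [this]
      field_simp
      ring
    have h2 : Tendsto (fun k => z k / (4 : ℝ) ^ k / Real.log 3) atTop (𝓝 0) := by
      have h4 : Tendsto (fun k : ℕ => Real.log 6 / Real.log 3 * ((1 / 4 : ℝ)) ^ k) atTop (𝓝 0) := by
        have := (tendsto_pow_atTop_nhds_zero_of_lt_one (r := (1 / 4 : ℝ)) (by norm_num)
          (by norm_num)).const_mul (Real.log 6 / Real.log 3)
        rw [mul_zero] at this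
        exact this
      refine squeeze_zero (fun k => ?_) (fun k => ?_) h4
      · exact div_nonneg (div_nonneg (hz k).1 (by positivity)) h3.le
      · have h5 : z k / (4 : ℝ) ^ k / Real.log 3 = z k / Real.log 3 * (1 / 4) ^ k := by
          rw [one_div, inv_pow]; field_simp
        rw [h5]
        have := (hz k).2
        gcongr
    have h6 := h2.const_sub (e / Real.log 3)
    rw [sub_zero] at h6
    exact h6.congr (fun k => (h1 k).symm)
  refine ⟨e / Real.log 3, (cantor_closed (by norm_num)).mem_of_tendsto hlim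
    (Eventually.of_forall (fun k => sum_mem_cantor _ _)), ?_⟩
  field_simp

/-- The set of values for `d = 4`. -/
def specFour : Set ℝ :=
  Set.Icc 0 (Real.log 8 / Real.log 24) ∪
    {α : ℝ | ∃ e, ((∃ x ∈ cantor 4, e = Real.log 3 * x) ∨
      (∃ (r : ℕ) (b : ℕ → Bool), ∃ e0 ∈ E0,
        e = Real.log 3 * ∑ i ∈ Finset.range r, cterm 4 b i + e0 / 4 ^ r)) ∧
      α = (Real.log 4 + e) / Real.log 24}

theorem upper_four {G : Subgroup (Perm (List (Fin 4)))} (hG : IsSelfSimilar G) :
    hdim (treeClosure (G : Set (Perm (List (Fin 4))))) ∈ specFour := by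
  rcases upper4 hG with h | ⟨e, he, h⟩
  · exact Or.inl h
  · exact Or.inr ⟨e, excess_cases he, h⟩

theorem lower_four {α : ℝ} (hα : α ∈ specFour) :
    ∃ G : Subgroup (Perm (List (Fin 4))), IsContracting G ∧
      hdim (treeClosure (G : Set (Perm (List (Fin 4))))) = α := by
  rcases hα with hα | ⟨e, (⟨x, hx, rfl⟩ | ⟨r, b, e0, he0, rfl⟩), rfl⟩
  · exact realize_four hα
  · exact realize_inf hx
  · rcases he0 with (⟨x, hx, rfl⟩ | ⟨x, hx, rfl⟩) | he0
    · obtain ⟨G, hG, hG2⟩ := realize_fr r b false hx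
      refine ⟨G, hG, ?_⟩
      rw [hG2]
      simp
    · obtain ⟨G, hG, hG2⟩ := realize_fr r b true hx
      refine ⟨G, hG, ?_⟩
      rw [hG2]
      simp
    · rw [Set.mem_singleton_iff] at he0
      subst he0
      exact realize_tw r b

/-- Self-similar groups, `d = 4`. -/
theorem four_selfSimilar :
    {α : ℝ | ∃ G : Subgroup (Perm (List (Fin 4))), IsSelfSimilar G ∧
      hdim (treeClosure (G : Set (Perm (List (Fin 4))))) = α} = specFour := by
  apply Set.Subset.antisymm
  · rintro _ ⟨G, hG, rfl⟩
    exact upper_four hG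
  · intro α hα
    obtain ⟨G, hG, hG2⟩ := lower_four hα
    exact ⟨G, hG.1, hG2⟩

/-- Contracting groups, `d = 4`. -/
theorem four_contracting :
    {α : ℝ | ∃ G : Subgroup (Perm (List (Fin 4))), IsContracting G ∧
      hdim (treeClosure (G : Set (Perm (List (Fin 4))))) = α} = specFour := by
  apply Set.Subset.antisymm
  · rintro _ ⟨G, hG, rfl⟩
    exact upper_four hG.1
  · intro α hα
    exact lower_four hα

end Pool.Agent.SSG
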